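import Pool.Agent.TDA.Stmts

/-!
# BAL: balanced decompositions
-/

set_option autoImplicit false
set_option linter.unusedSectionVars false

noncomputable section

namespace Pool.Agent.TDA

open scoped Classical
open MvPolynomial

universe u

namespace BAL

theorem step (k : ℕ) (hk : k ≠ 0) (n : ℤ) :
    ∑ i ∈ Finset.range k, (n + 1 + (i : ℤ)) / (k : ℤ) =
      ∑ i ∈ Finset.range k, (n + (i : ℤ)) / (k : ℤ) + 1 := by
  have hk' : (k : ℤ) ≠ 0 := by exact_mod_cast hk
  have h1 := Finset.sum_range_succ' (fun i : ℕ => (n + (i : ℤ)) / (k : ℤ)) k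
  have h2 := Finset.sum_range_succ (fun i : ℕ => (n + (i : ℤ)) / (k : ℤ)) k
  rw [h2] at h1
  have h3 : (n + ((k : ℕ) : ℤ)) / (k : ℤ) = n / (k : ℤ) + 1 := Int.add_ediv_of_dvd_right
    (dvd_refl _) |>.trans (by rw [Int.ediv_self hk'])
  simp only [h3, Nat.cast_zero, add_zero] at h1
  have h4 : ∑ i ∈ Finset.range k, (n + ((i + 1 : ℕ) : ℤ)) / (k : ℤ) =
      ∑ i ∈ Finset.range k, (n + 1 + (i : ℤ)) / (k : ℤ) := by
    apply Finset.sum_congr rfl
    intro i _
    congr 1
    push_cast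
    ring
  rw [h4] at h1
  linarith

theorem sum_eq (k : ℕ) (hk : k ≠ 0) (n : ℤ) :
    ∑ i ∈ Finset.range k, (n + (i : ℤ)) / (k : ℤ) = n := by
  induction n using Int.induction_on with
  | zero =>
    apply Finset.sum_eq_zero
    intro i hi
    rw [zero_add]
    apply Int.ediv_eq_zero_of_lt (by positivity)
    exact_mod_cast Finset.mem_range.mp hi
  | succ n ih => rw [step k hk, ih]
  | pred n ih =>
    have h := step k hk (-(n : ℤ) - 1)
    rw [sub_add_cancel, ih] at h
    linarith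

end BAL

theorem bal_proof : Stmt_Bal := by
  intro g k hk s
  have hk' : (k : ℤ) ≠ 0 := by exact_mod_cast hk
  have hkp : (0 : ℤ) < k := by positivity
  have hkr : (0 : ℝ) < k := by positivity
  refine ⟨?_, ?_, ?_⟩
  · funext j
    rw [Finset.sum_apply]
    unfold bal
    have := BAL.sum_eq k hk (s j)
    rw [Finset.sum_range] at this
    exact this
  · intro i
    rw [pi_norm_le_iff_of_nonneg zero_le_one]
    intro j
    simp only [Pi.sub_apply, Pi.smul_apply, smul_eq_mul, rv, bal]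
    have hd := Int.emod_add_mul_ediv (s j + ((i : ℕ) : ℤ)) (k : ℤ)
    have h1 := Int.emod_nonneg (s j + ((i : ℕ) : ℤ)) hk'
    have h2 := Int.emod_lt_of_pos (s j + ((i : ℕ) : ℤ)) hkp
    set e := (s j + ((i : ℕ) : ℤ)) / (k : ℤ) with he
    set m := (s j + ((i : ℕ) : ℤ)) % (k : ℤ) with hm
    have hi0 : (0 : ℝ) ≤ ((i : ℕ) : ℝ) := by positivity
    have hik : ((i : ℕ) : ℝ) < k := by exact_mod_cast i.2
    have hd' : (m : ℝ) + (k : ℝ) * (e : ℝ) = (s j : ℝ) + ((i : ℕ) : ℝ) := by exact_mod_cast hd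
    have h1' : (0 : ℝ) ≤ (m : ℝ) := by exact_mod_cast h1
    have h2' : (m : ℝ) < (k : ℝ) := by exact_mod_cast h2
    have h3 : (e : ℝ) - (k : ℝ)⁻¹ * (s j : ℝ) = (((i : ℕ) : ℝ) - m) / k := by
      field_simp
      linarith
    rw [h3, Real.norm_eq_abs, abs_div, abs_of_pos hkr, div_le_one hkr, abs_le]
    constructor <;> linarith
  · intro N v i
    funext j
    simp only [bal, Pi.add_apply, Pi.smul_apply, smul_eq_mul]
    have h1 : s j + ((k * N : ℕ) : ℤ) * v j + ((i : ℕ) : ℤ) =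
        (s j + ((i : ℕ) : ℤ)) + (k : ℤ) * ((N : ℤ) * v j) := by
      push_cast
      ring
    rw [h1, Int.add_mul_ediv_left _ _ hk']

end Pool.Agent.TDA
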