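import Pool.Agent.TDA.Stmts

/-!
# Module BOX: approximate solutions of the quadratic relations are close to theta points
-/

set_option autoImplicit false
set_option linter.unusedSectionVars false

noncomputable section

namespace Pool.Agent.TDA

open scoped Classical
open MvPolynomial

universe u

namespace BOX

variable {T : Type u} [NormedField T] {g : ℕ}

theorem KK_eq {t : Fin g → Fin g → T} (ht : ∀ i j, t i j ≠ 0) {y : Fin g → T}
    (hy : ∀ i, y i ≠ 0) (a₀ v : Fin g → ℤ) :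
    KK t y a₀ v = kap t v * bet t a₀ v * mon y v := by
  unfold KK
  rw [kap_add ht, mon_add hy]
  have h1 := kap_ne ht a₀
  have h2 := mon_ne hy a₀
  field_simp

theorem KK_ne {t : Fin g → Fin g → T} (ht : ∀ i j, t i j ≠ 0) {y : Fin g → T}
    (hy : ∀ i, y i ≠ 0) (a₀ v : Fin g → ℤ) : KK t y a₀ v ≠ 0 := by
  unfold KK
  exact div_ne_zero (mul_ne_zero (kap_ne ht _) (mon_ne hy _))
    (mul_ne_zero (kap_ne ht _) (mon_ne hy _))

theorem KK_zero {t : Fin g → Fin g → T} (ht : ∀ i j, t i j ≠ 0) {y : Fin g → T}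
    (hy : ∀ i, y i ≠ 0) (a₀ : Fin g → ℤ) : KK t y a₀ 0 = 1 := by
  rw [KK_eq ht hy]
  simp

theorem EE_two (r t : Fin g → Fin g → T) (c d : Fin g → ℤ) :
    EE r t ![c, d] = kap t c * kap t d / kap r (c + d) := by
  simp [EE, Fin.sum_univ_two, Fin.prod_univ_two]

theorem EE_diag {r t : Fin g → Fin g → T} (hr : Rt 2 r t) (ht : ∀ i j, t i j ≠ 0)
    (a : Fin g → ℤ) : EE r t ![a, a] = 1 := by
  have hr' := hr.ne two_ne_zero ht
  rw [EE_two, hr.kap, ← two_smul ℤ a, kap_smul]
  have h := kap_ne hr' a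
  rw [div_eq_one_iff_eq (zpow_ne_zero _ h)]
  have h2 : ((2 : ℤ) * 2) = ((4 : ℕ) : ℤ) := by norm_num
  rw [h2, zpow_natCast]
  ring

/-- The structure constants and the normalised terms. -/
theorem EE_KK {r t : Fin g → Fin g → T} (ht : ∀ i j, t i j ≠ 0) {y : Fin g → T}
    (hy : ∀ i, y i ≠ 0) (a₀ v e : Fin g → ℤ) :
    EE r t ![a₀ + (v + e), a₀] * KK t y a₀ e * KK t y a₀ v =
      EE r t ![a₀ + v, a₀ + e] * KK t y a₀ (v + e) := by
  rw [EE_two, EE_two]
  unfold KK
  have h1 : a₀ + (v + e) + a₀ = a₀ + v + (a₀ + e) := by abel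
  rw [h1]
  have h2 := kap_ne ht a₀
  have h3 := mon_ne hy a₀
  have h4 : mon y (a₀ + e) * mon y (a₀ + v) = mon y a₀ * mon y (a₀ + (v + e)) := by
    rw [← mon_add hy, ← mon_add hy]
    congr 1
    abel
  generalize kap r (a₀ + v + (a₀ + e)) = R
  generalize hA : mon y (a₀ + e) = A at h4 ⊢
  generalize hB : mon y (a₀ + v) = B at h4 ⊢
  generalize hC : mon y (a₀ + (v + e)) = C at h4 ⊢
  calc kap t (a₀ + (v + e)) * kap t a₀ / R * (kap t (a₀ + e) * A / (kap t a₀ * mon y a₀)) *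
        (kap t (a₀ + v) * B / (kap t a₀ * mon y a₀))
      = kap t (a₀ + (v + e)) * kap t a₀ / R * (kap t (a₀ + e) / (kap t a₀ * mon y a₀)) *
        (kap t (a₀ + v) / (kap t a₀ * mon y a₀)) * (A * B) := by ring
    _ = kap t (a₀ + v) * kap t (a₀ + e) / R *
        (kap t (a₀ + (v + e)) * C / (kap t a₀ * mon y a₀)) := by
      rw [h4]
      field_simp

/-- Ultrametric comparison. -/
theorem norm_eq_of_close [IsUltrametricDist T] {x y : T} {e : ℝ} (h : ‖x - y‖ ≤ e)
    (h' : e < ‖y‖) : ‖x‖ = ‖y‖ := by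
  apply le_antisymm
  · have h1 : ‖x‖ ≤ max ‖x - y‖ ‖y‖ := by
      have := IsUltrametricDist.norm_add_le_max (x - y) y
      rwa [sub_add_cancel] at this
    exact h1.trans (max_le (h.trans h'.le) le_rfl)
  · by_contra hlt
    push Not at hlt
    have h1 : ‖y‖ ≤ max ‖y - x‖ ‖x‖ := by
      have := IsUltrametricDist.norm_add_le_max (y - x) x
      rwa [sub_add_cancel] at this
    rw [norm_sub_rev] at h1
    have h2 : max ‖x - y‖ ‖x‖ < ‖y‖ := max_lt (h.trans_lt h') hlt
    linarith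

theorem norm_sub_le' [IsUltrametricDist T] {x y z : T} {e : ℝ} (h : ‖x - y‖ ≤ e)
    (h' : ‖y - z‖ ≤ e) : ‖x - z‖ ≤ e := by
  have := IsUltrametricDist.norm_add_le_max (x - y) (y - z)
  rw [sub_add_sub_cancel] at this
  exact this.trans (max_le h h')

/-- Induction in a box. -/
theorem box_induction (r₀ : ℝ) (P : (Fin g → ℤ) → Prop) (h0 : P 0)
    (hs : ∀ (v : Fin g → ℤ) (i : Fin g), ‖rv v‖ ≤ r₀ → ‖rv (v + Pi.single i 1)‖ ≤ r₀ →
      (P v ↔ P (v + Pi.single i 1))) :
    ∀ v : Fin g → ℤ, ‖rv v‖ ≤ r₀ → P v := by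
  have key : ∀ (n : ℕ) (v : Fin g → ℤ), ∑ i, (v i).natAbs = n → ‖rv v‖ ≤ r₀ → P v := by
    intro n
    induction n using Nat.strong_induction_on with
    | _ n ih =>
      intro v hn hv
      by_cases hv0 : v = 0
      · rw [hv0]; exact h0
      obtain ⟨i, hi⟩ := Function.ne_iff.mp hv0
      have hi' : v i ≠ 0 := hi
      have hr₀ : 0 ≤ r₀ := le_trans (norm_nonneg _) hv
      have hcomp : ∀ j, |(v j : ℝ)| ≤ r₀ := by
        intro j
        have := norm_le_pi_norm (rv v) j
        exact le_trans this hv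
      rcases lt_or_gt_of_ne hi' with hneg | hpos
      · have hb : ‖rv (v + Pi.single i 1)‖ ≤ r₀ := by
          rw [pi_norm_le_iff_of_nonneg hr₀]
          intro j
          rw [rv, Real.norm_eq_abs, Pi.add_apply]
          by_cases hj : j = i
          · subst hj
            rw [Pi.single_eq_same]
            have h1 := hcomp j
            have h2 : (v j : ℝ) ≤ -1 := by exact_mod_cast (by omega : v j ≤ -1)
            push_cast
            rw [abs_le] at h1 ⊢
            constructor <;> linarith [h1.1, h1.2]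
          · rw [Pi.single_eq_of_ne hj, add_zero]
            exact hcomp j
        have hlt : ∑ j, ((v + Pi.single i 1 : Fin g → ℤ) j).natAbs < n := by
          rw [← hn]
          apply Finset.sum_lt_sum
          · intro j _
            by_cases hj : j = i
            · subst hj
              rw [Pi.add_apply, Pi.single_eq_same]
              omega
            · rw [Pi.add_apply, Pi.single_eq_of_ne hj, add_zero]
          · refine ⟨i, Finset.mem_univ _, ?_⟩
            rw [Pi.add_apply, Pi.single_eq_same]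
            omega
        exact (hs v i hv hb).mpr (ih _ hlt _ rfl hb)
      · have hb : ‖rv (v - Pi.single i 1)‖ ≤ r₀ := by
          rw [pi_norm_le_iff_of_nonneg hr₀]
          intro j
          rw [rv, Real.norm_eq_abs, Pi.sub_apply]
          by_cases hj : j = i
          · subst hj
            rw [Pi.single_eq_same]
            have h1 := hcomp j
            have h2 : (1 : ℝ) ≤ (v j : ℝ) := by exact_mod_cast (by omega : 1 ≤ v j)
            push_cast
            rw [abs_le] at h1 ⊢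
            constructor <;> linarith [h1.1, h1.2]
          · rw [Pi.single_eq_of_ne hj, sub_zero]
            exact hcomp j
        have hlt : ∑ j, ((v - Pi.single i 1 : Fin g → ℤ) j).natAbs < n := by
          rw [← hn]
          apply Finset.sum_lt_sum
          · intro j _
            by_cases hj : j = i
            · subst hj
              rw [Pi.sub_apply, Pi.single_eq_same]
              omega
            · rw [Pi.sub_apply, Pi.single_eq_of_ne hj, sub_zero]
          · refine ⟨i, Finset.mem_univ _, ?_⟩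
            rw [Pi.sub_apply, Pi.single_eq_same]
            omega
        have hvv : v - Pi.single i 1 + Pi.single i 1 = v := sub_add_cancel _ _
        have h1 := (hs (v - Pi.single i 1) i hb (by rw [hvv]; exact hv)).mp (ih _ hlt _ rfl hb)
        rwa [hvv] at h1
  intro v hv
  exact key _ v rfl hv

theorem norm_rv_single (i : Fin g) : ‖rv (Pi.single i 1 : Fin g → ℤ)‖ ≤ 1 := by
  rw [pi_norm_le_iff_of_nonneg zero_le_one]
  intro j
  rw [rv, Real.norm_eq_abs]
  by_cases hj : j = i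
  · subst hj
    simp
  · rw [Pi.single_eq_of_ne hj]
    simp

/-- Lower bound for `-log` of the normalised terms. -/
theorem norm_KK_le {t : Fin g → Fin g → T} {lam Lam : ℝ} (H : TP t lam Lam) {y : Fin g → T}
    (hy : ∀ i, y i ≠ 0) (a₀ : Fin g → ℤ)
    (h1 : ∀ i, ‖KK t y a₀ (Pi.single i 1)‖ ≤ 1) (h2 : ∀ i, ‖KK t y a₀ (-Pi.single i 1)‖ ≤ 1)
    (v : Fin g → ℤ) :
    ‖KK t y a₀ v‖ ≤ Real.exp (-(lam * ‖rv v‖ ^ 2 - g * Lam * ‖rv v‖)) := by
  set om : Fin g → T := fun i => bet t (Pi.single i 1) a₀ * y i with hom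
  have hom0 : ∀ i, om i ≠ 0 := fun i => mul_ne_zero (bet_ne H.ne _ _) (hy i)
  have hK : ∀ w, KK t y a₀ w = kap t w * mon om w := by
    intro w
    rw [KK_eq H.ne hy, bet_comm, bet_eq_mon H.ne, mul_assoc, ← mon_mul]
  have hN : ∀ w, ‖KK t y a₀ w‖ =
      Real.exp (-QF (qf t) (rv w) + ∑ i, (w i : ℝ) * Real.log ‖om i‖) := by
    intro w
    rw [hK, norm_mul, norm_kap H.ne, norm_mon hom0, ← Real.exp_add]
  have hLam : 0 ≤ Lam := H.pos.le.trans H.le
  have hQ : ∀ i, QF (qf t) (rv (Pi.single i 1 : Fin g → ℤ)) ≤ Lam := by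
    intro i
    refine (H.hi _).trans ?_
    have h3 : ‖rv (Pi.single i 1 : Fin g → ℤ)‖ ^ 2 ≤ 1 := by
      have := norm_rv_single i
      exact pow_le_one₀ (norm_nonneg _) this
    nlinarith
  have hl : ∀ i, |Real.log ‖om i‖| ≤ Lam := by
    intro i
    have e1 := h1 i
    have e2 := h2 i
    rw [hN, Real.exp_le_one_iff] at e1 e2
    have s1 : ∑ j, (((Pi.single i 1 : Fin g → ℤ) j : ℤ) : ℝ) * Real.log ‖om j‖ =
        Real.log ‖om i‖ := by
      rw [Finset.sum_eq_single i]
      · simp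
      · intro j _ hj
        rw [Pi.single_eq_of_ne hj]
        simp
      · intro h
        exact absurd (Finset.mem_univ _) h
    have s2 : ∑ j, (((-Pi.single i 1 : Fin g → ℤ) j : ℤ) : ℝ) * Real.log ‖om j‖ =
        -Real.log ‖om i‖ := by
      rw [← s1, ← Finset.sum_neg_distrib]
      apply Finset.sum_congr rfl
      intro j _
      rw [Pi.neg_apply]
      push_cast
      ring
    rw [s1] at e1
    rw [s2, rv_neg, QF_neg] at e2
    have := hQ i
    rw [abs_le]
    constructor <;> linarith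
  rw [hN]
  apply Real.exp_le_exp.mpr
  have hlo := H.lo (rv v)
  have hs : ∑ i, (v i : ℝ) * Real.log ‖om i‖ ≤ g * Lam * ‖rv v‖ := by
    have : ∀ i ∈ Finset.univ, (v i : ℝ) * Real.log ‖om i‖ ≤ Lam * ‖rv v‖ := by
      intro i _
      calc (v i : ℝ) * Real.log ‖om i‖ ≤ |(v i : ℝ) * Real.log ‖om i‖| := le_abs_self _
        _ = |(v i : ℝ)| * |Real.log ‖om i‖| := abs_mul _ _
        _ ≤ ‖rv v‖ * Lam :=
          mul_le_mul (norm_le_pi_norm (rv v) i) (hl i) (abs_nonneg _) (norm_nonneg _)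
        _ = Lam * ‖rv v‖ := mul_comm _ _
    refine (Finset.sum_le_card_nsmul _ _ _ this).trans ?_
    rw [Finset.card_univ, Fintype.card_fin, nsmul_eq_mul]
    linarith
  linarith

end BOX

open BOX in
theorem box_proof (hSS2 : Stmt_SS2) : Stmt_Box.{u} := by
  intro T _ _ g t r lam Lam H hr N r₀ η η' hr0 hg hη z hz hz1 a₀ hz0 hrel hfar
  have ht := H.ne
  have hLam : 0 < Lam := H.pos.trans_le H.le
  have hr0' : (1 : ℝ) ≤ r₀ := by exact_mod_cast hr0
  obtain ⟨S0, hS0⟩ : ∃ S0 : ℝ, S0 = 2 * Lam * ((r₀ : ℝ) + 1) ^ 2 := ⟨_, rfl⟩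
  have hM : Real.exp (4 * Lam * ((r₀ : ℝ) + 1) ^ 2) = Real.exp S0 * Real.exp S0 := by
    rw [← Real.exp_add, hS0]
    congr 1
    ring
  obtain ⟨eps, heps⟩ : ∃ eps : ℝ, eps = η * Real.exp (4 * Lam * ((r₀ : ℝ) + 1) ^ 2) := ⟨_, rfl⟩
  rw [← heps] at hη
  have hS0pos : 0 ≤ S0 := by rw [hS0]; positivity
  have hSS : ∀ a b : Fin g → ℤ, ‖rv (a - b)‖ ≤ 2 * ((r₀ : ℝ) + 1) → SS (qf t) ![a, b] ≤ S0 := by
    intro a b hab
    rw [hSS2, hS0]
    have h1 := H.hi (rv (a - b))
    have h2 : ‖rv (a - b)‖ ^ 2 ≤ (2 * ((r₀ : ℝ) + 1)) ^ 2 :=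
      pow_le_pow_left₀ (norm_nonneg _) hab 2
    have h3 := mul_le_mul_of_nonneg_left h2 hLam.le
    linarith
  have hEn : ∀ a b : Fin g → ℤ, ‖rv (a - b)‖ ≤ 2 * ((r₀ : ℝ) + 1) →
      Real.exp (-S0) ≤ ‖EE r t ![a, b]‖ := by
    intro a b hab
    rw [norm_EE two_ne_zero hr ht]
    apply Real.exp_le_exp.mpr
    linarith [hSS a b hab]
  rw [← hS0] at hrel
  have hη0 : 0 ≤ η := by
    have h1 : SS (qf t) ![a₀, a₀] ≤ S0 := hSS a₀ a₀ (by simp; linarith)
    exact (norm_nonneg _).trans (hrel a₀ a₀ a₀ a₀ rfl h1 h1)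
  have heps0 : 0 ≤ eps := by rw [heps]; positivity
  have hc : Real.exp (-S0) * Real.exp S0 = 1 := by
    rw [← Real.exp_add, neg_add_cancel, Real.exp_zero]
  have hE1 : 0 < Real.exp (-S0) := Real.exp_pos _
  have hE2 : 0 < Real.exp S0 := Real.exp_pos _
  have hE1' : Real.exp (-S0) ≤ 1 := by
    rw [Real.exp_le_one_iff]
    linarith
  have hηlt : η < Real.exp (-S0) * Real.exp (-S0) := by
    rw [heps, hM] at hη
    have h1 : η = η * (Real.exp S0 * Real.exp S0) * (Real.exp (-S0) * Real.exp (-S0)) := by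
      calc η = η * ((Real.exp (-S0) * Real.exp S0) * (Real.exp (-S0) * Real.exp S0)) := by
            rw [hc]; ring
        _ = _ := by ring
    have h2 := mul_lt_mul_of_pos_right hη (mul_pos hE1 hE1)
    rw [← h1, one_mul] at h2
    exact h2
  have hηlt' : η < Real.exp (-S0) := by
    refine hηlt.trans_le ?_
    exact mul_le_of_le_one_left hE1.le hE1'
  -- lower bound for `z` in the box
  have hzlow : ∀ d : Fin g → ℤ, ‖rv d‖ ≤ r₀ → Real.exp (-S0) ≤ ‖z (a₀ + d)‖ := by
    intro d hd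
    have hd2 : ‖rv (a₀ + d - (a₀ - d))‖ ≤ 2 * ((r₀ : ℝ) + 1) := by
      have h1 : a₀ + d - (a₀ - d) = (2 : ℤ) • d := by
        rw [two_smul]
        abel
      rw [h1, rv_smul, norm_smul]
      norm_num
      linarith
    have h0 : ‖rv (a₀ - a₀)‖ ≤ 2 * ((r₀ : ℝ) + 1) := by
      rw [sub_self, rv_zero, norm_zero]
      linarith
    have h1 := hrel (a₀ + d) (a₀ - d) a₀ a₀ (by abel) (hSS _ _ hd2) (hSS _ _ h0)
    rw [EE_diag hr ht, hz0, mul_one, mul_one, one_mul] at h1
    have h2 := hEn _ _ hd2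
    have h3 := norm_eq_of_close h1 (hηlt'.trans_le h2)
    rw [norm_mul] at h3
    have h4 : ‖z (a₀ + d)‖ * ‖z (a₀ - d)‖ ≤ ‖z (a₀ + d)‖ :=
      mul_le_of_le_one_right (norm_nonneg _) (hz1 _)
    linarith
  have hzne : ∀ d : Fin g → ℤ, ‖rv d‖ ≤ r₀ → z (a₀ + d) ≠ 0 := by
    intro d hd h0
    have := hzlow d hd
    rw [h0, norm_zero] at this
    linarith
  -- the point
  obtain ⟨y, hydef⟩ : ∃ y : Fin g → T, y = fun i =>
      z (a₀ + Pi.single i 1) * kap t a₀ / kap t (a₀ + Pi.single i 1) := ⟨_, rfl⟩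
  have hsb : ∀ i : Fin g, ‖rv (Pi.single i 1 : Fin g → ℤ)‖ ≤ r₀ := fun i =>
    (norm_rv_single i).trans hr0'
  have hy : ∀ i, y i ≠ 0 := by
    intro i
    rw [hydef]
    exact div_ne_zero (mul_ne_zero (hzne _ (hsb i)) (kap_ne ht _)) (kap_ne ht _)
  have hKe : ∀ i, KK t y a₀ (Pi.single i 1) = z (a₀ + Pi.single i 1) := by
    intro i
    unfold KK
    rw [mon_add hy]
    have h1 : mon y (Pi.single i 1) = y i := by
      unfold mon
      rw [Finset.prod_eq_single i]
      · rw [Pi.single_eq_same, zpow_one]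
      · intro j _ hj
        rw [Pi.single_eq_of_ne hj, zpow_zero]
      · intro h
        exact absurd (Finset.mem_univ _) h
    rw [h1]
    have h2 : y i = z (a₀ + Pi.single i 1) * kap t a₀ / kap t (a₀ + Pi.single i 1) := by
      rw [hydef]
    have h3 := kap_ne ht a₀
    have h4 := kap_ne ht (a₀ + Pi.single i 1)
    have h5 := mon_ne hy a₀
    rw [h2]
    field_simp
  have hKne : ∀ v, KK t y a₀ v ≠ 0 := fun v => KK_ne ht hy a₀ v
  -- the quotients
  obtain ⟨q, hq⟩ : ∃ q : (Fin g → ℤ) → T, q = fun v => z (a₀ + v) / KK t y a₀ v := ⟨_, rfl⟩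
  have hzq : ∀ v, z (a₀ + v) = q v * KK t y a₀ v := by
    intro v
    rw [hq]
    exact (div_mul_cancel₀ _ (hKne v)).symm
  have hstep : ∀ (v : Fin g → ℤ) (i : Fin g), ‖rv v‖ ≤ r₀ → ‖rv (v + Pi.single i 1)‖ ≤ r₀ →
      ‖q (v + Pi.single i 1) - q v‖ ≤ eps * ‖q (v + Pi.single i 1)‖ := by
    intro v i hv hvi
    have hd1 : ‖rv (a₀ + (v + Pi.single i 1) - a₀)‖ ≤ 2 * ((r₀ : ℝ) + 1) := by
      rw [add_sub_cancel_left]
      linarith
    have hd2 : ‖rv (a₀ + v - (a₀ + Pi.single i 1))‖ ≤ 2 * ((r₀ : ℝ) + 1) := by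
      rw [add_sub_add_left_eq_sub, rv_sub]
      refine (norm_sub_le _ _).trans ?_
      linarith [norm_rv_single i]
    have h1 := hrel (a₀ + (v + Pi.single i 1)) a₀ (a₀ + v) (a₀ + Pi.single i 1) (by abel)
      (hSS _ _ hd1) (hSS _ _ hd2)
    rw [hz0, mul_one, ← hKe i] at h1
    have h2 : EE r t ![a₀ + v, a₀ + Pi.single i 1] * z (a₀ + (v + Pi.single i 1)) -
        EE r t ![a₀ + (v + Pi.single i 1), a₀] * z (a₀ + v) * KK t y a₀ (Pi.single i 1) =
        EE r t ![a₀ + v, a₀ + Pi.single i 1] * KK t y a₀ (v + Pi.single i 1) *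
          (q (v + Pi.single i 1) - q v) := by
      rw [hzq (v + Pi.single i 1), hzq v]
      have h3 := EE_KK (r := r) ht hy a₀ v (Pi.single i 1)
      linear_combination (-q v) * h3
    rw [h2, norm_mul, norm_mul] at h1
    have h4 := hEn _ _ hd2
    have h5 := hzlow _ hvi
    rw [hzq, norm_mul] at h5
    -- `|E| |K| |q' - q| ≤ η`, `e^{-S0} ≤ |E|`, `e^{-S0} ≤ |q'| |K|`
    have hqn : ‖q (v + Pi.single i 1)‖ ≠ 0 := by
      intro h0
      rw [h0, zero_mul] at h5
      linarith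
    have h6 : Real.exp (-S0) * Real.exp (-S0) * ‖q (v + Pi.single i 1) - q v‖ ≤
        η * ‖q (v + Pi.single i 1)‖ := by
      calc Real.exp (-S0) * Real.exp (-S0) * ‖q (v + Pi.single i 1) - q v‖
          ≤ ‖EE r t ![a₀ + v, a₀ + Pi.single i 1]‖ *
            (‖q (v + Pi.single i 1)‖ * ‖KK t y a₀ (v + Pi.single i 1)‖) *
              ‖q (v + Pi.single i 1) - q v‖ :=
            mul_le_mul_of_nonneg_right (mul_le_mul h4 h5 hE1.le (norm_nonneg _)) (norm_nonneg _)
        _ = (‖EE r t ![a₀ + v, a₀ + Pi.single i 1]‖ * ‖KK t y a₀ (v + Pi.single i 1)‖ *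
              ‖q (v + Pi.single i 1) - q v‖) * ‖q (v + Pi.single i 1)‖ := by ring
        _ ≤ η * ‖q (v + Pi.single i 1)‖ := mul_le_mul_of_nonneg_right h1 (norm_nonneg _)
    have h7 := mul_le_mul_of_nonneg_left h6 (mul_pos hE2 hE2).le
    have h8 : Real.exp S0 * Real.exp S0 *
        (Real.exp (-S0) * Real.exp (-S0) * ‖q (v + Pi.single i 1) - q v‖) =
        ‖q (v + Pi.single i 1) - q v‖ := by
      calc _ = (Real.exp (-S0) * Real.exp S0) * (Real.exp (-S0) * Real.exp S0) *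
            ‖q (v + Pi.single i 1) - q v‖ := by ring
        _ = _ := by rw [hc]; ring
    rw [h8] at h7
    refine h7.trans (le_of_eq ?_)
    rw [heps, hM]
    ring
  have hP : ∀ v : Fin g → ℤ, ‖rv v‖ ≤ r₀ → ‖q v - 1‖ ≤ eps := by
    apply box_induction
    · rw [hq]
      show ‖z (a₀ + 0) / KK t y a₀ 0 - 1‖ ≤ eps
      rw [KK_zero ht hy, add_zero, hz0, div_one, sub_self, norm_zero]
      exact heps0
    · intro v i hv hvi
      have h1 := hstep v i hv hvi
      have hone : ‖(1 : T)‖ = 1 := norm_one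
      constructor
      · intro h2
        have h3 : ‖q v‖ = 1 := by
          rw [← hone]
          exact norm_eq_of_close h2 (by rw [hone]; exact hη)
        have h4 : ‖q (v + Pi.single i 1)‖ ≤ 1 := by
          by_contra hlt
          push Not at hlt
          have h5 : eps * ‖q (v + Pi.single i 1)‖ < ‖q (v + Pi.single i 1)‖ := by
            have : 0 < ‖q (v + Pi.single i 1)‖ := by linarith
            exact mul_lt_of_lt_one_left this hη
          rw [norm_sub_rev] at h1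
          have h6 := norm_eq_of_close h1 h5
          linarith
        have h5 : ‖q (v + Pi.single i 1) - q v‖ ≤ eps := by
          refine h1.trans ?_
          exact mul_le_of_le_one_right heps0 h4
        exact norm_sub_le' h5 h2
      · intro h2
        have h3 : ‖q (v + Pi.single i 1)‖ = 1 := by
          rw [← hone]
          exact norm_eq_of_close h2 (by rw [hone]; exact hη)
        rw [h3, mul_one, norm_sub_rev] at h1
        exact norm_sub_le' h1 h2
  have hqn : ∀ v : Fin g → ℤ, ‖rv v‖ ≤ r₀ → ‖q v‖ = 1 := by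
    intro v hv
    have hone : ‖(1 : T)‖ = 1 := norm_one
    rw [← hone]
    exact norm_eq_of_close (hP v hv) (by rw [hone]; exact hη)
  have hKbox : ∀ v : Fin g → ℤ, ‖rv v‖ ≤ r₀ → ‖KK t y a₀ v‖ ≤ 1 := by
    intro v hv
    have h1 := hz1 (a₀ + v)
    rw [hzq, norm_mul, hqn v hv, one_mul] at h1
    exact h1
  have hKfar : ∀ v : Fin g → ℤ, (r₀ : ℝ) ≤ ‖rv v‖ →
      ‖KK t y a₀ v‖ ≤ Real.exp (-(lam * (r₀ : ℝ) ^ 2 / 2)) := by
    intro v hv
    refine (norm_KK_le H hy a₀ (fun i => hKbox _ (hsb i)) (fun i => hKbox _ ?_) v).trans ?_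
    · rw [rv_neg, norm_neg]
      exact hsb i
    · apply Real.exp_le_exp.mpr
      have hlam := H.pos
      have hn : 0 ≤ ‖rv v‖ := norm_nonneg _
      have h1 : 2 * g * Lam * ‖rv v‖ ≤ lam * ‖rv v‖ * ‖rv v‖ := by
        refine mul_le_mul_of_nonneg_right ?_ hn
        refine hg.trans ?_
        exact mul_le_mul_of_nonneg_left hv hlam.le
      have h2 : (r₀ : ℝ) ^ 2 ≤ ‖rv v‖ ^ 2 := pow_le_pow_left₀ (by linarith) hv 2
      have h3 := mul_le_mul_of_nonneg_left h2 hlam.le
      nlinarith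
  refine ⟨y, hy, ?_, hKfar, ?_, ?_⟩
  · intro v
    by_cases hv : ‖rv v‖ ≤ r₀
    · exact hKbox v hv
    · push Not at hv
      refine (hKfar v hv.le).trans ?_
      rw [Real.exp_le_one_iff]
      have := H.pos
      have h2 : 0 ≤ lam * (r₀ : ℝ) ^ 2 / 2 := by positivity
      linarith
  · intro v hv
    rw [← heps]
    have h1 : z (a₀ + v) - KK t y a₀ v = (q v - 1) * KK t y a₀ v := by
      rw [hzq v]
      ring
    rw [h1, norm_mul]
    calc ‖q v - 1‖ * ‖KK t y a₀ v‖ ≤ eps * 1 :=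
          mul_le_mul (hP v hv) (hKbox v hv) (norm_nonneg _) heps0
      _ = eps := mul_one _
  · intro a ha
    have h1 := hfar a a₀ ha
    rwa [hz0, mul_one] at h1

end Pool.Agent.TDA
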