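import Pool.Agent.TDA.Stmts

/-!
# CYC: the `p`-th power of a theta function modulo `p`
-/

set_option autoImplicit false
set_option linter.unusedSectionVars false

noncomputable section

namespace Pool.Agent.TDA

open scoped Classical
open MvPolynomial

universe u

namespace CYC

/-- A sum of an invariant function over a finite invariant set without fixed points is divisible
by `p`. -/
theorem sum_invariant {F : Type*} [NormedField F] [IsUltrametricDist F] {W : Type*} (p : ℕ)
    (hp : p.Prime) (σ : W → W) (hσ : ∀ w, σ^[p] w = w) (f : W → F) (hf : ∀ w, f (σ w) = f w)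
    (h1 : ∀ w, ‖f w‖ ≤ 1) : ∀ (n : ℕ) (S : Finset W), S.card = n → (∀ w ∈ S, σ w ∈ S) →
    (∀ w ∈ S, σ w ≠ w) → ‖∑ w ∈ S, f w‖ ≤ ‖(p : F)‖ := by
  intro n
  induction n using Nat.strong_induction_on with
  | _ n ih =>
    intro S hn hS hfix
    rcases S.eq_empty_or_nonempty with rfl | ⟨w0, hw0⟩
    · simp
    have hiter : ∀ k, f (σ^[k] w0) = f w0 := by
      intro k
      induction k with
      | zero => rfl
      | succ k ihk => rw [Function.iterate_succ_apply', hf, ihk]
    have hmem : ∀ k, σ^[k] w0 ∈ S := by
      intro k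
      induction k with
      | zero => exact hw0
      | succ k ihk => rw [Function.iterate_succ_apply']; exact hS _ ihk
    have hmin : Function.minimalPeriod σ w0 = p := by
      have hper : Function.IsPeriodicPt σ p w0 := hσ w0
      rcases (Nat.dvd_prime hp).mp hper.minimalPeriod_dvd with h | h
      · exfalso
        exact hfix w0 hw0 (Function.minimalPeriod_eq_one_iff_isFixedPt.mp h)
      · exact h
    set O : Finset W := (Finset.range p).image (fun k => σ^[k] w0) with hO
    have hinj : Set.InjOn (fun k => σ^[k] w0) (Finset.range p : Set ℕ) := by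
      have h := Function.iterate_injOn_Iio_minimalPeriod (f := σ) (x := w0)
      rw [hmin] at h
      intro a ha b hb hab
      exact h (by simpa using ha) (by simpa using hb) hab
    have hcard : O.card = p := by
      rw [hO, Finset.card_image_of_injOn hinj, Finset.card_range]
    have hOS : O ⊆ S := by
      intro w hw
      obtain ⟨k, _, rfl⟩ := Finset.mem_image.mp hw
      exact hmem k
    have hOmem : ∀ k, σ^[k] w0 ∈ O := by
      intro k
      have h : σ^[k % p] w0 = σ^[k] w0 := by
        have := Function.iterate_mod_minimalPeriod_eq (f := σ) (x := w0) (n := k)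
        rwa [hmin] at this
      rw [← h]
      exact Finset.mem_image.mpr ⟨k % p, Finset.mem_range.mpr (Nat.mod_lt _ hp.pos), rfl⟩
    have hsumO : ∑ w ∈ O, f w = p * f w0 := by
      rw [hO, Finset.sum_image hinj]
      simp only [hiter]
      rw [Finset.sum_const, Finset.card_range, nsmul_eq_mul]
    have hlt : (S \ O).card < n := by
      rw [← hn]
      apply Finset.card_lt_card
      refine ⟨Finset.sdiff_subset, fun h => ?_⟩
      have := h hw0
      exact (Finset.mem_sdiff.mp this).2 (hOmem 0)
    have hrest : ‖∑ w ∈ S \ O, f w‖ ≤ ‖(p : F)‖ := by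
      refine ih _ hlt (S \ O) rfl ?_ ?_
      · intro w hw
        rw [Finset.mem_sdiff] at hw ⊢
        refine ⟨hS w hw.1, fun h => hw.2 ?_⟩
        obtain ⟨k, _, hk⟩ := Finset.mem_image.mp h
        have hw' : w = σ^[p - 1 + k] w0 := by
          have hk' : σ^[k] w0 = σ w := hk
          rw [Function.iterate_add_apply, hk', ← Function.iterate_succ_apply,
            Nat.succ_eq_add_one, Nat.sub_add_cancel hp.one_le, hσ]
        rw [hw']
        exact hOmem _
      · intro w hw
        exact hfix w (Finset.mem_sdiff.mp hw).1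
    rw [← Finset.sum_sdiff hOS, hsumO]
    refine (IsUltrametricDist.norm_add_le_max _ _).trans (max_le hrest ?_)
    rw [norm_mul]
    exact mul_le_of_le_one_right (norm_nonneg _) (h1 w0)

variable {g : ℕ}

theorem sum_rot {p : ℕ} [NeZero p] (w : Fin p → Fin g → ℤ) :
    ∑ i : Fin p, w (i + 1) = ∑ i, w i :=
  Fintype.sum_equiv (Equiv.addRight (1 : Fin p)) _ _ fun _ => rfl

theorem EE_rot {F : Type u} [Field F] (r t : Fin g → Fin g → F) {p : ℕ} [NeZero p]
    (w : Fin p → Fin g → ℤ) : EE r t (fun i => w (i + 1)) = EE r t w := by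
  unfold EE
  rw [sum_rot]
  congr 1
  exact Fintype.prod_equiv (Equiv.addRight (1 : Fin p)) _ _ fun _ => rfl

theorem SS_rot (q : Fin g → Fin g → ℝ) {p : ℕ} [NeZero p] (w : Fin p → Fin g → ℤ) :
    SS q (fun i => w (i + 1)) = SS q w := by
  unfold SS
  rw [sum_rot]
  congr 1
  exact Fintype.sum_equiv (Equiv.addRight (1 : Fin p)) _ _ fun _ => rfl

theorem sum_const' {p : ℕ} (m : Fin g → ℤ) : ∑ _i : Fin p, m = (p : ℤ) • m := by
  rw [Finset.sum_const, Finset.card_univ, Fintype.card_fin]
  simp

theorem EE_const {F : Type u} [Field F] {r t : Fin g → Fin g → F} {p : ℕ}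
    (hr : Rt p r t) (hr0 : ∀ i j, r i j ≠ 0) (m : Fin g → ℤ) :
    EE r t (fun _ : Fin p => m) = 1 := by
  unfold EE
  rw [sum_const', Finset.prod_const, Finset.card_univ, Fintype.card_fin, kap_smul, hr.kap,
    ← pow_mul, ← Nat.cast_mul, zpow_natCast]
  exact div_self (pow_ne_zero _ (kap_ne hr0 _))

theorem SS_const (q : Fin g → Fin g → ℝ) {p : ℕ} (hp : p ≠ 0) (m : Fin g → ℤ) :
    SS q (fun _ : Fin p => m) = 0 := by
  have hp' : (p : ℝ) ≠ 0 := by exact_mod_cast hp
  unfold SS
  rw [sum_const', Finset.sum_const, Finset.card_univ, Fintype.card_fin, rv_smul, QF_smul,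
    nsmul_eq_mul]
  push_cast
  field_simp
  ring

/-- The rotation. -/
def rot {p : ℕ} [NeZero p] (N : ℕ) (a s : Fin g → ℤ) (w : Fib N (fun _ : Fin p => a) s) :
    Fib N (fun _ : Fin p => a) s :=
  ⟨fun i => w.1 (i + 1), fun i j => w.2.1 (i + 1) j, by
    exact (sum_rot w.1).trans w.2.2⟩

theorem rot_iter {p : ℕ} [NeZero p] (N : ℕ) (a s : Fin g → ℤ) (k : ℕ)
    (w : Fib N (fun _ : Fin p => a) s) (i : Fin p) :
    ((rot N a s)^[k] w).1 i = w.1 (i + Fin.ofNat p k) := by
  induction k generalizing i with
  | zero =>
    have h : Fin.ofNat p 0 = 0 := rfl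
    rw [h, add_zero]
    rfl
  | succ k ih =>
    rw [Function.iterate_succ_apply']
    change ((rot N a s)^[k] w).1 (i + 1) = _
    rw [ih]
    refine congrArg w.1 ?_
    apply Fin.ext
    simp [Fin.val_add, Fin.ofNat]
    ring_nf

theorem rot_fix {p : ℕ} [NeZero p] (N : ℕ) (a s : Fin g → ℤ)
    (w : Fib N (fun _ : Fin p => a) s) (h : rot N a s w = w) (i : Fin p) : w.1 i = w.1 0 := by
  have h1 : (rot N a s)^[i.val] w = w := Function.iterate_fixed h _
  have h2 := rot_iter N a s i.val w 0
  rw [h1] at h2
  rw [h2, zero_add]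
  refine congrArg w.1 ?_
  apply Fin.ext
  simp [Fin.ofNat, Nat.mod_eq_of_lt i.2]

end CYC

theorem cyc_proof (hSumE : Stmt_SumE.{u}) (hVar : Stmt_Var.{u}) : Stmt_Cyc.{u} := by
  intro F _ _ _ g t r lam Lam hT p hp hr N a s
  have : NeZero p := ⟨hp.ne_zero⟩
  have hp0 := hp.ne_zero
  obtain ⟨hv1, -, -, hv4⟩ := hVar F g t lam Lam hT p hp0
  have hs := hSumE F g t r lam Lam hT p hp0 hr N (fun _ : Fin p => a) s
  have ht := hT.ne
  have hr0 := hr.ne hp0 ht
  set W := Fib N (fun _ : Fin p => a) s with hW
  set f : W → F := fun w => EE r t w.1 with hf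
  -- the finite sets
  have hfin : ∀ n : ℕ, {w : W | SS (qf t) w.1 ≤ n}.Finite := by
    intro n
    have h := hv4 s n
    have h2 : {w : W | SS (qf t) w.1 ≤ n} ⊆ Subtype.val ⁻¹'
        {w : Fin p → Fin g → ℤ | ∑ i, w i = s ∧ SS (qf t) w ≤ n} := fun w hw => ⟨w.2.2, hw⟩
    exact (h.preimage Subtype.val_injective.injOn).subset h2
  set S : ℕ → Finset W := fun n => (hfin n).toFinset with hS
  have hmemS : ∀ n w, w ∈ S n ↔ SS (qf t) w.1 ≤ n := by
    intro n w
    rw [hS]
    simp
  have hSmono : Monotone S := by
    intro m n hmn w hw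
    rw [hmemS] at hw ⊢
    exact hw.trans (by exact_mod_cast hmn)
  have hlim : Filter.Tendsto (fun n => ∑ w ∈ S n, f w) Filter.atTop
      (nhds (∑' w, f w)) := by
    have h1 : Filter.Tendsto S Filter.atTop Filter.atTop := by
      refine Filter.tendsto_atTop_finset_of_monotone hSmono fun w => ?_
      obtain ⟨n, hn⟩ := exists_nat_ge (SS (qf t) w.1)
      exact ⟨n, (hmemS n w).mpr hn⟩
    have h2 : Filter.Tendsto (fun S : Finset W => ∑ w ∈ S, f w) Filter.atTop
      (nhds (∑' w, f w)) := hs.hasSum
    exact h2.comp h1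
  have hfn : ∀ w, ‖f w‖ ≤ 1 := by
    intro w
    rw [hf]
    change ‖EE r t w.1‖ ≤ 1
    rw [norm_EE hp0 hr ht, Real.exp_le_one_iff, neg_nonpos]
    exact hv1 _
  have hfrot : ∀ w, f (CYC.rot N a s w) = f w := by
    intro w
    exact CYC.EE_rot r t w.1
  have hSSrot : ∀ w : W, SS (qf t) (CYC.rot N a s w).1 = SS (qf t) w.1 := by
    intro w
    exact CYC.SS_rot (qf t) w.1
  have hrotp : ∀ w : W, (CYC.rot N a s)^[p] w = w := by
    intro w
    apply Subtype.ext
    funext i
    rw [CYC.rot_iter]
    refine congrArg w.1 ?_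
    apply Fin.ext
    simp [Fin.val_add, Fin.ofNat, Nat.mod_eq_of_lt i.2]
  have hbound : ∀ n, ‖∑ w ∈ S n, f w - cls F (p * N) ((p : ℤ) • a) s‖ ≤ ‖(p : F)‖ := by
    intro n
    have hsplit := Finset.sum_filter_add_sum_filter_not (S n)
      (fun w => CYC.rot N a s w = w) f
    have h1 : ∑ w ∈ (S n).filter (fun w => CYC.rot N a s w = w), f w =
        cls F (p * N) ((p : ℤ) • a) s := by
      have hconst : ∀ w : W, CYC.rot N a s w = w → f w = 1 := by
        intro w hw
        have hc := CYC.rot_fix N a s w hw
        change EE r t w.1 = 1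
        have hw1 : w.1 = fun _ => w.1 0 := funext hc
        rw [hw1]
        exact CYC.EE_const hr hr0 _
      unfold cls
      split_ifs with hc
      · -- exactly one constant element
        choose v hv using hc
        set m : Fin g → ℤ := fun j => a j + N * v j with hm
        have hps : (p : ℤ) • m = s := by
          funext j
          have := hv j
          simp only [Pi.smul_apply, smul_eq_mul, Nat.cast_mul] at this ⊢
          rw [hm]
          linear_combination -this
        let w0 : W := ⟨fun _ => m, fun i j => ⟨v j, by simp [hm]⟩, by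
          rw [Finset.sum_const, Finset.card_univ, Fintype.card_fin, ← hps]
          simp⟩
        have hrot0 : CYC.rot N a s w0 = w0 := Subtype.ext rfl
        have hSS0 : SS (qf t) w0.1 ≤ n := by
          have : SS (qf t) w0.1 = 0 := CYC.SS_const _ hp0 m
          rw [this]
          exact Nat.cast_nonneg n
        have hfilter : (S n).filter (fun w => CYC.rot N a s w = w) = {w0} := by
          ext w
          rw [Finset.mem_filter, Finset.mem_singleton]
          constructor
          · rintro ⟨_, hw⟩
            have hc := CYC.rot_fix N a s w hw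
            have hsum : (p : ℤ) • m = (p : ℤ) • w.1 0 := by
              rw [hps]
              refine w.2.2.symm.trans ?_
              exact (Finset.sum_congr rfl fun i _ => hc i).trans (CYC.sum_const' _)
            apply Subtype.ext
            funext i
            rw [hc i]
            change w.1 0 = m
            funext j
            have h3 := congrFun hsum j
            simp only [Pi.smul_apply, smul_eq_mul] at h3
            have hp' : (p : ℤ) ≠ 0 := by exact_mod_cast hp0
            exact (mul_left_cancel₀ hp' h3).symm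
          · rintro rfl
            exact ⟨(hmemS n _).mpr hSS0, hrot0⟩
        rw [hfilter, Finset.sum_singleton]
        exact hconst w0 hrot0
      · apply Finset.sum_eq_zero
        intro w hw
        exfalso
        apply hc
        have hw' := (Finset.mem_filter.mp hw).2
        have hcw := CYC.rot_fix N a s w hw'
        have hsum : s = (p : ℤ) • w.1 0 := by
          refine w.2.2.symm.trans ?_
          exact (Finset.sum_congr rfl fun i _ => hcw i).trans (CYC.sum_const' _)
        intro j
        obtain ⟨c, hc2⟩ := w.2.1 0 j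
        refine ⟨c, ?_⟩
        rw [hsum]
        simp only [Pi.smul_apply, smul_eq_mul, Nat.cast_mul]
        linear_combination (p : ℤ) * hc2
    rw [← hsplit, h1, add_sub_cancel_left]
    refine CYC.sum_invariant p hp (CYC.rot N a s) hrotp f hfrot hfn _ _ rfl ?_ ?_
    · intro w hw
      rw [Finset.mem_filter] at hw ⊢
      refine ⟨?_, fun h => hw.2 ?_⟩
      · rw [hmemS, hSSrot, ← hmemS]
        exact hw.1
      · -- σ is injective
        have h2 : ∀ k, (CYC.rot N a s)^[k] (CYC.rot N a s w) = CYC.rot N a s w := by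
          intro k
          exact Function.iterate_fixed h _
        have h3 := h2 (p - 1)
        rw [← Function.iterate_succ_apply, Nat.succ_eq_add_one,
          Nat.sub_add_cancel hp.one_le, hrotp] at h3
        exact h3.symm
    · intro w hw
      exact (Finset.mem_filter.mp hw).2
  have hlim2 : Filter.Tendsto (fun n => ‖∑ w ∈ S n, f w - cls F (p * N) ((p : ℤ) • a) s‖)
      Filter.atTop (nhds ‖∑' w, f w - cls F (p * N) ((p : ℤ) • a) s‖) :=
    (hlim.sub_const _).norm
  exact le_of_tendsto' hlim2 hbound

end Pool.Agent.TDA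

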