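import Pool.Agent.TDA.Stmts

/-!
# TDA: module DOM, the maximal term dominates its class
-/

set_option autoImplicit false
set_option linter.unusedSectionVars false

noncomputable section

namespace Pool.Agent.TDA

open scoped Classical
open MvPolynomial

universe u

namespace DOM

variable {F : Type u} [NormedField F] {g : ℕ}

/-- Elements of norm less than a given one do not change the norm. -/
theorem norm_add_eq [IsUltrametricDist F] {a b : F} (h : ‖b‖ < ‖a‖) : ‖a + b‖ = ‖a‖ := by
  have h1 := IsUltrametricDist.norm_add_eq_max_of_norm_ne_norm (x := a) (y := b) (ne_of_gt h)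
  rw [h1, max_eq_left h.le]

/-- The norm of `kap t u` for `u ≠ 0`. -/
theorem norm_kap_lt {t : Fin g → Fin g → F} {lam Lam : ℝ} (H : TP t lam Lam) {u : Fin g → ℤ}
    (hu : u ≠ 0) : ‖kap t u‖ ≤ Real.exp (-lam) := by
  rw [norm_kap H.ne]
  apply Real.exp_le_exp.mpr (neg_le_neg _)
  refine le_trans ?_ (H.lo (rv u))
  have h1 := one_le_norm_rv hu
  have h2 : (1 : ℝ) ≤ ‖rv u‖ ^ 2 := one_le_pow₀ h1
  have h3 := H.pos
  nlinarith

/-- The terms of the class of the maximal term are much smaller than the maximal term. -/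
theorem term_le {t : Fin g → Fin g → F} {lam Lam : ℝ} (H : TP t lam Lam) {x : Fin g → F}
    (hx : ∀ i, x i ≠ 0) {w₀ : Fin g → ℤ} (hm : IsMax t x w₀) {N : ℕ} (hN : 2 ≤ N)
    {u : Fin g → ℤ} (hu : u ≠ 0) :
    ‖kap t (w₀ + (N : ℤ) • u) * mon x (w₀ + (N : ℤ) • u)‖ ≤
      Real.exp (-lam) * ‖kap t w₀ * mon x w₀‖ := by
  have e : ∀ v, kap t (w₀ + v) * mon x (w₀ + v) =
      (kap t w₀ * mon x w₀) * (kap t v * (bet t w₀ v * mon x v)) := by
    intro v
    rw [kap_add H.ne, mon_add hx]
    ring
  have h0 : 0 < ‖kap t w₀ * mon x w₀‖ :=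
    norm_pos_iff.mpr (mul_ne_zero (kap_ne H.ne _) (mon_ne hx _))
  have h1 : ∀ v, ‖kap t v‖ * ‖bet t w₀ v * mon x v‖ ≤ 1 := by
    intro v
    have h2 := hm (w₀ + v)
    rw [e, norm_mul, norm_mul (kap t v)] at h2
    by_contra hc
    push Not at hc
    have := mul_lt_mul_of_pos_left hc h0
    linarith
  have h4 : kap t ((N : ℤ) • u) * (bet t w₀ ((N : ℤ) • u) * mon x ((N : ℤ) • u)) =
      kap t u ^ (N * N - N) * (kap t u * (bet t w₀ u * mon x u)) ^ N := by
    rw [kap_smul, bet_smul_right, mon_smul, mul_pow, mul_pow, ← mul_assoc, ← mul_assoc,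
      ← pow_add, ← mul_assoc]
    have h5 : N * N - N + N = N * N := Nat.sub_add_cancel (Nat.le_mul_self N)
    rw [h5, zpow_natCast, zpow_natCast]
    rw [← Nat.cast_mul, zpow_natCast]
  rw [e, norm_mul, mul_comm, h4, norm_mul, norm_pow, norm_pow]
  apply mul_le_mul_of_nonneg_right _ h0.le
  have h6 : ‖kap t u * (bet t w₀ u * mon x u)‖ ^ N ≤ 1 := by
    apply pow_le_one₀ (norm_nonneg _)
    rw [norm_mul]
    exact h1 u
  have h7 : ‖kap t u‖ ^ (N * N - N) ≤ Real.exp (-lam) := by
    have h8 : ‖kap t u‖ ≤ Real.exp (-lam) := norm_kap_lt H hu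
    have h9 : Real.exp (-lam) ≤ 1 := by
      rw [Real.exp_le_one_iff]
      have := H.pos
      linarith
    have h10 : 1 ≤ N * N - N := by
      have : 2 * N ≤ N * N := Nat.mul_le_mul_right N hN
      omega
    calc ‖kap t u‖ ^ (N * N - N) ≤ ‖kap t u‖ ^ 1 :=
          pow_le_pow_of_le_one (norm_nonneg _) (h8.trans h9) h10
      _ ≤ Real.exp (-lam) := by rw [pow_one]; exact h8
  calc ‖kap t u‖ ^ (N * N - N) * ‖kap t u * (bet t w₀ u * mon x u)‖ ^ N
      ≤ Real.exp (-lam) * 1 := mul_le_mul h7 h6 (pow_nonneg (norm_nonneg _) _) (Real.exp_pos _).le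
    _ = Real.exp (-lam) := mul_one _

end DOM

open DOM in
theorem dom_proof (hSumm : Stmt_Summ.{u}) : Stmt_Dom.{u} := by
  intro F _ _ _ g t lam Lam H x hx
  obtain ⟨s1, s2⟩ := hSumm F g t lam Lam H x hx
  refine ⟨?_, ?_⟩
  · have hfin := s1 ‖kap t 0 * mon x 0‖
      (norm_pos_iff.mpr (mul_ne_zero (kap_ne H.ne _) (mon_ne hx _)))
    obtain ⟨w₀, hw₀, hmax⟩ := Set.exists_max_image _ (fun w => ‖kap t w * mon x w‖) hfin
      ⟨0, le_refl ‖kap t 0 * mon x 0‖⟩
    refine ⟨w₀, fun w => ?_⟩
    by_cases hw : ‖kap t 0 * mon x 0‖ ≤ ‖kap t w * mon x w‖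
    · exact hmax w hw
    · push Not at hw
      exact hw.le.trans hw₀
  · intro w₀ hm
    refine ⟨?_, ?_⟩
    · intro h K hK
      have hK0 : 0 ≤ K := (norm_nonneg _).trans (hK w₀)
      unfold ser
      apply IsUltrametricDist.norm_tsum_le_of_forall_le_of_nonneg
        (mul_nonneg hK0 (norm_nonneg _))
      intro w
      rw [norm_mul]
      exact mul_le_mul (hK w) (hm w) (norm_nonneg _) hK0
    · intro N hN
      have hs := s2 (cls F N w₀) 1 (fun w => by
        unfold cls
        split_ifs <;> simp)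
      unfold th ser
      rw [hs.tsum_eq_add_tsum_ite w₀]
      have hc : cls F N w₀ w₀ = 1 := by simp [cls]
      rw [hc, one_mul]
      apply norm_add_eq
      have h0 : 0 < ‖kap t w₀ * mon x w₀‖ :=
        norm_pos_iff.mpr (mul_ne_zero (kap_ne H.ne _) (mon_ne hx _))
      have h1 : Real.exp (-lam) * ‖kap t w₀ * mon x w₀‖ < ‖kap t w₀ * mon x w₀‖ := by
        have h2 : Real.exp (-lam) < 1 := by
          rw [Real.exp_lt_one_iff]
          have := H.pos
          linarith
        calc Real.exp (-lam) * ‖kap t w₀ * mon x w₀‖ < 1 * ‖kap t w₀ * mon x w₀‖ :=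
              mul_lt_mul_of_pos_right h2 h0
          _ = _ := one_mul _
      refine lt_of_le_of_lt ?_ h1
      apply IsUltrametricDist.norm_tsum_le_of_forall_le_of_nonneg
        (mul_nonneg (Real.exp_pos _).le (norm_nonneg _))
      intro w
      split_ifs with hw
      · rw [norm_zero]
        exact mul_nonneg (Real.exp_pos _).le (norm_nonneg _)
      · unfold cls
        split_ifs with hd
        · rw [one_mul]
          choose u hu using hd
          have hw2 : w = w₀ + (N : ℤ) • u := by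
            funext j
            simp only [Pi.add_apply, Pi.smul_apply, smul_eq_mul]
            linarith [hu j]
          have hu0 : u ≠ 0 := by
            rintro rfl
            apply hw
            rw [hw2, smul_zero, add_zero]
          rw [hw2]
          exact term_le H hx hm hN hu0
        · rw [zero_mul, norm_zero]
          exact mul_nonneg (Real.exp_pos _).le (norm_nonneg _)

end Pool.Agent.TDA
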