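import Pool.Agent.TDA.Stmts

set_option autoImplicit false
set_option linter.unusedSectionVars false

/-!
# FORM: series with periodic coefficients are forms in the theta functions
-/

noncomputable section

namespace Pool.Agent.TDA

open scoped Classical
open MvPolynomial

universe u

namespace FORM

variable {F : Type u} [NormedField F] [IsUltrametricDist F] {g : ℕ}

theorem rep_inj {n : ℕ} [NeZero n] {s s' : Fin g → ZMod n}
    (h : ∀ j, ((n : ℕ) : ℤ) ∣ rep s' j - rep s j) : s = s' := by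
  have h1 := (cl_eq_iff (N := n)).mpr h
  rw [cl_rep, cl_rep] at h1
  exact h1.symm

theorem norm_eq_of_sub {a b : F} {e : ℝ} (h : ‖a - b‖ ≤ e) (hb : e < ‖b‖) : ‖a‖ = ‖b‖ := by
  have h1 : ‖a - b‖ < ‖b‖ := lt_of_le_of_lt h hb
  have h2 := IsUltrametricDist.norm_add_eq_max_of_norm_ne_norm (ne_of_lt h1)
  rw [sub_add_cancel] at h2
  rw [h2, max_eq_right h1.le]

/-- the summands of the form -/
def Gs {N k : ℕ} (c : F) (b : Fin k → Fin g → ZMod N) : MvPolynomial (Fin g → ZMod N) F :=
  C c * ∏ i, X (b i)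

theorem Gs_hom {N k : ℕ} (c : F) (b : Fin k → Fin g → ZMod N) : (Gs c b).IsHomogeneous k := by
  have h := IsHomogeneous.prod Finset.univ (fun i : Fin k => (X (b i) : MvPolynomial _ F))
    (fun _ => 1) (fun i _ => isHomogeneous_X F (b i))
  simp only [Finset.sum_const, Finset.card_univ, Fintype.card_fin, smul_eq_mul, mul_one] at h
  exact h.C_mul c

theorem Gs_coeff {N k : ℕ} (c : F) (b : Fin k → Fin g → ZMod N) (m : (Fin g → ZMod N) →₀ ℕ) :
    ‖(Gs c b).coeff m‖ ≤ ‖c‖ := by
  have h : ∏ i, (X (b i) : MvPolynomial (Fin g → ZMod N) F) =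
      monomial (∑ i, Finsupp.single (b i) 1) 1 := by
    rw [monomial_sum_one]
    rfl
  unfold Gs
  rw [h, coeff_C_mul, coeff_monomial]
  split_ifs
  · rw [mul_one]
  · rw [mul_zero, norm_zero]; exact norm_nonneg _

theorem Gs_eval {N k : ℕ} [NeZero N] {C : Type u} [NormedField C] (ι : F →+* C)
    (t : Fin g → Fin g → C) (x : Fin g → C) (c : F) (b : Fin k → Fin g → ℤ) :
    eval₂ ι (thv t N x) (Gs c fun i => cl N (b i)) = ι c * ∏ i, th t N (b i) x := by
  unfold Gs
  rw [eval₂_mul, eval₂_C, eval₂_prod]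
  simp only [eval₂_X, thv_cl]

end FORM

open FORM in
theorem form_proof (hProd : Stmt_Prod.{u}) (hPest : Stmt_Pest.{u}) (hVar : Stmt_Var.{u})
    (hPmap : Stmt_Pmap.{u}) (hBal : Stmt_Bal) (hMat : Stmt_Mat.{u}) (hSumm : Stmt_Summ.{u}) :
    Stmt_Form.{u} := by
  intro F _ _ _ g t r lam Lam HT k hk hrt N hN hNk h H hper hH
  have : NeZero N := ⟨hN⟩
  have : NeZero (k * N) := ⟨Nat.mul_ne_zero hk hN⟩
  set n : ℕ := k * N with hn
  set A : (Fin g → ZMod n) → (Fin g → ZMod n) → F := fun s s' =>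
    hpr r t N (bal k (rep s)) (rep s') with hA
  have hbal := fun s : Fin g → ℤ => hBal g k hk s
  have hSS : ∀ s : Fin g → ZMod n, SS (qf t) (bal k (rep s)) ≤ k * Lam := fun s =>
    (hVar F g t lam Lam HT k hk).2.2.1 _ (fun i => by
      rw [(hbal (rep s)).1]; exact (hbal (rep s)).2.1 i)
  have hexp : ∀ s : Fin g → ZMod n,
      Real.exp (-((N : ℝ) ^ 2 * lam / 4 - SS (qf t) (bal k (rep s)))) < Real.exp (-(k * Lam)) := by
    intro s
    apply Real.exp_lt_exp.mpr
    have := hSS s
    linarith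
  obtain ⟨c, hc1, hc2⟩ := hMat F (Fin g → ZMod n) A (Real.exp (-(k * Lam))) (Real.exp_pos _)
    (by
      intro s
      have h4 := (hPest F g t r lam Lam HT k hk hrt N (bal k (rep s))).2.2.2.1
      rw [(hbal (rep s)).1] at h4
      have h5 : Real.exp (-(k * Lam)) ≤ ‖EE r t (bal k (rep s))‖ := by
        rw [norm_EE hk hrt HT.ne]
        apply Real.exp_le_exp.mpr
        have := hSS s
        linarith
      rw [hA]
      show _ ≤ ‖hpr r t N (bal k (rep s)) (rep s)‖
      rw [norm_eq_of_sub h4 (lt_of_lt_of_le (hexp s) h5)]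
      exact h5)
    (by
      intro s s' hs
      have h5 := (hPest F g t r lam Lam HT k hk hrt N (bal k (rep s))).2.2.2.2 (rep s') (by
        intro hd
        apply hs
        rw [(hbal (rep s)).1] at hd
        exact rep_inj hd)
      exact lt_of_le_of_lt h5 (hexp s))
    (fun s => h (rep s)) H (fun s => hH _)
  have hH0 : 0 ≤ H := (norm_nonneg _).trans (hH 0)
  refine ⟨∑ s, Gs (c s) (fun i => cl N (bal k (rep s) i)), ?_, ?_, ?_⟩
  · exact IsHomogeneous.sum _ _ _ fun s _ => Gs_hom _ _
  · intro m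
    rw [coeff_sum]
    apply IsUltrametricDist.norm_sum_le_of_forall_le_of_nonneg (by positivity)
    intro s _
    refine (Gs_coeff _ _ _).trans ((hc1 s).trans (le_of_eq ?_))
    rw [Real.exp_neg, div_inv_eq_mul, mul_comm]
  · intro C _ _ _ ι hι x hx
    have hTC : TP (fun i j => ι (t i j)) lam Lam := HT.map hι
    have hrtC : Rt k (fun i j => ι (r i j)) (fun i j => ι (t i j)) :=
      Rt.map ι hrt
    have hTr : TP (fun i j => ι (r i j)) (lam / k) (Lam / k) := TP.rt hk hrtC hTC
    have hsum : ∀ s : Fin g → ZMod n, Summable fun w : Fin g → ℤ =>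
        ι (c s) * (ι (hpr r t N (bal k (rep s)) w) *
          (kap (fun i j => ι (r i j)) w * mon x w)) := by
      intro s
      apply Summable.mul_left
      exact (hSumm C g _ _ _ hTr x hx).2 _ 1 fun w => by
        rw [hι]; exact (hPest F g t r lam Lam HT k hk hrt N (bal k (rep s))).2.1 w
    rw [eval₂_sum]
    have h1 : ∀ s : Fin g → ZMod n, eval₂ ι (thv (fun i j => ι (t i j)) N x)
        (Gs (c s) fun i => cl N (bal k (rep s) i)) =
        ∑' w : Fin g → ℤ, ι (c s) * (ι (hpr r t N (bal k (rep s)) w) *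
          (kap (fun i j => ι (r i j)) w * mon x w)) := by
      intro s
      rw [Gs_eval, hProd C g _ _ lam Lam hTC k hk hrtC N _ x hx, ser, ← tsum_mul_left]
      refine tsum_congr fun w => ?_
      rw [hPmap F C ι hι g t r lam Lam HT k hk hrt]
    simp only [h1]
    rw [← Summable.tsum_finsetSum fun s _ => hsum s]
    unfold ser
    refine tsum_congr fun w => ?_
    have h2 : ∀ s, hpr r t N (bal k (rep s)) w = A s (cl n w) := by
      intro s
      exact (hPest F g t r lam Lam HT k hk hrt N (bal k (rep s))).1.congr (cl_rep _).symm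
    have h3 : h w = h (rep (cl n w)) := hper.congr (cl_rep _).symm
    beta_reduce
    rw [h3, ← hc2 (cl n w), map_sum, Finset.sum_mul]
    refine Finset.sum_congr rfl fun s _ => ?_
    rw [h2, map_mul, mul_assoc]

end Pool.Agent.TDA
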