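import Pool.Agent.TDA.Stmts

/-!
# FRID: theta functions at `x ^ n`
-/

set_option autoImplicit false
set_option linter.unusedSectionVars false

noncomputable section

namespace Pool.Agent.TDA

open scoped Classical
open MvPolynomial

universe u

namespace FRID_

theorem cls_smul (F : Type u) [Field F] {g : ℕ} {n : ℕ} (hn : n ≠ 0) (N : ℕ) (a w : Fin g → ℤ) :
    cls F (n * N) ((n : ℤ) • a) ((n : ℤ) • w) = cls F N a w := by
  unfold cls
  have hn' : (n : ℤ) ≠ 0 := by exact_mod_cast hn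
  have h1 : (∀ j, ((n * N : ℕ) : ℤ) ∣ ((n : ℤ) • w) j - ((n : ℤ) • a) j) ↔
      ∀ j, (N : ℤ) ∣ w j - a j := by
    apply forall_congr'
    intro j
    rw [Pi.smul_apply, Pi.smul_apply, smul_eq_mul, smul_eq_mul, ← mul_sub, Nat.cast_mul]
    exact mul_dvd_mul_iff_left hn'
  simp only [h1]

theorem cls_supp (F : Type u) [Field F] {g : ℕ} {n : ℕ} (N : ℕ) (a w : Fin g → ℤ)
    (h : cls F (n * N) ((n : ℤ) • a) w ≠ 0) : ∃ v : Fin g → ℤ, (n : ℤ) • v = w := by
  unfold cls at h
  have h1 : ∀ j, ((n * N : ℕ) : ℤ) ∣ w j - ((n : ℤ) • a) j := by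
    by_contra hc
    exact h (if_neg hc)
  have h2 : ∀ j, (n : ℤ) ∣ w j := by
    intro j
    have h3 : (n : ℤ) ∣ w j - ((n : ℤ) • a) j :=
      (Dvd.intro (N : ℤ) (by push_cast; ring)).trans (h1 j)
    rw [Pi.smul_apply, smul_eq_mul] at h3
    have h4 : (n : ℤ) ∣ (n : ℤ) * a j := Dvd.intro _ rfl
    have h5 := dvd_add h3 h4
    rwa [sub_add_cancel] at h5
  choose v hv using h2
  exact ⟨v, funext fun j => by rw [Pi.smul_apply, smul_eq_mul]; exact (hv j).symm⟩

end FRID_

open FRID_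

theorem frid_proof : Stmt_Frid.{u} := by
  intro F _ _ _ g t r n hn hr N a x _
  unfold th ser
  have hn' : (n : ℤ) ≠ 0 := by exact_mod_cast hn
  have hinj : Function.Injective fun w : Fin g → ℤ => (n : ℤ) • w := by
    intro w w' h
    funext j
    have := congrFun h j
    simp only [Pi.smul_apply, smul_eq_mul] at this
    exact mul_left_cancel₀ hn' this
  have hsupp : Function.support (fun w : Fin g → ℤ =>
      cls F (n * N) ((n : ℤ) • a) w * (kap r w * mon x w)) ⊆
      Set.range fun w : Fin g → ℤ => (n : ℤ) • w := by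
    intro w hw
    have h1 : cls F (n * N) ((n : ℤ) • a) w ≠ 0 := left_ne_zero_of_mul hw
    exact cls_supp F N a w h1
  rw [← hinj.tsum_eq hsupp]
  refine tsum_congr fun w => ?_
  rw [cls_smul F hn, kap_smul, mon_smul]
  have h1 : kap (fun i j => t i j ^ n) w = kap r w ^ (n ^ 2) := by
    rw [kap_pow, hr.kap, ← pow_mul, sq]
  have h2 : mon (fun i => x i ^ n) w = mon x w ^ n := mon_pow x n w
  rw [h1, h2, sq]
  norm_cast

end Pool.Agent.TDA
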