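import Pool.Agent.TDA.Stmts2
import Pool.Agent.CSM.IMAGE

/-!
# Module IMG: images over the tilt, for forms which are bounded below

Adapted from `Pool/Agent/CSM/IMAGE.lean`.
-/

set_option autoImplicit false
set_option linter.unusedSectionVars false
set_option linter.style.haveILetI false

noncomputable section

namespace Pool.Agent.TDA

open scoped Classical
open MvPolynomial Pool.Agent.LibDb3ab1 Pool.Agent.DC Pool.Agent.DC.MAINFX Pool.Agent.CSM

universe u

set_option maxHeartbeats 4000000 in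
theorem img_proof' (hPar : Stmt_ParC.{u}) (hEx : Stmt_ExYC.{u}) (hVac : Stmt_Vac.{u}) :
    Stmt_Img.{u} := by
  intro p _ K _ O _ _ b r n d 𝔓x h𝔓x1 h𝔓x2 h𝔓x3 hdn e0 he0 φ hφ' k₀ hunit M hkM
  have hp0 := b.hp0
  let grp := CSM.IMAGE.grp r
  let W := CSM.IMAGE.W r
  let e : Fin 1 → ℕ := fun _ => e0
  have he : 0 < ∑ i, e i := by simpa [e] using he0
  have hT : Tri grp W := CSM.IMAGE.tri r
  have hφ : ∀ l, MH W (φ l) e := fun l => CSM.IMAGE.MH_of_hom (hφ' l)
  have hp0O : (p : O) ≠ 0 := by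
    intro h
    apply hp0
    have := congrArg O.subtype h
    rwa [map_natCast, map_zero] at this
  have hpu : ¬IsUnit (p : O) := Fact.out
  -- the vacuous case
  by_cases hC : ∃ (C₀ : Type u) (_ : Field C₀) (_ : IsAlgClosed C₀) (ι : K →+* C₀)
      (V : ValuationSubring C₀) (_ : ValuedExt O ι V) (_ : Fact ¬IsUnit (p : V)),
      IsAdicComplete (Ideal.span {(p : V)}) V
  swap
  · obtain ⟨𝔓, h1, h2, h3⟩ := hVac (FractionRing (PreTilt O p)) n d hdn
    refine ⟨𝔓, h1, h2, h3, ?_⟩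
    intro C' _ _ ι V hV _ _ y hy hyP
    exact absurd ⟨C', inferInstance, inferInstance, ι, V, hV, inferInstance, inferInstance⟩ hC
  obtain ⟨C₀, _, _, ι₀, V₀, hV₀, _, _⟩ := hC
  -- the elements of the tilt
  have hFrob := b.hF
  obtain ⟨ϖ, u, hu, hϖ⟩ : ∃ (ϖ : PreTilt O p) (u : O), IsUnit u ∧
      (p : O) = u * PreTilt.untilt ϖ := ⟨b.ϖ, b.u, b.hu, b.hϖ⟩
  obtain ⟨υ, ξ, hυ, hξ, hθ, -⟩ := exists_xi hFrob hu hϖ
  have hϖ0 : ϖ ≠ 0 := by
    rintro rfl
    rw [untilt_zero, mul_zero] at hϖ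
    exact hp0O hϖ
  have hϖu : ¬IsUnit ϖ := by
    intro h
    apply hpu
    rw [hϖ]
    exact hu.mul (isUnit_untilt.mpr h)
  have hWpos : ∀ v, 0 < ∑ i, W i v := hT.sum_pos
  have he' : ∃ i, 0 < e i := ⟨0, he0⟩
  obtain ⟨Jg, fJg, Qx, dQx, hQx1, hQx2⟩ := exists_forms_k 𝔓x h𝔓x2
  let Cn : Jg → MvPolynomial (Fin (r + 1)) (FractionRing (PreTilt O p)) :=
    fun x => rename id (Qx x)
  have hCnQ : ∀ x, Cn x = Qx x := fun x => rename_id_apply _
  have hCn : ∀ x : Jg, MH W (Cn x) (fun _ => dQx x) :=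
    fun x => by rw [hCnQ]; exact CSM.IMAGE.MH_of_hom (hQx1 x).1
  -- lifts
  have hsurj := surjective_fontaineTheta (R := O) (p := p) hFrob
  choose φt hφt1 hφt2 using fun l => exists_lift_poly (WittVector.fontaineTheta O p) hsurj (φ l)
  have hφtH : ∀ l, MH W (φt l) e := fun l => (hφ l).of_support (hφt2 l)
  have hfH : ∀ l : Fin (n + 1), MH (WW W e n) (X (Sum.inr l) - rename Sum.inl (φt l)) e :=
    fun l => (MH_X_inr W e l).sub (hφtH l).rename_inl
  choose JG G hG1 hG2 hG3 using fun l =>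
    approx_witt (κ := Fin 1) (w := WW W e n) (e := e) he' hξ (hfH l) M
  choose NG ω T hω hGT using hG2
  have hωu : ∀ l, ¬IsUnit (ω l) := by
    intro l h
    apply hϖu
    rw [← hω l]
    exact h.pow _
  let φ0 : Fin (n + 1) → MvPolynomial (Fin (r + 1)) (PreTilt O p) :=
    fun l => MvPolynomial.map WittVector.constantCoeff (φt l)
  have hφ0 : ∀ l, MH W (φ0 l) e := fun l => (hφtH l).map _
  have hGT' : ∀ l, G l = (X (Sum.inr l) - rename Sum.inl (φ0 l)) ^ p ^ JG l + C (ω l) * T l := by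
    intro l
    rw [hGT l, map_sub, map_X, map_rename]
  -- the field `K♭`
  have hinjk : Function.Injective (algebraMap (PreTilt O p) (FractionRing (PreTilt O p))) :=
    IsFractionRing.injective _ _
  let κ : PreTilt O p →+* FractionRing (PreTilt O p) :=
    algebraMap (PreTilt O p) (FractionRing (PreTilt O p))
  haveI : Infinite (FractionRing (PreTilt O p)) := by
    apply Infinite.of_injective (fun j : ℕ => κ ϖ ^ j)
    intro a b hab
    by_contra hne
    have key : ∀ a b : ℕ, a < b → κ ϖ ^ a = κ ϖ ^ b → False := by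
      intro a b hlt hab
      obtain ⟨c, rfl⟩ := Nat.exists_eq_add_of_lt hlt
      have h1 : κ (ϖ ^ a * 1) = κ (ϖ ^ a * (ϖ ^ c * ϖ)) := by
        rw [mul_one, map_pow, hab, ← map_pow]
        congr 1
        ring
      have h2 := mul_left_cancel₀ (pow_ne_zero a hϖ0) (hinjk h1)
      exact hϖu (IsUnit.of_mul_eq_one (ϖ ^ c) (by rw [mul_comm]; exact h2.symm))
    rcases lt_or_gt_of_ne hne with h | h
    · exact key a b h hab
    · exact key b a h hab.symm
  let o : Fin 1 → Fin (r + 1) := fun _ => 0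
  obtain ⟨Pm, hPm1, hPm2⟩ := hPar (FractionRing (PreTilt O p)) 1 (Fin (r + 1)) grp W CSM.IMAGE.cst
    (fun _ => r) (fun _ => id) (CSM.IMAGE.fac r) o (CSM.IMAGE.ho r) (fun _ => 𝔓x) (fun _ => d)
    (fun i _ => ⟨h𝔓x1, h𝔓x2, h𝔓x3⟩) Jg Cn
    (fun x => ⟨0, by simp, Qx x, (hQx1 x).2, rfl⟩)
  let Fa : Empty → MvPolynomial (Fin (r + 1)) (PreTilt O p) := Empty.elim
  let DF : Empty → Fin 1 → ℕ := Empty.elim
  have hGk : ∀ l, MH (WW W e n) (MvPolynomial.map κ (G l)) (fun i => e i * p ^ JG l) :=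
    fun l => MH.map (fun i => hG1 l i) _
  let E := eNB CSM.IMAGE.cst (fun _ => d) (CSM.IMAGE.ho r)
  let β := CSM.IMAGE.bet r d
  have hmb' : ∀ (a : NB (oC CSM.IMAGE.cst (fun _ => d) (CSM.IMAGE.ho r))) (i : Fin 1),
      e0 * Pm.w a i +
        ∑ i', 0 * Pm.w (oC CSM.IMAGE.cst (fun _ => d) (CSM.IMAGE.ho r) i') i =
      Sum.elim DF (fun _ => e) ((E.symm.trans β) a) i := by
    intro a i
    obtain ⟨a, rfl⟩ := E.surjective a
    rw [Equiv.trans_apply, Equiv.symm_apply_apply]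
    have h1 : Pm.w (E a).1 i = 1 := by
      rw [w_eNB (CSM.IMAGE.ho r) (CSM.IMAGE.fac r) hPm1 hPm2]
    rw [h1]
    rcases β a with j | j
    · exact j.elim
    · simp [e]
  have hP2 : ∀ (E : Type u) [Field E] (f : FractionRing (PreTilt O p) →+* E)
      (x : Fin (n + 1) → E),
      (∀ l, eval₂ f (Sum.elim 0 x) (MvPolynomial.map κ (G l)) = 0) → x = 0 := by
    intro E _ f x hx
    have hinj : Function.Injective (f.comp κ) := by
      rw [RingHom.coe_comp]
      exact f.injective.comp hinjk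
    exact bad_P2 G (fun l => hG1 l) he φ0 hφ0 hωu T hGT' (f.comp κ) hinj x
      (fun l => by rw [← eval₂_map]; exact hx l)
  -- points over extensions
  have hstep : ∀ (C' : Type u) [Field C'] [IsAlgClosed C'] (ι : K →+* C')
      (V : ValuationSubring C') (hV : ValuedExt O ι V) [Fact ¬IsUnit (p : V)]
      [IsAdicComplete (Ideal.span {(p : V)}) V] (y : Fin (n + 1) → PreTilt V p)
      (ψ : FractionRing (PreTilt O p) →+* FractionRing (PreTilt V p)),
      ψ.comp κ = (algebraMap (PreTilt V p) (FractionRing (PreTilt V p))).comp (tmap hV.incl) →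
      IsAlgClosed (FractionRing (PreTilt V p)) →
      ∀ (z : Fin (r + 1) → FractionRing (PreTilt V p)) (c : FractionRing (PreTilt V p)), c ≠ 0 →
      Rel grp z → (∀ j, eval₂ ψ z (Cn j) = 0) →
      (∀ l, eval₂ ψ (Sum.elim z (fun l => c * algebraMap _ _ (y l)))
        (MvPolynomial.map κ (G l)) = 0) →
      ∃ (z' : Fin (r + 1) → PreTilt V p) (x' : Fin (n + 1) → V) (v : Fin (r + 1)) (c' : C'),
        c' ≠ 0 ∧ z' v = 1 ∧ TPt 𝔓x hV z' ∧
        (∀ l, (p : V) ^ M ∣ x' l - eval₂ hV.incl (fun t => PreTilt.untilt (z' t)) (φ l)) ∧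
        ∀ l, (x' l : C') = c' * ((PreTilt.untilt (y l) : V) : C') := by
    intro C' _ _ ι V hV _ _ y ψ hψ hac z c hc hz hCz hGz
    haveI := hac
    have hp0V : (p : V) ≠ 0 := hV.p_ne_zero hp0
    obtain ⟨zT, μ, x', v, c', hc', hv, hzv, hzT, hF'', hx', hxy⟩ := tilt_stepF (J := Empty) hT
      hWpos he hu hϖ hθ (m := M) (fun j => j.elim) φt (fun j => j.elim)
      (DF := DF) (fun j => j.elim) G (fun l => hG1 l) φ0 hφ0 hωu T hGT' (fun j => j.elim) hG3 ι V
      hp0V hV y (ψ := ψ.comp κ) hψ z c hc hz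
      (fun j => j.elim)
      (fun l => by rw [← eval₂_map]; exact hGz l)
    refine ⟨zT, x', v 0, c', hc', hzv 0, ?_, ?_, hxy⟩
    · intro F hF
      have hinj : Function.Injective (algebraMap (PreTilt V p) (FractionRing (PreTilt V p))) :=
        IsFractionRing.injective _ _
      apply hinj
      rw [map_zero, hom_eval₂, ← hψ, ← eval₂_map]
      refine hQx2 _ ψ _ ?_ _ hF
      intro j
      have h1 := eval₂_act (hCn j) ψ μ z
      rw [hCz j, mul_zero, hCnQ] at h1
      rw [← h1]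
      congr 1
      funext a
      exact hzT a
    · intro l
      have h1 := hx' l
      rw [hφt1] at h1
      exact h1
  have hlift : ∀ (C' : Type u) [Field C'] [IsAlgClosed C'] (ι : K →+* C')
      (V : ValuationSubring C') (hV : ValuedExt O ι V) [Fact ¬IsUnit (p : V)]
      [IsAdicComplete (Ideal.span {(p : V)}) V],
      IsAlgClosed (FractionRing (PreTilt V p)) ∧
      ∃ ψ : FractionRing (PreTilt O p) →+* FractionRing (PreTilt V p),
      ψ.comp κ = (algebraMap (PreTilt V p) (FractionRing (PreTilt V p))).comp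
        (tmap hV.incl) := by
    intro C' _ _ ι V hV _ _
    have hp0V : (p : V) ≠ 0 := hV.p_ne_zero hp0
    have hϖV : (p : V) = hV.incl u * PreTilt.untilt (tmap hV.incl ϖ) := by
      rw [untilt_tmap, ← map_mul, ← hϖ, map_natCast]
    refine ⟨tilt_isAlgClosed V (hu.map _) hp0V hϖV, ?_⟩
    have hinjt : Function.Injective (tmap (p := p) hV.incl) := tmap_injective hV
    exact exists_lift_hom (Q := FractionRing (PreTilt O p))
      (Q' := FractionRing (PreTilt V p)) (tmap (p := p) hV.incl) hinjt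
  -- no bad points
  have hP3 : ∀ (κ' : Type u) [Field κ'] (f : FractionRing (PreTilt O p) →+* κ')
      (z : Fin (r + 1) → κ'),
      Rel grp z → (∀ j, eval₂ f z (Cn j) = 0) →
      (∀ j, eval₂ f z (MvPolynomial.map κ (Fa j)) = 0) →
      (∀ l, eval₂ f (Sum.elim z 0) (MvPolynomial.map κ (G l)) = 0) → False := by
    intro κ' _ f z hz hCz _ hGz
    obtain ⟨hac, ψ, hψ⟩ := hlift C₀ ι₀ V₀ hV₀
    haveI := hac
    obtain ⟨z₁, x₁, hz₁, hTz⟩ := specialize_solution (grp := grp) (n := n) f ψ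
      (Sum.elim (fun j => rename Sum.inl (Cn j))
        (Sum.elim (fun l => MvPolynomial.map κ (G l)) (fun l => X (Sum.inr l))))
      (z := z) (x := 0) hz (by
        rintro (j | (l | l))
        · simp only [Sum.elim_inl]
          rw [eval₂_rename]
          exact hCz j
        · simp only [Sum.elim_inl, Sum.elim_inr]
          exact hGz l
        · simp only [Sum.elim_inr]
          rw [eval₂_X]
          rfl)
    have hC₁ : ∀ j, eval₂ ψ z₁ (Cn j) = 0 := by
      intro j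
      have h1 := hTz (Sum.inl j)
      simp only [Sum.elim_inl] at h1
      rw [eval₂_rename] at h1
      exact h1
    have hx₁ : x₁ = 0 := by
      funext l
      have h1 := hTz (Sum.inr (Sum.inr l))
      simp only [Sum.elim_inr] at h1
      rw [eval₂_X] at h1
      exact h1
    have hG₁ : ∀ l, eval₂ ψ (Sum.elim z₁ (fun l => 1 * algebraMap (PreTilt V₀ p)
        (FractionRing (PreTilt V₀ p)) ((0 : Fin (n + 1) → PreTilt V₀ p) l)))
        (MvPolynomial.map κ (G l)) = 0 := by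
      intro l
      have h1 := hTz (Sum.inr (Sum.inl l))
      simp only [Sum.elim_inr, Sum.elim_inl] at h1
      rw [hx₁] at h1
      rw [← h1]
      congr 1
      funext t
      rcases t with t | t
      · rfl
      · simp
    obtain ⟨z', x', v, c', hc', hz', hPz', hφz, hxy⟩ := hstep C₀ ι₀ V₀ hV₀ 0 ψ hψ hac z₁ 1
      one_ne_zero hz₁ hC₁ hG₁
    have hx'0 : ∀ l, x' l = 0 := by
      intro l
      apply Subtype.ext
      rw [hxy l, Pi.zero_apply, untilt_zero]
      simp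
    obtain ⟨l, hl⟩ := hunit C₀ ι₀ V₀ hV₀ z' ⟨v, hz'⟩ hPz'
    have h2 := hφz l
    rw [hx'0 l, zero_sub, dvd_neg] at h2
    have h3 : (p : V₀) ^ M ∣ (p : V₀) ^ k₀ := h2.trans hl
    obtain ⟨j, rfl⟩ : ∃ j, M = k₀ + (j + 1) := ⟨M - k₀ - 1, by omega⟩
    obtain ⟨w, hw⟩ := h3
    have hpV : (p : V₀) ≠ 0 := hV₀.p_ne_zero hp0
    have h4 : (1 : V₀) = (p : V₀) * ((p : V₀) ^ j * w) := by
      have h5 : (p : V₀) ^ k₀ * 1 = (p : V₀) ^ k₀ * ((p : V₀) * ((p : V₀) ^ j * w)) := by
        rw [mul_one]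
        calc (p : V₀) ^ k₀ = (p : V₀) ^ (k₀ + (j + 1)) * w := hw
          _ = _ := by ring
      exact mul_left_cancel₀ (pow_ne_zero k₀ hpV) h5
    exact (Fact.out : ¬IsUnit (p : V₀)) (IsUnit.of_mul_eq_one _ h4.symm)
  obtain ⟨𝔓, h𝔓1, h𝔓2, h𝔓3, h𝔓4⟩ := hEx 1 n d (Fin (r + 1)) grp W e Empty Jg
    (PiC grp CSM.IMAGE.cst (fun _ => d)) (oC CSM.IMAGE.cst (fun _ => d) (CSM.IMAGE.ho r))
    (FractionRing (PreTilt O p)) Cn _ Pm hCn hT he
    (fun j => MvPolynomial.map κ (Fa j)) DF (fun j => j.elim)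
    (fun l => MvPolynomial.map κ (G l))
    (fun l => p ^ JG l) (fun l => pow_pos (Fact.out : p.Prime).pos _) hGk (E.symm.trans β)
    (fun _ => e0) (fun _ _ => 0) (fun a => he0) hmb' hP2 hP3
  refine ⟨𝔓, h𝔓1, h𝔓2, h𝔓3, ?_⟩
  intro C' _ _ ι V hV _ _ y hy hyP
  obtain ⟨hac, ψ, hψκ⟩ := hlift C' ι V hV
  haveI := hac
  have hinjV : Function.Injective (algebraMap (PreTilt V p) (FractionRing (PreTilt V p))) :=
    IsFractionRing.injective _ _
  obtain ⟨z, c, hc, hz, hCz, hFz, hGz⟩ := h𝔓4 (FractionRing (PreTilt V p)) ψ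
    (fun l => algebraMap (PreTilt V p) (FractionRing (PreTilt V p)) (y l)) (by
      intro h0
      apply hy
      funext l
      apply hinjV
      rw [Pi.zero_apply, map_zero]
      exact congrFun h0 l)
    (eval_zero_of_integral 𝔓 (tmap hV.incl) ψ hψκ y hyP)
  obtain ⟨z', x', v, c', hc', hz', hPz', hφz, hxy⟩ := hstep C' ι V hV y ψ hψκ hac z c hc hz
    hCz hGz
  exact ⟨z', v, x', c', hc', hz', hPz',
    hφz, hxy⟩

theorem img_proof : Stmt_Img.{u} :=
  img_proof' parc_proof (exyc_proof (homc_proof hom1_proof)) vac_proof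

end Pool.Agent.TDA
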