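import Pool.Agent.TDA.Stmts

/-!
# Totally degenerate abelian varieties, module IND: algebraic independence of the theta functions of
the classes `0, e_1, ..., e_g` over fields of characteristic `p`
-/

set_option autoImplicit false
set_option linter.unusedSectionVars false

noncomputable section

namespace Pool.Agent.TDA

open scoped Classical
open MvPolynomial

universe u

namespace IND

/-! ### Polynomials with small values -/

section poly

variable {F : Type u} [NormedField F] [IsUltrametricDist F]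

theorem sub_le_max (a b : F) : ‖a - b‖ ≤ max ‖a‖ ‖b‖ := by
  rw [sub_eq_add_neg, ← norm_neg b]
  exact IsUltrametricDist.norm_add_le_max _ _

theorem sum_lt {ι : Type*} (s : Finset ι) (f : ι → F) (h : ∀ i ∈ s, ‖f i‖ < 1) :
    ‖∑ i ∈ s, f i‖ < 1 := by
  rcases s.eq_empty_or_nonempty with rfl | hs
  · simp
  · obtain ⟨i, hi, h1⟩ := IsUltrametricDist.exists_norm_finsetSum_le_of_nonempty hs f
    exact h1.trans_lt (h i hi)

theorem poly1 {S : Set F} (hS : S.Infinite) (h1 : ∀ s ∈ S, ‖s‖ = 1)
    (h2 : ∀ s ∈ S, ∀ s' ∈ S, s ≠ s' → ‖s - s'‖ = 1) (d : ℕ) :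
    ∀ f : Polynomial F, f.degree < d → (∀ s ∈ S, ‖f.eval s‖ < 1) → ∀ j, ‖f.coeff j‖ < 1 := by
  induction d with
  | zero =>
    intro f hf _ j
    have : f = 0 := by
      rw [Polynomial.degree_lt_iff_coeff_zero] at hf
      ext j
      exact hf j (Nat.zero_le _)
    rw [this, Polynomial.coeff_zero, norm_zero]
    exact one_pos
  | succ d ih =>
    intro f hf hval
    obtain ⟨s, hs, hcard⟩ := hS.exists_subset_card_eq (d + 1)
    have hlead : ‖f.coeff d‖ < 1 := by
      have h3 := Lagrange.coeff_eq_sum (s := s) (v := (id : F → F))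
        (Set.injOn_id _) (P := f) (by rw [hcard]; exact hf)
      rw [hcard, Nat.add_sub_cancel] at h3
      rw [h3]
      apply sum_lt
      intro i hi
      rw [norm_div, norm_prod]
      have h4 : ∏ j ∈ s.erase i, ‖id i - id j‖ = 1 := by
        apply Finset.prod_eq_one
        intro j hj
        obtain ⟨hj1, hj2⟩ := Finset.mem_erase.1 hj
        exact h2 i (hs hi) j (hs hj2) (Ne.symm hj1)
      rw [h4, div_one]
      exact hval i (hs hi)
    have h5 := ih (f - Polynomial.monomial d (f.coeff d)) (by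
      rw [Polynomial.degree_lt_iff_coeff_zero] at hf ⊢
      intro j hj
      rw [Polynomial.coeff_sub, Polynomial.coeff_monomial]
      split_ifs with h6
      · rw [← h6, sub_self]
      · rw [hf j (by omega), sub_zero]) (by
      intro s hs
      rw [Polynomial.eval_sub, Polynomial.eval_monomial]
      refine (sub_le_max _ _).trans_lt (max_lt (hval s hs) ?_)
      rw [norm_mul, norm_pow, h1 s hs, one_pow, mul_one]
      exact hlead)
    intro j
    have h6 := h5 j
    rw [Polynomial.coeff_sub, Polynomial.coeff_monomial] at h6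
    split_ifs at h6 with h7
    · rw [← h7]
      exact hlead
    · rwa [sub_zero] at h6

theorem polyn {S : Set F} (hS : S.Infinite) (h1 : ∀ s ∈ S, ‖s‖ = 1)
    (h2 : ∀ s ∈ S, ∀ s' ∈ S, s ≠ s' → ‖s - s'‖ = 1) (n : ℕ) :
    ∀ P : MvPolynomial (Fin n) F, (∀ x : Fin n → F, (∀ i, x i ∈ S) → ‖eval x P‖ < 1) →
      ∀ m, ‖coeff m P‖ < 1 := by
  induction n with
  | zero =>
    intro P h m
    have h3 := h (fun i => i.elim0) (fun i => i.elim0)
    rw [eq_C_of_isEmpty P, eval_C] at h3
    have h4 : m = 0 := Subsingleton.elim _ _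
    rw [h4]
    exact h3
  | succ n ih =>
    intro P h m
    have h3 : ∀ j, ∀ m : Fin n →₀ ℕ, ‖coeff m ((finSuccEquiv F n P).coeff j)‖ < 1 := by
      intro j
      apply ih
      intro x hx
      have h4 := poly1 hS h1 h2
        ((Polynomial.map (eval x) (finSuccEquiv F n P)).natDegree + 1)
        (Polynomial.map (eval x) (finSuccEquiv F n P))
        (lt_of_le_of_lt Polynomial.degree_le_natDegree (by exact_mod_cast Nat.lt_succ_self _))
        (fun s hs => by
          rw [← eval_eq_eval_mv_eval']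
          apply h
          intro i
          refine Fin.cases ?_ ?_ i
          · exact hs
          · intro i
            rw [Fin.cons_succ]
            exact hx i) j
      rwa [Polynomial.coeff_map] at h4
    have h5 := h3 (m 0) m.tail
    rwa [finSuccEquiv_coeff_coeff, Finsupp.cons_tail] at h5

theorem polys {S : Set F} (hS : S.Infinite) (h1 : ∀ s ∈ S, ‖s‖ = 1)
    (h2 : ∀ s ∈ S, ∀ s' ∈ S, s ≠ s' → ‖s - s'‖ = 1) {σ : Type} [Fintype σ]
    (P : MvPolynomial σ F) (h : ∀ x : σ → F, (∀ i, x i ∈ S) → ‖eval x P‖ < 1)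
    (m : σ →₀ ℕ) : ‖coeff m P‖ < 1 := by
  let e := Fintype.equivFin σ
  have h3 := polyn hS h1 h2 (Fintype.card σ) (rename e P) (fun x hx => by
    rw [eval_rename]
    exact h _ fun i => hx _) (Finsupp.mapDomain e m)
  rwa [coeff_rename_mapDomain e e.injective] at h3

theorem pow_sub {a b : F} {ε : ℝ} (hε : 0 ≤ ε) (ha : ‖a‖ ≤ 1) (hb : ‖b‖ ≤ 1)
    (h : ‖a - b‖ ≤ ε) (n : ℕ) : ‖a ^ n - b ^ n‖ ≤ ε := by
  induction n with
  | zero => simpa using hε
  | succ n ih =>
    have h1 : a ^ (n + 1) - b ^ (n + 1) = a ^ n * (a - b) + (a ^ n - b ^ n) * b := by ring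
    rw [h1]
    refine (IsUltrametricDist.norm_add_le_max _ _).trans (max_le ?_ ?_)
    · rw [norm_mul, norm_pow]
      exact (mul_le_mul (pow_le_one₀ (norm_nonneg _) ha) h (norm_nonneg _) zero_le_one).trans
        (by rw [one_mul])
    · rw [norm_mul]
      exact (mul_le_mul ih hb (norm_nonneg _) hε).trans (by rw [mul_one])

theorem prod_sub {ι : Type*} (s : Finset ι) (a b : ι → F) {ε : ℝ} (hε : 0 ≤ ε)
    (ha : ∀ i, ‖a i‖ ≤ 1) (hb : ∀ i, ‖b i‖ ≤ 1) (h : ∀ i, ‖a i - b i‖ ≤ ε) :
    ‖∏ i ∈ s, a i - ∏ i ∈ s, b i‖ ≤ ε := by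
  induction s using Finset.induction_on with
  | empty => simpa using hε
  | insert i s hi ih =>
    rw [Finset.prod_insert hi, Finset.prod_insert hi]
    have h1 : a i * ∏ j ∈ s, a j - b i * ∏ j ∈ s, b j =
        a i * (∏ j ∈ s, a j - ∏ j ∈ s, b j) + (a i - b i) * ∏ j ∈ s, b j := by ring
    rw [h1]
    refine (IsUltrametricDist.norm_add_le_max _ _).trans (max_le ?_ ?_)
    · rw [norm_mul]
      exact (mul_le_mul (ha i) ih (norm_nonneg _) zero_le_one).trans (by rw [one_mul])
    · rw [norm_mul, norm_prod]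
      exact (mul_le_mul (h i) (Finset.prod_le_one (fun _ _ => norm_nonneg _) fun j _ => hb j)
        (Finset.prod_nonneg fun _ _ => norm_nonneg _) hε).trans (by rw [mul_one])

theorem eval_sub {σ : Type} [Fintype σ] (P : MvPolynomial σ F) (hP : ∀ m, ‖coeff m P‖ ≤ 1)
    (a b : σ → F) {ε : ℝ} (hε : 0 ≤ ε) (ha : ∀ i, ‖a i‖ ≤ 1) (hb : ∀ i, ‖b i‖ ≤ 1)
    (h : ∀ i, ‖a i - b i‖ ≤ ε) : ‖eval a P - eval b P‖ ≤ ε := by
  rw [eval_eq', eval_eq', ← Finset.sum_sub_distrib]
  apply IsUltrametricDist.norm_sum_le_of_forall_le_of_nonneg hε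
  intro m _
  rw [← mul_sub, norm_mul]
  have h1 : ‖∏ i, a i ^ m i - ∏ i, b i ^ m i‖ ≤ ε := by
    apply prod_sub _ _ _ hε
    · intro i
      rw [norm_pow]
      exact pow_le_one₀ (norm_nonneg _) (ha i)
    · intro i
      rw [norm_pow]
      exact pow_le_one₀ (norm_nonneg _) (hb i)
    · intro i
      exact pow_sub hε (ha i) (hb i) (h i) _
  exact (mul_le_mul (hP m) h1 (norm_nonneg _) zero_le_one).trans (by rw [one_mul])

end poly

/-! ### The elements of finite fields -/

section fin

variable {F : Type u} [NormedField F] [IsUltrametricDist F]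

/-- The nonzero elements of the finite subfields. -/
def SF (F : Type u) [Field F] (p : ℕ) : Set F := {s | s ≠ 0 ∧ ∃ k : ℕ, k ≠ 0 ∧ s ^ p ^ k = s}

theorem iter_pow {p k : ℕ} {s : F} (h : s ^ p ^ k = s) (l : ℕ) : s ^ p ^ (k * l) = s := by
  induction l with
  | zero => simp
  | succ l ih => rw [Nat.mul_succ, pow_add, pow_mul, ih, h]

theorem SF_norm {p : ℕ} (hp : p.Prime) (s : F) (hs : s ∈ SF F p) : ‖s‖ = 1 := by
  obtain ⟨h0, k, hk, h⟩ := hs
  have h1 : 1 < p ^ k := Nat.one_lt_pow hk hp.one_lt
  have h2 : s ^ (p ^ k - 1) = 1 := by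
    have h3 : s ^ (p ^ k - 1) * s = 1 * s := by
      rw [← pow_succ, Nat.sub_add_cancel h1.le, h, one_mul]
    exact mul_right_cancel₀ h0 h3
  have h3 : ‖s‖ ^ (p ^ k - 1) = 1 := by rw [← norm_pow, h2, norm_one]
  exact (pow_eq_one_iff_of_nonneg (norm_nonneg _) (by omega)).1 h3

theorem SF_sub {p : ℕ} [hp : Fact p.Prime] [CharP F p] (s : F) (hs : s ∈ SF F p) (s' : F)
    (hs' : s' ∈ SF F p) (hne : s ≠ s') : ‖s - s'‖ = 1 := by
  apply SF_norm hp.out
  obtain ⟨_, k, hk, h⟩ := hs
  obtain ⟨_, l, hl, h'⟩ := hs'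
  refine ⟨sub_ne_zero.2 hne, k * l, Nat.mul_ne_zero hk hl, ?_⟩
  rw [sub_pow_char_pow, iter_pow h, mul_comm k l, iter_pow h']

theorem SF_inf {p : ℕ} [hp : Fact p.Prime] [CharP F p] [IsAlgClosed F] : (SF F p).Infinite := by
  intro hfin
  have hfin' : (SF F p ∪ {0}).Finite := hfin.union (Set.finite_singleton 0)
  set k := hfin'.toFinset.card with hk
  have hsep := galois_poly_separable (K := F) p (p ^ (k + 1)) (dvd_pow_self p (Nat.succ_ne_zero k))
  have hdeg : (Polynomial.X ^ p ^ (k + 1) - Polynomial.X : Polynomial F).natDegree =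
      p ^ (k + 1) := FiniteField.X_pow_card_sub_X_natDegree_eq F
        (Nat.one_lt_pow (Nat.succ_ne_zero k) hp.out.one_lt)
  have hne : (Polynomial.X ^ p ^ (k + 1) - Polynomial.X : Polynomial F) ≠ 0 := by
    intro h
    rw [h, Polynomial.natDegree_zero] at hdeg
    exact (pow_ne_zero _ hp.out.ne_zero) hdeg.symm
  have hroots : (Polynomial.X ^ p ^ (k + 1) - Polynomial.X : Polynomial F).roots.toFinset.card =
      p ^ (k + 1) := by
    rw [Multiset.toFinset_card_of_nodup (Polynomial.nodup_roots hsep)]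
    exact (IsAlgClosed.splits
      (Polynomial.X ^ p ^ (k + 1) - Polynomial.X : Polynomial F)).natDegree_eq_card_roots.symm.trans
        hdeg
  have hsub : (Polynomial.X ^ p ^ (k + 1) - Polynomial.X : Polynomial F).roots.toFinset ⊆
      hfin'.toFinset := by
    intro s hs
    rw [Multiset.mem_toFinset, Polynomial.mem_roots hne, Polynomial.IsRoot.def,
      Polynomial.eval_sub, Polynomial.eval_pow, Polynomial.eval_X, sub_eq_zero] at hs
    rw [Set.Finite.mem_toFinset]
    by_cases h0 : s = 0
    · exact Or.inr h0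
    · exact Or.inl ⟨h0, k + 1, Nat.succ_ne_zero k, hs⟩
  have h1 := Finset.card_le_card hsub
  rw [hroots, ← hk] at h1
  have h2 : k + 1 < p ^ (k + 1) := Nat.lt_pow_self hp.out.one_lt
  omega

end fin

/-! ### The theta functions at points of norm one -/

theorem est (hSumm : Stmt_Summ.{u}) {F : Type u} [NormedField F] [IsUltrametricDist F]
    [CompleteSpace F] {g : ℕ} {t : Fin g → Fin g → F} {lam Lam : ℝ} (H : TP t lam Lam) (N : ℕ)
    (_hN : 2 ≤ N) (a : Fin g → ℤ) (ha : ‖rv a‖ ≤ 1) (x : Fin g → F) (hx : ∀ i, ‖x i‖ = 1) :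
    ‖th t N a x - kap t a * mon x a‖ ≤
      ‖kap t a‖ * Real.exp (2 * Lam - (N : ℝ) ^ 2 * lam / 2) := by
  have hx0 : ∀ i, x i ≠ 0 := fun i h => by
    have := hx i
    rw [h, norm_zero] at this
    exact zero_ne_one this
  have hmon : ∀ w, ‖mon x w‖ = 1 := by
    intro w
    unfold mon
    rw [norm_prod]
    apply Finset.prod_eq_one
    intro i _
    rw [norm_zpow, hx i, one_zpow]
  have hLam : QF (qf t) (rv a) ≤ Lam := by
    have h1 := H.hi (rv a)
    have h2 : ‖rv a‖ ^ 2 ≤ 1 := pow_le_one₀ (norm_nonneg _) ha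
    have h3 : 0 ≤ Lam := H.pos.le.trans H.le
    nlinarith
  have hs : Summable fun w : Fin g → ℤ => cls F N a w * (kap t w * mon x w) := by
    refine (hSumm F g t lam Lam H x hx0).2 (cls F N a) 1 fun w => ?_
    unfold cls
    split_ifs <;> simp
  have h1 := hs.tsum_eq_add_tsum_ite a
  have h2 : cls F N a a = 1 := if_pos fun j => by simp
  rw [h2, one_mul] at h1
  have h3 : th t N a x - kap t a * mon x a = ∑' w : Fin g → ℤ, if w = a then 0 else
      cls F N a w * (kap t w * mon x w) := by
    unfold th ser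
    rw [h1, add_sub_cancel_left]
  rw [h3]
  apply IsUltrametricDist.norm_tsum_le_of_forall_le_of_nonneg
  · positivity
  · intro w
    by_cases hw : w = a
    · rw [if_pos hw, norm_zero]
      positivity
    · rw [if_neg hw, norm_mul, norm_mul, hmon, mul_one]
      by_cases hc : ∀ j, (N : ℤ) ∣ w j - a j
      · have hc1 : cls F N a w = 1 := if_pos hc
        rw [hc1, norm_one, one_mul, norm_kap H.ne, norm_kap H.ne, ← Real.exp_add]
        apply Real.exp_le_exp.2
        choose v hv using hc
        have h4 : w = (N : ℤ) • v + a := by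
          funext j
          simp only [Pi.add_apply, Pi.smul_apply, smul_eq_mul]
          linarith [hv j]
        have hv0 : v ≠ 0 := by
          rintro rfl
          apply hw
          rw [h4, smul_zero, zero_add]
        have h5 := H.half (rv ((N : ℤ) • v)) (rv a)
        rw [← rv_add, ← h4, rv_smul, QF_smul] at h5
        have h6 := H.lo (rv v)
        have h7 : 1 ≤ ‖rv v‖ ^ 2 := one_le_pow₀ (one_le_norm_rv hv0)
        have h8 : lam ≤ QF (qf t) (rv v) := by
          have := H.pos
          nlinarith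
        have h9 : (N : ℝ) ^ 2 * lam ≤ (N : ℝ) ^ 2 * QF (qf t) (rv v) :=
          mul_le_mul_of_nonneg_left h8 (sq_nonneg _)
        have h10 : (((N : ℤ) : ℝ)) ^ 2 = (N : ℝ) ^ 2 := by push_cast; rfl
        rw [h10] at h5
        linarith
      · have hc1 : cls F N a w = 0 := if_neg hc
        rw [hc1, norm_zero, zero_mul]
        positivity

end IND

open IND in
theorem ind_proof (hSumm : Stmt_Summ.{u}) : Stmt_Ind.{u} := by
  intro F _ _ _ _ p hp _ g t lam Lam H N hN hlam G hG
  have : NeZero N := ⟨by omega⟩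
  by_contra hG0
  -- the classes
  let a : Option (Fin g) → Fin g → ℤ := fun o => o.elim 0 fun i => Pi.single i 1
  have ha : ∀ o, ‖rv (a o)‖ ≤ 1 := by
    intro o
    rw [pi_norm_le_iff_of_nonneg zero_le_one]
    intro j
    cases o with
    | none => simp [a, rv]
    | some i =>
      simp only [a, rv, Option.elim_some]
      by_cases hij : j = i
      · subst hij; simp
      · simp [hij]
  let s : Option (Fin g) → F := fun o => kap t (a o)
  have hs0 : ∀ o, s o ≠ 0 := fun o => kap_ne H.ne _
  have hvan : ∀ (c : F) (x : Fin g → F), (∀ i, x i ≠ 0) →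
      eval (fun o => c * th t N (a o) x) G = 0 := by
    intro c x hx
    unfold VI at hG
    rw [Ideal.mem_iInf] at hG
    have h1 := hG c
    rw [Ideal.mem_iInf] at h1
    have h2 := h1 ⟨x, hx⟩
    rw [RingHom.mem_ker, eval_rename] at h2
    rw [← h2]
    congr 2
    funext o
    cases o with
    | none =>
      show c * th t N 0 x = c * thv t N x (cl N 0)
      rw [thv_cl]
    | some i =>
      show c * th t N (Pi.single i 1) x = c * thv t N x (cl N (Pi.single i 1))
      rw [thv_cl]
  -- the largest coefficient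
  let sm : (Option (Fin g) →₀ ℕ) → F := fun m => ∏ o, s o ^ m o
  obtain ⟨m0, hm0, hmax⟩ := Finset.exists_max_image G.support
    (fun m => ‖coeff m G * sm m‖) (MvPolynomial.support_nonempty.2 hG0)
  set A : F := coeff m0 G * sm m0 with hA
  have hsm : ∀ m, sm m ≠ 0 := fun m => Finset.prod_ne_zero_iff.2 fun o _ => pow_ne_zero _ (hs0 o)
  have hA0 : A ≠ 0 := mul_ne_zero (mem_support_iff.1 hm0) (hsm m0)
  let P : MvPolynomial (Option (Fin g)) F :=
    ∑ m ∈ G.support, monomial m (A⁻¹ * (coeff m G * sm m))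
  have hcoeff : ∀ m, coeff m P = A⁻¹ * (coeff m G * sm m) := by
    intro m
    simp only [P]
    rw [coeff_sum]
    simp only [coeff_monomial]
    rw [Finset.sum_ite_eq' G.support m]
    split_ifs with h1
    · rfl
    · rw [notMem_support_iff.1 h1, zero_mul, mul_zero]
  have heval : ∀ y : Option (Fin g) → F, eval y P = A⁻¹ * eval (fun o => s o * y o) G := by
    intro y
    simp only [P]
    rw [map_sum, eval_eq', Finset.mul_sum]
    refine Finset.sum_congr rfl fun m _ => ?_
    rw [eval_monomial, Finsupp.prod_fintype _ _ (fun o => pow_zero _)]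
    simp only [mul_pow, Finset.prod_mul_distrib, sm]
    ring
  have hP1 : ∀ m, ‖coeff m P‖ ≤ 1 := by
    intro m
    rw [hcoeff, norm_mul, norm_inv]
    by_cases h1 : m ∈ G.support
    · have h2 := hmax m h1
      have h3 : 0 < ‖A‖ := norm_pos_iff.2 hA0
      rw [inv_mul_le_iff₀ h3, mul_one]
      exact h2
    · rw [notMem_support_iff.1 h1, zero_mul, norm_zero, mul_zero]
      exact zero_le_one
  set ε : ℝ := Real.exp (2 * Lam - (N : ℝ) ^ 2 * lam / 2) with hε
  have hε1 : ε < 1 := by
    rw [hε, Real.exp_lt_one_iff]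
    linarith
  have hε0 : 0 ≤ ε := (Real.exp_pos _).le
  have hval : ∀ y : Option (Fin g) → F, (∀ o, y o ∈ SF F p) → ‖eval y P‖ < 1 := by
    intro y hy
    have hy1 : ∀ o, ‖y o‖ = 1 := fun o => SF_norm hp.out _ (hy o)
    have hy0 : ∀ o, y o ≠ 0 := fun o => (hy o).1
    let x : Fin g → F := fun i => y (some i) / y none
    have hx1 : ∀ i, ‖x i‖ = 1 := fun i => by
      show ‖y (some i) / y none‖ = 1
      rw [norm_div, hy1, hy1, div_one]
    have hx0 : ∀ i, x i ≠ 0 := fun i => div_ne_zero (hy0 _) (hy0 _)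
    have hmon : ∀ o, y none * mon x (a o) = y o := by
      intro o
      cases o with
      | none =>
        show y none * mon x 0 = y none
        rw [mon_zero, mul_one]
      | some i =>
        show y none * mon x (Pi.single i 1) = y (some i)
        have h1 : mon x (Pi.single i 1) = x i := by
          unfold mon
          rw [Finset.prod_eq_single i]
          · simp
          · intro j _ hj
            simp [hj]
          · intro h
            exact absurd (Finset.mem_univ _) h
        rw [h1]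
        show y none * (y (some i) / y none) = y (some i)
        field_simp [hy0 none]
    let b : Option (Fin g) → F := fun o => y none * th t N (a o) x / s o
    have hb : eval b P = 0 := by
      rw [heval]
      have h1 : (fun o => s o * b o) = fun o => y none * th t N (a o) x := by
        funext o
        show s o * (y none * th t N (a o) x / s o) = _
        field_simp [hs0 o]
      rw [h1, hvan _ x hx0, mul_zero]
    have hyb : ∀ o, ‖y o - b o‖ ≤ ε := by
      intro o
      have h1 := est hSumm H N hN (a o) (ha o) x hx1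
      have h2 : y o - b o = -(y none * (th t N (a o) x - kap t (a o) * mon x (a o)) / s o) := by
        show y o - y none * th t N (a o) x / s o = _
        have h3 : y o = y none * (kap t (a o) * mon x (a o)) / s o := by
          rw [mul_left_comm, hmon o]
          show y o = s o * y o / s o
          rw [mul_div_cancel_left₀ _ (hs0 o)]
        rw [h3]
        ring
      rw [h2, norm_neg, norm_div, norm_mul, hy1, one_mul]
      rw [div_le_iff₀ (norm_pos_iff.2 (hs0 o)), mul_comm ε]
      exact h1
    have hb1 : ∀ o, ‖b o‖ ≤ 1 := by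
      intro o
      have h1 : b o = y o - (y o - b o) := by ring
      rw [h1]
      exact (sub_le_max _ _).trans
        (max_le (hy1 o).le ((hyb o).trans hε1.le))
    have h1 := eval_sub P hP1 y b hε0 (fun o => (hy1 o).le) hb1 hyb
    rw [hb, sub_zero] at h1
    exact h1.trans_lt hε1
  have hfin := polys (SF_inf (F := F) (p := p)) (fun s hs => SF_norm hp.out s hs)
    (fun s hs s' hs' hne => SF_sub s hs s' hs' hne) P hval m0
  rw [hcoeff, ← hA, inv_mul_cancel₀ hA0, norm_one] at hfin
  exact lt_irrefl _ hfin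

end Pool.Agent.TDA
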