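import Pool.Agent.TDA.Stmts

/-!
# ITER: iteration along the tower
-/

set_option autoImplicit false
set_option linter.unusedSectionVars false

noncomputable section

namespace Pool.Agent.TDA

open scoped Classical
open MvPolynomial

universe u

namespace ITER

section poly

variable {F : Type u} [NormedField F] [IsUltrametricDist F] {σ : Type}

/-- Polynomials with coefficients of norm at most one. -/
def bdd (F : Type u) [NormedField F] [IsUltrametricDist F] (σ : Type) :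
    Subring (MvPolynomial σ F) where
  carrier := {P | ∀ n, ‖P.coeff n‖ ≤ 1}
  mul_mem' := by
    intro a b ha hb n
    rw [coeff_mul]
    refine IsUltrametricDist.norm_sum_le_of_forall_le_of_nonneg zero_le_one fun x _ => ?_
    rw [norm_mul]
    exact mul_le_one₀ (ha _) (norm_nonneg _) (hb _)
  one_mem' := by
    intro n
    rw [coeff_one]
    split_ifs <;> simp
  add_mem' := by
    intro a b ha hb n
    rw [coeff_add]
    exact (IsUltrametricDist.norm_add_le_max _ _).trans (max_le (ha n) (hb n))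
  zero_mem' := by
    intro n
    simp
  neg_mem' := by
    intro a ha n
    rw [coeff_neg, norm_neg]
    exact ha n

theorem mem_bdd {P : MvPolynomial σ F} : P ∈ bdd F σ ↔ ∀ n, ‖P.coeff n‖ ≤ 1 := Iff.rfl

theorem C_mem {c : F} (hc : ‖c‖ ≤ 1) : (C c : MvPolynomial σ F) ∈ bdd F σ := by
  intro n
  rw [coeff_C]
  split_ifs
  · exact hc
  · simp

theorem X_mem (i : σ) : (X i : MvPolynomial σ F) ∈ bdd F σ := by
  intro n
  rw [coeff_X]
  split_ifs <;> simp

theorem bind_mem {f : σ → MvPolynomial σ F} (hf : ∀ i, f i ∈ bdd F σ) {P : MvPolynomial σ F}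
    (hP : P ∈ bdd F σ) : bind₁ f P ∈ bdd F σ := by
  have h : bind₁ f P = ∑ m ∈ P.support, C (P.coeff m) * ∏ i ∈ m.support, f i ^ m i := by
    rw [bind₁, aeval_def, eval₂_eq]
    rfl
  rw [h]
  exact Subring.sum_mem _ fun m _ => Subring.mul_mem _ (C_mem (hP m))
    (Subring.prod_mem _ fun i _ => Subring.pow_mem _ (hf i) _)

end poly

section lip

variable {C : Type u} [NormedField C] [IsUltrametricDist C]

/-- Pairs of elements of norm at most one and distance at most `ρ`. -/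
def near (C : Type u) [NormedField C] [IsUltrametricDist C] {ρ : ℝ} (hρ : 0 ≤ ρ) :
    Submonoid (C × C) where
  carrier := {x | ‖x.1‖ ≤ 1 ∧ ‖x.2‖ ≤ 1 ∧ ‖x.1 - x.2‖ ≤ ρ}
  mul_mem' := by
    rintro ⟨a, b⟩ ⟨c, d⟩ ⟨ha, hb, hab⟩ ⟨hc, hd, hcd⟩
    simp only [Set.mem_ofPred_eq, Prod.mk_mul_mk, norm_mul] at *
    refine ⟨mul_le_one₀ ha (norm_nonneg _) hc, mul_le_one₀ hb (norm_nonneg _) hd, ?_⟩
    have h : a * c - b * d = (a - b) * c + b * (c - d) := by ring
    rw [h]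
    refine (IsUltrametricDist.norm_add_le_max _ _).trans (max_le ?_ ?_)
    · rw [norm_mul]
      calc _ ≤ ρ * 1 := mul_le_mul hab hc (norm_nonneg _) hρ
        _ = ρ := mul_one ρ
    · rw [norm_mul]
      calc _ ≤ 1 * ρ := mul_le_mul hb hcd (norm_nonneg _) zero_le_one
        _ = ρ := one_mul ρ
  one_mem' := by simp [hρ]

theorem mem_near {ρ : ℝ} (hρ : 0 ≤ ρ) {a b : C} (ha : ‖a‖ ≤ 1) (hb : ‖b‖ ≤ 1)
    (hab : ‖a - b‖ ≤ ρ) : (a, b) ∈ near C hρ := ⟨ha, hb, hab⟩

theorem sub_le_max (a b : C) : ‖a - b‖ ≤ max ‖a‖ ‖b‖ := by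
  have h := IsUltrametricDist.norm_add_le_max a (-b)
  rwa [norm_neg, ← sub_eq_add_neg] at h

variable {F : Type u} [NormedField F] {ι : F →+* C} {σ : Type}

theorem eval_le (hι : Iso ι) {c : ℝ} (hc : 0 ≤ c) {G : MvPolynomial σ F}
    (hG : ∀ n, ‖G.coeff n‖ ≤ c) {P : σ → C} (hP : ∀ i, ‖P i‖ ≤ 1) : ‖eval₂ ι P G‖ ≤ c := by
  rw [eval₂_eq]
  refine IsUltrametricDist.norm_sum_le_of_forall_le_of_nonneg hc fun m _ => ?_
  rw [norm_mul, hι, norm_prod]
  calc _ ≤ c * 1 := by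
        refine mul_le_mul (hG m) ?_ (Finset.prod_nonneg fun i _ => norm_nonneg _) hc
        refine Finset.prod_le_one (fun i _ => norm_nonneg _) fun i _ => ?_
        rw [norm_pow]
        exact pow_le_one₀ (norm_nonneg _) (hP i)
    _ = c := mul_one c

theorem eval_sub_le (hι : Iso ι) {c ρ : ℝ} (hc : 0 ≤ c) (hρ : 0 ≤ ρ) {G : MvPolynomial σ F}
    (hG : ∀ n, ‖G.coeff n‖ ≤ c) {P Q : σ → C} (hP : ∀ i, ‖P i‖ ≤ 1) (hQ : ∀ i, ‖Q i‖ ≤ 1)
    (hPQ : ∀ i, ‖P i - Q i‖ ≤ ρ) : ‖eval₂ ι P G - eval₂ ι Q G‖ ≤ c * ρ := by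
  rw [eval₂_eq, eval₂_eq, ← Finset.sum_sub_distrib]
  refine IsUltrametricDist.norm_sum_le_of_forall_le_of_nonneg (mul_nonneg hc hρ) fun m _ => ?_
  rw [← mul_sub, norm_mul, hι]
  refine mul_le_mul (hG m) ?_ (norm_nonneg _) hc
  have h : (∏ i ∈ m.support, ((P i, Q i) : C × C) ^ m i) ∈ near C hρ :=
    Submonoid.prod_mem _ fun i _ => Submonoid.pow_mem _ (mem_near hρ (hP i) (hQ i) (hPQ i)) _
  have h2 := h.2.2
  simpa only [Prod.fst_prod, Prod.snd_prod, Prod.pow_fst, Prod.pow_snd] using h2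

theorem pow_sub_le {p : ℕ} (hp : p.Prime) {θ ρ : ℝ} (hθ : θ < 1) (hρ : 0 ≤ ρ) (hρθ : ρ ≤ θ)
    (hpθ : ‖(p : C)‖ ≤ θ) {a b : C} (hb : ‖b‖ ≤ 1) (hab : ‖a - b‖ ≤ ρ) :
    ‖a ^ p - b ^ p‖ ≤ θ * ρ := by
  have hθ0 : 0 ≤ θ := hρ.trans hρθ
  have h : a ^ p - b ^ p = ∑ m ∈ Finset.range p,
      (a - b) ^ (m + 1) * b ^ (p - (m + 1)) * (p.choose (m + 1) : C) := by
    have h1 := add_pow (a - b) b p
    rw [sub_add_cancel, Finset.sum_range_succ'] at h1
    rw [h1]
    simp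
  rw [h]
  refine IsUltrametricDist.norm_sum_le_of_forall_le_of_nonneg (mul_nonneg hθ0 hρ) fun m hm => ?_
  rw [Finset.mem_range] at hm
  rw [norm_mul, norm_mul, norm_pow, norm_pow]
  have hb1 : ‖b‖ ^ (p - (m + 1)) ≤ 1 := pow_le_one₀ (norm_nonneg _) hb
  have hρ1 : ρ ≤ 1 := hρθ.trans hθ.le
  have ha1 : ‖a - b‖ ^ (m + 1) ≤ ρ := by
    calc ‖a - b‖ ^ (m + 1) ≤ ρ ^ (m + 1) := pow_le_pow_left₀ (norm_nonneg _) hab _
      _ ≤ ρ ^ 1 := pow_le_pow_of_le_one hρ hρ1 (by omega)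
      _ = ρ := pow_one ρ
  rcases Nat.lt_or_ge (m + 1) p with h2 | h2
  · obtain ⟨c, hc⟩ := hp.dvd_choose_self (Nat.succ_ne_zero m) h2
    have h3 : ‖(p.choose (m + 1) : C)‖ ≤ θ := by
      rw [hc, Nat.cast_mul, norm_mul]
      calc _ ≤ θ * 1 := mul_le_mul hpθ (IsUltrametricDist.norm_natCast_le_one C c)
            (norm_nonneg _) hθ0
        _ = θ := mul_one θ
    calc ‖a - b‖ ^ (m + 1) * ‖b‖ ^ (p - (m + 1)) * ‖(p.choose (m + 1) : C)‖
        ≤ ρ * 1 * θ := by gcongr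
      _ = θ * ρ := by ring
  · have h4 : m + 1 = p := by omega
    have h3 : ‖(p.choose (m + 1) : C)‖ ≤ 1 := IsUltrametricDist.norm_natCast_le_one C _
    have h5 : ‖a - b‖ ^ (m + 1) ≤ θ * ρ := by
      calc ‖a - b‖ ^ (m + 1) ≤ ρ ^ (m + 1) := pow_le_pow_left₀ (norm_nonneg _) hab _
        _ ≤ ρ ^ 2 := pow_le_pow_of_le_one hρ hρ1 (by have := hp.two_le; omega)
        _ = ρ * ρ := sq ρ
        _ ≤ θ * ρ := mul_le_mul_of_nonneg_right hρθ hρ
    calc ‖a - b‖ ^ (m + 1) * ‖b‖ ^ (p - (m + 1)) * ‖(p.choose (m + 1) : C)‖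
        ≤ (θ * ρ) * 1 * 1 := by gcongr
      _ = θ * ρ := by ring

end lip

/-- positivity along the tower -/
theorem tower {F : Type u} [NormedField F] {p g : ℕ} (hp : p ≠ 0) {T : ℕ → Fin g → Fin g → F}
    {lam Lam : ℝ} (H : TP (T 0) lam Lam) (hT : ∀ i, Rt p (T (i + 1)) (T i)) (m : ℕ) :
    TP (T m) (lam / (p : ℝ) ^ m) (Lam / (p : ℝ) ^ m) := by
  induction m with
  | zero => simpa using H
  | succ m ih =>
    have := ih.rt hp (hT m)
    rwa [div_div, div_div, ← pow_succ] at this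

end ITER

open ITER in
theorem iter_proof (hStep : Stmt_Step.{u}) : Stmt_Iter.{u} := by
  intro F _ _ _ p hp g T lam Lam hTP hT hp0 N hN hN8 θ hθ hpθ m
  have hpp := hp.out
  have hpR : (1 : ℝ) ≤ p := by exact_mod_cast hpp.one_le
  have hLam : 0 < Lam := hTP.pos.trans_le hTP.le
  have hpn : ‖(p : F)‖ ≤ θ := by
    refine le_trans ?_ hpθ
    exact le_mul_of_one_le_right (norm_nonneg _) (Real.one_le_exp hLam.le)
  have hθ0 : 0 ≤ θ := (norm_nonneg _).trans hpn
  induction m with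
  | zero =>
    refine ⟨fun α => X α, fun α => ?_, fun α n => X_mem α n, ?_⟩
    · rw [pow_zero]
      exact isHomogeneous_X _ _
    · intro C _ _ _ ι hι
      refine ⟨fun x hx α => ?_, fun P Q ρ hP hQ hρ hPQ α => ?_⟩
      · rw [eval₂_X]
        simp
      · rw [eval₂_X, eval₂_X, pow_zero, one_mul]
        exact hPQ α
  | succ m ih =>
    obtain ⟨Φ, hΦh, hΦb, hΦ⟩ := ih
    have hTm := tower hpp.ne_zero hTP hT (m + 1)
    have hpm : (0 : ℝ) < (p : ℝ) ^ (m + 1) := by positivity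
    have hst := hStep F p g (T (m + 1)) (T (m + 2)) _ _ hTm (hT (m + 1)) hp0 N hN (by
      rw [mul_div_assoc', mul_div_assoc', div_lt_div_iff_of_pos_right hpm]
      exact hN8)
    choose G hGh hGb hG using hst
    have hexp : (p : ℝ) * (Lam / (p : ℝ) ^ (m + 1)) ≤ Lam := by
      rw [pow_succ, ← mul_div_assoc, mul_comm (p : ℝ) Lam, mul_div_mul_right _ _ (by positivity)]
      exact div_le_self hLam.le (one_le_pow₀ hpR)
    have hGθ : ∀ β n, ‖(G β).coeff n‖ ≤ θ := by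
      intro β n
      refine (hGb β n).trans (le_trans ?_ hpθ)
      exact mul_le_mul_of_nonneg_left (Real.exp_le_exp.mpr hexp) (norm_nonneg _)
    have hfb : ∀ β, (X β ^ p - G β) ∈ bdd F (Fin g → ZMod N) := fun β =>
      Subring.sub_mem _ (Subring.pow_mem _ (X_mem β) _) (fun n => (hGθ β n).trans hθ.le)
    have hfh : ∀ β, (X β ^ p - G β : MvPolynomial (Fin g → ZMod N) F).IsHomogeneous p := by
      intro β
      have h1 := (isHomogeneous_X F β).pow p
      rw [one_mul] at h1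
      exact h1.sub (hGh β)
    refine ⟨fun α => bind₁ (fun β => X β ^ p - G β) (Φ α), fun α => ?_,
      fun α => bind_mem hfb (hΦb α), ?_⟩
    · have := (hΦh α).aeval (fun β => X β ^ p - G β) hfh
      rwa [← pow_succ'] at this
    · intro C _ _ _ ι hι
      obtain ⟨hΦ1, hΦ2⟩ := hΦ C ι hι
      have hcomp : ∀ (P : (Fin g → ZMod N) → C) α,
          eval₂ ι P (bind₁ (fun β => X β ^ p - G β) (Φ α)) =
            eval₂ ι (fun β => P β ^ p - eval₂ ι P (G β)) (Φ α) := by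
        intro P α
        have := eval₂Hom_bind₁ ι P (fun β => X β ^ p - G β) (Φ α)
        simp only [coe_eval₂Hom, eval₂_sub, eval₂_pow, eval₂_X] at this
        exact this
      refine ⟨fun x hx α => ?_, fun P Q ρ hP hQ hρ hPQ α => ?_⟩
      · rw [hcomp]
        have h1 : (fun β => thv (fun i j => ι (T (m + 1) i j)) N x β ^ p -
            eval₂ ι (thv (fun i j => ι (T (m + 1) i j)) N x) (G β)) =
            thv (fun i j => ι (T m i j)) N (fun i => x i ^ p) := by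
          funext β
          rw [← hG β C ι hι x hx]
          congr 1
          funext i j
          rw [← map_pow, hT m i j]
        rw [h1, hΦ1 _ (fun i => pow_ne_zero _ (hx i)) α]
        congr 1
        funext i
        rw [← pow_mul, ← pow_succ']
      · rw [hcomp, hcomp]
        have hρ0 : 0 ≤ ρ := (norm_nonneg _).trans (hPQ α)
        have hpC : ‖(p : C)‖ ≤ θ := by
          rw [← map_natCast ι, hι]
          exact hpn
        have hle : ∀ (P : (Fin g → ZMod N) → C), (∀ α, ‖P α‖ ≤ 1) → ∀ β,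
            ‖P β ^ p - eval₂ ι P (G β)‖ ≤ 1 := by
          intro P hP β
          refine (sub_le_max _ _).trans (max_le ?_ ?_)
          · rw [norm_pow]
            exact pow_le_one₀ (norm_nonneg _) (hP β)
          · exact (eval_le hι hθ0 (hGθ β) hP).trans hθ.le
        have key := hΦ2 (fun β => P β ^ p - eval₂ ι P (G β)) (fun β => Q β ^ p - eval₂ ι Q (G β))
          (θ * ρ) (hle P hP) (hle Q hQ) (by nlinarith) (fun β => ?_) α
        · refine key.trans (le_of_eq ?_)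
          ring
        · have h1 : P β ^ p - eval₂ ι P (G β) - (Q β ^ p - eval₂ ι Q (G β)) =
              (P β ^ p - Q β ^ p) - (eval₂ ι P (G β) - eval₂ ι Q (G β)) := by ring
          rw [h1]
          refine (sub_le_max _ _).trans (max_le ?_ ?_)
          · exact pow_sub_le hpp hθ hρ0 hρ hpC (hQ β) (hPQ β)
          · exact eval_sub_le hι hθ0 hρ0 (hGθ β) hP hQ hPQ

end Pool.Agent.TDA
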