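import Pool.Agent.TDA.Stmts
import Pool.Agent.LibDb3ab1.Dim

/-!
# KDIM: lower bound for the dimension from algebraically independent elements
-/

set_option autoImplicit false
set_option linter.unusedSectionVars false

noncomputable section

namespace Pool.Agent.TDA

open scoped Classical
open MvPolynomial

universe u

namespace KDIM

/-- the dimension of a finitely generated domain with algebraically independent elements -/
theorem card_le_dim {k B : Type u} [Field k] [CommRing B] [IsDomain B] [Algebra k B]
    [Algebra.FiniteType k B] {τ : Type} [Fintype τ] (x : τ → B) (hx : AlgebraicIndependent k x) :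
    (Fintype.card τ : WithBot ℕ∞) ≤ ringKrullDim B := by
  obtain ⟨s, hs⟩ := Cardinal.lt_aleph0.mp (trdeg_lt_aleph0_of_finiteType (R := k) (S := B))
  rw [Pool.Agent.LibDb3ab1.ringKrullDim_eq_trdeg k B hs]
  have h1 := hx.lift_cardinalMk_le_trdeg
  rw [hs] at h1
  simp only [Cardinal.mk_fintype, Cardinal.lift_natCast, Nat.cast_le] at h1
  exact_mod_cast h1

end KDIM

theorem kdim_proof : Stmt_Kdim.{u} := by
  intro k _ σ τ _ _ I f hf
  set A := MvPolynomial σ k ⧸ I with hA
  let φ : MvPolynomial τ k →ₐ[k] A := (Ideal.Quotient.mkₐ k I).comp f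
  have hφ : Function.Injective φ := by
    rw [injective_iff_map_eq_zero]
    intro G hG
    apply hf
    exact Ideal.Quotient.eq_zero_iff_mem.mp hG
  have hbot : (⊥ : Ideal (MvPolynomial τ k)) ∈ minimalPrimes (MvPolynomial τ k) := by
    rw [IsDomain.minimalPrimes_eq_singleton_bot]
    rfl
  obtain ⟨q, hq, hqc⟩ := Ideal.exists_comap_eq_of_mem_minimalPrimes_of_injective
    (f := φ.toRingHom) hφ ⊥ hbot
  let ψ : MvPolynomial τ k →ₐ[k] (A ⧸ q) := (Ideal.Quotient.mkₐ k q).comp φ
  have hψ : Function.Injective ψ := by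
    rw [injective_iff_map_eq_zero]
    intro G hG
    have h1 : φ G ∈ q := Ideal.Quotient.eq_zero_iff_mem.mp hG
    have h2 : G ∈ q.comap φ.toRingHom := h1
    rw [hqc] at h2
    exact h2
  have hai : AlgebraicIndependent k (fun i : τ => ψ (X i)) := by
    rw [AlgebraicIndependent]
    have : (aeval (fun i : τ => ψ (X i)) : MvPolynomial τ k →ₐ[k] (A ⧸ q)) = ψ := by
      apply MvPolynomial.algHom_ext
      intro i
      simp
    rw [this]
    exact hψ
  have : Algebra.FiniteType k A := Algebra.FiniteType.of_surjective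
    (Ideal.Quotient.mkₐ k I) (Ideal.Quotient.mkₐ_surjective k I)
  have : Algebra.FiniteType k (A ⧸ q) := Algebra.FiniteType.of_surjective
    (Ideal.Quotient.mkₐ k q) (Ideal.Quotient.mkₐ_surjective k q)
  have : IsDomain (A ⧸ q) := Ideal.Quotient.isDomain q
  refine le_trans (KDIM.card_le_dim _ hai) ?_
  exact ringKrullDim_le_of_surjective (Ideal.Quotient.mk q) Ideal.Quotient.mk_surjective

end Pool.Agent.TDA
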