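import Pool.Agent.TDA.Stmts2
import Pool.Agent.DC.ULTA
import Pool.Agent.DC.PUX
import Pool.Agent.LibDb3ab1.Compact

/-!
# LB: theta functions without common zeros are bounded below
-/

set_option autoImplicit false
set_option linter.unusedSectionVars false
set_option linter.style.haveILetI false

noncomputable section

namespace Pool.Agent.TDA

open scoped Classical
open MvPolynomial Pool.Agent.LibDb3ab1 Pool.Agent.DC Pool.Agent.CSM Filter

universe u

namespace LB

/-! ## The limit field -/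

section lim

variable {K : Type u} [Field K] {O : ValuationSubring K} {p : ℕ}
variable {L : ℕ → Type u} [∀ m, Field (L m)] {ι : ∀ m, K →+* L m}
  {V : ∀ m, ValuationSubring (L m)} (hV : ∀ m, ValuedExt O (ι m) (V m))
  {LL : Type u} [Field LL] {ιL : K →+* LL} {VL : ValuationSubring LL}
  (hVL : ValuedExt O ιL VL) (π : (∀ m, V m) →+* VL)

/-- `y` is the limit of the bounded family `c`. -/
def Lim (c : ∀ m, L m) (y : LL) : Prop :=
  ∃ (N : ℕ) (d : ∀ m, V m), (∀ m, ((d m : V m) : L m) = (p : L m) ^ N * c m) ∧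
    ((π d : VL) : LL) = (p : LL) ^ N * y

variable {π}

theorem Lim.mul {c c' : ∀ m, L m} {y y' : LL} (h : Lim (p := p) π c y)
    (h' : Lim (p := p) π c' y') : Lim (p := p) π (fun m => c m * c' m) (y * y') := by
  obtain ⟨N, d, hd, hy⟩ := h
  obtain ⟨N', d', hd', hy'⟩ := h'
  refine ⟨N + N', d * d', ?_, ?_⟩
  · intro m
    rw [Pi.mul_apply]
    push_cast
    rw [hd, hd', pow_add]
    ring
  · rw [map_mul]
    push_cast
    rw [hy, hy', pow_add]
    ring

theorem Lim.shift {c : ∀ m, L m} {y : LL} (h : Lim (p := p) π c y) : ∃ N₀ : ℕ, ∀ N, N₀ ≤ N →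
    ∃ d : ∀ m, V m, (∀ m, ((d m : V m) : L m) = (p : L m) ^ N * c m) ∧
      ((π d : VL) : LL) = (p : LL) ^ N * y := by
  obtain ⟨N, d, hd, hy⟩ := h
  refine ⟨N, ?_⟩
  intro M hM
  obtain ⟨k, rfl⟩ := Nat.exists_eq_add_of_le hM
  refine ⟨(p : ∀ m, V m) ^ k * d, ?_, ?_⟩
  · intro m
    rw [Pi.mul_apply, Pi.pow_apply, Pi.natCast_apply]
    push_cast
    rw [hd, pow_add]
    ring
  · rw [map_mul, map_pow, map_natCast]
    push_cast
    rw [hy, pow_add]
    ring

theorem Lim.add {c c' : ∀ m, L m} {y y' : LL} (h : Lim (p := p) π c y)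
    (h' : Lim (p := p) π c' y') : Lim (p := p) π (fun m => c m + c' m) (y + y') := by
  obtain ⟨N, hN⟩ := h.shift
  obtain ⟨N', hN'⟩ := h'.shift
  obtain ⟨d, hd, hy⟩ := hN (max N N') (le_max_left _ _)
  obtain ⟨d', hd', hy'⟩ := hN' (max N N') (le_max_right _ _)
  refine ⟨max N N', d + d', ?_, ?_⟩
  · intro m
    rw [Pi.add_apply]
    push_cast
    rw [hd, hd']
    ring
  · rw [map_add]
    push_cast
    rw [hy, hy']
    ring

theorem lim_zero : Lim (p := p) π (fun _ => 0) 0 := by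
  refine ⟨0, 0, ?_, ?_⟩
  · intro m
    simp
  · simp

theorem lim_one : Lim (p := p) π (fun _ => 1) 1 := by
  refine ⟨0, 1, ?_, ?_⟩
  · intro m
    simp
  · simp

theorem Lim.sum {A : Type*} (T : Finset A) {c : A → ∀ m, L m} {y : A → LL}
    (h : ∀ a ∈ T, Lim (p := p) π (c a) (y a)) :
    Lim (p := p) π (fun m => ∑ a ∈ T, c a m) (∑ a ∈ T, y a) := by
  induction T using Finset.induction_on with
  | empty => simpa using lim_zero
  | insert a T ha ih =>
    have h1 := (h a (Finset.mem_insert_self _ _)).add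
      (ih fun b hb => h b (Finset.mem_insert_of_mem hb))
    simp only [Finset.sum_insert ha]
    exact h1

theorem Lim.prod {A : Type*} (T : Finset A) {c : A → ∀ m, L m} {y : A → LL}
    (h : ∀ a ∈ T, Lim (p := p) π (c a) (y a)) :
    Lim (p := p) π (fun m => ∏ a ∈ T, c a m) (∏ a ∈ T, y a) := by
  induction T using Finset.induction_on with
  | empty => simpa using lim_one
  | insert a T ha ih =>
    have h1 := (h a (Finset.mem_insert_self _ _)).mul
      (ih fun b hb => h b (Finset.mem_insert_of_mem hb))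
    simp only [Finset.prod_insert ha]
    exact h1

theorem Lim.pow {c : ∀ m, L m} {y : LL} (h : Lim (p := p) π c y) (n : ℕ) :
    Lim (p := p) π (fun m => c m ^ n) (y ^ n) := by
  induction n with
  | zero => simpa using lim_one
  | succ n ih =>
    simp only [pow_succ]
    exact ih.mul h

/-- Inverses. -/
theorem Lim.inv (hp : (p : LL) ≠ 0) {c : ∀ m, L m} {y : LL} (h : Lim (p := p) π c y)
    (hc : ∀ m, c m ≠ 0) {N' : ℕ} (hb : ∀ m, (p : L m) ^ N' * (c m)⁻¹ ∈ V m) :
    y ≠ 0 ∧ Lim (p := p) π (fun m => (c m)⁻¹) y⁻¹ := by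
  obtain ⟨N, d, hd, hy⟩ := h
  let e : ∀ m, V m := fun m => ⟨_, hb m⟩
  have h1 : d * e = (p : ∀ m, V m) ^ (N + N') := by
    funext m
    apply Subtype.ext
    rw [Pi.mul_apply, Pi.pow_apply, Pi.natCast_apply]
    push_cast
    rw [hd]
    change (p : L m) ^ N * c m * ((p : L m) ^ N' * (c m)⁻¹) = _
    rw [pow_add]
    field_simp [hc m]
  have h2 : ((π d : VL) : LL) * ((π e : VL) : LL) = (p : LL) ^ (N + N') := by
    have h3 := congrArg (fun z : VL => (z : LL)) (congrArg π h1)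
    simp only [map_mul, map_pow, map_natCast] at h3
    push_cast at h3
    exact h3
  rw [hy] at h2
  have hy0 : y ≠ 0 := by
    rintro rfl
    rw [mul_zero, zero_mul] at h2
    exact pow_ne_zero _ hp h2.symm
  refine ⟨hy0, N', e, fun m => rfl, ?_⟩
  have hpN : (p : LL) ^ N ≠ 0 := pow_ne_zero _ hp
  rw [pow_add] at h2
  have h4 : (p : LL) ^ N * (y * ((π e : VL) : LL)) = (p : LL) ^ N * (p : LL) ^ N' := by
    rw [← h2]
    ring
  have h5 := mul_left_cancel₀ hpN h4
  rw [← h5]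
  field_simp

theorem Lim.zpow {c : ∀ m, L m} {y : LL} (h : Lim (p := p) π c y)
    (h' : Lim (p := p) π (fun m => (c m)⁻¹) y⁻¹) (n : ℤ) :
    Lim (p := p) π (fun m => c m ^ n) (y ^ n) := by
  obtain ⟨k, rfl | rfl⟩ := n.eq_nat_or_neg
  · simp only [zpow_natCast]
    exact h.pow k
  · simp only [zpow_neg, zpow_natCast, ← inv_pow]
    exact h'.pow k

/-- Divisibility of limits. -/
theorem Lim.div_mem (hp : (p : LL) ≠ 0) (hpm : ∀ m, (p : L m) ≠ 0)
    (hπ0 : ∀ x, π x = 0 ↔ x ∈ qIdeal V p) {c : ∀ m, L m} {y : LL}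
    (h : Lim (p := p) π c y) (k : ℕ)
    (hc : ∀ᶠ m in (hyperfilter ℕ : Filter ℕ), c m / (p : L m) ^ k ∈ V m) :
    y / (p : LL) ^ k ∈ VL := by
  obtain ⟨N, d, hd, hy⟩ := h
  let e : ∀ m, V m := fun m => if h : c m / (p : L m) ^ k ∈ V m then ⟨_, h⟩ else 0
  have h1 : d - (p : ∀ m, V m) ^ (N + k) * e ∈ qIdeal V p := by
    intro j
    filter_upwards [hc] with m hm
    have h2 : (d - (p : ∀ m, V m) ^ (N + k) * e) m = 0 := by
      apply Subtype.ext
      rw [Pi.sub_apply, Pi.mul_apply, Pi.pow_apply, Pi.natCast_apply]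
      push_cast
      rw [hd]
      have h3 : ((e m : V m) : L m) = c m / (p : L m) ^ k := by
        simp only [e, dif_pos hm]
      rw [h3, pow_add, mul_assoc, mul_div_cancel₀ _ (pow_ne_zero k (hpm m)), sub_self]
    rw [h2]
    exact dvd_zero _
  rw [← hπ0, map_sub, map_mul, map_pow, map_natCast, sub_eq_zero] at h1
  have h4 := congrArg (fun z : VL => (z : LL)) h1
  push_cast at h4
  rw [hy, pow_add, mul_assoc] at h4
  have h5 := mul_left_cancel₀ (pow_ne_zero N hp) h4
  rw [h5, mul_div_cancel_left₀ _ (pow_ne_zero k hp)]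
  exact (π e).2

/-- Constants. -/
theorem lim_const (hpO : PU (p : O)) (hπO : ∀ a : O, π (fun m => (hV m).incl a) = hVL.incl a)
    (a : K) : Lim (p := p) π (fun m => ι m a) (ιL a) := by
  have key : ∃ (N : ℕ) (b : O), (b : K) = (p : K) ^ N * a := by
    by_cases ha : a = 0
    · exact ⟨0, 0, by simp [ha]⟩
    · rcases O.mem_or_inv_mem a with h | h
      · exact ⟨0, ⟨a, h⟩, by simp⟩
      · have h0 : (⟨a⁻¹, h⟩ : O) ≠ 0 := by
          intro h1
          exact inv_ne_zero ha (congrArg Subtype.val h1)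
        obtain ⟨n, e, he⟩ := hpO.cof _ h0
        refine ⟨n, e, ?_⟩
        have h2 := congrArg (fun z : O => (z : K)) he
        push_cast at h2
        rw [h2]
        field_simp
  obtain ⟨N, b, hb⟩ := key
  refine ⟨N, fun m => (hV m).incl b, ?_, ?_⟩
  · intro m
    rw [ValuedExt.coe_incl, hb, map_mul, map_pow, map_natCast]
  · rw [hπO, ValuedExt.coe_incl, hb, map_mul, map_pow, map_natCast]

end lim

/-! ## The norm on an extension -/

theorem nC_map {p : ℕ} [Fact p.Prime] {K : Type u} [Field K] {O : ValuationSubring K}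
    {C : Type u} [Field C] {ι : K →+* C} {V : ValuationSubring C} (hV : ValuedExt O ι V)
    (hp0 : (p : K) ≠ 0) (a : K) : nC p hV (ι a) = vn K (p : O) a := by
  have hmem : ∀ z : K, ι z ∈ V ↔ z ∈ O := by
    intro z
    rw [← hV.comap_eq]
    rfl
  have key : ∀ (n : ℤ) (z : K), InP C (p : V) n (ι z) ↔ InP K (p : O) n z := by
    intro n z
    have hK : (algebraMap O K (p : O)) = (p : K) := map_natCast _ _
    have hC : (algebraMap V C (p : V)) = (p : C) := map_natCast _ _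
    have hpC : (p : C) ≠ 0 := by
      rw [← map_natCast ι]
      exact (map_ne_zero ι).2 hp0
    unfold InP
    rw [hK, hC]
    constructor
    · rintro ⟨w, hw⟩
      have h1 : ι (z / (p : K) ^ n) ∈ V := by
        rw [map_div₀, map_zpow₀, map_natCast, hw, mul_div_cancel_left₀ _ (zpow_ne_zero _ hpC)]
        exact w.2
      rw [hmem] at h1
      refine ⟨⟨_, h1⟩, ?_⟩
      change z = (p : K) ^ n * (z / (p : K) ^ n)
      rw [mul_div_cancel₀ _ (zpow_ne_zero _ hp0)]
    · rintro ⟨w, hw⟩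
      refine ⟨hV.incl w, ?_⟩
      rw [hw, map_mul, map_zpow₀, map_natCast]
      rfl
  unfold nC vn
  congr 1
  ext r
  simp only [← map_pow, key]

/-! ## Bounds for the terms -/

section normed

variable {F : Type u} [NormedField F] {g : ℕ}

theorem norm_T {t : Fin g → Fin g → F} (ht : ∀ i j, t i j ≠ 0) {x : Fin g → F}
    (hx : ∀ i, x i ≠ 0) (w : Fin g → ℤ) :
    ‖kap t w * mon x w‖ =
      Real.exp (-QF (qf t) (rv w) + ∑ i, (w i : ℝ) * Real.log ‖x i‖) := by
  rw [norm_mul, norm_kap ht, norm_mon hx, ← Real.exp_add]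

theorem log_bound {t : Fin g → Fin g → F} {lam Lam : ℝ} (H : TP t lam Lam) {x : Fin g → F}
    (hx : ∀ i, x i ≠ 0) {k : ℕ} {r : Fin g → ℤ} (hr : ∀ i, 0 ≤ r i ∧ r i < k)
    (hmax : IsMax t x r) (i : Fin g) : |Real.log ‖x i‖| ≤ Lam * ((k : ℝ) + 1) ^ 2 := by
  have key : ∀ s : ℤ, |s| ≤ 1 → (s : ℝ) * Real.log ‖x i‖ ≤ Lam * ((k : ℝ) + 1) ^ 2 := by
    intro s hs
    have h1 := hmax (r + Pi.single i s)
    rw [norm_T H.ne hx, norm_T H.ne hx, Real.exp_le_exp] at h1
    have h2 : ∑ j, ((r + Pi.single i s : Fin g → ℤ) j : ℝ) * Real.log ‖x j‖ =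
        ∑ j, (r j : ℝ) * Real.log ‖x j‖ + (s : ℝ) * Real.log ‖x i‖ := by
      simp only [Pi.add_apply, Int.cast_add, add_mul, Finset.sum_add_distrib]
      congr 1
      rw [Finset.sum_eq_single i]
      · rw [Pi.single_eq_same]
      · intro j _ hj
        rw [Pi.single_eq_of_ne hj, Int.cast_zero, zero_mul]
      · intro h
        exact absurd (Finset.mem_univ _) h
    rw [h2] at h1
    have h3 := H.nonneg (rv r)
    have h4 := H.hi (rv (r + Pi.single i s))
    have h5 : ‖rv (r + Pi.single i s)‖ ≤ (k : ℝ) + 1 := by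
      rw [pi_norm_le_iff_of_nonneg (by positivity)]
      intro j
      rw [rv, Real.norm_eq_abs, ← Int.cast_abs]
      have h6 : |(r + Pi.single i s : Fin g → ℤ) j| ≤ (k : ℤ) + 1 := by
        rw [Pi.add_apply]
        refine (abs_add_le _ _).trans (add_le_add ?_ ?_)
        · rw [abs_of_nonneg (hr j).1]
          exact (hr j).2.le
        · by_cases hj : j = i
          · subst hj
            rwa [Pi.single_eq_same]
          · rw [Pi.single_eq_of_ne hj]
            simp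
      exact_mod_cast h6
    have h7 : Lam * ‖rv (r + Pi.single i s)‖ ^ 2 ≤ Lam * ((k : ℝ) + 1) ^ 2 := by
      have h8 := H.pos
      have h9 := H.le
      exact mul_le_mul_of_nonneg_left (by gcongr) (by linarith)
    linarith
  rw [abs_le]
  have h1 := key 1 (by norm_num)
  have h2 := key (-1) (by norm_num)
  push_cast at h1 h2
  constructor <;> linarith

theorem T_le {t : Fin g → Fin g → F} {lam Lam : ℝ} (H : TP t lam Lam) {x : Fin g → F}
    (hx : ∀ i, x i ≠ 0) {B : ℝ} (hB : ∀ i, |Real.log ‖x i‖| ≤ B) (w : Fin g → ℤ) :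
    ‖kap t w * mon x w‖ ≤ Real.exp (-lam * ‖rv w‖ ^ 2 + g * B * ‖rv w‖) := by
  rw [norm_T H.ne hx, Real.exp_le_exp]
  have h1 := H.lo (rv w)
  have h2 : ∑ i, (w i : ℝ) * Real.log ‖x i‖ ≤ ∑ _i : Fin g, ‖rv w‖ * B := by
    apply Finset.sum_le_sum
    intro i _
    refine (le_abs_self _).trans ?_
    rw [abs_mul]
    have h3 : |(w i : ℝ)| ≤ ‖rv w‖ := norm_le_pi_norm (rv w) i
    exact mul_le_mul h3 (hB i) (abs_nonneg _) (norm_nonneg _)
  rw [Finset.sum_const, Finset.card_univ, Fintype.card_fin, nsmul_eq_mul] at h2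
  nlinarith

theorem T_max_le {t : Fin g → Fin g → F} {lam Lam : ℝ} (H : TP t lam Lam) {x : Fin g → F}
    (hx : ∀ i, x i ≠ 0) {B : ℝ} (hB0 : 0 ≤ B) (hB : ∀ i, |Real.log ‖x i‖| ≤ B) {k : ℕ}
    {r : Fin g → ℤ} (hr : ∀ i, 0 ≤ r i ∧ r i < k) :
    ‖kap t r * mon x r‖ ≤ Real.exp (g * B * k) := by
  refine (T_le H hx hB r).trans ?_
  rw [Real.exp_le_exp]
  have h5 : ‖rv r‖ ≤ (k : ℝ) := by
    rw [pi_norm_le_iff_of_nonneg (by positivity)]
    intro j
    rw [rv, Real.norm_eq_abs, ← Int.cast_abs, abs_of_nonneg (hr j).1]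
    exact_mod_cast (hr j).2.le
  have h6 := H.pos
  have h7 : (g : ℝ) * B * ‖rv r‖ ≤ g * B * k := by gcongr
  have h8 : 0 ≤ lam * ‖rv r‖ ^ 2 := by positivity
  linarith

end normed

/-- A finite set of indices outside of which the terms are small. -/
theorem exists_finset (g : ℕ) {lam : ℝ} (hlam : 0 < lam) (B H δ : ℝ) (hδ : 0 < δ) :
    ∃ S : Finset (Fin g → ℤ), ∀ w ∉ S,
      H * Real.exp (-lam * ‖rv w‖ ^ 2 + g * B * ‖rv w‖) < δ := by
  have h1 : Tendsto (fun s : ℝ => H * Real.exp (-lam * s ^ 2 + g * B * s)) atTop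
      (nhds (H * 0)) := by
    apply Tendsto.const_mul
    apply Real.tendsto_exp_atBot.comp
    have h2 : (fun s : ℝ => -lam * s ^ 2 + g * B * s) = fun s : ℝ => s * (-lam * s + g * B) := by
      funext s
      ring
    rw [h2]
    apply Tendsto.atTop_mul_atBot₀ tendsto_id
    apply tendsto_atBot_add_const_right
    exact Tendsto.const_mul_atTop_of_neg (by linarith) tendsto_id
  rw [mul_zero] at h1
  obtain ⟨R, hR⟩ := eventually_atTop.1 (h1.eventually (gt_mem_nhds hδ))
  obtain ⟨N, hN⟩ := exists_nat_ge R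
  have hfin : {w : Fin g → ℤ | ‖rv w‖ < R}.Finite := by
    apply (Set.finite_Icc (fun _ : Fin g => -(N : ℤ)) (fun _ => (N : ℤ))).subset
    intro w hw
    have h3 : ∀ i, |w i| ≤ (N : ℤ) := by
      intro i
      have h4 : |(w i : ℝ)| ≤ ‖rv w‖ := norm_le_pi_norm (rv w) i
      have h5 : |(w i : ℝ)| ≤ N := h4.trans ((le_of_lt hw).trans hN)
      exact_mod_cast h5
    rw [Set.mem_Icc]
    exact ⟨fun i => (abs_le.1 (h3 i)).1, fun i => (abs_le.1 (h3 i)).2⟩
  refine ⟨hfin.toFinset, ?_⟩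
  intro w hw
  rw [Set.Finite.mem_toFinset, Set.mem_ofPred_eq, not_lt] at hw
  exact hR _ hw

theorem exists_bound {F : Type u} [NormedField F] {g n k : ℕ} (hk : k ≠ 0)
    (P : Fin (n + 1) → (Fin g → ℤ) → F) (hP : ∀ l, Per k (P l)) :
    ∃ H : ℝ, 0 < H ∧ ∀ l w, ‖P l w‖ ≤ H := by
  haveI : NeZero k := ⟨hk⟩
  refine ⟨1 + ∑ l, ∑ α : Fin g → ZMod k, ‖P l (rep α)‖, ?_, ?_⟩
  · have : 0 ≤ ∑ l, ∑ α : Fin g → ZMod k, ‖P l (rep α)‖ :=
      Finset.sum_nonneg fun l _ => Finset.sum_nonneg fun α _ => norm_nonneg _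
    linarith
  · intro l w
    have h1 : P l w = P l (rep (cl k w)) := (hP l).congr (cl_rep _).symm
    rw [h1]
    have h2 : ‖P l (rep (cl k w))‖ ≤ ∑ α : Fin g → ZMod k, ‖P l (rep α)‖ :=
      Finset.single_le_sum (f := fun α : Fin g → ZMod k => ‖P l (rep α)‖)
        (fun α _ => norm_nonneg _) (Finset.mem_univ _)
    have h3 : ∑ α : Fin g → ZMod k, ‖P l (rep α)‖ ≤
        ∑ l, ∑ α : Fin g → ZMod k, ‖P l (rep α)‖ :=
      Finset.single_le_sum (f := fun l => ∑ α : Fin g → ZMod k, ‖P l (rep α)‖)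
        (fun l _ => Finset.sum_nonneg fun α _ => norm_nonneg _) (Finset.mem_univ _)
    linarith

/-! ## Sums -/

theorem sumsTo_reindex {C : Type u} [Field C] {V : ValuationSubring C} {p : ℕ} {A : Type}
    {a : A → C} {v : C} (h : SumsTo V p a v) (e : A ≃ A) : SumsTo V p (fun w => a (e w)) v := by
  intro k
  obtain ⟨S, hS⟩ := h k
  refine ⟨S.map e.symm.toEmbedding, ?_⟩
  intro T hT
  have h1 := hS (T.map e.toEmbedding) (by
    intro w hw
    rw [Finset.mem_map]
    refine ⟨e.symm w, hT ?_, by simp⟩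
    rw [Finset.mem_map]
    exact ⟨w, hw, rfl⟩)
  rw [Finset.sum_map] at h1
  exact h1

theorem mem_of_lt {C : Type u} [Field C] {V : ValuationSubring C} {p : ℕ} (hp : PU (p : V))
    {z : C} {j : ℕ} (hz : vn C (p : V) z < (1 / 2) ^ j) : z / (p : C) ^ j ∈ V := by
  have hself : vn C (p : V) (p : C) = 1 / 2 := by
    have h1 := vn_self (F := C) hp
    rwa [show algebraMap V C (p : V) = (p : C) from map_natCast _ _] at h1
  have h2 : vn C (p : V) (z / (p : C) ^ j) < 1 := by
    rw [div_eq_mul_inv, vn_mul hp, vn_inv hp, vn_pow hp, hself]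
    rw [← div_eq_mul_inv, div_lt_one (by positivity)]
    exact hz
  obtain ⟨w, hw⟩ := exists_of_vn_lt hp h2
  rw [← hw]
  exact w.2

theorem sumsTo_div {C : Type u} [Field C] {V : ValuationSubring C} {p : ℕ} (hp : PU (p : V))
    {A : Type} {a : A → C} {v : C} (h : SumsTo V p a v) {c : C} (hc : c ≠ 0) :
    SumsTo V p (fun w => a w / c) (v / c) := by
  have hpC : (p : C) ≠ 0 := by
    have h1 := hp.map_ne (F := C)
    rwa [show algebraMap V C (p : V) = (p : C) from map_natCast _ _] at h1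
  obtain ⟨M, hM⟩ : ∃ M : ℕ, (p : C) ^ M / c ∈ V := by
    obtain ⟨M, w, hw⟩ := exists_inP (F := C) hp (inv_ne_zero hc)
    refine ⟨M, ?_⟩
    rw [show algebraMap V C (p : V) = (p : C) from map_natCast _ _, zpow_neg, zpow_natCast] at hw
    rw [div_eq_mul_inv, hw, mul_inv_cancel_left₀ (pow_ne_zero _ hpC)]
    exact w.2
  intro k
  obtain ⟨S, hS⟩ := h (k + M)
  refine ⟨S, fun T hT => ?_⟩
  have h1 := V.mul_mem _ _ (hS T hT) hM
  have h2 : (v / c - ∑ w ∈ T, a w / c) / (p : C) ^ k =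
      (v - ∑ w ∈ T, a w) / (p : C) ^ (k + M) * ((p : C) ^ M / c) := by
    rw [← Finset.sum_div, ← sub_div, pow_add]
    field_simp
  rw [h2]
  exact h1

theorem mul_mem_of_lt {C : Type u} [Field C] {V : ValuationSubring C} {p : ℕ} (hp : PU (p : V))
    {z : C} {N : ℕ} (hz : vn C (p : V) z < 2 ^ N) : (p : C) ^ N * z ∈ V := by
  have hself : vn C (p : V) (p : C) = 1 / 2 := by
    have h1 := vn_self (F := C) hp
    rwa [show algebraMap V C (p : V) = (p : C) from map_natCast _ _] at h1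
  have h2 : vn C (p : V) ((p : C) ^ N * z) < 1 := by
    rw [vn_mul hp, vn_pow hp, hself, one_div, inv_pow, inv_mul_lt_iff₀ (by positivity), mul_one]
    exact hz
  obtain ⟨w, hw⟩ := exists_of_vn_lt hp h2
  rw [← hw]
  exact w.2

theorem vn_le_exp {C : Type u} [Field C] {V : ValuationSubring C} {p : ℕ} (hp : PU (p : V))
    {z : C} (hz : z ≠ 0) {B : ℝ} (hB : |Real.log (vn C (p : V) z)| ≤ B) :
    vn C (p : V) z ≤ Real.exp B ∧ vn C (p : V) z⁻¹ ≤ Real.exp B := by
  have h0 := vn_pos hp hz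
  have h1 := abs_le.1 hB
  rw [vn_inv hp]
  constructor
  · rw [← Real.log_le_iff_le_exp h0]
    exact h1.2
  · rw [← Real.log_le_iff_le_exp (inv_pos.2 h0), Real.log_inv]
    linarith

theorem normalise {p : ℕ} [Fact p.Prime] {K : Type u} [Field K] {O : ValuationSubring K}
    {C : Type u} [Field C] {ι : K →+* C} {V : ValuationSubring C} (hV : ValuedExt O ι V)
    (hp : PU (p : V)) {g n k : ℕ} (hk : k ≠ 0) {t : Fin g → Fin g → K} (ht : ∀ i j, t i j ≠ 0)
    {P : Fin (n + 1) → (Fin g → ℤ) → K} (hP : ∀ l, Per k (P l))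
    {x : Fin g → C} (hx : ∀ i, x i ≠ 0) {w₀ : Fin g → ℤ}
    (hmax : ∀ w, nC p hV (kap (fun i j => ι (t i j)) w * mon x w) ≤
      nC p hV (kap (fun i j => ι (t i j)) w₀ * mon x w₀)) {v : Fin (n + 1) → C}
    (hs : ∀ l, SumsTo V p (term ι t (P l) x) (v l)) {δ : ℝ}
    (hlt : ∀ l, nC p hV (v l) < δ * nC p hV (kap (fun i j => ι (t i j)) w₀ * mon x w₀)) :
    ∃ (x' : Fin g → C) (r : Fin g → ℤ) (v' : Fin (n + 1) → C), (∀ i, x' i ≠ 0) ∧
      (∀ i, 0 ≤ r i ∧ r i < k) ∧
      (∀ w, nC p hV (kap (fun i j => ι (t i j)) w * mon x' w) ≤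
        nC p hV (kap (fun i j => ι (t i j)) r * mon x' r)) ∧
      (∀ l, SumsTo V p (term ι t (P l) x') (v' l)) ∧
      ∀ l, nC p hV (v' l) < δ * nC p hV (kap (fun i j => ι (t i j)) r * mon x' r) := by
  have ht' : ∀ i j, (fun i j => ι (t i j)) i j ≠ 0 := fun i j => (map_ne_zero ι).2 (ht i j)
  set t' : Fin g → Fin g → C := fun i j => ι (t i j) with ht'd
  set z : Fin g → ℤ := (k : ℤ) • fun i => w₀ i / (k : ℤ) with hz
  set r : Fin g → ℤ := fun i => w₀ i % (k : ℤ) with hr
  have hk' : (0 : ℤ) < k := by exact_mod_cast Nat.pos_of_ne_zero hk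
  have hw₀ : r + z = w₀ := by
    funext i
    simp only [hr, hz, Pi.add_apply, Pi.smul_apply, smul_eq_mul]
    exact Int.emod_add_mul_ediv _ _
  set D : C := kap t' z * mon x z with hD
  have hD0 : D ≠ 0 := mul_ne_zero (kap_ne ht' _) (mon_ne hx _)
  set x' : Fin g → C := fun i => x i * bet t' (Pi.single i 1) z with hx'
  have hT : ∀ w, kap t' w * mon x' w = kap t' (w + z) * mon x (w + z) / D := by
    intro w
    rw [hx', mon_mul, ← bet_eq_mon ht', kap_add ht', mon_add hx, eq_div_iff hD0, hD]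
    ring
  have hDn : 0 < vn C (p : V) D := vn_pos hp hD0
  have hnT : ∀ w, nC p hV (kap t' w * mon x' w) =
      nC p hV (kap t' (w + z) * mon x (w + z)) / vn C (p : V) D := by
    intro w
    rw [hT]
    unfold nC
    rw [div_eq_mul_inv, vn_mul hp, vn_inv hp, div_eq_mul_inv]
  refine ⟨x', r, fun l => v l / D, fun i => mul_ne_zero (hx i) (bet_ne ht' _ _), ?_, ?_, ?_, ?_⟩
  · intro i
    exact ⟨Int.emod_nonneg _ hk'.ne', Int.emod_lt_of_pos _ hk'⟩
  · intro w
    rw [hnT, hnT, hw₀]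
    exact div_le_div_of_nonneg_right (hmax _) hDn.le
  · intro l
    have h1 := sumsTo_reindex (sumsTo_div hp (hs l) hD0) (Equiv.addRight z)
    have h2 : (fun w => term ι t (P l) x (Equiv.addRight z w) / D) = term ι t (P l) x' := by
      funext w
      unfold term
      rw [Equiv.coe_addRight, hP l]
      rw [← ht'd, hT]
      ring
    rwa [h2] at h1
  · intro l
    rw [hnT, hw₀]
    have h1 : nC p hV (v l / D) = nC p hV (v l) / vn C (p : V) D := by
      unfold nC
      rw [div_eq_mul_inv, vn_mul hp, vn_inv hp, div_eq_mul_inv]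
    rw [h1, ← mul_div_assoc]
    exact div_lt_div_of_pos_right (hlt l) hDn

end LB

open LB in
/-- LB -/
theorem lb_proof : Stmt_LB.{u} := by
  intro p _ K _ _ O _ _ b h g n k hk t lam Lam hTP P hP base
  by_contra hcon
  push Not at hcon
  have hcon' := fun m : ℕ => hcon ((1 / 2 : ℝ) ^ m) (by positivity)
  choose L fL aL ι V hV fV cV x hx w₀ hmax v hs hlt using hcon'
  have hp0 : (p : K) ≠ 0 := b.hp0
  have hpu : ¬IsUnit (p : O) := Fact.out
  have hpV : ∀ m, PU (p : V m) := fun m => PUX.pu_p ((hV m).p_ne_zero b.hp0)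
  letI := nfPU (F := K) h
  have hne : ∀ i j, t i j ≠ 0 := hTP.ne
  have hnorm := fun m => normalise (hV m) (hpV m) hk hne hP (hx m) (hmax m) (hs m) (hlt m)
  choose x' r v' hx' hr hmax' hs' hlt' using hnorm
  obtain ⟨H, hH0, hH⟩ := exists_bound hk P hP
  set B : ℝ := Lam * ((k : ℝ) + 1) ^ 2 with hB
  have hB0 : 0 ≤ B := by
    have h8 := hTP.pos
    have h9 := hTP.le
    exact mul_nonneg (by linarith) (by positivity)
  have hlog : ∀ m i, |Real.log (nC p (hV m) (x' m i))| ≤ B := by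
    intro m i
    letI := nfPU (F := L m) (hpV m)
    have hiso : Iso (ι m) := fun z => nC_map (hV m) hp0 z
    exact log_bound (TP.map hiso hTP) (hx' m) (hr m) (hmax' m) i
  have hTle : ∀ m w, nC p (hV m) (kap (fun i j => ι m (t i j)) w * mon (x' m) w) ≤
      Real.exp (-lam * ‖rv w‖ ^ 2 + g * B * ‖rv w‖) := by
    intro m w
    letI := nfPU (F := L m) (hpV m)
    have hiso : Iso (ι m) := fun z => nC_map (hV m) hp0 z
    exact T_le (TP.map hiso hTP) (hx' m) (hlog m) w
  have hTmax : ∀ m, nC p (hV m) (kap (fun i j => ι m (t i j)) (r m) * mon (x' m) (r m)) ≤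
      Real.exp (g * B * k) := by
    intro m
    letI := nfPU (F := L m) (hpV m)
    have hiso : Iso (ι m) := fun z => nC_map (hV m) hp0 z
    exact T_max_le (TP.map hiso hTP) (hx' m) hB0 (hlog m) (hr m)
  -- the limit field
  obtain ⟨LL, _, ιL, VL, hVL, π, hπs, hπ0, hπO⟩ := exists_limit hp0 hpu hV h.cof
  obtain ⟨hLc, hVc⟩ := ulta_proof p K O hp0 hpu L ι V hV LL ιL VL hVL π hπs hπ0
  haveI hLc' := hLc
  haveI hVc' := hVc
  haveI fVL : Fact ¬IsUnit (p : VL) := ⟨by
    have h3 := hVL.not_isUnit hpu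
    rwa [map_natCast] at h3⟩
  have hpLL : (p : LL) ≠ 0 := by
    rw [← map_natCast ιL]
    exact (map_ne_zero ιL).2 hp0
  have hpL : ∀ m, (p : L m) ≠ 0 := by
    intro m
    rw [← map_natCast (ι m)]
    exact (map_ne_zero (ι m)).2 hp0
  obtain ⟨N, hN⟩ := pow_unbounded_of_one_lt (Real.exp B) one_lt_two
  have hc : ∀ m i, (p : L m) ^ N * x' m i ∈ V m := fun m i =>
    mul_mem_of_lt (hpV m) ((vn_le_exp (hpV m) (hx' m i) (hlog m i)).1.trans_lt hN)
  have hc' : ∀ m i, (p : L m) ^ N * (x' m i)⁻¹ ∈ V m := fun m i =>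
    mul_mem_of_lt (hpV m) ((vn_le_exp (hpV m) (hx' m i) (hlog m i)).2.trans_lt hN)
  have hlim : ∀ i, ∃ y, Lim (p := p) π (fun m => x' m i) y := by
    intro i
    refine ⟨((π (fun m => ⟨_, hc m i⟩) : VL) : LL) / (p : LL) ^ N, N, fun m => ⟨_, hc m i⟩,
      fun m => rfl, ?_⟩
    rw [mul_div_cancel₀ _ (pow_ne_zero N hpLL)]
  choose y hy using hlim
  have hinv := fun i => Lim.inv hpLL (hy i) (fun m => hx' m i) (fun m => hc' m i)
  have hy0 : ∀ i, y i ≠ 0 := fun i => (hinv i).1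
  have hT : ∀ l w, Lim (p := p) π (fun m => term (ι m) t (P l) (x' m) w)
      (term ιL t (P l) y w) := by
    intro l w
    unfold term
    refine (lim_const hV hVL h hπO (P l w)).mul (Lim.mul ?_ ?_)
    · have h1 := lim_const hV hVL h hπO (kap t w)
      simp only [map_kap] at h1
      exact h1
    · exact Lim.prod _ fun i _ => (hy i).zpow (hinv i).2 (w i)
  refine base LL ιL VL hVL y hy0 0 ?_ rfl
  intro l j
  obtain ⟨S, hS⟩ := exists_finset g hTP.pos B H ((1 / 2) ^ j) (by positivity)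
  refine ⟨S, fun T hST => ?_⟩
  have hsum : (∑ w ∈ T, term ιL t (P l) y w) / (p : LL) ^ j ∈ VL := by
    refine Lim.div_mem hpLL hpL hπ0 (Lim.sum T fun w _ => hT l w) j ?_
    obtain ⟨M, hM⟩ := pow_unbounded_of_one_lt (Real.exp (g * B * k)) one_lt_two
    have hev : ∀ᶠ m in (hyperfilter ℕ : Filter ℕ), M + j ≤ m := by
      apply (hyperfilter_le_cofinite : (hyperfilter ℕ : Filter ℕ) ≤ cofinite)
      rw [Nat.cofinite_eq_atTop]
      exact eventually_ge_atTop _
    filter_upwards [hev] with m hm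
    have hv : v' m l / (p : L m) ^ j ∈ V m := by
      apply mem_of_lt (hpV m)
      refine (hlt' m l).trans ?_
      calc (1 / 2 : ℝ) ^ m * nC p (hV m) (kap (fun i j => ι m (t i j)) (r m) * mon (x' m) (r m))
          ≤ (1 / 2 : ℝ) ^ (M + j) * Real.exp (g * B * k) := by
            apply mul_le_mul
            · exact pow_le_pow_of_le_one (by norm_num) (by norm_num) hm
            · exact hTmax m
            · exact vn_nonneg _
            · positivity
        _ < (1 / 2 : ℝ) ^ (M + j) * 2 ^ M := by gcongr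
        _ = (1 / 2) ^ j := by
            rw [pow_add, mul_right_comm, ← mul_pow]
            norm_num
    obtain ⟨S', hS'⟩ := hs' m l j
    have h1 := hS' (S' ∪ T) Finset.subset_union_left
    rw [← Finset.sum_sdiff (Finset.subset_union_right : T ⊆ S' ∪ T)] at h1
    have h2 : (∑ w ∈ (S' ∪ T) \ T, term (ι m) t (P l) (x' m) w) / (p : L m) ^ j ∈ V m := by
      rw [Finset.sum_div]
      apply sum_mem
      intro w hw
      apply mem_of_lt (hpV m)
      have h3 : w ∉ S := fun h4 => (Finset.mem_sdiff.1 hw).2 (hST h4)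
      refine lt_of_le_of_lt ?_ (hS w h3)
      unfold term
      rw [vn_mul (hpV m)]
      apply mul_le_mul
      · have h5 := nC_map (hV m) hp0 (P l w)
        unfold nC at h5
        rw [h5]
        exact hH l w
      · exact hTle m w
      · exact vn_nonneg _
      · exact hH0.le
    have h6 := sub_mem (sub_mem hv h1) h2
    have h7 : v' m l / (p : L m) ^ j - (v' m l - (∑ w ∈ (S' ∪ T) \ T,
        term (ι m) t (P l) (x' m) w + ∑ w ∈ T, term (ι m) t (P l) (x' m) w)) / (p : L m) ^ j -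
        (∑ w ∈ (S' ∪ T) \ T, term (ι m) t (P l) (x' m) w) / (p : L m) ^ j =
        (∑ w ∈ T, term (ι m) t (P l) (x' m) w) / (p : L m) ^ j := by
      ring
    rw [h7] at h6
    exact h6
  rw [Pi.zero_apply, zero_sub, neg_div]
  exact neg_mem hsum

end Pool.Agent.TDA
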