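import Pool.Agent.TDA.Stmts

/-!
# MAT: systems of linear equations with dominant diagonal
-/

set_option autoImplicit false
set_option linter.unusedSectionVars false

noncomputable section

namespace Pool.Agent.TDA

open scoped Classical

universe u

namespace MAT

variable {F : Type u} [NormedField F] [IsUltrametricDist F] {I : Type} [Fintype I]

/-- The linear map of the system. -/
def T (A : I → I → F) : (I → F) →ₗ[F] (I → F) where
  toFun c s' := ∑ s, c s * A s s'
  map_add' c d := by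
    funext s'
    simp only [Pi.add_apply, add_mul, Finset.sum_add_distrib]
  map_smul' a c := by
    funext s'
    simp only [Pi.smul_apply, smul_eq_mul, RingHom.id_apply, Finset.mul_sum, mul_assoc]

theorem T_apply (A : I → I → F) (c : I → F) (s' : I) : T A c s' = ∑ s, c s * A s s' := rfl

theorem key (A : I → I → F) (δ : ℝ) (hδ : 0 < δ) (hd : ∀ s, δ ≤ ‖A s s‖)
    (ho : ∀ s s', s ≠ s' → ‖A s s'‖ < δ) (c : I → F) (s : I) :
    ∃ s0, ‖c s‖ ≤ ‖c s0‖ ∧ δ * ‖c s0‖ ≤ ‖T A c s0‖ := by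
  obtain ⟨s0, -, hmax⟩ := Finset.exists_max_image Finset.univ (fun s => ‖c s‖)
    ⟨s, Finset.mem_univ s⟩
  refine ⟨s0, hmax s (Finset.mem_univ s), ?_⟩
  by_cases h0 : c s0 = 0
  · rw [h0, norm_zero, mul_zero]; exact norm_nonneg _
  have hpos : 0 < ‖c s0‖ := norm_pos_iff.mpr h0
  have hsplit : T A c s0 = c s0 * A s0 s0 + ∑ s ∈ Finset.univ.erase s0, c s * A s s0 := by
    rw [T_apply, Finset.add_sum_erase Finset.univ (fun s => c s * A s s0) (Finset.mem_univ s0)]
  have hdiag : δ * ‖c s0‖ ≤ ‖c s0 * A s0 s0‖ := by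
    rw [norm_mul, mul_comm]
    exact mul_le_mul_of_nonneg_left (hd s0) (norm_nonneg _)
  have hrest : ‖∑ s ∈ Finset.univ.erase s0, c s * A s s0‖ < δ * ‖c s0‖ := by
    rcases (Finset.univ.erase s0).eq_empty_or_nonempty with he | hne
    · rw [he, Finset.sum_empty, norm_zero]; positivity
    · obtain ⟨i, hi, hle⟩ := IsUltrametricDist.exists_norm_finsetSum_le_of_nonempty hne
        (fun s => c s * A s s0)
      refine lt_of_le_of_lt hle ?_
      rw [norm_mul, mul_comm]
      have h1 : ‖A i s0‖ < δ := ho i s0 (Finset.ne_of_mem_erase hi)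
      have h2 : ‖c i‖ ≤ ‖c s0‖ := hmax i (Finset.mem_univ i)
      calc ‖A i s0‖ * ‖c i‖ ≤ ‖A i s0‖ * ‖c s0‖ :=
            mul_le_mul_of_nonneg_left h2 (norm_nonneg _)
        _ < δ * ‖c s0‖ := mul_lt_mul_of_pos_right h1 hpos
  have hne : ‖c s0 * A s0 s0‖ ≠ ‖∑ s ∈ Finset.univ.erase s0, c s * A s s0‖ :=
    ne_of_gt (lt_of_lt_of_le hrest hdiag)
  rw [hsplit, IsUltrametricDist.norm_add_eq_max_of_norm_ne_norm hne]
  exact le_trans hdiag (le_max_left _ _)

end MAT

open MAT in
theorem mat_proof : Stmt_Mat.{u} := by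
  intro F _ _ I _ A δ hδ hd ho h H hH
  have hinj : Function.Injective (T A) := by
    rw [← LinearMap.ker_eq_bot, LinearMap.ker_eq_bot']
    intro c hc
    funext s
    obtain ⟨s0, h1, h2⟩ := key A δ hδ hd ho c s
    rw [hc, Pi.zero_apply, norm_zero] at h2
    have h3 : ‖c s0‖ ≤ 0 := by
      by_contra hcon
      push Not at hcon
      have := mul_pos hδ hcon
      linarith
    have h4 : ‖c s‖ ≤ 0 := le_trans h1 h3
    simpa using norm_le_zero_iff.mp h4
  have hsurj : Function.Surjective (T A) := LinearMap.injective_iff_surjective.mp hinj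
  obtain ⟨c, hc⟩ := hsurj h
  refine ⟨c, fun s => ?_, fun s' => ?_⟩
  · obtain ⟨s0, h1, h2⟩ := key A δ hδ hd ho c s
    rw [le_div_iff₀ hδ]
    rw [hc] at h2
    calc ‖c s‖ * δ ≤ ‖c s0‖ * δ := mul_le_mul_of_nonneg_right h1 hδ.le
      _ = δ * ‖c s0‖ := mul_comm _ _
      _ ≤ ‖h s0‖ := h2
      _ ≤ H := hH s0
  · rw [← hc, T_apply]

end Pool.Agent.TDA
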