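import Pool.Agent.TDA.Stmts

/-!
# MAXC: comparison of the maximal terms at `x` and at `x ^ D`
-/

set_option autoImplicit false
set_option linter.unusedSectionVars false

noncomputable section

namespace Pool.Agent.TDA

open scoped Classical
open MvPolynomial

universe u

namespace MAXC

variable {F : Type u} [NormedField F] {g : ℕ}

theorem norm_rv_single (i : Fin g) (s : ℤ) (hs : |s| = 1) :
    ‖rv (Pi.single i s : Fin g → ℤ)‖ ≤ 1 := by
  rw [pi_norm_le_iff_of_nonneg zero_le_one]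
  intro j
  unfold rv
  by_cases h : j = i
  · subst h
    rw [Pi.single_eq_same, Real.norm_eq_abs, ← Int.cast_abs, hs, Int.cast_one]
  · rw [Pi.single_eq_of_ne h, Int.cast_zero, norm_zero]
    exact zero_le_one

end MAXC

open MAXC in
theorem maxc_proof : Stmt_Maxc.{u} := by
  intro F _ _ g t t₀ lam Lam hT D hD hRt x hx w₀ h₀ w₁ h₁
  have hD1 : (1 : ℝ) ≤ D := by exact_mod_cast Nat.one_le_iff_ne_zero.mpr hD
  have hD0 : (0 : ℝ) < D := lt_of_lt_of_le one_pos hD1
  have hDz : (0 : ℤ) < (D : ℤ) := by exact_mod_cast Nat.pos_of_ne_zero hD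
  have hD2 : D ^ 2 ≠ 0 := pow_ne_zero 2 hD
  have hT₀ := TP.rt hD2 hRt hT
  have hLam : 0 ≤ Lam := hT.pos.le.trans hT.le
  -- the linear part
  set y : Fin g → F := fun i => bet t₀ (Pi.single i 1) w₀ * x i with hy
  have hyne : ∀ i, y i ≠ 0 := fun i => mul_ne_zero (bet_ne hT₀.ne _ _) (hx i)
  have hterm : ∀ v : Fin g → ℤ, kap t₀ (w₀ + v) * mon x (w₀ + v) =
      (kap t₀ w₀ * mon x w₀) * (kap t₀ v * mon y v) := by
    intro v
    rw [kap_add hT₀.ne, mon_add hx, hy, mon_mul, ← bet_eq_mon hT₀.ne, bet_comm t₀ w₀ v]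
    ring
  have hpos : 0 < ‖kap t₀ w₀ * mon x w₀‖ :=
    norm_pos_iff.mpr (mul_ne_zero (kap_ne hT₀.ne _) (mon_ne hx _))
  have hle : ∀ v : Fin g → ℤ, ‖kap t₀ v * mon y v‖ ≤ 1 := by
    intro v
    have h := h₀ (w₀ + v)
    rw [hterm, norm_mul] at h
    by_contra hc
    push Not at hc
    have := mul_lt_mul_of_pos_left hc hpos
    linarith
  have hnorm : ∀ v : Fin g → ℤ, ‖kap t₀ v * mon y v‖ =
      Real.exp (-QF (qf t₀) (rv v) + ∑ i, (v i : ℝ) * Real.log ‖y i‖) := by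
    intro v
    rw [norm_mul, norm_kap hT₀.ne, norm_mon hyne, ← Real.exp_add]
  have hlin : ∀ v : Fin g → ℤ, ∑ i, (v i : ℝ) * Real.log ‖y i‖ ≤ QF (qf t₀) (rv v) := by
    intro v
    have h := hle v
    rw [hnorm, Real.exp_le_one_iff] at h
    linarith
  have hsingle : ∀ (i : Fin g) (s : ℤ), ∑ j, ((Pi.single i s : Fin g → ℤ) j : ℝ) *
      Real.log ‖y j‖ = s * Real.log ‖y i‖ := by
    intro i s
    rw [Finset.sum_eq_single i]
    · rw [Pi.single_eq_same]
    · intro j _ hj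
      rw [Pi.single_eq_of_ne hj, Int.cast_zero, zero_mul]
    · intro h
      exact absurd (Finset.mem_univ _) h
  have hbd : ∀ (i : Fin g) (s : ℤ), |s| = 1 → s * Real.log ‖y i‖ ≤ Lam / (D : ℝ) ^ 2 := by
    intro i s hs
    have h1 := hlin (Pi.single i s)
    rw [hsingle] at h1
    have h2 := hT₀.hi (rv (Pi.single i s : Fin g → ℤ))
    have h3 := norm_rv_single i s hs
    have h4 : ‖rv (Pi.single i s : Fin g → ℤ)‖ ^ 2 ≤ 1 := pow_le_one₀ (norm_nonneg _) h3
    have h5 : (0 : ℝ) ≤ Lam / ((D ^ 2 : ℕ) : ℝ) := div_nonneg hLam (Nat.cast_nonneg _)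
    have h6 := mul_le_mul_of_nonneg_left h4 h5
    rw [mul_one] at h6
    push_cast at h6 h2
    linarith
  have habs : ∀ i, |Real.log ‖y i‖| ≤ Lam / (D : ℝ) ^ 2 := by
    intro i
    rw [abs_le]
    have h1 := hbd i 1 (by simp)
    have h2 := hbd i (-1) (by simp)
    push_cast at h1 h2
    constructor <;> linarith
  -- the approximation of `w₀` by multiples of `D`
  set w : Fin g → ℤ := fun j => w₀ j / (D : ℤ) with hw
  set v : Fin g → ℤ := (D : ℤ) • w - w₀ with hv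
  have hvabs : ∀ j, |(v j : ℝ)| ≤ D := by
    intro j
    have h1 : v j = -(w₀ j % (D : ℤ)) := by
      rw [hv, hw, Pi.sub_apply, Pi.smul_apply, smul_eq_mul]
      have := Int.emod_add_mul_ediv (w₀ j) (D : ℤ)
      linarith
    have h2 := Int.emod_nonneg (w₀ j) hDz.ne'
    have h3 := Int.emod_lt_of_pos (w₀ j) hDz
    rw [← Int.cast_abs]
    have h4 : |v j| ≤ (D : ℤ) := by
      rw [h1, abs_neg, abs_of_nonneg h2]
      exact h3.le
    exact_mod_cast h4
  have hvnorm : ‖rv v‖ ≤ D := by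
    rw [pi_norm_le_iff_of_nonneg hD0.le]
    intro j
    rw [Real.norm_eq_abs]
    exact hvabs j
  have hQ : QF (qf t₀) (rv v) ≤ Lam := by
    have h1 := hT₀.hi (rv v)
    have h2 : ‖rv v‖ ^ 2 ≤ (D : ℝ) ^ 2 := pow_le_pow_left₀ (norm_nonneg _) hvnorm 2
    have h5 : (0 : ℝ) ≤ Lam / ((D ^ 2 : ℕ) : ℝ) := div_nonneg hLam (Nat.cast_nonneg _)
    have h3 := mul_le_mul_of_nonneg_left h2 h5
    push_cast at h1 h3
    rw [div_mul_cancel₀ _ (pow_ne_zero 2 hD0.ne')] at h3
    linarith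
  have hL : -(Lam * g) ≤ ∑ i, (v i : ℝ) * Real.log ‖y i‖ := by
    have h1 : ∀ i ∈ (Finset.univ : Finset (Fin g)), -Lam ≤ (v i : ℝ) * Real.log ‖y i‖ := by
      intro i _
      have h2 : |(v i : ℝ) * Real.log ‖y i‖| ≤ Lam := by
        rw [abs_mul]
        have h3 := mul_le_mul (hvabs i) (habs i) (abs_nonneg _) hD0.le
        have h4 : (D : ℝ) * (Lam / (D : ℝ) ^ 2) = Lam / D := by
          field_simp
        rw [h4] at h3
        have h5 : Lam / D ≤ Lam := div_le_self hLam hD1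
        linarith
      have := neg_abs_le ((v i : ℝ) * Real.log ‖y i‖)
      linarith
    have h6 := Finset.card_nsmul_le_sum Finset.univ _ _ h1
    rw [Finset.card_univ, Fintype.card_fin, nsmul_eq_mul] at h6
    linarith
  have hfin : ‖kap t₀ w₀ * mon x w₀‖ ≤ Real.exp (Lam * (1 + g)) *
      ‖kap t₀ (w₀ + v) * mon x (w₀ + v)‖ := by
    rw [hterm, norm_mul (kap t₀ w₀ * mon x w₀), hnorm, mul_left_comm, ← Real.exp_add]
    have h1 : (1 : ℝ) ≤ Real.exp (Lam * (1 + g) + (-QF (qf t₀) (rv v) +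
        ∑ i, (v i : ℝ) * Real.log ‖y i‖)) := by
      apply Real.one_le_exp
      linarith
    have h2 := mul_le_mul_of_nonneg_left h1 hpos.le
    linarith
  refine hfin.trans (mul_le_mul_of_nonneg_left ?_ (Real.exp_pos _).le)
  have hwv : w₀ + v = (D : ℤ) • w := by rw [hv]; abel
  rw [hwv]
  have h2 : kap t₀ ((D : ℤ) • w) * mon x ((D : ℤ) • w) =
      kap t w * mon (fun i => x i ^ D) w := by
    rw [kap_smul, mon_smul, mon_pow, hRt.kap]
    congr 1
    · rw [← zpow_natCast]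
      congr 1
      push_cast
      ring
    · rw [zpow_natCast]
  rw [h2]
  exact h₁ w

end Pool.Agent.TDA
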