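import Pool.Agent.TDA.Stmts2
import Pool.Agent.DC.TN
import Pool.Agent.DC.SCX
import Pool.Agent.DC.PUX

set_option autoImplicit false
set_option linter.unusedSectionVars false

/-!
# NORMC: the rank one norm of an extension
-/

noncomputable section

namespace Pool.Agent.TDA

open scoped Classical
open Pool.Agent.LibDb3ab1 Pool.Agent.DC Pool.Agent.CSM

universe u

namespace NORMC

variable {W : Type u} [CommRing W] [IsDomain W] [ValuationRing W] {F : Type u} [Field F]
  [Algebra W F] [IsFractionRing W F] {ϖ : W}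

/-- Completeness of the fraction field of a complete ring. -/
theorem complete (h : PU ϖ) (hsc : SC ϖ) (x : ℕ → F)
    (hx : ∀ ε : ℝ, 0 < ε → ∃ N, ∀ i ≥ N, ∀ j ≥ N, vn F ϖ (x i - x j) < ε) :
    ∃ y, ∀ ε : ℝ, 0 < ε → ∃ N, ∀ i ≥ N, vn F ϖ (x i - y) < ε := by
  obtain ⟨N₀, hN₀⟩ := hx 1 one_pos
  have h1 : ∀ i : ℕ, ∃ w : W, N₀ ≤ i → algebraMap W F w = x i - x N₀ := by
    intro i
    by_cases hi : N₀ ≤ i
    · obtain ⟨w, hw⟩ := exists_of_vn_lt h (hN₀ i hi N₀ le_rfl)
      exact ⟨w, fun _ => hw⟩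
    · exact ⟨0, fun h => absurd h hi⟩
  choose w hw using h1
  have h2 : ∀ k : ℕ, ∃ M, N₀ ≤ M ∧ ∀ i ≥ M, ∀ j ≥ M, ϖ ^ k ∣ w i - w j := by
    intro k
    obtain ⟨N, hN⟩ := hx ((1 / 2) ^ k) (by positivity)
    refine ⟨max N N₀, le_max_right _ _, fun i hi j hj => ?_⟩
    apply TN.dvd_of_vn_lt (F := F) h
    rw [map_sub, hw i (le_trans (le_max_right _ _) hi), hw j (le_trans (le_max_right _ _) hj),
      sub_sub_sub_cancel_right]
    exact hN i (le_trans (le_max_left _ _) hi) j (le_trans (le_max_left _ _) hj)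
  choose M hM0 hM using h2
  -- a monotone bound
  let M' : ℕ → ℕ := fun k => (Finset.range (k + 1)).sup M
  have hle : ∀ k l, k ≤ l → M k ≤ M' l := fun k l hkl =>
    Finset.le_sup (f := M) (Finset.mem_range.mpr (Nat.lt_succ_of_le hkl))
  obtain ⟨L, hL⟩ := hsc (fun k => w (M' k)) fun k =>
    hM k _ (hle k (k + 1) (Nat.le_succ k)) _ (hle k k le_rfl)
  refine ⟨x N₀ + algebraMap W F L, fun ε hε => ?_⟩
  obtain ⟨k, hk⟩ := exists_pow_lt_of_lt_one hε (show (1 / 2 : ℝ) < 1 by norm_num)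
  refine ⟨M k, fun i hi => ?_⟩
  have h3 : x i - (x N₀ + algebraMap W F L) = algebraMap W F (w i - L) := by
    rw [map_sub, hw i ((hM0 k).trans hi)]
    ring
  rw [h3]
  have h4 : ϖ ^ k ∣ w i - L := by
    have h5 : w i - L = (w i - w (M' k)) - (L - w (M' k)) := by ring
    rw [h5]
    exact dvd_sub (hM k _ hi _ (hle k k le_rfl)) (hL k)
  exact lt_of_le_of_lt (TN.vn_le_of_dvd h h4) hk

end NORMC

theorem normc_proof : Stmt_NormC.{u} := by
  intro p _ K _ O _ _ b C _ ι V hV _ _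
  have hpux := pux_proof O p b
  have hp : PU (p : V) := (hpux.2 C ι V hV).1
  have hpO : PU (p : O) := (hpux.2 K (RingHom.id K) O valuedExt_id).1
  constructor
  · intro x
    have h0 : ∀ y : O, vn C (p : V) (ι (y : K)) = vn K (p : O) (y : K) := by
      intro y
      have key := TN.vn_eq_of_dvd_iff (F := C) (F' := K) hp hpO (hV.incl y) y (by
        intro n m
        rw [← map_pow, ← SCXX.incl_dvd_iff hV, map_pow, map_pow, map_natCast])
      exact key
    obtain ⟨y, z, hz, rfl⟩ := IsFractionRing.div_surjective (A := O) x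
    have h1 := h0 y
    have h2 := h0 z
    unfold nC
    rw [map_div₀, TN.vn_div hp, TN.vn_div hpO]
    exact congrArg₂ (· / ·) h1 h2
  · intro x hx
    exact NORMC.complete hp (SCXX.sc_of_complete (p : V)) x hx

end Pool.Agent.TDA
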