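import Pool.Agent.TDA.Stmts

/-!
# NUM: choice of the level and of the radius
-/

set_option autoImplicit false

namespace Pool.Agent.TDA

theorem num_proof : Stmt_Num := by
  intro g lam Lam ε B hlam _ hε Q hQ
  obtain ⟨r, hr⟩ := exists_nat_ge (max (2 * g * Lam / lam) (2 * (2 * Lam - Real.log ε) / lam))
  obtain ⟨k, hk⟩ := exists_nat_ge (max (B / lam)
    (4 * (2 * Lam + 6 * Lam * (((r + 1 : ℕ) : ℝ) + 1) ^ 2 - Real.log ε) / lam))
  have hr1 := (le_max_left _ _).trans hr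
  have hr2 := (le_max_right _ _).trans hr
  have hk1 := (le_max_left _ _).trans hk
  have hk2 := (le_max_right _ _).trans hk
  rw [div_le_iff₀ hlam] at hr1 hr2 hk1 hk2
  have hQ1 : 1 ≤ Q := Nat.one_le_iff_ne_zero.mpr hQ
  have hN : k + 2 * (r + 1) + 1 ≤ Q * (k + 2 * (r + 1) + 1) := Nat.le_mul_of_pos_left _ hQ1
  set N := Q * (k + 2 * (r + 1) + 1) with hNdef
  have hNR : (k : ℝ) + 2 * (r + 1) + 1 ≤ N := by exact_mod_cast hN
  have hr0 : (0 : ℝ) ≤ r := Nat.cast_nonneg r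
  have hk0 : (0 : ℝ) ≤ k := Nat.cast_nonneg k
  have hN2 : (k : ℝ) + 1 ≤ (N : ℝ) ^ 2 := by nlinarith
  have hlN : lam * (k + 1) ≤ lam * (N : ℝ) ^ 2 := mul_le_mul_of_nonneg_left hN2 hlam.le
  have hr3 : (r : ℝ) ≤ ((r + 1 : ℕ) : ℝ) ^ 2 := by
    push_cast
    nlinarith
  have hlr : lam * r ≤ lam * ((r + 1 : ℕ) : ℝ) ^ 2 := mul_le_mul_of_nonneg_left hr3 hlam.le
  refine ⟨N, r + 1, by omega, by omega, Dvd.intro _ rfl, by nlinarith, by omega, ?_, by omega,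
    ?_, ?_⟩
  · push_cast
    nlinarith
  · rw [← Real.le_log_iff_exp_le hε]
    nlinarith
  · rw [← Real.le_log_iff_exp_le hε]
    nlinarith

end Pool.Agent.TDA
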