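import Pool.Agent.TDA.Stmts

/-!
# TDA: module PEST, estimates for the coefficients of products of theta functions
-/

set_option autoImplicit false
set_option linter.unusedSectionVars false

noncomputable section

namespace Pool.Agent.TDA

open scoped Classical
open MvPolynomial

universe u

namespace PEST

variable {F : Type u} [NormedField F] {g : ℕ}

/-- Translation of a fibre. -/
def fibEquiv {k : ℕ} (N : ℕ) (a : Fin k → Fin g → ℤ) (s u : Fin g → ℤ) :
    Fib N a s ≃ Fib N a (s + ((k * N : ℕ) : ℤ) • u) where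
  toFun w := ⟨fun i => w.1 i + (N : ℤ) • u, by
    refine ⟨fun i j => ?_, ?_⟩
    · have h := w.2.1 i j
      have e : (w.1 i + (N : ℤ) • u) j - a i j = (w.1 i j - a i j) + (N : ℤ) * u j := by
        simp only [Pi.add_apply, Pi.smul_apply, smul_eq_mul]
        ring
      rw [e]
      exact dvd_add h (dvd_mul_right _ _)
    · rw [Finset.sum_add_distrib, w.2.2, Finset.sum_const, Finset.card_univ, Fintype.card_fin]
      funext j
      simp only [Pi.add_apply, Pi.smul_apply, smul_eq_mul]
      rw [nsmul_eq_mul]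
      push_cast
      ring⟩
  invFun w := ⟨fun i => w.1 i - (N : ℤ) • u, by
    refine ⟨fun i j => ?_, ?_⟩
    · have h := w.2.1 i j
      have e : (w.1 i - (N : ℤ) • u) j - a i j = (w.1 i j - a i j) - (N : ℤ) * u j := by
        simp only [Pi.sub_apply, Pi.smul_apply, smul_eq_mul]
        ring
      rw [e]
      exact dvd_sub h (dvd_mul_right _ _)
    · rw [Finset.sum_sub_distrib, w.2.2, Finset.sum_const, Finset.card_univ, Fintype.card_fin]
      funext j
      simp only [Pi.add_apply, Pi.sub_apply, Pi.smul_apply, smul_eq_mul]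
      rw [nsmul_eq_mul]
      push_cast
      ring⟩
  left_inv w := by
    apply Subtype.ext
    funext i
    simp
  right_inv w := by
    apply Subtype.ext
    funext i
    simp

theorem per {k : ℕ} (hk : k ≠ 0) {r t : Fin g → Fin g → F} (h : Rt k r t)
    (ht : ∀ i j, t i j ≠ 0) (N : ℕ) (a : Fin k → Fin g → ℤ) :
    Per (k * N) (hpr r t N a) := by
  intro s u
  unfold hpr
  rw [← (fibEquiv N a s u).tsum_eq]
  apply tsum_congr
  intro w
  exact EE_add hk h ht w.1 ((N : ℤ) • u)

/-- Members of a fibre are of the form `a + N u`. -/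
theorem exists_u {k : ℕ} {N : ℕ} {a : Fin k → Fin g → ℤ} {s : Fin g → ℤ} (w : Fib N a s) :
    ∃ u : Fin k → Fin g → ℤ, w.1 = fun i => a i + (N : ℤ) • u i := by
  choose u hu using w.2.1
  refine ⟨u, ?_⟩
  funext i j
  simp only [Pi.add_apply, Pi.smul_apply, smul_eq_mul]
  linarith [hu i j]

/-- If all the `u i` are equal then the sum is known. -/
theorem sum_of_const {k : ℕ} (N : ℕ) (a u : Fin k → Fin g → ℤ) (v : Fin g → ℤ)
    (hu : ∀ i, u i = v) : ∑ i, (a i + (N : ℤ) • u i) = ∑ i, a i + ((k * N : ℕ) : ℤ) • v := by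
  rw [Finset.sum_add_distrib]
  simp_rw [hu]
  rw [Finset.sum_const, Finset.card_univ, Fintype.card_fin]
  congr 1
  funext j
  simp only [Pi.smul_apply, smul_eq_mul, nsmul_eq_mul]
  push_cast
  ring

end PEST

open PEST in
theorem pest_proof (hVar : Stmt_Var.{u}) (hSumE : Stmt_SumE.{u}) : Stmt_Pest.{u} := by
  intro F _ _ _ g t r lam Lam H k hk hr N a
  obtain ⟨v1, v2, -, -⟩ := hVar F g t lam Lam H k hk
  have hE : ∀ w : Fin k → Fin g → ℤ, ‖EE r t w‖ = Real.exp (-SS (qf t) w) :=
    norm_EE hk hr H.ne
  have h3 : ∀ s B, (∀ w : Fib N a s, B ≤ SS (qf t) w.1) → ‖hpr r t N a s‖ ≤ Real.exp (-B) := by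
    intro s B hB
    unfold hpr
    apply IsUltrametricDist.norm_tsum_le_of_forall_le_of_nonneg (Real.exp_pos _).le
    intro w
    rw [hE]
    exact Real.exp_le_exp.mpr (neg_le_neg (hB w))
  refine ⟨per hk hr H.ne N a, ?_, h3, ?_, ?_⟩
  · intro s
    have := h3 s 0 (fun w => v1 w.1)
    simpa using this
  · have hsum := hSumE F g t r lam Lam H k hk hr N a (∑ i, a i)
    let a0 : Fib N a (∑ i, a i) := ⟨a, fun i j => by simp, rfl⟩
    unfold hpr
    rw [hsum.tsum_eq_add_tsum_ite a0, add_sub_cancel_left]
    apply IsUltrametricDist.norm_tsum_le_of_forall_le_of_nonneg (Real.exp_pos _).le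
    intro w
    split_ifs with hw
    · rw [norm_zero]
      exact (Real.exp_pos _).le
    · rw [hE]
      apply Real.exp_le_exp.mpr (neg_le_neg _)
      obtain ⟨u, hu⟩ := exists_u w
      rw [hu]
      apply v2
      by_contra hcon
      push Not at hcon
      apply hw
      apply Subtype.ext
      rw [hu]
      change _ = a
      have i0 : Fin k := ⟨0, Nat.pos_of_ne_zero hk⟩
      have hs := sum_of_const N a u (u i0) (fun i => hcon i i0)
      have hs2 : ∑ i, (a i + (N : ℤ) • u i) = ∑ i, a i := by
        have := w.2.2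
        rw [hu] at this
        exact this
      rw [hs2] at hs
      have hz : ((k * N : ℕ) : ℤ) • u i0 = 0 := by
        have : ∑ i, a i + ((k * N : ℕ) : ℤ) • u i0 = ∑ i, a i + 0 := by rw [← hs, add_zero]
        exact add_left_cancel this
      have hz2 : (N : ℤ) • u i0 = 0 := by
        funext j
        have hj := congrFun hz j
        simp only [Pi.smul_apply, smul_eq_mul, Pi.zero_apply, Nat.cast_mul] at hj ⊢
        have hk' : (k : ℤ) ≠ 0 := by exact_mod_cast hk
        rw [mul_assoc] at hj
        exact (mul_eq_zero.mp hj).resolve_left hk'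
      funext i
      rw [hcon i i0, hz2, add_zero]
  · intro s hs
    apply h3
    intro w
    obtain ⟨u, hu⟩ := exists_u w
    rw [hu]
    apply v2
    by_contra hcon
    push Not at hcon
    apply hs
    have i0 : Fin k := ⟨0, Nat.pos_of_ne_zero hk⟩
    have hs1 := sum_of_const N a u (u i0) (fun i => hcon i i0)
    have hs2 : ∑ i, (a i + (N : ℤ) • u i) = s := by
      have := w.2.2
      rw [hu] at this
      exact this
    intro j
    rw [hs2] at hs1
    rw [hs1]
    refine ⟨u i0 j, ?_⟩
    simp only [Pi.add_apply, Pi.smul_apply, smul_eq_mul, Finset.sum_apply]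
    ring

end Pool.Agent.TDA
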