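import Pool.Agent.TDA.Stmts

set_option autoImplicit false

noncomputable section

namespace Pool.Agent.TDA

open scoped Classical
open MvPolynomial

universe u

theorem pmap_proof (hSumE : Stmt_SumE.{u}) : Stmt_Pmap.{u} := by
  intro F C _ _ _ _ _ _ ι hι g t r lam Lam H k hk hr N a s
  have hs := hSumE F g t r lam Lam H k hk hr N a s
  have hcont : Continuous ι := ((AddMonoidHomClass.isometry_iff_norm ι).mpr hι).continuous
  unfold hpr
  rw [hs.map_tsum ι hcont]
  apply tsum_congr
  intro w
  rw [map_EE]

end Pool.Agent.TDA
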