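import Pool.Agent.TDA.Stmts2

/-!
# Totally degenerate abelian varieties: module POS

The positivity condition in terms of the norm.
-/

set_option autoImplicit false
set_option linter.unusedSectionVars false

noncomputable section

namespace Pool.Agent.TDA

open scoped Classical Topology
open MvPolynomial Pool.Agent.LibDb3ab1 Pool.Agent.DC Pool.Agent.CSM

universe u

namespace POS

section real

variable {g : ℕ} (q : Fin g → Fin g → ℝ)

theorem QF_le (x : Fin g → ℝ) : QF q x ≤ (∑ i, ∑ j, |q i j|) * ‖x‖ ^ 2 := by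
  unfold QF
  rw [Finset.sum_mul]
  refine Finset.sum_le_sum fun i _ => ?_
  rw [Finset.sum_mul]
  refine Finset.sum_le_sum fun j _ => ?_
  have h1 : |x i * x j| ≤ ‖x‖ ^ 2 := by
    rw [abs_mul, sq]
    exact mul_le_mul (norm_le_pi_norm x i) (norm_le_pi_norm x j) (abs_nonneg _) (norm_nonneg _)
  calc q i j * (x i * x j) ≤ |q i j * (x i * x j)| := le_abs_self _
    _ = |q i j| * |x i * x j| := abs_mul _ _
    _ ≤ |q i j| * ‖x‖ ^ 2 := mul_le_mul_of_nonneg_left h1 (abs_nonneg _)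

theorem continuous_QF : Continuous fun x : Fin g → ℝ => QF q x := by
  unfold QF
  fun_prop

/-- The rational approximations `⌊n x⌋ / n`. -/
def ap (x : Fin g → ℝ) (n : ℕ) : Fin g → ℤ := fun j => ⌊(n + 1 : ℝ) * x j⌋

theorem tendsto_ap (x : Fin g → ℝ) :
    Filter.Tendsto (fun n : ℕ => ((n : ℝ) + 1)⁻¹ • rv (ap x n)) Filter.atTop (𝓝 x) := by
  rw [tendsto_pi_nhds]
  intro j
  have h0 : Filter.Tendsto (fun n : ℕ => x j - ((n : ℝ) + 1)⁻¹) Filter.atTop (𝓝 (x j - 0)) := by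
    refine tendsto_const_nhds.sub ?_
    simpa using tendsto_one_div_add_atTop_nhds_zero_nat (𝕜 := ℝ)
  rw [sub_zero] at h0
  refine tendsto_of_tendsto_of_tendsto_of_le_of_le h0 tendsto_const_nhds ?_ ?_
  · intro n
    have hn : (0 : ℝ) < (n : ℝ) + 1 := by positivity
    have h1 : ((n : ℝ) + 1) * x j - 1 < ⌊((n : ℝ) + 1) * x j⌋ := Int.sub_one_lt_floor _
    simp only [Pi.smul_apply, smul_eq_mul, rv, ap]
    rw [← mul_le_mul_iff_right₀ hn, ← mul_assoc, mul_inv_cancel₀ hn.ne', one_mul, mul_sub,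
      mul_inv_cancel₀ hn.ne']
    exact h1.le
  · intro n
    have hn : (0 : ℝ) < (n : ℝ) + 1 := by positivity
    have h1 : (⌊((n : ℝ) + 1) * x j⌋ : ℝ) ≤ ((n : ℝ) + 1) * x j := Int.floor_le _
    simp only [Pi.smul_apply, smul_eq_mul, rv, ap]
    rw [← mul_le_mul_iff_right₀ hn, ← mul_assoc, mul_inv_cancel₀ hn.ne', one_mul]
    exact h1

theorem lower {lam : ℝ} (H : ∀ w : Fin g → ℤ, lam * ‖rv w‖ ^ 2 ≤ QF q (rv w)) (x : Fin g → ℝ) :
    lam * ‖x‖ ^ 2 ≤ QF q x := by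
  have h1 := tendsto_ap x
  have h2 : Filter.Tendsto (fun n : ℕ => lam * ‖((n : ℝ) + 1)⁻¹ • rv (ap x n)‖ ^ 2)
      Filter.atTop (𝓝 (lam * ‖x‖ ^ 2)) := (h1.norm.pow 2).const_mul lam
  have h3 : Filter.Tendsto (fun n : ℕ => QF q (((n : ℝ) + 1)⁻¹ • rv (ap x n)))
      Filter.atTop (𝓝 (QF q x)) := ((continuous_QF q).tendsto x).comp h1
  refine le_of_tendsto_of_tendsto' h2 h3 fun n => ?_
  rw [QF_smul, norm_smul, mul_pow, Real.norm_eq_abs, sq_abs]
  have h4 := mul_le_mul_of_nonneg_left (H (ap x n)) (sq_nonneg (((n : ℝ) + 1)⁻¹))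
  calc lam * ((((n : ℝ) + 1)⁻¹) ^ 2 * ‖rv (ap x n)‖ ^ 2)
      = (((n : ℝ) + 1)⁻¹) ^ 2 * (lam * ‖rv (ap x n)‖ ^ 2) := by ring
    _ ≤ (((n : ℝ) + 1)⁻¹) ^ 2 * QF q (rv (ap x n)) := h4

end real

theorem aux {F : Type u} [NormedField F] {g : ℕ} {t : Fin g → Fin g → F} (ht : ∀ i j, t i j ≠ 0)
    {m : ℕ} (hm : m ≠ 0)
    (H : ∀ (w : Fin g → ℤ) (i : Fin g), ‖kap t w‖ ^ m ≤ (1 / 2 : ℝ) ^ (w i * w i)) :
    ∃ lam Lam : ℝ, TP t lam Lam := by
  have hm' : (0 : ℝ) < m := by exact_mod_cast Nat.pos_of_ne_zero hm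
  have hlog : 0 < Real.log 2 := Real.log_pos one_lt_two
  have hlam : 0 < Real.log 2 / m := div_pos hlog hm'
  have hint : ∀ w : Fin g → ℤ, Real.log 2 / m * ‖rv w‖ ^ 2 ≤ QF (qf t) (rv w) := by
    intro w
    have h1 : ∀ i, Real.log 2 / m * (rv w i) ^ 2 ≤ QF (qf t) (rv w) := by
      intro i
      have h2 := H w i
      rw [norm_kap ht, ← Real.exp_nat_mul] at h2
      have h3 : ((1 / 2 : ℝ)) ^ (w i * w i) = Real.exp (-(Real.log 2 * (rv w i) ^ 2)) := by
        rw [← Real.rpow_intCast, Real.rpow_def_of_pos (by norm_num)]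
        congr 1
        rw [one_div, Real.log_inv, rv]
        push_cast
        ring
      rw [h3, Real.exp_le_exp] at h2
      rw [div_mul_eq_mul_div, div_le_iff₀ hm']
      linarith
    rcases Nat.eq_zero_or_pos g with hg | hg
    · subst hg
      have h0 : rv w = 0 := Subsingleton.elim _ _
      rw [h0, norm_zero, QF_zero]
      simp
    · have : Nonempty (Fin g) := ⟨⟨0, hg⟩⟩
      obtain ⟨i, hi⟩ : ∃ i, ‖rv w i‖ = ‖rv w‖ := by
        obtain ⟨i, _, hi⟩ := Finset.exists_max_image Finset.univ (fun i => ‖rv w i‖)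
          Finset.univ_nonempty
        refine ⟨i, le_antisymm (norm_le_pi_norm _ _) ?_⟩
        exact (pi_norm_le_iff_of_nonneg (norm_nonneg _)).2 fun j => hi j (Finset.mem_univ _)
      rw [← hi, Real.norm_eq_abs, sq_abs]
      exact h1 i
  refine ⟨Real.log 2 / m, (∑ i, ∑ j, |qf t i j|) + Real.log 2 / m, ht, hlam, ?_, lower _ hint, ?_⟩
  · exact le_add_of_nonneg_left (Finset.sum_nonneg fun i _ => Finset.sum_nonneg fun j _ =>
      abs_nonneg _)
  · intro x
    refine (QF_le (qf t) x).trans (mul_le_mul_of_nonneg_right ?_ (sq_nonneg _))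
    exact le_add_of_nonneg_right hlam.le

end POS

/-- POS. -/
theorem pos_proof : Stmt_Pos.{u} := by
  intro p _ K _ O h g t ht m hm H
  refine @POS.aux K (nfPU (F := K) h) g t ht m hm fun w i => ?_
  have h1 : vn K (p : O) (kap t w ^ m / (p : K) ^ (w i * w i)) ≤ 1 :=
    vn_le_one (⟨_, H w i⟩ : O)
  have h2 : vn K (p : O) (p : K) = 1 / 2 := vn_self h
  have h3 : vn K (p : O) (kap t w ^ m / (p : K) ^ (w i * w i)) =
      vn K (p : O) (kap t w) ^ m / (1 / 2 : ℝ) ^ (w i * w i) := by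
    have e1 : vabs (F := K) h (kap t w ^ m / (p : K) ^ (w i * w i)) =
        vabs (F := K) h (kap t w) ^ m / (vabs (F := K) h (p : K)) ^ (w i * w i) := by
      rw [map_div₀, map_pow, map_zpow₀]
    have e2 : vabs (F := K) h (p : K) = 1 / 2 := h2
    rw [e2] at e1
    exact e1
  rw [h3, div_le_one (by positivity)] at h1
  exact h1

end Pool.Agent.TDA
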