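import Pool.Agent.TDA.Stmts

/-!
# PULL: series with periodic coefficients at `x ^ D`
-/

set_option autoImplicit false
set_option linter.unusedSectionVars false

noncomputable section

namespace Pool.Agent.TDA

open scoped Classical
open MvPolynomial

universe u

namespace PULL

variable {F : Type u} [NormedField F] {g : ℕ}

/-- The coefficients. -/
def co (D _k N : ℕ) (P : (Fin g → ℤ) → F) (α : Fin g → ZMod N) : F :=
  if ∀ j, (D : ℤ) ∣ rep α j then P (fun j => rep α j / (D : ℤ)) else 0

theorem cls_rep {N : ℕ} [NeZero N] (α : Fin g → ZMod N) (w : Fin g → ℤ) :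
    cls F N (rep α) w = if α = cl N w then 1 else 0 := by
  unfold cls
  have h : (∀ j, (N : ℤ) ∣ w j - rep α j) ↔ α = cl N w := by
    rw [← cl_eq_iff, cl_rep]
    exact eq_comm
  simp only [h]

theorem rep_cl_dvd {N : ℕ} [NeZero N] (w : Fin g → ℤ) (j : Fin g) :
    (N : ℤ) ∣ rep (cl N w) j - w j := by
  have h : cl N (rep (cl N w)) = cl N w := cl_rep _
  rw [cl_eq_iff] at h
  exact h j

theorem co_smul {D k N : ℕ} [NeZero N] (hD : D ≠ 0) (hN : k * D ∣ N) {P : (Fin g → ℤ) → F}
    (hP : Per k P) (w : Fin g → ℤ) : co D k N P (cl N ((D : ℤ) • w)) = P w := by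
  have hD' : (D : ℤ) ≠ 0 := by exact_mod_cast hD
  have hkN : (k : ℤ) * D ∣ (N : ℤ) := by exact_mod_cast hN
  have hDN : (D : ℤ) ∣ (N : ℤ) := (dvd_mul_left _ _).trans hkN
  have h1 : ∀ j, (k : ℤ) * D ∣ rep (cl N ((D : ℤ) • w)) j - D * w j := fun j =>
    hkN.trans (rep_cl_dvd ((D : ℤ) • w) j)
  have h2 : ∀ j, (D : ℤ) ∣ rep (cl N ((D : ℤ) • w)) j := by
    intro j
    have h3 : (D : ℤ) ∣ rep (cl N ((D : ℤ) • w)) j - D * w j := (dvd_mul_left _ _).trans (h1 j)
    have h4 := dvd_add h3 (dvd_mul_right (D : ℤ) (w j))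
    rwa [sub_add_cancel] at h4
  rw [co, if_pos h2]
  apply hP.congr
  rw [cl_eq_iff]
  intro j
  obtain ⟨m, hm⟩ := h2 j
  have h5 := h1 j
  rw [hm] at h5 ⊢
  rw [Int.mul_ediv_cancel_left _ hD']
  rw [← mul_sub, mul_comm (k : ℤ)] at h5
  exact (mul_dvd_mul_iff_left hD').mp h5

theorem co_ne {D k N : ℕ} [NeZero N] (hN : k * D ∣ N) {P : (Fin g → ℤ) → F}
    {w : Fin g → ℤ} (h : co D k N P (cl N w) ≠ 0) : ∃ v : Fin g → ℤ, (D : ℤ) • v = w := by
  have hkN : (k : ℤ) * D ∣ (N : ℤ) := by exact_mod_cast hN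
  have hDN : (D : ℤ) ∣ (N : ℤ) := (dvd_mul_left _ _).trans hkN
  by_cases h1 : ∀ j, (D : ℤ) ∣ rep (cl N w) j
  · have h2 : ∀ j, (D : ℤ) ∣ w j := by
      intro j
      have h3 := dvd_sub (h1 j) (hDN.trans (rep_cl_dvd w j))
      rwa [sub_sub_cancel] at h3
    choose v hv using h2
    exact ⟨v, funext fun j => by rw [Pi.smul_apply, smul_eq_mul, ← hv j]⟩
  · rw [co, if_neg h1] at h
    exact absurd rfl h

end PULL

open PULL in
theorem pull_proof (hSumm : Stmt_Summ.{u}) : Stmt_Pull.{u} := by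
  intro F _ _ _ g t t₀ lam Lam hT D hD hRt k N _ hkD P hP
  refine ⟨co D k N P, ?_, ?_⟩
  · intro α
    by_cases h : ∀ j, (D : ℤ) ∣ rep α j
    · exact ⟨fun j => rep α j / (D : ℤ), Or.inl (by rw [co, if_pos h])⟩
    · exact ⟨0, Or.inr (by rw [co, if_neg h])⟩
  · intro C _ _ _ ι hι x hx
    have hD' : (D : ℤ) ≠ 0 := by exact_mod_cast hD
    have hRt' := Rt.map ι hRt
    have hT' := TP.map hι hT
    -- the right hand side
    have hsum : ∀ α : Fin g → ZMod N, Summable fun w : Fin g → ℤ =>
        ι (co D k N P α) * (cls C N (rep α) w * (kap (fun i j => ι (t₀ i j)) w * mon x w)) := by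
      intro α
      apply Summable.mul_left
      refine (hSumm C g _ lam Lam hT' x hx).2 (cls C N (rep α)) 1 ?_
      intro w
      unfold cls
      split_ifs
      · exact norm_one.le
      · rw [norm_zero]; exact zero_le_one
    have hR : ∑ α, ι (co D k N P α) * thv (fun i j => ι (t₀ i j)) N x α =
        ∑' w : Fin g → ℤ, ι (co D k N P (cl N w)) *
          (kap (fun i j => ι (t₀ i j)) w * mon x w) := by
      have h1 : ∀ α, ι (co D k N P α) * thv (fun i j => ι (t₀ i j)) N x α =
          ∑' w : Fin g → ℤ, ι (co D k N P α) *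
            (cls C N (rep α) w * (kap (fun i j => ι (t₀ i j)) w * mon x w)) := by
        intro α
        rw [tsum_mul_left]
        rfl
      rw [Finset.sum_congr rfl fun α _ => h1 α]
      rw [← Summable.tsum_finsetSum fun α _ => hsum α]
      apply tsum_congr
      intro w
      rw [Finset.sum_eq_single (cl N w)]
      · rw [cls_rep, if_pos rfl, one_mul]
      · intro α _ hα
        rw [cls_rep, if_neg hα, zero_mul, mul_zero]
      · intro h
        exact absurd (Finset.mem_univ _) h
    rw [hR]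
    have hinj : Function.Injective fun w : Fin g → ℤ => (D : ℤ) • w :=
      smul_right_injective _ hD'
    rw [← hinj.tsum_eq]
    · unfold ser
      apply tsum_congr
      intro w
      dsimp only
      rw [co_smul hD hkD hP, kap_smul, mon_smul, mon_pow, hRt'.kap]
      congr 2
      · rw [← zpow_natCast]
        congr 1
        push_cast
        ring
      · rw [zpow_natCast]
    · intro w hw
      rw [Function.mem_support] at hw
      have h1 : co D k N P (cl N w) ≠ 0 := by
        intro h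
        apply hw
        rw [h, map_zero, zero_mul]
      obtain ⟨v, hv⟩ := co_ne hkD h1
      exact ⟨v, hv⟩

end Pool.Agent.TDA
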