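import Pool.Agent.TDA.Stmts

/-!
# Totally degenerate abelian varieties: quadratic relations between theta functions (REL)
-/

set_option autoImplicit false
set_option linter.unusedSectionVars false

noncomputable section

namespace Pool.Agent.TDA

open scoped Classical
open MvPolynomial

universe u

namespace REL

variable {F : Type u} [NormedField F] {g : ℕ}

theorem norm_EE_le {t r : Fin g → Fin g → F} {lam Lam : ℝ} (H : TP t lam Lam) (hr : Rt 2 r t)
    (w : Fin 2 → Fin g → ℤ) : ‖EE r t w‖ ≤ 1 := by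
  rw [norm_EE two_ne_zero hr H.ne, Real.exp_le_one_iff, neg_nonpos, SS_eq _ two_ne_zero]
  exact Finset.sum_nonneg fun i _ => H.nonneg _

/-- Evaluation of a homogeneous polynomial at a multiple. -/
theorem eval_hom {σ : Type} {G : MvPolynomial σ F} {n : ℕ} (hG : G.IsHomogeneous n) (c : F)
    (x : σ → F) : eval (fun i => c * x i) G = c ^ n * eval x G := by
  rw [eval_eq, eval_eq, Finset.mul_sum]
  apply Finset.sum_congr rfl
  intro d hd
  have h1 : ∏ i ∈ d.support, (c * x i) ^ d i = c ^ n * ∏ i ∈ d.support, x i ^ d i := by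
    simp_rw [mul_pow]
    rw [Finset.prod_mul_distrib, Finset.prod_pow_eq_pow_sum]
    congr 2
    exact (hG.degree_eq_sum_deg_support hd).symm
  rw [h1]
  ring

variable [IsUltrametricDist F]

theorem norm_sub_le_of {a b : F} {M : ℝ} (ha : ‖a‖ ≤ M) (hb : ‖b‖ ≤ M) : ‖a - b‖ ≤ M := by
  have h := IsUltrametricDist.norm_add_le_max a (-b)
  rw [norm_neg] at h
  rw [sub_eq_add_neg]
  exact h.trans (max_le ha hb)

variable [CompleteSpace F]

/-- The bound for the coefficients of the quadratic relation. -/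
theorem bound (hPest : Stmt_Pest.{u}) {t r : Fin g → Fin g → F} {lam Lam : ℝ}
    (H : TP t lam Lam) (hr : Rt 2 r t) (N : ℕ) (a b c d : Fin g → ℤ) (S₀ : ℝ)
    (hs : a + b = c + d) (h1 : SS (qf t) ![a, b] ≤ S₀) (h2 : SS (qf t) ![c, d] ≤ S₀)
    (s : Fin g → ℤ) :
    ‖EE r t ![c, d] * hpr r t N ![a, b] s - EE r t ![a, b] * hpr r t N ![c, d] s‖ ≤
      Real.exp (-((N : ℝ) ^ 2 * lam / 4 - S₀)) := by
  obtain ⟨p1, p2, p3, p4, p5⟩ := hPest F g t r lam Lam H 2 two_ne_zero hr N ![a, b]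
  obtain ⟨q1, q2, q3, q4, q5⟩ := hPest F g t r lam Lam H 2 two_ne_zero hr N ![c, d]
  have hab : ∑ i, (![a, b] : Fin 2 → Fin g → ℤ) i = a + b := by simp [Fin.sum_univ_two]
  have hcd : ∑ i, (![c, d] : Fin 2 → Fin g → ℤ) i = a + b := by simp [Fin.sum_univ_two, hs]
  rw [hab] at p4 p5
  rw [hcd] at q4 q5
  have e1 : Real.exp (-((N : ℝ) ^ 2 * lam / 4 - SS (qf t) ![a, b])) ≤
      Real.exp (-((N : ℝ) ^ 2 * lam / 4 - S₀)) := by
    apply Real.exp_le_exp.mpr
    linarith
  have e2 : Real.exp (-((N : ℝ) ^ 2 * lam / 4 - SS (qf t) ![c, d])) ≤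
      Real.exp (-((N : ℝ) ^ 2 * lam / 4 - S₀)) := by
    apply Real.exp_le_exp.mpr
    linarith
  have n1 := norm_EE_le H hr ![a, b]
  have n2 := norm_EE_le H hr ![c, d]
  by_cases hc : ∀ j, ((2 * N : ℕ) : ℤ) ∣ s j - (a + b) j
  · have hcl : cl (2 * N) s = cl (2 * N) (a + b) := cl_eq_iff.mpr hc
    rw [p1.congr hcl, q1.congr hcl]
    have h3 : EE r t ![c, d] * hpr r t N ![a, b] (a + b) -
        EE r t ![a, b] * hpr r t N ![c, d] (a + b) =
        EE r t ![c, d] * (hpr r t N ![a, b] (a + b) - EE r t ![a, b]) -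
        EE r t ![a, b] * (hpr r t N ![c, d] (a + b) - EE r t ![c, d]) := by ring
    rw [h3]
    apply norm_sub_le_of
    · rw [norm_mul]
      calc _ ≤ 1 * _ := mul_le_mul_of_nonneg_right n2 (norm_nonneg _)
        _ ≤ _ := by rw [one_mul]; exact p4.trans e1
    · rw [norm_mul]
      calc _ ≤ 1 * _ := mul_le_mul_of_nonneg_right n1 (norm_nonneg _)
        _ ≤ _ := by rw [one_mul]; exact q4.trans e2
  · apply norm_sub_le_of
    · rw [norm_mul]
      calc _ ≤ 1 * _ := mul_le_mul_of_nonneg_right n2 (norm_nonneg _)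
        _ ≤ _ := by rw [one_mul]; exact (p5 s hc).trans e1
    · rw [norm_mul]
      calc _ ≤ 1 * _ := mul_le_mul_of_nonneg_right n1 (norm_nonneg _)
        _ ≤ _ := by rw [one_mul]; exact (q5 s hc).trans e2

/-- Linearity of `ser`. -/
theorem ser_lin (hSumm : Stmt_Summ.{u}) {r : Fin g → Fin g → F} {lam Lam : ℝ}
    (H : TP r lam Lam) {x : Fin g → F} (hx : ∀ i, x i ≠ 0) (h₁ h₂ : (Fin g → ℤ) → F)
    (b1 : ∀ w, ‖h₁ w‖ ≤ 1) (b2 : ∀ w, ‖h₂ w‖ ≤ 1) (c₁ c₂ : F) :
    ser r (fun w => c₁ * h₁ w - c₂ * h₂ w) x = c₁ * ser r h₁ x - c₂ * ser r h₂ x := by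
  obtain ⟨-, h⟩ := hSumm F g r lam Lam H x hx
  have s1 := h h₁ 1 b1
  have s2 := h h₂ 1 b2
  unfold ser
  rw [← tsum_mul_left, ← tsum_mul_left, ← (s1.mul_left c₁).tsum_sub (s2.mul_left c₂)]
  apply tsum_congr
  intro w
  ring

end REL

open REL

/-- **REL.** -/
theorem rel_proof (hForm : Stmt_Form.{u}) (hProd : Stmt_Prod.{u}) (hPest : Stmt_Pest.{u})
    (hSS2 : Stmt_SS2) (hSumm : Stmt_Summ.{u}) : Stmt_Rel.{u} := by
  intro F _ _ _ g t r lam Lam H hr N hN hNL
  have hform : ∀ (h : (Fin g → ℤ) → F) (B : ℝ), Per (2 * N) h → (∀ w, ‖h w‖ ≤ B) →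
      ∃ G : MvPolynomial (Fin g → ZMod N) F,
        (∀ m, ‖G.coeff m‖ ≤ Real.exp (2 * Lam) * B) ∧
        ∀ x : Fin g → F, (∀ i, x i ≠ 0) → ∀ c₀ : F,
          eval (fun α => c₀ * thv t N x α) G = c₀ ^ 2 * ser r h x := by
    intro h B hper hB
    obtain ⟨G, hG1, hG2, hG3⟩ := hForm F g t r lam Lam H 2 two_ne_zero hr N hN
      (by push_cast; linarith) h B hper hB
    refine ⟨G, fun m => by simpa using hG2 m, fun x hx c₀ => ?_⟩
    have h1 := hG3 F (RingHom.id F) (fun _ => rfl) x hx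
    rw [eval_hom hG1]
    congr 1
  have hprod : ∀ (a b : Fin g → ℤ) (x : Fin g → F), (∀ i, x i ≠ 0) →
      th t N a x * th t N b x = ser r (hpr r t N ![a, b]) x := by
    intro a b x hx
    have h1 := hProd F g t r lam Lam H 2 two_ne_zero hr N ![a, b] x hx
    rw [← h1, Fin.prod_univ_two]
    rfl
  refine ⟨?_, ?_⟩
  · intro a b c d S₀ hs h1 h2
    have p1 := hPest F g t r lam Lam H 2 two_ne_zero hr N ![a, b]
    have p2 := hPest F g t r lam Lam H 2 two_ne_zero hr N ![c, d]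
    obtain ⟨G, hG, hG'⟩ := hform
      (fun s => EE r t ![c, d] * hpr r t N ![a, b] s - EE r t ![a, b] * hpr r t N ![c, d] s)
      (Real.exp (-((N : ℝ) ^ 2 * lam / 4 - S₀)))
      (fun w u => by
        have e1 := p1.1 w u
        have e2 := p2.1 w u
        show EE r t ![c, d] * hpr r t N ![a, b] _ - EE r t ![a, b] * hpr r t N ![c, d] _ = _
        rw [e1, e2])
      (bound hPest H hr N a b c d S₀ hs h1 h2)
    refine ⟨G, fun m => ?_, fun x hx c₀ => ?_⟩
    · refine (hG m).trans (le_of_eq ?_)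
      rw [← Real.exp_add]
      congr 1
    · rw [hG' x hx c₀, ser_lin hSumm (H.rt two_ne_zero hr) hx _ _ p1.2.1 p2.2.1,
        ← hprod a b x hx, ← hprod c d x hx]
      ring
  · intro a b ρ hρ hu
    have p1 := hPest F g t r lam Lam H 2 two_ne_zero hr N ![a, b]
    have hb : ∀ s, ‖hpr r t N ![a, b] s‖ ≤ Real.exp (-(lam * ρ ^ 2 / 2)) := by
      intro s
      apply p1.2.2.1 s
      rintro ⟨w, hw, -⟩
      have e0 : w = ![w 0, w 1] := by
        funext i
        fin_cases i <;> rfl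
      show lam * ρ ^ 2 / 2 ≤ SS (qf t) w
      rw [e0, hSS2]
      have e1 := H.lo (rv (w 0 - w 1))
      have e2 : ρ ≤ ‖rv (w 0 - w 1)‖ := by
        choose u0 hu0 using hw 0
        choose u1 hu1 using hw 1
        have e3 : w 0 - w 1 = a - b + (N : ℤ) • (u0 - u1) := by
          funext j
          have e4 := hu0 j
          have e5 := hu1 j
          simp only [Matrix.cons_val_zero, Matrix.cons_val_one] at e4 e5
          simp only [Pi.add_apply, Pi.sub_apply, Pi.smul_apply, smul_eq_mul]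
          linear_combination e4 - e5
        rw [e3]
        exact hu _
      have e3 : lam * ρ ^ 2 ≤ lam * ‖rv (w 0 - w 1)‖ ^ 2 :=
        mul_le_mul_of_nonneg_left (pow_le_pow_left₀ hρ e2 2) H.pos.le
      linarith
    obtain ⟨G, hG, hG'⟩ := hform (hpr r t N ![a, b]) (Real.exp (-(lam * ρ ^ 2 / 2))) p1.1 hb
    refine ⟨G, fun m => ?_, fun x hx c₀ => ?_⟩
    · refine (hG m).trans (le_of_eq ?_)
      rw [← Real.exp_add]
      congr 1
    · rw [hG' x hx c₀, ← hprod a b x hx]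
      ring

end Pool.Agent.TDA
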