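import Pool.Agent.TDA.Stmts2
import Pool.Agent.DC.TN
import Pool.Agent.DC.PUX

/-!
# TDA, module SH: the multiplicative map `y ↦ y^♯` on the fraction field of the tilt
-/

set_option autoImplicit false
set_option linter.unusedSectionVars false

noncomputable section

namespace Pool.Agent.TDA

open scoped Classical
open MvPolynomial Pool.Agent.LibDb3ab1 Pool.Agent.DC Pool.Agent.CSM

universe u

namespace SH

section sharp

variable {C : Type u} [Field C] {V : ValuationSubring C} {p : ℕ} [Fact p.Prime]
  [Fact ¬IsUnit (p : V)] [IsAdicComplete (Ideal.span {(p : V)}) V]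

/-- The untilt, as an element of the field. -/
def uf (a : PreTilt V p) : C := ((PreTilt.untilt a : V) : C)

theorem uf_mul (a b : PreTilt V p) : uf (a * b) = uf a * uf b := by
  unfold uf
  rw [map_mul]
  rfl

theorem uf_one : uf (1 : PreTilt V p) = 1 := by
  unfold uf
  rw [map_one]
  rfl

theorem uf_zero : uf (0 : PreTilt V p) = 0 := by
  unfold uf
  rw [untilt_zero]
  rfl

theorem uf_ne {a : PreTilt V p} (ha : a ≠ 0) : uf a ≠ 0 := by
  intro h
  apply ha
  apply eq_zero_of_untilt
  exact Subtype.ext h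

theorem exists_frac (y : TF V p) : ∃ a b : PreTilt V p, b ≠ 0 ∧
    algebraMap (PreTilt V p) (TF V p) a / algebraMap (PreTilt V p) (TF V p) b = y := by
  obtain ⟨a, b, hb, h⟩ := IsFractionRing.div_surjective (A := PreTilt V p) y
  exact ⟨a, b, nonZeroDivisors.ne_zero hb, h⟩

/-- numerator -/
def nm (y : TF V p) : PreTilt V p := (exists_frac y).choose

/-- denominator -/
def dn (y : TF V p) : PreTilt V p := (exists_frac y).choose_spec.choose

theorem dn_ne (y : TF V p) : dn y ≠ 0 := (exists_frac y).choose_spec.choose_spec.1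

theorem nm_div_dn (y : TF V p) : algebraMap (PreTilt V p) (TF V p) (nm y) /
    algebraMap (PreTilt V p) (TF V p) (dn y) = y := (exists_frac y).choose_spec.choose_spec.2

/-- The map. -/
def shf (y : TF V p) : C := uf (nm y) / uf (dn y)

theorem alg_ne {b : PreTilt V p} (hb : b ≠ 0) : algebraMap (PreTilt V p) (TF V p) b ≠ 0 := by
  intro h
  exact hb ((IsFractionRing.injective (PreTilt V p) (TF V p)) (by rw [h, map_zero]))

theorem shf_div (a b : PreTilt V p) (hb : b ≠ 0) :
    shf (algebraMap (PreTilt V p) (TF V p) a / algebraMap (PreTilt V p) (TF V p) b)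
      = uf a / uf b := by
  set y := algebraMap (PreTilt V p) (TF V p) a / algebraMap (PreTilt V p) (TF V p) b with hy
  have h1 := nm_div_dn y
  rw [hy, div_eq_div_iff (alg_ne (dn_ne _)) (alg_ne hb), ← map_mul, ← map_mul] at h1
  have h2 : nm y * b = a * dn y := IsFractionRing.injective (PreTilt V p) (TF V p) h1
  unfold shf
  rw [div_eq_div_iff (uf_ne (dn_ne _)) (uf_ne hb), ← uf_mul, ← uf_mul, h2]

theorem shf_alg (a : PreTilt V p) : shf (algebraMap (PreTilt V p) (TF V p) a) = uf a := by
  have h := shf_div a (1 : PreTilt V p) one_ne_zero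
  rw [map_one, div_one, uf_one, div_one] at h
  exact h

theorem shf_mul (y z : TF V p) : shf (y * z) = shf y * shf z := by
  have h : y * z = algebraMap (PreTilt V p) (TF V p) (nm y * nm z) /
      algebraMap (PreTilt V p) (TF V p) (dn y * dn z) := by
    rw [map_mul, map_mul, ← div_mul_div_comm, nm_div_dn, nm_div_dn]
  rw [h, shf_div _ _ (mul_ne_zero (dn_ne y) (dn_ne z)), uf_mul, uf_mul, ← div_mul_div_comm]
  rfl

/-- The multiplicative map `y ↦ y^♯`. -/
def sh : TF V p →*₀ C where
  toFun := shf
  map_zero' := by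
    have h := shf_alg (0 : PreTilt V p)
    rw [map_zero, uf_zero] at h
    exact h
  map_one' := by
    have h := shf_alg (1 : PreTilt V p)
    rw [map_one, uf_one] at h
    exact h
  map_mul' := shf_mul

theorem sh_alg (a : PreTilt V p) : sh (algebraMap (PreTilt V p) (TF V p) a) = uf a := shf_alg a

/-- near additivity modulo `p` -/
theorem untilt_add (a b : PreTilt V p) :
    (p : V) ∣ PreTilt.untilt (a + b) - (PreTilt.untilt a + PreTilt.untilt b) := by
  apply dvd_of_mk_eq (x := PreTilt.coeff 0 (a + b))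
  · rw [PreTilt.mk_untilt_eq_coeff_zero]
  · rw [map_add, map_add, PreTilt.mk_untilt_eq_coeff_zero, PreTilt.mk_untilt_eq_coeff_zero]

end sharp

end SH

open SH in
theorem sh_proof : Stmt_Sh.{u} := by
  intro p _ K _ O _ _ b C _ ι V hV _ _
  have hPUX := pux_proof O p b
  obtain ⟨-, hTN⟩ := tn_proof O p b hPUX
  obtain ⟨hn1, -, -⟩ := hTN C ι V hV
  obtain ⟨hpV, hwV⟩ := hPUX.2 C ι V hV
  have hnuf : ∀ a : PreTilt V p, nC p hV (uf a)
      = nT hV b (algebraMap (PreTilt V p) (TF V p) a) := fun a => (hn1 a).symm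
  have hnorm : ∀ y : TF V p, nC p hV (sh y) = nT hV b y := by
    intro y
    have h1 : sh y = uf (nm y) / uf (dn y) := rfl
    have h2 : nC p hV (uf (nm y) / uf (dn y)) = nC p hV (uf (nm y)) / nC p hV (uf (dn y)) :=
      TN.vn_div hpV _ _
    have h3 : nT hV b (algebraMap (PreTilt V p) (TF V p) (nm y) /
        algebraMap (PreTilt V p) (TF V p) (dn y)) =
        nT hV b (algebraMap (PreTilt V p) (TF V p) (nm y)) /
        nT hV b (algebraMap (PreTilt V p) (TF V p) (dn y)) := TN.vn_div hwV _ _
    rw [h1, h2, hnuf, hnuf, ← h3, nm_div_dn]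
  have hmulC : ∀ x y : C, nC p hV (x * y) = nC p hV x * nC p hV y := vn_mul hpV
  -- normalised near additivity
  have key : ∀ z : TF V p, nT hV b z ≤ 1 → nC p hV (sh (1 + z) - 1 - sh z) ≤ 1 / 2 := by
    intro z hz
    have hk : ∀ k : ℕ, nC p hV (sh (1 + z) - 1 - sh z) ^ p ^ k ≤ (1 / 2) ^ p ^ k * 2 := by
      intro k
      have hω : (rt p k (b.ϖV hV)) ^ p ^ k = b.ϖV hV := rt_pow _ _
      set ω := rt p k (b.ϖV hV) with hωd
      have hωn : nT hV b (algebraMap (PreTilt V p) (TF V p) ω) ^ p ^ k = 1 / 2 := by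
        have h1 : nT hV b (algebraMap (PreTilt V p) (TF V p) ω) ^ p ^ k
            = nT hV b (algebraMap (PreTilt V p) (TF V p) ω ^ p ^ k) := (vn_pow hwV _ _).symm
        rw [h1, ← map_pow, hω]
        exact vn_self hwV
      have hωlt : nT hV b (algebraMap (PreTilt V p) (TF V p) ω) < 1 := by
        by_contra hcon
        push Not at hcon
        have h2 := one_le_pow₀ hcon (n := p ^ k)
        rw [hωn] at h2
        norm_num at h2
      have hω0 : ω ≠ 0 := by
        intro h0
        have h1 : (0 : ℝ) = 1 / 2 := by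
          rw [← hωn, h0, map_zero]
          have h2 : nT hV b (0 : TF V p) = 0 := vn_zero hwV
          rw [h2, zero_pow (pow_ne_zero _ (Fact.out : p.Prime).ne_zero)]
        norm_num at h1
      have hzω : nT hV b (z * algebraMap (PreTilt V p) (TF V p) ω) < 1 := by
        have h1 : nT hV b (z * algebraMap (PreTilt V p) (TF V p) ω)
            = nT hV b z * nT hV b (algebraMap (PreTilt V p) (TF V p) ω) := vn_mul hwV _ _
        rw [h1]
        have h2 : 0 ≤ nT hV b (algebraMap (PreTilt V p) (TF V p) ω) := vn_nonneg _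
        calc nT hV b z * nT hV b (algebraMap (PreTilt V p) (TF V p) ω)
            ≤ 1 * nT hV b (algebraMap (PreTilt V p) (TF V p) ω) :=
              mul_le_mul_of_nonneg_right hz h2
          _ < 1 := by rw [one_mul]; exact hωlt
      obtain ⟨a, ha⟩ := exists_of_vn_lt hwV hzω
      have h3 : sh ((1 + z) * algebraMap (PreTilt V p) (TF V p) ω) = uf (ω + a) := by
        rw [← sh_alg, map_add, ha]
        congr 1
        ring
      have h4 : sh z * uf ω = uf a := by
        rw [← sh_alg, ← sh_alg, ← map_mul, ha]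
      obtain ⟨v, hv⟩ := untilt_add ω a
      have h5 : (sh (1 + z) - 1 - sh z) * uf ω = (p : C) * (v : C) := by
        rw [map_mul, sh_alg] at h3
        rw [sub_mul, sub_mul, h3, one_mul, h4]
        have h6 : ((PreTilt.untilt (ω + a) - (PreTilt.untilt ω + PreTilt.untilt a) : V) : C)
            = (((p : V) * v : V) : C) := congrArg (fun x : V => (x : C)) hv
        unfold uf
        rw [sub_sub]
        calc ((PreTilt.untilt (ω + a) : V) : C)
              - (((PreTilt.untilt ω : V) : C) + ((PreTilt.untilt a : V) : C))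
            = ((PreTilt.untilt (ω + a) - (PreTilt.untilt ω + PreTilt.untilt a) : V) : C) := rfl
          _ = (((p : V) * v : V) : C) := h6
          _ = (p : C) * (v : C) := by push_cast; rfl
      have h7 : nC p hV ((p : C) * (v : C)) ≤ 1 / 2 := by
        rw [hmulC]
        have h8 : nC p hV (p : C) = 1 / 2 := by
          have h9 := vn_self (F := C) hpV
          rw [map_natCast] at h9
          exact h9
        have h10 : nC p hV (v : C) ≤ 1 := vn_le_one (F := C) (ϖ := (p : V)) v
        rw [h8]
        linarith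
      rw [← h5, hmulC, hnuf] at h7
      have h11 : 0 ≤ nC p hV (sh (1 + z) - 1 - sh z) := vn_nonneg _
      have h12 : 0 ≤ nT hV b (algebraMap (PreTilt V p) (TF V p) ω) := vn_nonneg _
      have h13 := pow_le_pow_left₀ (mul_nonneg h11 h12) h7 (p ^ k)
      rw [mul_pow, hωn] at h13
      linarith
    by_contra hcon
    push Not at hcon
    set x := nC p hV (sh (1 + z) - 1 - sh z) with hx
    have h1 : 1 < x * 2 := by linarith
    have hp1 : 1 < p := (Fact.out : p.Prime).one_lt
    have h2 : Filter.Tendsto (fun k : ℕ => (x * 2) ^ p ^ k) Filter.atTop Filter.atTop :=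
      (tendsto_pow_atTop_atTop_of_one_lt h1).comp (tendsto_pow_atTop_atTop_of_one_lt hp1)
    obtain ⟨k, hk'⟩ := (h2.eventually_gt_atTop 2).exists
    have h3 := hk k
    have h4 : (x * 2) ^ p ^ k ≤ 2 := by
      rw [mul_pow]
      calc x ^ p ^ k * 2 ^ p ^ k ≤ ((1 / 2) ^ p ^ k * 2) * 2 ^ p ^ k :=
            mul_le_mul_of_nonneg_right h3 (by positivity)
        _ = ((1 / 2) * 2) ^ p ^ k * 2 := by rw [mul_pow]; ring
        _ = 2 := by norm_num
    linarith
  have hle : ∀ y y' : TF V p, nT hV b y' ≤ nT hV b y →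
      nC p hV (sh (y + y') - sh y - sh y') ≤ 1 / 2 * nT hV b y := by
    intro y y' hyy
    by_cases hy : y = 0
    · have h0 : nT hV b (0 : TF V p) = 0 := vn_zero hwV
      have hy' : y' = 0 := by
        by_contra hne
        have h1 : 0 < nT hV b y' := vn_pos hwV hne
        rw [hy, h0] at hyy
        linarith
      rw [hy, hy', add_zero, map_zero, sub_zero, sub_zero, h0]
      have h1 : nC p hV (0 : C) = 0 := vn_zero hpV
      rw [h1]
      norm_num
    · have hypos : 0 < nT hV b y := vn_pos hwV hy
      have h1 : nT hV b (y' / y) ≤ 1 := by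
        have h2 : nT hV b (y' / y) = nT hV b y' / nT hV b y := TN.vn_div hwV _ _
        rw [h2]
        exact div_le_one_of_le₀ hyy hypos.le
      have h2 : sh (y + y') - sh y - sh y' = sh y * (sh (1 + y' / y) - 1 - sh (y' / y)) := by
        rw [mul_sub, mul_sub, ← map_mul, ← map_mul, mul_one, mul_add, mul_one,
          mul_div_cancel₀ _ hy]
      rw [h2, hmulC, hnorm]
      calc nT hV b y * nC p hV (sh (1 + y' / y) - 1 - sh (y' / y))
          ≤ nT hV b y * (1 / 2) := mul_le_mul_of_nonneg_left (key _ h1) hypos.le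
        _ = 1 / 2 * nT hV b y := by ring
  refine ⟨sh, sh_alg, hnorm, ?_, ?_⟩
  · intro y y'
    rcases le_total (nT hV b y') (nT hV b y) with h | h
    · rw [max_eq_left h]
      exact hle y y' h
    · rw [max_eq_right h]
      have h1 := hle y' y h
      have h2 : sh (y + y') - sh y - sh y' = sh (y' + y) - sh y' - sh y := by
        rw [add_comm y y']; ring
      rw [h2]
      exact h1
  · intro shK hshK y
    obtain ⟨a, c, hc, rfl⟩ : ∃ a c : PreTilt O p, c ≠ 0 ∧
        algebraMap (PreTilt O p) (TF O p) a / algebraMap (PreTilt O p) (TF O p) c = y := by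
      obtain ⟨a, c, hc, h⟩ := IsFractionRing.div_surjective (A := PreTilt O p) y
      exact ⟨a, c, nonZeroDivisors.ne_zero hc, h⟩
    have h1 : ∀ x : PreTilt O p, sh (tf hV (algebraMap (PreTilt O p) (TF O p) x))
        = ι (shK (algebraMap (PreTilt O p) (TF O p) x)) := by
      intro x
      rw [tf_algebraMap, hshK]
      have h2 : (cf hV x : TF V p) = algebraMap (PreTilt V p) (TF V p) (tmap hV.incl x) := rfl
      rw [h2, sh_alg]
      unfold uf
      rw [untilt_tmap, hV.coe_incl]
    rw [map_div₀, map_div₀, h1, h1, map_div₀ shK, map_div₀]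

end Pool.Agent.TDA
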