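import Pool.Agent.TDA.Stmts2

set_option autoImplicit false
set_option linter.unusedSectionVars false

noncomputable section

namespace Pool.Agent.TDA

open scoped Classical
open MvPolynomial Pool.Agent.LibDb3ab1 Pool.Agent.DC Pool.Agent.CSM

universe u

namespace SHS

theorem mem_of_pow_mem {K : Type u} [Field K] (O : ValuationSubring K) {x : K} {n : ℕ}
    (hn : n ≠ 0) (h : x ^ n ∈ O) : x ∈ O := by
  rw [← O.valuation_le_one_iff] at h ⊢
  rw [map_pow] at h
  exact (pow_le_one_iff hn).mp h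

/-- compatible roots -/
def roots {K : Type u} [Field K] [IsAlgClosed K] (p : ℕ) [Fact p.Prime] (x : K) : ℕ → K
  | 0 => x
  | n + 1 => (IsAlgClosed.exists_pow_nat_eq (roots p x n) (Fact.out : p.Prime).pos).choose

theorem roots_pow {K : Type u} [Field K] [IsAlgClosed K] (p : ℕ) [Fact p.Prime] (x : K) (n : ℕ) :
    roots p x (n + 1) ^ p = roots p x n :=
  (IsAlgClosed.exists_pow_nat_eq (roots p x n) (Fact.out : p.Prime).pos).choose_spec

theorem roots_mem {K : Type u} [Field K] [IsAlgClosed K] (p : ℕ) [Fact p.Prime]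
    (O : ValuationSubring K) (x : K) (hx : x ∈ O) (n : ℕ) : roots p x n ∈ O := by
  induction n with
  | zero => exact hx
  | succ n ih =>
    apply mem_of_pow_mem O (Fact.out : p.Prime).ne_zero
    rw [roots_pow]
    exact ih

theorem exists_untilt {K : Type u} [Field K] [IsAlgClosed K] (p : ℕ) [Fact p.Prime]
    (O : ValuationSubring K) [Fact ¬IsUnit (p : O)] [IsAdicComplete (Ideal.span {(p : O)}) O]
    (x : O) : ∃ a : PreTilt O p, PreTilt.untilt a = x := by
  let c : ℕ → O := fun n => ⟨roots p (x : K) n, roots_mem p O x x.2 n⟩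
  have hc : ∀ n, c (n + 1) ^ p = c n := fun n => Subtype.ext (roots_pow p (x : K) n)
  have hc0 : ∀ n, c n ^ p ^ n = x := by
    intro n
    induction n with
    | zero => rw [pow_zero, pow_one]; rfl
    | succ n ih => rw [pow_succ', pow_mul, hc, ih]
  obtain ⟨z, hz⟩ : ∃ z : PreTilt O p, ∀ n, PreTilt.coeff n z = Ideal.Quotient.mk _ (c n) := by
    refine ⟨(⟨fun n => Ideal.Quotient.mk _ (c n), fun n => ?_⟩ : Perfection (ModP O p) p), ?_⟩
    · rw [← map_pow, hc]
    · intro n; rfl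
  refine ⟨z, ?_⟩
  apply eq_of_forall_dvd (p := p)
  intro n
  have h1 : (p : O) ∣ PreTilt.untilt (rt p n z) - c n :=
    dvd_of_mk_eq (mk_untilt_rt n z) (hz n).symm
  have h2 := dvd_pow_sub_pow h1 n
  rw [untilt_rt_pow, hc0] at h2
  exact (pow_dvd_pow _ (Nat.le_succ n)).trans h2

end SHS

open SHS in
theorem shs_proof : Stmt_Shs.{u} := by
  intro p _ K _ _ O _ _ _ shK hsh x
  rcases O.mem_or_inv_mem x with hx | hx
  · obtain ⟨a, ha⟩ := exists_untilt p O ⟨x, hx⟩
    exact ⟨algebraMap _ _ a, by rw [hsh, ha]⟩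
  · obtain ⟨a, ha⟩ := exists_untilt p O ⟨x⁻¹, hx⟩
    exact ⟨(algebraMap _ _ a)⁻¹, by rw [map_inv₀, hsh, ha, inv_inv]⟩

end Pool.Agent.TDA
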