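import Pool.Agent.TDA.Stmts

/-!
# SS2: the variance of two vectors
-/

set_option autoImplicit false

noncomputable section

namespace Pool.Agent.TDA

theorem ss2_proof : Stmt_SS2 := by
  intro g q a b
  have h := QF_par q (rv a) (rv b)
  have h1 : ∑ i : Fin 2, (![a, b] : Fin 2 → Fin g → ℤ) i = a + b := by
    rw [Fin.sum_univ_two]
    rfl
  unfold SS
  rw [h1, Fin.sum_univ_two, rv_add, rv_sub]
  change QF q (rv a) + QF q (rv b) - QF q (rv a + rv b) / ((2 : ℕ) : ℝ) = QF q (rv a - rv b) / 2
  push_cast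
  linarith

end Pool.Agent.TDA
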