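import Pool.Agent.TDA.Stmts2
import Pool.Agent.CSM.PRD
import Pool.Agent.CSM.NNG
import Pool.Agent.DC.TN
import Pool.Agent.DC.PUX
import Pool.Agent.LibDb3ab1.Assembly

/-!
# START: the variety over the tilt (helper29)
-/

set_option autoImplicit false
set_option linter.unusedSectionVars false

noncomputable section

namespace Pool.Agent.TDA.START

open scoped Classical
open MvPolynomial Pool.Agent.LibDb3ab1 Pool.Agent.DC Pool.Agent.CSM Pool.Agent.TDA

universe u

/-- Homogeneous components and renaming. -/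
theorem hc_rename {σ τ : Type} {k : Type u} [Field k] (f : σ → τ) (m : ℕ)
    (P : MvPolynomial σ k) :
    homogeneousComponent m (rename f P) = rename f (homogeneousComponent m P) := by
  induction P using MvPolynomial.induction_on' with
  | monomial s a =>
    have h1 : (monomial s a : MvPolynomial σ k).IsHomogeneous s.degree :=
      isHomogeneous_monomial a rfl
    have h2 := h1.rename_isHomogeneous (f := f)
    rw [homogeneousComponent_of_mem ((mem_homogeneousSubmodule _ _).2 h1),
      homogeneousComponent_of_mem ((mem_homogeneousSubmodule _ _).2 h2)]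
    split_ifs
    · rfl
    · rw [map_zero]
  | add P Q hP hQ =>
    rw [map_add, map_add, map_add, map_add, hP, hQ]

/-- Transport of the positivity condition along a multiplicative norm preserving map. -/
theorem tp_sharp {F K : Type u} [NormedField F] [NormedField K] {g : ℕ}
    {t : Fin g → Fin g → K} {t' : Fin g → Fin g → F} {lam Lam : ℝ} (H : TP t lam Lam)
    (hn : ∀ i j, ‖t' i j‖ = ‖t i j‖) : TP t' lam Lam := by
  have hq : qf t' = qf t := by
    funext i j
    rw [qf, qf, hn]
  refine ⟨fun i j h0 => ?_, H.pos, H.le, ?_, ?_⟩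
  · apply H.ne i j
    rw [← norm_eq_zero, ← hn, h0, norm_zero]
  · rw [hq]
    exact H.lo
  · rw [hq]
    exact H.hi

end Pool.Agent.TDA.START

namespace Pool.Agent.TDA

open scoped Classical
open MvPolynomial Pool.Agent.LibDb3ab1 Pool.Agent.DC Pool.Agent.CSM

universe u

open START in
theorem start_proof (hVpt : Stmt_Vpt.{u}) (hVIH : Stmt_VIH.{u}) (hInd : Stmt_Ind.{u})
    (hKdim : Stmt_Kdim.{u}) (hSh : Stmt_Sh.{u}) (hShs : Stmt_Shs.{u})
    (hTrans : Stmt_Trans.{u}) (hNormC : Stmt_NormC.{u}) : Stmt_Start.{u} := by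
  intro p _ K _ _ O _ _ b h g t lam Lam hTP N r₀ _ ε hN2 hN16 hr₀ hr₀' hNr he1 he2 hε1 r e
  have hPUX := pux_proof O p b
  obtain ⟨hPU, hPUV⟩ := hPUX
  obtain ⟨hcT, hTN⟩ := tn_proof O p b ⟨hPU, hPUV⟩
  have hp0O : (p : O) ≠ 0 := by
    intro h
    apply b.hp0
    have := congrArg O.subtype h
    rwa [map_natCast, map_zero] at this
  haveI hTFc : IsAlgClosed (TF O p) := tilt_isAlgClosed O b.hu hp0O b.hϖ
  haveI hTFp : CharP (TF O p) p := charP_TF O
  -- the sharp map of `K`
  obtain ⟨sh₀, hsh1, hsh2, hsh3, hsh4⟩ := hSh p K O b K (RingHom.id K) O valuedExt_id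
  have hsurj := hShs p K O b sh₀ hsh1
  choose t' ht' using fun i j => hsurj (t i j)
  have hnt : ∀ i j, vn (TF O p) b.ϖ (t' i j) = vn K (p : O) (t i j) := by
    intro i j
    have h1 := hsh2 (t' i j)
    rw [ht', nT_id] at h1
    exact h1.symm
  letI nF : NormedField (TF O p) := nfPU (F := TF O p) hPU
  haveI uF : IsUltrametricDist (TF O p) := ultra_nfPU (F := TF O p) hPU
  haveI cF : CompleteSpace (TF O p) := complete_nfPU (F := TF O p) hPU hcT
  have hTP' : TP t' lam Lam := by
    letI nK : NormedField K := nfPU (F := K) h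
    exact tp_sharp hTP hnt
  have hLam : 0 < Lam := lt_of_lt_of_le hTP'.pos hTP'.le
  -- the ideal of the theta variety
  set I : Ideal (MvPolynomial (Fin (r + 1)) (TF O p)) :=
    (VI t' N).comap (rename (R := TF O p) e.symm).toRingHom with hI
  have hmemI : ∀ P, P ∈ I ↔ rename e.symm P ∈ VI t' N := fun P => Iff.rfl
  have hHI : HI I := by
    intro P hP m
    rw [hmemI] at hP ⊢
    rw [← hc_rename]
    exact hVIH (TF O p) g t' N _ hP m
  have hdim : ((g + 1 : ℕ) : WithBot ℕ∞) ≤
      ringKrullDim (MvPolynomial (Fin (r + 1)) (TF O p) ⧸ I) := by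
    have h1 := hKdim (TF O p) (Fin (r + 1)) (Option (Fin g)) I
      (rename fun o => e (o.elim (cl N 0) fun i => cl N (Pi.single i 1))) (by
        intro G hG
        apply hInd (TF O p) p g t' lam Lam hTP' N hN2 (by linarith) G
        have h2 : (e.symm ∘ fun o : Option (Fin g) =>
            e (o.elim (cl N 0) fun i => cl N (Pi.single i 1))) =
            fun o : Option (Fin g) => o.elim (cl N 0) fun i => cl N (Pi.single i 1) := by
          funext o
          exact e.symm_apply_apply _
        rw [hmemI, rename_rename, h2] at hG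
        exact hG)
    rw [Fintype.card_option, Fintype.card_fin] at h1
    exact h1
  obtain ⟨𝔓, hle, hprime, hHI', hdimP⟩ :=
    prd_proof nng_proof (TF O p) r g I hHI hdim
  refine ⟨𝔓, hprime, hHI', hdimP, ?_⟩
  intro C _ _ ι V hV _ _ hC z hz hzP
  obtain ⟨hpV, hϖV⟩ := hPUV C ι V hV
  obtain ⟨hTN1, hTN2, -⟩ := hTN C ι V hV
  letI nTF : NormedField (TF V p) := nfPU (F := TF V p) hϖV
  haveI uT : IsUltrametricDist (TF V p) := ultra_nfPU (F := TF V p) hϖV
  have hiso : Iso (tf (p := p) hV) := fun x => hTN2 x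
  obtain ⟨v, hv⟩ := hz
  -- the point over the fraction field of the tilt
  set z' : (Fin g → ZMod N) → TF V p := fun α => algebraMap (PreTilt V p) (TF V p) (z (e α))
    with hz'
  have hψκ : (tf hV).comp (algebraMap (PreTilt O p) (TF O p)) =
      (algebraMap (PreTilt V p) (TF V p)).comp (tmap hV.incl) := by
    ext x
    rw [RingHom.comp_apply, tf_algebraMap]
    rfl
  have hz0 : ∀ P ∈ VI t' N, eval₂ (tf hV) z' P = 0 := by
    intro P hP
    have h1 : rename e P ∈ 𝔓 := by
      apply hle
      rw [hmemI, rename_rename]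
      simpa using hP
    have h2 := eval_zero_of_integral 𝔓 (tmap hV.incl) (tf hV) hψκ z hzP _ h1
    rw [eval₂_rename] at h2
    exact h2
  have hz1 : ∀ α, ‖z' α‖ ≤ 1 := fun α => vn_le_one (F := TF V p) (ϖ := b.ϖV hV) (z (e α))
  have hza : z' (cl N (rep (e.symm v))) = 1 := by
    rw [cl_rep, hz']
    simp only [Equiv.apply_symm_apply]
    rw [hv, map_one]
  obtain ⟨y, hy0, hy1, hy2, hy3, hy4⟩ := hVpt (TF O p) g t' lam Lam hTP' N r₀ ε (by omega) hN16
    hr₀ hr₀' he1 he2 hε1 (TF V p) (tf hV) hiso z' hz0 hz1 (rep (e.symm v)) hza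
  obtain ⟨sh, hs1, hs2, hs3, hs4⟩ := hSh p K O b C ι V hV
  have hcC := (hNormC p K O b C ι V hV).2
  letI nCC : NormedField C := nfPU (F := C) hC
  haveI uC : IsUltrametricDist C := ultra_nfPU (F := C) hC
  haveI cC : CompleteSpace C := complete_nfPU (F := C) hC hcC
  have hTPj : TP (fun i l => tf hV (t' i l)) lam Lam := hTP'.map hiso
  have key := hTrans (TF V p) C sh (1 / 2) hs2 hs3 g (fun i l => tf hV (t' i l)) lam Lam hTPj
    N r₀ ε hNr hε1.le z' (rep (e.symm v)) y hy0 hy1 hy2 hy3 hy4
  have hst : (fun i j => sh ((fun i l => tf hV (t' i l)) i j)) = fun i j => ι (t i j) := by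
    funext i j
    have h1 := hs4 sh₀ hsh1 (t' i j)
    rw [ht'] at h1
    exact h1
  rw [hst] at key
  have htne : ∀ i j, ι (t i j) ≠ 0 := by
    intro i j
    rw [Ne, map_eq_zero]
    letI nK : NormedField K := nfPU (F := K) h
    exact hTP.ne i j
  have hyne : ∀ i, sh (y i) ≠ 0 := by
    intro i
    rw [Ne, map_eq_zero]
    exact hy0 i
  refine ⟨fun i => sh (y i), rep (e.symm v),
    (kap (fun i j => ι (t i j)) (rep (e.symm v)) * mon (fun i => sh (y i)) (rep (e.symm v)))⁻¹,
    hyne, key.1, ?_, ?_⟩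
  · rw [inv_mul_cancel₀ (mul_ne_zero (kap_ne htne _) (mon_ne hyne _))]
    exact norm_one (α := C)
  · intro α
    have h1 := key.2 α
    rw [hz'] at h1
    simp only [hs1] at h1
    exact h1

end Pool.Agent.TDA
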