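import Pool.Agent.TDA.Stmts

/-!
# STEP: the map `x ↦ x ^ p` in theta coordinates
-/

set_option autoImplicit false
set_option linter.unusedSectionVars false

noncomputable section

namespace Pool.Agent.TDA

open scoped Classical
open MvPolynomial

universe u

namespace STEP

theorem per_cls (F : Type u) [Field F] {g : ℕ} (N : ℕ) (a : Fin g → ℤ) : Per N (cls F N a) := by
  intro w v
  unfold cls
  have h1 : (∀ j, (N : ℤ) ∣ (w + (N : ℤ) • v) j - a j) ↔ ∀ j, (N : ℤ) ∣ w j - a j := by
    apply forall_congr'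
    intro j
    have h2 : (w + (N : ℤ) • v) j - a j = (w j - a j) + (N : ℤ) * v j := by
      simp only [Pi.add_apply, Pi.smul_apply, smul_eq_mul]
      ring
    rw [h2]
    exact dvd_add_left (dvd_mul_right _ _)
  simp only [h1]

theorem norm_cls (F : Type u) [NormedField F] {g : ℕ} (N : ℕ) (a w : Fin g → ℤ) :
    ‖cls F N a w‖ ≤ 1 := by
  unfold cls
  split_ifs <;> simp

end STEP

open STEP in
theorem step_proof (hForm : Stmt_Form.{u}) (hProd : Stmt_Prod.{u}) (hPest : Stmt_Pest.{u})
    (hCyc : Stmt_Cyc.{u}) (hFrid : Stmt_Frid.{u}) (hPmap : Stmt_Pmap.{u})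
    (hSumm : Stmt_Summ.{u}) : Stmt_Step.{u} := by
  intro F _ _ _ p hp g t r lam Lam H hr hp0 N hN hlam α
  have hpp : p.Prime := hp.out
  have hpn : p ≠ 0 := hpp.ne_zero
  set a : Fin g → ℤ := rep α with ha
  set h : (Fin g → ℤ) → F := fun w =>
    (hpr r t N (fun _ : Fin p => a) w - cls F (p * N) ((p : ℤ) • a) w) / (p : F) with hh
  have hP := hPest F g t r lam Lam H p hpn hr N (fun _ : Fin p => a)
  have hper : Per (p * N) h := by
    intro w v
    rw [hh]
    simp only
    rw [hP.1 w v, per_cls F (p * N) ((p : ℤ) • a) w v]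
  have hnp : 0 < ‖(p : F)‖ := norm_pos_iff.mpr hp0
  have hnorm : ∀ w, ‖h w‖ ≤ 1 := by
    intro w
    rw [hh]
    simp only
    rw [norm_div, div_le_one hnp]
    exact hCyc F g t r lam Lam H p hpp hr N a w
  obtain ⟨G₀, hG1, hG2, hG3⟩ := hForm F g t r lam Lam H p hpn hr N hN hlam h 1 hper hnorm
  refine ⟨MvPolynomial.C (p : F) * G₀, ?_, ?_, ?_⟩
  · have := (isHomogeneous_C (Fin g → ZMod N) (p : F)).mul hG1
    rwa [zero_add] at this
  · intro m
    rw [coeff_C_mul, norm_mul]
    have h1 := hG2 m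
    rw [mul_one] at h1
    exact mul_le_mul_of_nonneg_left h1 hnp.le
  · intro C _ _ _ ι hι x hx
    have hrC : Rt p (fun i j => ι (r i j)) (fun i j => ι (t i j)) := hr.map ι
    have HC : TP (fun i j => ι (t i j)) lam Lam := H.map hι
    have HrC := HC.rt hpn hrC
    have e1 : eval₂ ι (thv (fun i j => ι (t i j)) N x) (MvPolynomial.C (p : F) * G₀) =
        ι (p : F) * ser (fun i j => ι (r i j)) (fun w => ι (h w)) x := by
      rw [eval₂_mul, eval₂_C, hG3 C ι hι x hx]
    have hb1 : ∀ w, ‖ι (hpr r t N (fun _ : Fin p => a) w)‖ ≤ 1 := fun w => by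
      rw [hι]; exact hP.2.1 w
    have hb2 : ∀ w, ‖cls C (p * N) ((p : ℤ) • a) w‖ ≤ 1 := fun w => norm_cls C _ _ _
    have s1 := (hSumm C g _ _ _ HrC x hx).2
      (fun w => ι (hpr r t N (fun _ : Fin p => a) w)) 1 hb1
    have s2 := (hSumm C g _ _ _ HrC x hx).2 (cls C (p * N) ((p : ℤ) • a)) 1 hb2
    have e2 : ι (p : F) * ser (fun i j => ι (r i j)) (fun w => ι (h w)) x =
        ser (fun i j => ι (r i j)) (fun w => ι (hpr r t N (fun _ : Fin p => a) w)) x -
          ser (fun i j => ι (r i j)) (cls C (p * N) ((p : ℤ) • a)) x := by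
      unfold ser
      rw [← Summable.tsum_sub s1 s2, ← tsum_mul_left]
      congr 1
      funext w
      have e3 : ι (p : F) * ι (h w) = ι (hpr r t N (fun _ : Fin p => a) w) -
          cls C (p * N) ((p : ℤ) • a) w := by
        rw [← map_mul, ← map_cls ι (p * N) ((p : ℤ) • a) w, ← map_sub]
        congr 1
        rw [hh]
        simp only
        field_simp
      rw [← mul_assoc, e3, sub_mul]
    have e4 : ser (fun i j => ι (r i j)) (fun w => ι (hpr r t N (fun _ : Fin p => a) w)) x =
        thv (fun i j => ι (t i j)) N x α ^ p := by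
      have h1 : (fun w => ι (hpr r t N (fun _ : Fin p => a) w)) =
          hpr (fun i j => ι (r i j)) (fun i j => ι (t i j)) N (fun _ : Fin p => a) := by
        funext w
        exact (hPmap F C ι hι g t r lam Lam H p hpn hr N (fun _ : Fin p => a) w).symm
      rw [h1, ← hProd C g _ _ lam Lam HC p hpn hrC N (fun _ : Fin p => a) x hx,
        Finset.prod_const, Finset.card_univ, Fintype.card_fin]
      rfl
    have e5 : thv (fun i j => ι (t i j) ^ p) N (fun i => x i ^ p) α =
        ser (fun i j => ι (r i j)) (cls C (p * N) ((p : ℤ) • a)) x :=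
      hFrid C g (fun i j => ι (t i j)) (fun i j => ι (r i j)) p hpn hrC N a x hx
    rw [e1, e2, e4, e5]
    ring

end Pool.Agent.TDA
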