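import Pool.Agent.TDA.Stmts

/-!
# SUME: convergence of the series of structure constants
-/

set_option autoImplicit false
set_option linter.unusedSectionVars false

noncomputable section

namespace Pool.Agent.TDA

open scoped Classical
open MvPolynomial

universe u

theorem sume_proof (hVar : Stmt_Var.{u}) : Stmt_SumE.{u} := by
  intro F _ _ _ g t r lam Lam hT k hk hr N a s
  obtain ⟨-, -, -, hv4⟩ := hVar F g t lam Lam hT k hk
  have ht := hT.ne
  apply NonarchimedeanAddGroup.summable_of_tendsto_cofinite_zero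
  rw [Metric.tendsto_nhds]
  intro ε hε
  have h2 : {w : Fib N a s | ¬ dist (EE r t w.1) 0 < ε} ⊆ Subtype.val ⁻¹'
      {w : Fin k → Fin g → ℤ | ∑ i, w i = s ∧ SS (qf t) w ≤ -Real.log ε} := by
    intro w hw
    refine ⟨w.2.2, ?_⟩
    have hw' : ε ≤ ‖EE r t w.1‖ := by
      have h : ¬ dist (EE r t w.1) 0 < ε := hw
      rwa [dist_zero_right, not_lt] at h
    rw [norm_EE hk hr ht] at hw'
    have h3 := (Real.log_le_iff_le_exp hε).mpr hw'
    linarith
  exact ((hv4 s (-Real.log ε)).preimage Subtype.val_injective.injOn).subset h2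

end Pool.Agent.TDA

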