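import Pool.Agent.TDA.Stmts

/-!
# SUMM: convergence of the theta series
-/

set_option autoImplicit false
set_option linter.unusedSectionVars false

noncomputable section

namespace Pool.Agent.TDA

open scoped Classical
open MvPolynomial

universe u

namespace SUMM

variable {F : Type u} [NormedField F] {g : ℕ}

theorem fin_box (g : ℕ) (M : ℝ) : {w : Fin g → ℤ | ‖rv w‖ ≤ M}.Finite := by
  obtain ⟨m, hm⟩ := exists_nat_ge M
  apply (Set.finite_Icc (fun (_ : Fin g) => -(m : ℤ)) (fun (_ : Fin g) => (m : ℤ))).subset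
  intro w hw
  have key : ∀ j, |w j| ≤ (m : ℤ) := by
    intro j
    have h6 := norm_le_pi_norm (rv w) j
    have h7 : ‖rv w j‖ = |(w j : ℝ)| := Real.norm_eq_abs _
    rw [h7] at h6
    have hw' : ‖rv w‖ ≤ M := hw
    have h8 : |(w j : ℝ)| ≤ (m : ℝ) := by linarith
    rw [← Int.cast_abs] at h8
    exact_mod_cast h8
  exact ⟨fun j => (abs_le.mp (key j)).1, fun j => (abs_le.mp (key j)).2⟩

theorem bound {t : Fin g → Fin g → F} {lam Lam : ℝ} (H : TP t lam Lam) {x : Fin g → F}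
    (hx : ∀ i, x i ≠ 0) (w : Fin g → ℤ) :
    ‖kap t w * mon x w‖ ≤
      Real.exp (-(lam * ‖rv w‖ ^ 2) + (∑ i, |Real.log ‖x i‖|) * ‖rv w‖) := by
  rw [norm_mul, norm_kap H.ne, norm_mon hx, ← Real.exp_add]
  apply Real.exp_le_exp.mpr
  have h1 := H.lo (rv w)
  have h2 : ∑ i, (w i : ℝ) * Real.log ‖x i‖ ≤ (∑ i, |Real.log ‖x i‖|) * ‖rv w‖ := by
    rw [Finset.sum_mul]
    apply Finset.sum_le_sum
    intro i _
    have h3 : |(w i : ℝ)| ≤ ‖rv w‖ := norm_le_pi_norm (rv w) i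
    calc (w i : ℝ) * Real.log ‖x i‖ ≤ |(w i : ℝ) * Real.log ‖x i‖| := le_abs_self _
      _ = |(w i : ℝ)| * |Real.log ‖x i‖| := abs_mul _ _
      _ ≤ ‖rv w‖ * |Real.log ‖x i‖| := mul_le_mul_of_nonneg_right h3 (abs_nonneg _)
      _ = |Real.log ‖x i‖| * ‖rv w‖ := mul_comm _ _
  linarith

theorem fin {t : Fin g → Fin g → F} {lam Lam : ℝ} (H : TP t lam Lam) {x : Fin g → F}
    (hx : ∀ i, x i ≠ 0) (ε : ℝ) (hε : 0 < ε) :
    {w : Fin g → ℤ | ε ≤ ‖kap t w * mon x w‖}.Finite := by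
  set L := ∑ i, |Real.log ‖x i‖| with hL
  have hL0 : 0 ≤ L := Finset.sum_nonneg fun i _ => abs_nonneg _
  apply (fin_box g ((L + |Real.log ε|) / lam + 1)).subset
  intro w hw
  have hw1 : ε ≤ ‖kap t w * mon x w‖ := hw
  have h1 := le_trans hw1 (bound H hx w)
  rw [← hL] at h1
  have h2 : Real.log ε ≤ -(lam * ‖rv w‖ ^ 2) + L * ‖rv w‖ := (Real.log_le_iff_le_exp hε).mpr h1
  show ‖rv w‖ ≤ (L + |Real.log ε|) / lam + 1
  by_contra hcon
  push Not at hcon
  have hlam := H.pos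
  have ha := neg_abs_le (Real.log ε)
  set n := ‖rv w‖ with hn
  have hn1 : 1 < n := by
    have : 0 ≤ (L + |Real.log ε|) / lam := by positivity
    linarith
  have h3 : L + |Real.log ε| < lam * n := by
    have h4 : (L + |Real.log ε|) / lam < n := by linarith
    rw [div_lt_iff₀ hlam] at h4
    linarith
  have h5 : (L + |Real.log ε|) * n < lam * n * n :=
    mul_lt_mul_of_pos_right h3 (by linarith)
  have h6 : |Real.log ε| ≤ |Real.log ε| * n := by
    nlinarith [abs_nonneg (Real.log ε)]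
  nlinarith

end SUMM

theorem summ_proof : Stmt_Summ.{u} := by
  intro F _ _ g t lam Lam H x hx
  refine ⟨fun ε hε => SUMM.fin H hx ε hε, ?_⟩
  intro _ h B hB
  apply NonarchimedeanAddGroup.summable_of_tendsto_cofinite_zero
  rw [Metric.tendsto_nhds]
  intro ε hε
  rw [Filter.eventually_cofinite]
  have hB0 : 0 ≤ B := le_trans (norm_nonneg _) (hB 0)
  apply (SUMM.fin H hx (ε / (B + 1)) (by positivity)).subset
  intro w hw
  have hw1 : ¬dist (h w * (kap t w * mon x w)) 0 < ε := hw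
  rw [dist_zero_right, norm_mul, not_lt] at hw1
  show ε / (B + 1) ≤ ‖kap t w * mon x w‖
  rw [div_le_iff₀ (by linarith)]
  have h1 : ‖h w‖ * ‖kap t w * mon x w‖ ≤ B * ‖kap t w * mon x w‖ :=
    mul_le_mul_of_nonneg_right (hB w) (norm_nonneg _)
  have h2 := norm_nonneg (kap t w * mon x w)
  linarith

end Pool.Agent.TDA
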