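import Pool.Agent.TDA.Stmts2

/-!
# TDA: module SUMS, `p`-adic summability is summability for the rank one norm
-/

set_option autoImplicit false
set_option linter.unusedSectionVars false

noncomputable section

namespace Pool.Agent.TDA

open scoped Classical Topology
open MvPolynomial Pool.Agent.LibDb3ab1 Pool.Agent.DC Pool.Agent.CSM Filter

universe u

namespace SUMS

variable {p : ℕ} {C : Type u} [Field C] {V : ValuationSubring C}

theorem mem_of_lt (h : PU (p : V)) {y : C} {k : ℕ} (hy : vn C (p : V) y < (1 / 2) ^ k) :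
    y / (p : C) ^ k ∈ V := by
  have hp : vn C (p : V) (p : C) = 1 / 2 := by
    have := vn_self (F := C) h
    simpa using this
  have hp0 : (p : C) ≠ 0 := by
    have := h.map_ne (F := C)
    simpa using this
  have h1 : vn C (p : V) (y / (p : C) ^ k) < 1 := by
    rw [div_eq_mul_inv, vn_mul h, vn_inv h, vn_pow h, hp]
    have h2 : (0 : ℝ) < (1 / 2) ^ k := by positivity
    rw [← div_eq_mul_inv, div_lt_one h2]
    exact hy
  obtain ⟨w, hw⟩ := exists_of_vn_lt h h1
  rw [← hw]
  exact w.2

theorem le_of_mem (h : PU (p : V)) {y : C} {k : ℕ} (hy : y / (p : C) ^ k ∈ V) :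
    vn C (p : V) y ≤ (1 / 2) ^ k := by
  have hp : vn C (p : V) (p : C) = 1 / 2 := by
    have := vn_self (F := C) h
    simpa using this
  have hp0 : (p : C) ≠ 0 := by
    have := h.map_ne (F := C)
    simpa using this
  have h1 : vn C (p : V) (y / (p : C) ^ k) ≤ 1 := vn_le_one (F := C) (⟨_, hy⟩ : V)
  have h2 : y = (p : C) ^ k * (y / (p : C) ^ k) := by
    field_simp
  rw [h2, vn_mul h, vn_pow h, hp]
  calc (1 / 2 : ℝ) ^ k * vn C (p : V) (y / (p : C) ^ k) ≤ (1 / 2) ^ k * 1 :=
        mul_le_mul_of_nonneg_left h1 (by positivity)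
    _ = _ := mul_one _

end SUMS

open SUMS in
theorem sums_proof : Stmt_Sums.{u} := by
  intro p _ C _ V h A a v
  letI := nfPU (F := C) h
  have hn : ∀ x : C, ‖x‖ = vn C (p : V) x := norm_nfPU (F := C) h
  change _ ↔ Tendsto (fun s : Finset A => ∑ b ∈ s, a b) _ (𝓝 v)
  rw [SummationFilter.unconditional_filter, Metric.tendsto_atTop]
  constructor
  · intro hs ε hε
    obtain ⟨k, hk⟩ := exists_pow_lt_of_lt_one hε (by norm_num : (1 / 2 : ℝ) < 1)
    obtain ⟨S, hS⟩ := hs k
    refine ⟨S, fun T hT => ?_⟩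
    rw [dist_comm, dist_eq_norm, hn]
    exact lt_of_le_of_lt (le_of_mem h (hS T hT)) hk
  · intro hs k
    obtain ⟨S, hS⟩ := hs ((1 / 2) ^ k) (by positivity)
    refine ⟨S, fun T hT => ?_⟩
    have h1 := hS T hT
    rw [dist_comm, dist_eq_norm, hn] at h1
    exact mem_of_lt h h1

end Pool.Agent.TDA
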