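import Pool.Agent.TDA.Stmts

/-!
# TDA / TRANS: passing from the tilt to characteristic zero
-/

set_option autoImplicit false
set_option linter.unusedSectionVars false

noncomputable section

namespace Pool.Agent.TDA

open scoped Classical
open MvPolynomial

universe u

namespace TRANS

variable {T C : Type u} [NormedField T] [NormedField C] {g : ℕ}

theorem sh_kap (sh : T →*₀ C) (t : Fin g → Fin g → T) (w : Fin g → ℤ) :
    kap (fun i j => sh (t i j)) w = sh (kap t w) := by
  simp only [kap, map_prod, map_zpow₀]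

theorem sh_mon (sh : T →*₀ C) (y : Fin g → T) (w : Fin g → ℤ) :
    mon (fun i => sh (y i)) w = sh (mon y w) := by
  simp only [mon, map_prod, map_zpow₀]

theorem sh_KK (sh : T →*₀ C) (t : Fin g → Fin g → T) (y : Fin g → T) (a₀ v : Fin g → ℤ) :
    KK (fun i j => sh (t i j)) (fun i => sh (y i)) a₀ v = sh (KK t y a₀ v) := by
  unfold KK
  rw [sh_kap, sh_kap, sh_mon, sh_mon, map_div₀, map_mul, map_mul]

/-- Integral vectors of norm larger than `r₀` have norm at least `r₀ + 1`. -/
theorem norm_step {v : Fin g → ℤ} {r₀ : ℕ} (h : ¬ ‖rv v‖ ≤ r₀) : (r₀ : ℝ) + 1 ≤ ‖rv v‖ := by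
  rw [pi_norm_le_iff_of_nonneg (Nat.cast_nonneg r₀)] at h
  push Not at h
  obtain ⟨j, hj⟩ := h
  refine le_trans ?_ (norm_le_pi_norm (rv v) j)
  rw [rv, Real.norm_eq_abs, ← Int.cast_abs] at hj ⊢
  have h1 : (r₀ : ℤ) < |v j| := by exact_mod_cast hj
  have h2 : (r₀ : ℤ) + 1 ≤ |v j| := h1
  exact_mod_cast h2

theorem nsub [IsUltrametricDist C] (a b : C) : ‖a - b‖ ≤ max ‖a‖ ‖b‖ := by
  rw [sub_eq_add_neg]
  refine (IsUltrametricDist.norm_add_le_max _ _).trans ?_
  rw [norm_neg]

end TRANS

open TRANS

theorem trans_proof (hSumm : Stmt_Summ.{u}) : Stmt_Trans.{u} := by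
  intro T C _ _ _ _ _ sh ϖ hn hadd g t lam Lam hT N r₀ ε hN hε z a₀ y hy hK1 hK2 hz1 hz2
  have hN0 : N ≠ 0 := by omega
  have : NeZero N := ⟨hN0⟩
  set t' : Fin g → Fin g → C := fun i j => sh (t i j) with ht'
  set y' : Fin g → C := fun i => sh (y i) with hy'
  have hT' : TP t' lam Lam := by
    have hq : qf t' = qf t := by
      funext i j
      unfold qf
      rw [ht', hn]
    exact ⟨fun i j => (map_ne_zero sh).mpr (hT.ne i j), hT.pos, hT.le, by rw [hq]; exact hT.lo,
      by rw [hq]; exact hT.hi⟩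
  have hy0 : ∀ i, y' i ≠ 0 := fun i => (map_ne_zero sh).mpr (hy i)
  have hϖ : 0 ≤ ϖ := by
    have h1 := (norm_nonneg _).trans (hadd 1 0)
    have h2 : (0 : ℝ) < max ‖(1 : T)‖ ‖(0 : T)‖ := lt_max_of_lt_left (by simp)
    exact nonneg_of_mul_nonneg_left h1 h2
  have hε0 : 0 ≤ ε := (norm_nonneg _).trans (hz1 0 (by simp))
  have hd : kap t' a₀ * mon y' a₀ ≠ 0 := mul_ne_zero (kap_ne hT'.ne _) (mon_ne hy0 _)
  have hKn : ∀ v, ‖KK t' y' a₀ v‖ = ‖KK t y a₀ v‖ := by
    intro v
    rw [ht', hy', sh_KK, hn]
  have hterm : ∀ w, (kap t' a₀ * mon y' a₀)⁻¹ * (kap t' w * mon y' w) =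
      KK t' y' a₀ (w - a₀) := by
    intro w
    unfold KK
    rw [add_sub_cancel, div_eq_inv_mul]
  refine ⟨?_, ?_⟩
  · intro w
    have h1 := hKn (w - a₀)
    have h2 := hK1 (w - a₀)
    rw [← h1, ← hterm, norm_mul, norm_inv, inv_mul_le_iff₀ (norm_pos_iff.mpr hd), mul_one] at h2
    exact h2
  · intro α
    obtain ⟨hS1, hS2⟩ := hSumm C g t' lam Lam hT' y' hy0
    have hsum := hS2 (cls C N (rep α)) 1 (fun w => by
      unfold cls
      split_ifs <;> simp)
    have e1 : (kap t' a₀ * mon y' a₀)⁻¹ * thv t' N y' α =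
        ∑' w : Fin g → ℤ, cls C N (rep α) w * KK t' y' a₀ (w - a₀) := by
      unfold thv th ser
      rw [← tsum_mul_left]
      congr 1
      funext w
      rw [← hterm]
      ring
    have hsum' : Summable fun w : Fin g → ℤ => cls C N (rep α) w * KK t' y' a₀ (w - a₀) := by
      have := hsum.mul_left (kap t' a₀ * mon y' a₀)⁻¹
      refine this.congr fun w => ?_
      rw [← hterm]
      ring
    rw [e1]
    have hcl : ∀ w : Fin g → ℤ, cl N w = α → cls C N (rep α) w = 1 := by
      intro w hw
      unfold cls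
      rw [if_pos]
      rw [← cl_eq_iff, hw, cl_rep]
    have hcl' : ∀ w : Fin g → ℤ, cl N w ≠ α → cls C N (rep α) w = 0 := by
      intro w hw
      unfold cls
      rw [if_neg]
      rw [← cl_eq_iff, cl_rep]
      exact hw
    by_cases hv : ∃ v : Fin g → ℤ, ‖rv v‖ ≤ r₀ ∧ cl N (a₀ + v) = α
    · obtain ⟨v, hvr, hvα⟩ := hv
      rw [hsum'.tsum_eq_add_tsum_ite (a₀ + v)]
      have e2 : cls C N (rep α) (a₀ + v) * KK t' y' a₀ (a₀ + v - a₀) = sh (KK t y a₀ v) := by
        rw [hcl _ hvα, one_mul, add_sub_cancel_left, ht', hy', sh_KK]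
      rw [e2]
      have h3 : ‖∑' w : Fin g → ℤ, (if w = a₀ + v then (0 : C) else
          cls C N (rep α) w * KK t' y' a₀ (w - a₀))‖ ≤ ε := by
        refine IsUltrametricDist.norm_tsum_le_of_forall_le_of_nonneg hε0 fun w => ?_
        split_ifs with hw
        · simpa using hε0
        · by_cases hwα : cl N w = α
          · rw [hcl _ hwα, one_mul, hKn]
            apply hK2
            have h4 : cl N w = cl N (a₀ + v) := by rw [hwα, hvα]
            rw [cl_eq_iff] at h4
            choose u hu using h4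
            have h5 : w - a₀ = v + (N : ℤ) • u := by
              funext j
              have := hu j
              simp only [Pi.add_apply, Pi.sub_apply, Pi.smul_apply, smul_eq_mul] at this ⊢
              linarith
            have hu0 : u ≠ 0 := by
              intro h0
              apply hw
              rw [h0, smul_zero, add_zero, sub_eq_iff_eq_add] at h5
              rw [h5, add_comm]
            have h6 : (N : ℝ) ≤ ‖rv ((N : ℤ) • u)‖ := by
              rw [rv_smul, norm_smul]
              have h7 := one_le_norm_rv hu0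
              have h8 : ‖((N : ℤ) : ℝ)‖ = N := by simp
              rw [h8]
              exact le_mul_of_one_le_right (Nat.cast_nonneg N) h7
            rw [h5, rv_add]
            have h9 : ‖rv ((N : ℤ) • u)‖ ≤ ‖rv v + rv ((N : ℤ) • u)‖ + ‖rv v‖ := by
              have := norm_sub_le (rv v + rv ((N : ℤ) • u)) (rv v)
              rwa [add_sub_cancel_left] at this
            have h10 : (2 * r₀ + 1 : ℝ) ≤ N := by exact_mod_cast hN
            linarith
          · rw [hcl' _ hwα, zero_mul, norm_zero]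
            exact hε0
      have h4 : ‖sh (z α) - sh (KK t y a₀ v)‖ ≤ max ε ϖ := by
        have hB := hz1 v hvr
        rw [hvα] at hB
        have h5 := hadd (KK t y a₀ v) (z α - KK t y a₀ v)
        rw [add_sub_cancel] at h5
        have h6 : sh (z α) - sh (KK t y a₀ v) =
            (sh (z α) - sh (KK t y a₀ v) - sh (z α - KK t y a₀ v)) +
              sh (z α - KK t y a₀ v) := by ring
        rw [h6]
        refine (IsUltrametricDist.norm_add_le_max _ _).trans (max_le ?_ ?_)
        · refine (h5.trans ?_).trans (le_max_right _ _)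
          have h7 : max ‖KK t y a₀ v‖ ‖z α - KK t y a₀ v‖ ≤ 1 := max_le (hK1 v) (hB.trans hε)
          calc ϖ * max ‖KK t y a₀ v‖ ‖z α - KK t y a₀ v‖ ≤ ϖ * 1 :=
                mul_le_mul_of_nonneg_left h7 hϖ
            _ = ϖ := mul_one _
        · rw [hn]
          exact hB.trans (le_max_left _ _)
      rw [← sub_sub]
      refine (nsub _ _).trans (max_le h4 (h3.trans (le_max_left _ _)))
    · push Not at hv
      have hbig : ∀ w : Fin g → ℤ, cl N w = α → (r₀ : ℝ) + 1 ≤ ‖rv (w - a₀)‖ := by
        intro w hw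
        apply norm_step
        intro hle
        exact hv (w - a₀) hle (by rw [add_sub_cancel]; exact hw)
      have h1 : ‖z α‖ ≤ ε := by
        have := hz2 (rep α) (fun u => by
          have h2 := hbig (rep α + (N : ℤ) • u) (by rw [cl_add_smul, cl_rep])
          have h3 : rep α + (N : ℤ) • u - a₀ = rep α - a₀ + (N : ℤ) • u := by abel
          rwa [h3] at h2)
        rwa [cl_rep] at this
      have h2 : ‖∑' w : Fin g → ℤ, cls C N (rep α) w * KK t' y' a₀ (w - a₀)‖ ≤ ε := by
        refine IsUltrametricDist.norm_tsum_le_of_forall_le_of_nonneg hε0 fun w => ?_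
        by_cases hwα : cl N w = α
        · rw [hcl _ hwα, one_mul, hKn]
          apply hK2
          linarith [hbig w hwα]
        · rw [hcl' _ hwα, zero_mul, norm_zero]
          exact hε0
      refine (nsub _ _).trans ((max_le ?_ h2).trans (le_max_left _ _))
      rw [hn]
      exact h1

end Pool.Agent.TDA
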