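import Pool.Agent.TDA.Stmts

/-!
# VAR: inequalities for the variance
-/

set_option autoImplicit false
set_option linter.unusedSectionVars false

noncomputable section

namespace Pool.Agent.TDA

open scoped Classical
open MvPolynomial

universe u

namespace VAR

variable {F : Type u} [NormedField F] {g : ℕ}

theorem nonneg {t : Fin g → Fin g → F} {lam Lam : ℝ} (H : TP t lam Lam) {k : ℕ} (hk : k ≠ 0)
    (w : Fin k → Fin g → ℤ) : 0 ≤ SS (qf t) w := by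
  rw [SS_eq _ hk]
  exact Finset.sum_nonneg fun i _ => H.nonneg _

theorem lower {t : Fin g → Fin g → F} {lam Lam : ℝ} (H : TP t lam Lam) {k : ℕ} (hk : k ≠ 0)
    (N : ℕ) (a u : Fin k → Fin g → ℤ) (hu : ∃ i l, u i ≠ u l) :
    (N : ℝ) ^ 2 * lam / 4 - SS (qf t) a ≤ SS (qf t) (fun i => a i + (N : ℤ) • u i) := by
  rw [SS_eq _ hk a, SS_eq _ hk (fun i => a i + (N : ℤ) • u i)]
  set mu : Fin g → ℝ := (k : ℝ)⁻¹ • rv (∑ l, u l) with hmu
  set ma : Fin g → ℝ := (k : ℝ)⁻¹ • rv (∑ l, a l) with hma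
  have e1 : ∀ i, rv (a i + (N : ℤ) • u i) - (k : ℝ)⁻¹ • rv (∑ l, (a l + (N : ℤ) • u l)) =
      (N : ℝ) • (rv (u i) - mu) + (rv (a i) - ma) := by
    intro i
    have h1 : ∑ l, (a l + (N : ℤ) • u l) = ∑ l, a l + (N : ℤ) • ∑ l, u l := by
      rw [Finset.sum_add_distrib, Finset.smul_sum]
    rw [h1, rv_add, rv_add, rv_smul, rv_smul, hmu, hma, Int.cast_natCast]
    module
  have e2 : ∀ i, (N : ℝ) ^ 2 / 2 * QF (qf t) (rv (u i) - mu) - QF (qf t) (rv (a i) - ma) ≤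
      QF (qf t) (rv (a i + (N : ℤ) • u i) - (k : ℝ)⁻¹ • rv (∑ l, (a l + (N : ℤ) • u l))) := by
    intro i
    rw [e1 i]
    have h2 := H.half ((N : ℝ) • (rv (u i) - mu)) (rv (a i) - ma)
    rw [QF_smul] at h2
    linarith
  have e3 : (N : ℝ) ^ 2 / 2 * ∑ i, QF (qf t) (rv (u i) - mu) - ∑ i, QF (qf t) (rv (a i) - ma) ≤
      ∑ i, QF (qf t) (rv (a i + (N : ℤ) • u i) -
        (k : ℝ)⁻¹ • rv (∑ l, (a l + (N : ℤ) • u l))) := by
    rw [Finset.mul_sum, ← Finset.sum_sub_distrib]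
    exact Finset.sum_le_sum fun i _ => e2 i
  have e4 : lam / 2 ≤ ∑ i, QF (qf t) (rv (u i) - mu) := by
    obtain ⟨i, l, hil⟩ := hu
    have hne : i ≠ l := fun h => hil (by rw [h])
    have h1 : QF (qf t) (rv (u i) - mu) + QF (qf t) (rv (u l) - mu) ≤
        ∑ i, QF (qf t) (rv (u i) - mu) := by
      rw [← Finset.sum_pair (f := fun i => QF (qf t) (rv (u i) - mu)) hne]
      exact Finset.sum_le_sum_of_subset_of_nonneg (Finset.subset_univ _)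
        fun j _ _ => H.nonneg _
    have h2 := H.lo (rv (u i) - mu)
    have h3 := H.lo (rv (u l) - mu)
    have h4 : 1 ≤ ‖rv (u i) - mu‖ + ‖rv (u l) - mu‖ := by
      have h5 : 1 ≤ ‖rv (u i - u l)‖ := one_le_norm_rv (sub_ne_zero.mpr hil)
      have h6 : rv (u i - u l) = (rv (u i) - mu) - (rv (u l) - mu) := by
        rw [rv_sub]; abel
      rw [h6] at h5
      exact le_trans h5 (norm_sub_le _ _)
    have h7 := H.pos
    have h8 : 1 / 2 ≤ ‖rv (u i) - mu‖ ^ 2 + ‖rv (u l) - mu‖ ^ 2 := by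
      have hx := norm_nonneg (rv (u i) - mu)
      have hy := norm_nonneg (rv (u l) - mu)
      nlinarith [sq_nonneg (‖rv (u i) - mu‖ - ‖rv (u l) - mu‖)]
    have h9 : lam * (1 / 2) ≤ lam * (‖rv (u i) - mu‖ ^ 2 + ‖rv (u l) - mu‖ ^ 2) :=
      mul_le_mul_of_nonneg_left h8 h7.le
    linarith
  have e5 : (N : ℝ) ^ 2 / 2 * (lam / 2) ≤ (N : ℝ) ^ 2 / 2 * ∑ i, QF (qf t) (rv (u i) - mu) :=
    mul_le_mul_of_nonneg_left e4 (by positivity)
  have e6 : (N : ℝ) ^ 2 * lam / 4 = (N : ℝ) ^ 2 / 2 * (lam / 2) := by ring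
  rw [e6]
  linarith

theorem upper {t : Fin g → Fin g → F} {lam Lam : ℝ} (H : TP t lam Lam) {k : ℕ} (hk : k ≠ 0)
    (w : Fin k → Fin g → ℤ) (hw : ∀ i, ‖rv (w i) - (k : ℝ)⁻¹ • rv (∑ l, w l)‖ ≤ 1) :
    SS (qf t) w ≤ k * Lam := by
  rw [SS_eq _ hk]
  have hL : 0 ≤ Lam := le_trans H.pos.le H.le
  have h1 : ∀ i : Fin k, QF (qf t) (rv (w i) - (k : ℝ)⁻¹ • rv (∑ l, w l)) ≤ Lam := by
    intro i
    refine le_trans (H.hi _) ?_
    have h2 : ‖rv (w i) - (k : ℝ)⁻¹ • rv (∑ l, w l)‖ ^ 2 ≤ 1 :=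
      pow_le_one₀ (norm_nonneg _) (hw i)
    calc Lam * ‖rv (w i) - (k : ℝ)⁻¹ • rv (∑ l, w l)‖ ^ 2 ≤ Lam * 1 :=
          mul_le_mul_of_nonneg_left h2 hL
      _ = Lam := mul_one _
  refine le_trans (Finset.sum_le_sum fun i _ => h1 i) ?_
  rw [Finset.sum_const, Finset.card_univ, Fintype.card_fin, nsmul_eq_mul]

theorem fin {t : Fin g → Fin g → F} {lam Lam : ℝ} (H : TP t lam Lam) {k : ℕ} (hk : k ≠ 0)
    (s : Fin g → ℤ) (B : ℝ) :
    {w : Fin k → Fin g → ℤ | ∑ i, w i = s ∧ SS (qf t) w ≤ B}.Finite := by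
  obtain ⟨M, hM⟩ := exists_nat_gt (B / lam + 1 + ‖(k : ℝ)⁻¹ • rv s‖)
  apply (Set.finite_Icc (fun (_ : Fin k) (_ : Fin g) => -(M : ℤ))
    (fun (_ : Fin k) (_ : Fin g) => (M : ℤ))).subset
  rintro w ⟨hs, hB⟩
  have key : ∀ i j, |w i j| ≤ (M : ℤ) := by
    intro i j
    have h1 : QF (qf t) (rv (w i) - (k : ℝ)⁻¹ • rv s) ≤ B := by
      refine le_trans ?_ hB
      rw [SS_eq _ hk, hs]
      exact Finset.single_le_sum (f := fun i => QF (qf t) (rv (w i) - (k : ℝ)⁻¹ • rv s))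
        (fun i _ => H.nonneg _) (Finset.mem_univ i)
    have h2 := H.lo (rv (w i) - (k : ℝ)⁻¹ • rv s)
    have h3 : ‖rv (w i) - (k : ℝ)⁻¹ • rv s‖ ^ 2 ≤ B / lam := by
      rw [le_div_iff₀ H.pos]
      linarith
    have h4 : ‖rv (w i) - (k : ℝ)⁻¹ • rv s‖ ≤ B / lam + 1 := by
      nlinarith [norm_nonneg (rv (w i) - (k : ℝ)⁻¹ • rv s),
        sq_nonneg (‖rv (w i) - (k : ℝ)⁻¹ • rv s‖ - 1)]
    have h5 : ‖rv (w i)‖ ≤ ‖rv (w i) - (k : ℝ)⁻¹ • rv s‖ + ‖(k : ℝ)⁻¹ • rv s‖ := by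
      have := norm_add_le (rv (w i) - (k : ℝ)⁻¹ • rv s) ((k : ℝ)⁻¹ • rv s)
      rwa [sub_add_cancel] at this
    have h6 := norm_le_pi_norm (rv (w i)) j
    have h7 : ‖rv (w i) j‖ = |(w i j : ℝ)| := Real.norm_eq_abs _
    rw [h7] at h6
    have h8 : |(w i j : ℝ)| ≤ (M : ℝ) := by linarith
    rw [← Int.cast_abs] at h8
    exact_mod_cast h8
  constructor
  · intro i j
    exact (abs_le.mp (key i j)).1
  · intro i j
    exact (abs_le.mp (key i j)).2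

end VAR

theorem var_proof : Stmt_Var.{u} := by
  intro F _ g t lam Lam H k hk
  exact ⟨VAR.nonneg H hk, fun N a u hu => VAR.lower H hk N a u hu, fun w hw => VAR.upper H hk w hw,
    fun s B => VAR.fin H hk s B⟩

end Pool.Agent.TDA
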