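import Pool.Agent.TDA.Stmts

set_option autoImplicit false
set_option linter.unusedSectionVars false

noncomputable section

namespace Pool.Agent.TDA.VIH

open scoped Classical
open MvPolynomial

universe u

theorem eval_hom {F : Type u} [Field F] {σ : Type*} (Q : MvPolynomial σ F) (m : ℕ)
    (hQ : Q.IsHomogeneous m) (c : F) (f : σ → F) :
    eval (fun α => c * f α) Q = c ^ m * eval f Q := by
  rw [eval_eq, eval_eq, Finset.mul_sum]
  apply Finset.sum_congr rfl
  intro d hd
  have h1 : ∑ i ∈ d.support, d i = m := by
    have h2 := hQ (mem_support_iff.mp hd)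
    rw [Finsupp.weight_apply] at h2
    simpa [Finsupp.sum] using h2
  have h3 : ∏ i ∈ d.support, (c * f i) ^ d i = c ^ m * ∏ i ∈ d.support, f i ^ d i := by
    simp_rw [mul_pow]
    rw [Finset.prod_mul_distrib, Finset.prod_pow_eq_pow_sum, h1]
  rw [h3]
  ring

end Pool.Agent.TDA.VIH

namespace Pool.Agent.TDA

open scoped Classical
open MvPolynomial

universe u

theorem vih_proof : Stmt_VIH.{u} := by
  intro F _ _ g t N P hP m
  simp only [VI, Ideal.mem_iInf, RingHom.mem_ker] at hP ⊢
  intro c x
  have key : ∀ m, eval (fun α => thv t N x.1 α) (homogeneousComponent m P) = 0 := by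
    intro m
    let q : Polynomial F := ∑ i ∈ Finset.range (P.totalDegree + 1),
      Polynomial.C (eval (fun α => thv t N x.1 α) (homogeneousComponent i P)) * Polynomial.X ^ i
    have hq : q = 0 := by
      apply Polynomial.funext
      intro c
      have h1 := hP c x
      rw [← sum_homogeneousComponent P, map_sum] at h1
      simp only [q, Polynomial.eval_finsetSum, Polynomial.eval_mul, Polynomial.eval_C,
        Polynomial.eval_pow, Polynomial.eval_X, Polynomial.eval_zero]
      refine Eq.trans ?_ h1
      apply Finset.sum_congr rfl
      intro i _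
      rw [VIH.eval_hom _ i (homogeneousComponent_isHomogeneous i P)]
      ring
    by_cases hm : m ∈ Finset.range (P.totalDegree + 1)
    · have h2 : q.coeff m = 0 := by rw [hq, Polynomial.coeff_zero]
      simp only [q, Polynomial.finsetSum_coeff, Polynomial.coeff_C_mul, Polynomial.coeff_X_pow] at h2
      rw [Finset.sum_eq_single m] at h2
      · simpa using h2
      · intro b _ hb
        rw [if_neg (Ne.symm hb), mul_zero]
      · intro h
        exact absurd hm h
    · have h3 : P.totalDegree < m := by
        rw [Finset.mem_range] at hm
        omega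
      rw [homogeneousComponent_eq_zero _ _ h3, map_zero]
  rw [VIH.eval_hom _ m (homogeneousComponent_isHomogeneous m P), key m, mul_zero]

end Pool.Agent.TDA
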