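import Pool.Agent.TDA.Stmts

/-!
# VPT: the points of the theta variety over extensions are close to theta points
-/

set_option autoImplicit false
set_option linter.unusedSectionVars false

noncomputable section

namespace Pool.Agent.TDA

open scoped Classical
open MvPolynomial

universe u

namespace VPT

/-- a polynomial whose coefficients have norm at most `η` is small on the unit polydisc -/
theorem norm_eval₂_le {F T : Type u} [NormedField F] [NormedField T] [IsUltrametricDist T]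
    (j : F →+* T) (hj : Iso j) {σ : Type} (z : σ → T) (hz : ∀ α, ‖z α‖ ≤ 1)
    (G : MvPolynomial σ F) (η : ℝ) (hη : 0 ≤ η) (hG : ∀ m, ‖G.coeff m‖ ≤ η) :
    ‖eval₂ j z G‖ ≤ η := by
  rw [eval₂_eq]
  apply IsUltrametricDist.norm_sum_le_of_forall_le_of_nonneg hη
  intro m _
  rw [norm_mul, hj]
  have h1 : ‖∏ i ∈ m.support, z i ^ m i‖ ≤ 1 := by
    rw [norm_prod]
    apply Finset.prod_le_one
    · intro i _; exact norm_nonneg _
    · intro i _
      rw [norm_pow]
      exact pow_le_one₀ (norm_nonneg _) (hz i)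
  calc ‖G.coeff m‖ * ‖∏ i ∈ m.support, z i ^ m i‖ ≤ η * 1 :=
        mul_le_mul (hG m) h1 (norm_nonneg _) hη
    _ = η := mul_one _

theorem mem_VI {F : Type u} [NormedField F] {g : ℕ} (t : Fin g → Fin g → F) (N : ℕ)
    (P : MvPolynomial (Fin g → ZMod N) F)
    (h : ∀ x : Fin g → F, (∀ i, x i ≠ 0) → ∀ c : F, eval (fun α => c * thv t N x α) P = 0) :
    P ∈ VI t N := by
  unfold VI
  rw [Ideal.mem_iInf]
  intro c
  rw [Ideal.mem_iInf]
  intro x
  rw [RingHom.mem_ker]
  exact h x.1 x.2 c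

end VPT

theorem vpt_proof (hRel : Stmt_Rel.{u}) (hBox : Stmt_Box.{u}) : Stmt_Vpt.{u} := by
  intro F _ _ _ _ g t lam Lam H N r₀ ε hN hN2 hr₀ hgl he1 he2 hε1 T _ _ j hj z hz hz1 a₀ ha₀
  haveI : NeZero N := ⟨hN⟩
  -- square roots
  have hroot : ∀ i l, ∃ y : F, y ^ 2 = t i l := fun i l =>
    IsAlgClosed.exists_pow_nat_eq (t i l) (by norm_num)
  choose r hr using hroot
  have hR : Rt 2 r t := hr
  have hlam := H.pos
  have hLam : 0 < Lam := lt_of_lt_of_le H.pos H.le
  obtain ⟨hRel1, hRel2⟩ := hRel F g t r lam Lam H hR N hN hN2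
  set S₀ : ℝ := 2 * Lam * ((r₀ : ℝ) + 1) ^ 2 with hS₀
  set η : ℝ := Real.exp (2 * Lam - ((N : ℝ) ^ 2 * lam / 4 - S₀)) with hη
  set η' : ℝ := Real.exp (2 * Lam - lam * ((r₀ : ℝ) + 1) ^ 2 / 2) with hη'
  have hη0 : 0 ≤ η := (Real.exp_pos _).le
  have hη'0 : 0 ≤ η' := (Real.exp_pos _).le
  have hprod : η * Real.exp (4 * Lam * ((r₀ : ℝ) + 1) ^ 2) ≤ ε := by
    rw [hη, ← Real.exp_add]
    refine le_trans (le_of_eq ?_) he1
    congr 1
    rw [hS₀]
    ring
  have hη'ε : η' ≤ ε := by
    refine le_trans ?_ he2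
    rw [hη']
    apply Real.exp_le_exp.mpr
    have : (0 : ℝ) ≤ r₀ := Nat.cast_nonneg _
    nlinarith [mul_nonneg hlam.le this]
  obtain ⟨y, hy0, hy1, hy2, hy3, hy4⟩ := hBox T g (fun i l => j (t i l)) (fun i l => j (r i l))
    lam Lam (H.map hj) (hR.map j) N r₀ η η' hr₀ hgl (lt_of_le_of_lt hprod hε1)
    (fun a => z (cl N a))
    (fun w v => by
      show z (cl N (w + (N : ℤ) • v)) = z (cl N w)
      rw [cl_add_smul])
    (fun a => hz1 _) a₀ ha₀
    (by
      intro a b c d hab h1 h2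
      rw [qf_map hj] at h1 h2
      obtain ⟨G, hG1, hG2⟩ := hRel1 a b c d S₀ hab h1 h2
      have hP : C (EE r t ![c, d]) * X (cl N a) * X (cl N b)
          - C (EE r t ![a, b]) * X (cl N c) * X (cl N d) - G ∈ VI t N := by
        apply VPT.mem_VI
        intro x hx c₀
        have := hG2 x hx c₀
        simp only [map_sub, map_mul, eval_C, eval_X, thv_cl]
        rw [this, sub_self]
      have h3 := hz _ hP
      simp only [eval₂_sub, eval₂_mul, eval₂_C, eval₂_X, map_EE] at h3
      have h4 := sub_eq_zero.mp h3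
      show ‖EE (fun i l => j (r i l)) (fun i l => j (t i l)) ![c, d] * z (cl N a) * z (cl N b)
        - EE (fun i l => j (r i l)) (fun i l => j (t i l)) ![a, b] * z (cl N c) * z (cl N d)‖ ≤ η
      rw [h4]
      exact VPT.norm_eval₂_le j hj z hz1 G η hη0 hG1)
    (by
      intro a b hab
      obtain ⟨G, hG1, hG2⟩ := hRel2 a b ((r₀ : ℝ) + 1) (by positivity) hab
      have hP : X (cl N a) * X (cl N b) - G ∈ VI t N := by
        apply VPT.mem_VI
        intro x hx c₀
        have := hG2 x hx c₀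
        simp only [map_sub, map_mul, eval_X, thv_cl]
        rw [this, sub_self]
      have h3 := hz _ hP
      simp only [eval₂_sub, eval₂_mul, eval₂_X] at h3
      have h4 := sub_eq_zero.mp h3
      show ‖z (cl N a) * z (cl N b)‖ ≤ η'
      rw [h4]
      exact VPT.norm_eval₂_le j hj z hz1 G η' hη'0 hG1)
  refine ⟨y, hy0, hy1, ?_, ?_, ?_⟩
  · intro v hv
    refine le_trans (hy2 v hv) (le_trans ?_ he2)
    apply Real.exp_le_exp.mpr
    linarith
  · intro v hv
    exact le_trans (hy3 v hv) hprod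
  · intro a ha
    exact le_trans (hy4 a ha) hη'ε

end Pool.Agent.TDA
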