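import Pool.Agent.TDA.MAINK
import Pool.Agent.TDA.BAL
import Pool.Agent.TDA.BOX
import Pool.Agent.TDA.CYC
import Pool.Agent.TDA.DOM
import Pool.Agent.TDA.FORM
import Pool.Agent.TDA.FRID
import Pool.Agent.TDA.IMG
import Pool.Agent.TDA.IND
import Pool.Agent.TDA.ITER
import Pool.Agent.TDA.KDIM
import Pool.Agent.TDA.LB
import Pool.Agent.TDA.MAT
import Pool.Agent.TDA.MAXC
import Pool.Agent.TDA.NORMC
import Pool.Agent.TDA.NUM
import Pool.Agent.TDA.PEST
import Pool.Agent.TDA.PMAP
import Pool.Agent.TDA.POS
import Pool.Agent.TDA.PROD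
import Pool.Agent.TDA.PULL
import Pool.Agent.TDA.REL
import Pool.Agent.TDA.SH
import Pool.Agent.TDA.SHS
import Pool.Agent.TDA.SS2
import Pool.Agent.TDA.START
import Pool.Agent.TDA.STEP
import Pool.Agent.TDA.SUME
import Pool.Agent.TDA.SUMM
import Pool.Agent.TDA.SUMS
import Pool.Agent.TDA.TRANS
import Pool.Agent.TDA.VAR
import Pool.Agent.TDA.VIH
import Pool.Agent.TDA.VPT
import Pool.Agent.DC.FinalG

/-!
# Totally degenerate abelian varieties: the theorem
-/

set_option autoImplicit false
set_option linter.unusedSectionVars false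

noncomputable section

namespace Pool.Agent.TDA

open scoped Classical
open MvPolynomial Pool.Agent.LibDb3ab1 Pool.Agent.DC Pool.Agent.CSM

universe u

theorem sumE : Stmt_SumE.{u} := sume_proof var_proof
theorem prod : Stmt_Prod.{u} := prod_proof summ_proof sumE
theorem pest : Stmt_Pest.{u} := pest_proof var_proof sumE
theorem pmap : Stmt_Pmap.{u} := pmap_proof sumE
theorem form : Stmt_Form.{u} :=
  form_proof prod pest var_proof pmap bal_proof mat_proof summ_proof
theorem rel : Stmt_Rel.{u} := rel_proof form prod pest ss2_proof summ_proof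
theorem vpt : Stmt_Vpt.{u} := vpt_proof rel (box_proof ss2_proof)
theorem step : Stmt_Step.{u} :=
  step_proof form prod pest (cyc_proof sumE var_proof) frid_proof pmap summ_proof
theorem iter : Stmt_Iter.{u} := iter_proof step
theorem start : Stmt_Start.{u} :=
  start_proof vpt vih_proof (ind_proof summ_proof) kdim_proof sh_proof shs_proof
    (trans_proof summ_proof) normc_proof

/-- The theorem over algebraically closed perfectoid fields. -/
theorem maink : Stmt_MainK.{u} :=
  maink_proof iter (pull_proof summ_proof) maxc_proof (dom_proof summ_proof) summ_proof num_proof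
    pos_proof lb_proof start img_proof normc_proof sums_proof

/-- The closed subscheme `X` of `ℙ^n_K` defined by the homogeneous ideal `I` contains, over each
algebraically closed and complete extension of `K` of rank one, the image of an analytic torus of
dimension `g` under theta functions without common zeros. -/
def ThetaImage {K : Type u} [Field K] (p : ℕ) (O : ValuationSubring K) {n : ℕ}
    (I : Ideal (MvPolynomial (Fin (n + 1)) K)) (g : ℕ) : Prop :=
  ∀ (C₁ : Type u) [Field C₁] [IsAlgClosed C₁] (ι₁ : K →+* C₁)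
    (O₁ : ValuationSubring C₁), ValuedExt O ι₁ O₁ → ¬IsUnit (p : O₁) →
    IsAdicComplete (Ideal.span {(p : O₁)}) O₁ → (∀ x : O₁, ¬IsUnit x → ∃ k : ℕ, (p : O₁) ∣ x ^ k) →
    Nonempty (ThetaData p O₁ (I.map (MvPolynomial.map ι₁)) g)

/-- The theorem over perfectoid fields. -/
theorem main {K : Type u} [Field K] [CharZero K] {O : ValuationSubring K} {p : ℕ} [Fact p.Prime]
    [Fact ¬IsUnit (p : O)] [IsAdicComplete (Ideal.span {(p : O)}) O] (b : TB O p) {n g : ℕ}
    (I : Ideal (MvPolynomial (Fin (n + 1)) K)) (hI : HI I)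
    (hdim : ringKrullDim (MvPolynomial (Fin (n + 1)) K ⧸ I) = (g + 1 : ℕ))
    (hθ : ThetaImage p O I g) : TiltApprox p O I := by
  refine descent b (d := g) I hdim ?_
  intro C₁ _ _ _ ι₁ O₁ h₁ hf hc b₁
  obtain ⟨D⟩ := hθ C₁ ι₁ O₁ h₁ hf.out hc b₁.hr
  exact maink p C₁ O₁ b₁ n g _ (hom_map ι₁ I hI) ((dimf_proof K C₁ ι₁ (n + 1) I).trans hdim) D

end Pool.Agent.TDA
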