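import Pool.Agent.TDA.Defs

/-!
# Totally degenerate abelian varieties: elementary identities
-/

set_option autoImplicit false
set_option linter.unusedSectionVars false

noncomputable section

namespace Pool.Agent.TDA

open scoped Classical
open MvPolynomial

universe u

section alg

variable {F : Type u} [Field F] {g : ℕ}

theorem kap_ne {t : Fin g → Fin g → F} (ht : ∀ i j, t i j ≠ 0) (w : Fin g → ℤ) : kap t w ≠ 0 :=
  Finset.prod_ne_zero_iff.mpr fun i _ => Finset.prod_ne_zero_iff.mpr fun j _ =>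
    zpow_ne_zero _ (ht i j)

theorem bet_ne {t : Fin g → Fin g → F} (ht : ∀ i j, t i j ≠ 0) (w v : Fin g → ℤ) :
    bet t w v ≠ 0 :=
  Finset.prod_ne_zero_iff.mpr fun i _ => Finset.prod_ne_zero_iff.mpr fun j _ =>
    zpow_ne_zero _ (ht i j)

theorem mon_ne {x : Fin g → F} (hx : ∀ i, x i ≠ 0) (w : Fin g → ℤ) : mon x w ≠ 0 :=
  Finset.prod_ne_zero_iff.mpr fun i _ => zpow_ne_zero _ (hx i)

@[simp] theorem kap_zero (t : Fin g → Fin g → F) : kap t 0 = 1 := by simp [kap]

@[simp] theorem mon_zero (x : Fin g → F) : mon x 0 = 1 := by simp [mon]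

theorem kap_add {t : Fin g → Fin g → F} (ht : ∀ i j, t i j ≠ 0) (w v : Fin g → ℤ) :
    kap t (w + v) = kap t w * kap t v * bet t w v := by
  unfold kap bet
  rw [← Finset.prod_mul_distrib, ← Finset.prod_mul_distrib]
  apply Finset.prod_congr rfl
  intro i _
  rw [← Finset.prod_mul_distrib, ← Finset.prod_mul_distrib]
  apply Finset.prod_congr rfl
  intro j _
  rw [← zpow_add₀ (ht i j), ← zpow_add₀ (ht i j)]
  congr 1
  simp only [Pi.add_apply]
  ring

theorem kap_neg (t : Fin g → Fin g → F) (w : Fin g → ℤ) : kap t (-w) = kap t w := by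
  unfold kap
  apply Finset.prod_congr rfl
  intro i _
  apply Finset.prod_congr rfl
  intro j _
  congr 1
  simp

theorem kap_smul (t : Fin g → Fin g → F) (n : ℤ) (w : Fin g → ℤ) :
    kap t (n • w) = kap t w ^ (n * n) := by
  unfold kap
  rw [← Finset.prod_zpow]
  apply Finset.prod_congr rfl
  intro i _
  rw [← Finset.prod_zpow]
  apply Finset.prod_congr rfl
  intro j _
  rw [← zpow_mul]
  congr 1
  simp only [Pi.smul_apply, smul_eq_mul]
  ring

theorem bet_comm (t : Fin g → Fin g → F) (w v : Fin g → ℤ) : bet t w v = bet t v w := by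
  unfold bet
  apply Finset.prod_congr rfl
  intro i _
  apply Finset.prod_congr rfl
  intro j _
  congr 1
  ring

theorem bet_add_left {t : Fin g → Fin g → F} (ht : ∀ i j, t i j ≠ 0) (w w' v : Fin g → ℤ) :
    bet t (w + w') v = bet t w v * bet t w' v := by
  unfold bet
  rw [← Finset.prod_mul_distrib]
  apply Finset.prod_congr rfl
  intro i _
  rw [← Finset.prod_mul_distrib]
  apply Finset.prod_congr rfl
  intro j _
  rw [← zpow_add₀ (ht i j)]
  congr 1
  simp only [Pi.add_apply]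
  ring

theorem bet_add_right {t : Fin g → Fin g → F} (ht : ∀ i j, t i j ≠ 0) (w v v' : Fin g → ℤ) :
    bet t w (v + v') = bet t w v * bet t w v' := by
  rw [bet_comm, bet_add_left ht, bet_comm t v, bet_comm t v']

theorem bet_smul_left (t : Fin g → Fin g → F) (n : ℤ) (w v : Fin g → ℤ) :
    bet t (n • w) v = bet t w v ^ n := by
  unfold bet
  rw [← Finset.prod_zpow]
  apply Finset.prod_congr rfl
  intro i _
  rw [← Finset.prod_zpow]
  apply Finset.prod_congr rfl
  intro j _
  rw [← zpow_mul]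
  congr 1
  simp only [Pi.smul_apply, smul_eq_mul]
  ring

theorem bet_smul_right (t : Fin g → Fin g → F) (n : ℤ) (w v : Fin g → ℤ) :
    bet t w (n • v) = bet t w v ^ n := by
  rw [bet_comm, bet_smul_left, bet_comm]

theorem bet_self (t : Fin g → Fin g → F) (w : Fin g → ℤ) : bet t w w = kap t w ^ 2 := by
  unfold bet kap
  rw [← Finset.prod_pow]
  apply Finset.prod_congr rfl
  intro i _
  rw [← Finset.prod_pow]
  apply Finset.prod_congr rfl
  intro j _
  rw [← zpow_natCast, ← zpow_mul]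
  congr 1
  push_cast
  ring

@[simp] theorem bet_zero_left (t : Fin g → Fin g → F) (v : Fin g → ℤ) : bet t 0 v = 1 := by
  simp [bet]

@[simp] theorem bet_zero_right (t : Fin g → Fin g → F) (v : Fin g → ℤ) : bet t v 0 = 1 := by
  simp [bet]

theorem bet_sum_left {t : Fin g → Fin g → F} (ht : ∀ i j, t i j ≠ 0) {ι : Type*} (s : Finset ι)
    (w : ι → Fin g → ℤ) (v : Fin g → ℤ) : bet t (∑ i ∈ s, w i) v = ∏ i ∈ s, bet t (w i) v := by
  induction s using Finset.induction_on with
  | empty => simp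
  | insert a s ha ih => rw [Finset.sum_insert ha, Finset.prod_insert ha, bet_add_left ht, ih]

/-- For fixed `v` the function `w ↦ bet t w v` is a monomial. -/
theorem bet_eq_mon {t : Fin g → Fin g → F} (ht : ∀ i j, t i j ≠ 0) (w v : Fin g → ℤ) :
    bet t w v = mon (fun i => bet t (Pi.single i 1) v) w := by
  have h : w = ∑ i, w i • (Pi.single i 1 : Fin g → ℤ) := by
    funext j
    simp [Pi.single_apply]
  conv_lhs => rw [h]
  rw [bet_sum_left ht]
  unfold mon
  apply Finset.prod_congr rfl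
  intro i _
  rw [bet_smul_left]

theorem mon_add {x : Fin g → F} (hx : ∀ i, x i ≠ 0) (w v : Fin g → ℤ) :
    mon x (w + v) = mon x w * mon x v := by
  unfold mon
  rw [← Finset.prod_mul_distrib]
  apply Finset.prod_congr rfl
  intro i _
  rw [← zpow_add₀ (hx i)]
  rfl

theorem mon_smul (x : Fin g → F) (n : ℤ) (w : Fin g → ℤ) : mon x (n • w) = mon x w ^ n := by
  unfold mon
  rw [← Finset.prod_zpow]
  apply Finset.prod_congr rfl
  intro i _
  rw [← zpow_mul]
  congr 1
  simp only [Pi.smul_apply, smul_eq_mul]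
  ring

theorem mon_neg (x : Fin g → F) (w : Fin g → ℤ) : mon x (-w) = (mon x w)⁻¹ := by
  have h := mon_smul x (-1) w
  rwa [neg_one_smul, zpow_neg_one] at h

theorem mon_mul (x y : Fin g → F) (w : Fin g → ℤ) :
    mon (fun i => x i * y i) w = mon x w * mon y w := by
  unfold mon
  rw [← Finset.prod_mul_distrib]
  apply Finset.prod_congr rfl
  intro i _
  rw [mul_zpow]

theorem mon_pow (x : Fin g → F) (n : ℕ) (w : Fin g → ℤ) :
    mon (fun i => x i ^ n) w = mon x w ^ n := by
  unfold mon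
  rw [← Finset.prod_pow]
  apply Finset.prod_congr rfl
  intro i _
  change (x i ^ n) ^ w i = (x i ^ w i) ^ n
  rw [← zpow_natCast, ← zpow_natCast, ← zpow_mul, ← zpow_mul, mul_comm]

theorem kap_pow (t : Fin g → Fin g → F) (n : ℕ) (w : Fin g → ℤ) :
    kap (fun i j => t i j ^ n) w = kap t w ^ n := by
  unfold kap
  rw [← Finset.prod_pow]
  apply Finset.prod_congr rfl
  intro i _
  rw [← Finset.prod_pow]
  apply Finset.prod_congr rfl
  intro j _
  change (t i j ^ n) ^ (w i * w j) = (t i j ^ (w i * w j)) ^ n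
  rw [← zpow_natCast, ← zpow_natCast, ← zpow_mul, ← zpow_mul, mul_comm]

theorem Rt.kap {k : ℕ} {r t : Fin g → Fin g → F} (h : Rt k r t) (w : Fin g → ℤ) :
    TDA.kap t w = TDA.kap r w ^ k := by
  rw [← kap_pow]
  congr 1
  funext i j
  exact (h i j).symm

theorem Rt.bet {k : ℕ} {r t : Fin g → Fin g → F} (h : Rt k r t) (w v : Fin g → ℤ) :
    TDA.bet t w v = TDA.bet r w v ^ k := by
  unfold TDA.bet
  rw [← Finset.prod_pow]
  apply Finset.prod_congr rfl
  intro i _
  rw [← Finset.prod_pow]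
  apply Finset.prod_congr rfl
  intro j _
  rw [← h i j, ← zpow_natCast, ← zpow_natCast, ← zpow_mul, ← zpow_mul,
    mul_comm (k : ℤ)]

theorem Rt.ne {k : ℕ} (hk : k ≠ 0) {r t : Fin g → Fin g → F} (h : Rt k r t)
    (ht : ∀ i j, t i j ≠ 0) : ∀ i j, r i j ≠ 0 := by
  intro i j h0
  apply ht i j
  rw [← h i j, h0, zero_pow hk]

section map

variable {C : Type u} [Field C] (ι : F →+* C)

theorem map_kap (t : Fin g → Fin g → F) (w : Fin g → ℤ) :
    ι (kap t w) = kap (fun i j => ι (t i j)) w := by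
  simp only [kap, map_prod, map_zpow₀]

theorem map_bet (t : Fin g → Fin g → F) (w v : Fin g → ℤ) :
    ι (bet t w v) = bet (fun i j => ι (t i j)) w v := by
  simp only [bet, map_prod, map_zpow₀]

theorem map_mon (x : Fin g → F) (w : Fin g → ℤ) :
    ι (mon x w) = mon (fun i => ι (x i)) w := by
  simp only [mon, map_prod, map_zpow₀]

theorem map_cls (N : ℕ) (a w : Fin g → ℤ) : ι (cls F N a w) = cls C N a w := by
  unfold cls
  split_ifs <;> simp

theorem map_EE (r t : Fin g → Fin g → F) {k : ℕ} (w : Fin k → Fin g → ℤ) :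
    ι (EE r t w) = EE (fun i j => ι (r i j)) (fun i j => ι (t i j)) w := by
  simp only [EE, map_div₀, map_prod, map_kap]

theorem Rt.map {k : ℕ} {r t : Fin g → Fin g → F} (h : Rt k r t) :
    Rt k (fun i j => ι (r i j)) (fun i j => ι (t i j)) := fun i j => by
  rw [← map_pow, h i j]

end map

theorem cl_eq_iff {N : ℕ} {a b : Fin g → ℤ} : cl N a = cl N b ↔ ∀ j, (N : ℤ) ∣ a j - b j := by
  rw [funext_iff]
  apply forall_congr'
  intro j
  unfold cl
  rw [← sub_eq_zero, ← Int.cast_sub, ZMod.intCast_zmod_eq_zero_iff_dvd]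

@[simp] theorem cl_rep {N : ℕ} [NeZero N] (α : Fin g → ZMod N) : cl N (rep α) = α := by
  funext j
  simp [cl, rep]

theorem cl_add_smul (N : ℕ) (w u : Fin g → ℤ) : cl N (w + (N : ℤ) • u) = cl N w := by
  funext j
  simp [cl]

theorem cls_congr {N : ℕ} {a b : Fin g → ℤ} (h : cl N a = cl N b) (w : Fin g → ℤ) :
    cls F N a w = cls F N b w := by
  rw [cl_eq_iff] at h
  unfold cls
  have h1 : (∀ j, (N : ℤ) ∣ w j - a j) ↔ ∀ j, (N : ℤ) ∣ w j - b j := by
    apply forall_congr'
    intro j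
    have h2 : w j - a j = (w j - b j) - (a j - b j) := by ring
    rw [h2]
    exact dvd_sub_left (h j)
  simp only [h1]

theorem Per.congr {α : Type*} {n : ℕ} {h : (Fin g → ℤ) → α} (hh : Per n h) {w w' : Fin g → ℤ}
    (hw : cl n w = cl n w') : h w = h w' := by
  rw [cl_eq_iff] at hw
  choose u hu using hw
  have h1 : w = w' + (n : ℤ) • u := by
    funext j
    simp only [Pi.add_apply, Pi.smul_apply, smul_eq_mul]
    linarith [hu j]
  rw [h1, hh]

theorem EE_ne {r t : Fin g → Fin g → F} (hr : ∀ i j, r i j ≠ 0) (ht : ∀ i j, t i j ≠ 0) {k : ℕ}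
    (w : Fin k → Fin g → ℤ) : EE r t w ≠ 0 :=
  div_ne_zero (Finset.prod_ne_zero_iff.mpr fun i _ => kap_ne ht _) (kap_ne hr _)

/-- The structure constants are invariant under translations. -/
theorem EE_add {k : ℕ} (hk : k ≠ 0) {r t : Fin g → Fin g → F} (h : Rt k r t)
    (ht : ∀ i j, t i j ≠ 0) (w : Fin k → Fin g → ℤ) (u : Fin g → ℤ) :
    EE r t (fun i => w i + u) = EE r t w := by
  have hr := h.ne hk ht
  unfold EE
  have h1 : ∑ i : Fin k, (w i + u) = ∑ i, w i + (k : ℤ) • u := by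
    rw [Finset.sum_add_distrib, Finset.sum_const, Finset.card_univ, Fintype.card_fin]
    simp
  have h2 : ∏ i : Fin k, kap t (w i + u) = (∏ i, kap t (w i)) * kap t u ^ k *
      bet t (∑ i, w i) u := by
    rw [bet_sum_left ht]
    simp_rw [kap_add ht]
    rw [Finset.prod_mul_distrib, Finset.prod_mul_distrib, Finset.prod_const, Finset.card_univ,
      Fintype.card_fin]
  have h3 : kap r (∑ i, w i + (k : ℤ) • u) = kap r (∑ i, w i) * kap t u ^ k *
      bet t (∑ i, w i) u := by
    rw [kap_add hr, kap_smul, bet_smul_right, h.bet, h.kap, ← pow_mul, zpow_natCast]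
    congr 2
    rw [← Nat.cast_mul, zpow_natCast]
  rw [h1, h2, h3, mul_assoc, mul_assoc]
  rw [mul_div_mul_right]
  exact mul_ne_zero (pow_ne_zero _ (kap_ne ht _)) (bet_ne ht _ _)

end alg

section real

variable {g : ℕ}

@[simp] theorem rv_add (w v : Fin g → ℤ) : rv (w + v) = rv w + rv v := by
  funext j
  simp [rv]

@[simp] theorem rv_sub (w v : Fin g → ℤ) : rv (w - v) = rv w - rv v := by
  funext j
  simp [rv]

@[simp] theorem rv_neg (w : Fin g → ℤ) : rv (-w) = -rv w := by
  funext j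
  simp [rv]

@[simp] theorem rv_zero : rv (0 : Fin g → ℤ) = 0 := by
  funext j
  simp [rv]

theorem rv_smul (n : ℤ) (w : Fin g → ℤ) : rv (n • w) = (n : ℝ) • rv w := by
  funext j
  simp [rv]

theorem rv_sum {ι : Type*} (s : Finset ι) (w : ι → Fin g → ℤ) :
    rv (∑ i ∈ s, w i) = ∑ i ∈ s, rv (w i) := by
  funext j
  simp [rv]

theorem one_le_norm_rv {w : Fin g → ℤ} (hw : w ≠ 0) : 1 ≤ ‖rv w‖ := by
  obtain ⟨j, hj⟩ := Function.ne_iff.mp hw
  refine le_trans ?_ (norm_le_pi_norm (rv w) j)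
  rw [rv, Real.norm_eq_abs, ← Int.cast_abs]
  have : 1 ≤ |w j| := Int.one_le_abs (by simpa using hj)
  exact_mod_cast this

theorem QF_smul (q : Fin g → Fin g → ℝ) (c : ℝ) (x : Fin g → ℝ) : QF q (c • x) = c ^ 2 * QF q x := by
  unfold QF
  rw [Finset.mul_sum]
  apply Finset.sum_congr rfl
  intro i _
  rw [Finset.mul_sum]
  apply Finset.sum_congr rfl
  intro j _
  simp only [Pi.smul_apply, smul_eq_mul]
  ring

@[simp] theorem QF_zero (q : Fin g → Fin g → ℝ) : QF q 0 = 0 := by simp [QF]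

theorem QF_neg (q : Fin g → Fin g → ℝ) (x : Fin g → ℝ) : QF q (-x) = QF q x := by
  have h := QF_smul q (-1) x
  rw [neg_one_smul] at h
  rw [h]
  ring

theorem QF_par (q : Fin g → Fin g → ℝ) (x y : Fin g → ℝ) :
    QF q (x + y) + QF q (x - y) = 2 * QF q x + 2 * QF q y := by
  unfold QF
  rw [Finset.mul_sum, Finset.mul_sum, ← Finset.sum_add_distrib, ← Finset.sum_add_distrib]
  apply Finset.sum_congr rfl
  intro i _
  rw [Finset.mul_sum, Finset.mul_sum, ← Finset.sum_add_distrib, ← Finset.sum_add_distrib]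
  apply Finset.sum_congr rfl
  intro j _
  simp only [Pi.add_apply, Pi.sub_apply]
  ring

/-- `SS` is a sum of values at the deviations from the mean. -/
theorem SS_eq (q : Fin g → Fin g → ℝ) {k : ℕ} (hk : k ≠ 0) (w : Fin k → Fin g → ℤ) :
    SS q w = ∑ i, QF q (rv (w i) - (k : ℝ)⁻¹ • rv (∑ l, w l)) := by
  have hk' : (k : ℝ) ≠ 0 := by exact_mod_cast hk
  set m : Fin g → ℝ := (k : ℝ)⁻¹ • rv (∑ l, w l) with hm
  have h1 : ∀ i, QF q (rv (w i) - m) = QF q (rv (w i)) + QF q m -
      ∑ a, ∑ b, q a b * (rv (w i) a * m b + m a * rv (w i) b) := by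
    intro i
    unfold QF
    rw [← Finset.sum_add_distrib, ← Finset.sum_sub_distrib]
    apply Finset.sum_congr rfl
    intro a _
    rw [← Finset.sum_add_distrib, ← Finset.sum_sub_distrib]
    apply Finset.sum_congr rfl
    intro b _
    simp only [Pi.sub_apply]
    ring
  have hS : ∀ a, ∑ i, rv (w i) a = k * m a := by
    intro a
    rw [hm, Pi.smul_apply, smul_eq_mul, ← mul_assoc, mul_inv_cancel₀ hk', one_mul, rv_sum,
      Finset.sum_apply]
  have h2 : ∑ i, ∑ a, ∑ b, q a b * (rv (w i) a * m b + m a * rv (w i) b) = 2 * (k * QF q m) := by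
    rw [Finset.sum_comm]
    unfold QF
    rw [Finset.mul_sum, Finset.mul_sum]
    apply Finset.sum_congr rfl
    intro a _
    rw [Finset.sum_comm, Finset.mul_sum, Finset.mul_sum]
    apply Finset.sum_congr rfl
    intro b _
    rw [← Finset.mul_sum, Finset.sum_add_distrib, ← Finset.sum_mul, ← Finset.mul_sum, hS, hS]
    ring
  have h3 : QF q m = QF q (rv (∑ i, w i)) / k ^ 2 := by
    rw [hm, QF_smul]
    field_simp
  simp_rw [h1]
  rw [Finset.sum_sub_distrib, Finset.sum_add_distrib, h2, Finset.sum_const, Finset.card_univ,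
    Fintype.card_fin, nsmul_eq_mul, SS, h3]
  field_simp
  ring

end real

section normed

variable {F : Type u} [NormedField F] {g : ℕ}

theorem th_congr (t : Fin g → Fin g → F) {N : ℕ} {a b : Fin g → ℤ} (h : cl N a = cl N b)
    (x : Fin g → F) : th t N a x = th t N b x := by
  unfold th
  congr 1
  funext w
  exact cls_congr h w

theorem thv_cl (t : Fin g → Fin g → F) {N : ℕ} [NeZero N] (a : Fin g → ℤ) (x : Fin g → F) :
    thv t N x (cl N a) = th t N a x := th_congr t (cl_rep _) x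

theorem norm_kap {t : Fin g → Fin g → F} (ht : ∀ i j, t i j ≠ 0) (w : Fin g → ℤ) :
    ‖kap t w‖ = Real.exp (-QF (qf t) (rv w)) := by
  unfold kap QF qf rv
  rw [norm_prod, ← Finset.sum_neg_distrib, Real.exp_sum]
  apply Finset.prod_congr rfl
  intro i _
  rw [norm_prod, ← Finset.sum_neg_distrib, Real.exp_sum]
  apply Finset.prod_congr rfl
  intro j _
  rw [norm_zpow, ← neg_mul, neg_neg]
  have h := norm_pos_iff.mpr (ht i j)
  rw [← Int.cast_mul, ← Real.rpow_intCast, Real.rpow_def_of_pos h]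

theorem norm_mon {x : Fin g → F} (hx : ∀ i, x i ≠ 0) (w : Fin g → ℤ) :
    ‖mon x w‖ = Real.exp (∑ i, (w i : ℝ) * Real.log ‖x i‖) := by
  unfold mon
  rw [norm_prod, Real.exp_sum]
  apply Finset.prod_congr rfl
  intro i _
  rw [norm_zpow, ← Real.rpow_intCast, Real.rpow_def_of_pos (norm_pos_iff.mpr (hx i)), mul_comm]

theorem qf_rt {k : ℕ} {r t : Fin g → Fin g → F} (h : Rt k r t) (x : Fin g → ℝ) :
    QF (qf t) x = k * QF (qf r) x := by
  unfold QF qf
  rw [Finset.mul_sum]
  apply Finset.sum_congr rfl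
  intro i _
  rw [Finset.mul_sum]
  apply Finset.sum_congr rfl
  intro j _
  rw [← h i j, norm_pow, Real.log_pow]
  ring

theorem norm_EE {k : ℕ} (hk : k ≠ 0) {r t : Fin g → Fin g → F} (h : Rt k r t)
    (ht : ∀ i j, t i j ≠ 0) (w : Fin k → Fin g → ℤ) :
    ‖EE r t w‖ = Real.exp (-SS (qf t) w) := by
  have hk' : (k : ℝ) ≠ 0 := by exact_mod_cast hk
  unfold EE SS
  rw [norm_div, norm_prod]
  simp_rw [norm_kap ht]
  rw [norm_kap (h.ne hk ht), ← Real.exp_sum, ← Real.exp_sub]
  congr 1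
  rw [Finset.sum_neg_distrib, qf_rt h]
  field_simp
  ring

/-- The positivity condition for roots. -/
theorem TP.rt {k : ℕ} (hk : k ≠ 0) {r t : Fin g → Fin g → F} (h : Rt k r t) {lam Lam : ℝ}
    (H : TP t lam Lam) : TP r (lam / k) (Lam / k) := by
  have hk' : (0 : ℝ) < k := by exact_mod_cast Nat.pos_of_ne_zero hk
  refine ⟨h.ne hk H.ne, div_pos H.pos hk', div_le_div_of_nonneg_right H.le hk'.le, ?_, ?_⟩
  · intro x
    have h1 := H.lo x
    rw [qf_rt h] at h1
    rw [div_mul_eq_mul_div, div_le_iff₀ hk']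
    linarith
  · intro x
    have h1 := H.hi x
    rw [qf_rt h] at h1
    rw [div_mul_eq_mul_div, le_div_iff₀ hk']
    linarith

/-- The positivity condition for powers. -/
theorem TP.pow {k : ℕ} (hk : k ≠ 0) {r t : Fin g → Fin g → F} (h : Rt k r t) {lam Lam : ℝ}
    (H : TP r lam Lam) : TP t (k * lam) (k * Lam) := by
  have hk' : (0 : ℝ) < k := by exact_mod_cast Nat.pos_of_ne_zero hk
  refine ⟨fun i j => by rw [← h i j]; exact pow_ne_zero _ (H.ne i j), mul_pos hk' H.pos,
    mul_le_mul_of_nonneg_left H.le hk'.le, ?_, ?_⟩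
  · intro x
    rw [qf_rt h, mul_assoc]
    exact mul_le_mul_of_nonneg_left (H.lo x) hk'.le
  · intro x
    rw [qf_rt h, mul_assoc]
    exact mul_le_mul_of_nonneg_left (H.hi x) hk'.le

theorem qf_map {C : Type u} [NormedField C] {ι : F →+* C} (hι : Iso ι) (t : Fin g → Fin g → F) :
    qf (fun i j => ι (t i j)) = qf t := by
  funext i j
  unfold qf
  rw [hι]

theorem TP.map {C : Type u} [NormedField C] {ι : F →+* C} (hι : Iso ι) {t : Fin g → Fin g → F}
    {lam Lam : ℝ} (H : TP t lam Lam) : TP (fun i j => ι (t i j)) lam Lam :=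
  ⟨fun i j => (map_ne_zero ι).mpr (H.ne i j), H.pos, H.le, by rw [qf_map hι]; exact H.lo,
    by rw [qf_map hι]; exact H.hi⟩

theorem TP.nonneg {t : Fin g → Fin g → F} {lam Lam : ℝ} (H : TP t lam Lam) (x : Fin g → ℝ) :
    0 ≤ QF (qf t) x := le_trans (mul_nonneg H.pos.le (sq_nonneg _)) (H.lo x)

/-- `Q(x + y) ≥ Q(x) / 2 - Q(y)`. -/
theorem TP.half {t : Fin g → Fin g → F} {lam Lam : ℝ} (H : TP t lam Lam) (x y : Fin g → ℝ) :
    QF (qf t) x / 2 - QF (qf t) y ≤ QF (qf t) (x + y) := by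
  have h1 := QF_par (qf t) (x + y) y
  have h2 := H.nonneg (x + y + y)
  rw [add_sub_cancel_right] at h1
  linarith

end normed

end Pool.Agent.TDA
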