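import Pool.Agent.TDA.Stmts

/-!
# Totally degenerate abelian varieties: the forms used in the assembly
-/

set_option autoImplicit false
set_option linter.unusedSectionVars false

noncomputable section

namespace Pool.Agent.TDA

open scoped Classical
open MvPolynomial

universe u

namespace CORE

variable {F : Type u} [NormedField F] [IsUltrametricDist F] {g : ℕ}

theorem eval₂_smul {σ : Type} {R L : Type*} [CommRing R] [CommRing L] {d : ℕ}
    {G : MvPolynomial σ R} (hG : G.IsHomogeneous d) (ι : R →+* L) (c : L)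
    (x : σ → L) : eval₂ ι (fun l => c * x l) G = c ^ d * eval₂ ι x G := by
  rw [eval₂_eq, eval₂_eq, Finset.mul_sum]
  apply Finset.sum_congr rfl
  intro m hm
  have h1 : ∑ i ∈ m.support, m i = d := by
    have := hG (mem_support_iff.mp hm)
    rw [← this, Finsupp.weight_apply, Finsupp.sum]
    simp
  have h2 : ∏ i ∈ m.support, (c * x i) ^ m i = c ^ d * ∏ i ∈ m.support, x i ^ m i := by
    simp_rw [mul_pow]
    rw [Finset.prod_mul_distrib, Finset.prod_pow_eq_pow_sum, h1]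
  rw [h2]
  ring

theorem coeff_sum_mul_le {σ : Type} {I : Type} (s : Finset I) (c : I → F) (G : I → MvPolynomial σ F)
    {A : ℝ} (hA : 0 ≤ A) (hc : ∀ i ∈ s, ‖c i‖ ≤ A) (hG : ∀ i ∈ s, ∀ m, ‖(G i).coeff m‖ ≤ 1)
    (m : σ →₀ ℕ) : ‖(∑ i ∈ s, C (c i) * G i).coeff m‖ ≤ A := by
  rw [coeff_sum]
  apply IsUltrametricDist.norm_sum_le_of_forall_le_of_nonneg hA
  intro i hi
  rw [coeff_C_mul, norm_mul]
  have := hc i hi
  have := hG i hi m
  have := norm_nonneg ((G i).coeff m)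
  nlinarith

end CORE

open CORE

/-- The forms giving (approximately) the theta functions `P l` in terms of the theta functions of
level `N` for the `p ^ m`-th roots. -/
theorem core (hIter : Stmt_Iter.{u}) (hPull : Stmt_Pull.{u}) (hMaxc : Stmt_Maxc.{u})
    (hDom : Stmt_Dom.{u}) (F : Type u) [NormedField F] [IsUltrametricDist F] [CompleteSpace F]
    (p : ℕ) [Fact p.Prime] (hp : ‖(p : F)‖ = 1 / 2) (g n k : ℕ) (t : Fin g → Fin g → F)
    (lam Lam : ℝ) (ht : TP t lam Lam) (P : Fin (n + 1) → (Fin g → ℤ) → F)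
    (hP : ∀ l, Per k (P l)) (A : ℝ) (hA : 0 ≤ A) (hPA : ∀ l w, ‖P l w‖ ≤ A) (D : ℕ) (hD : D ≠ 0)
    (hD2 : Real.exp (Lam / (D ^ 2 : ℕ)) ≤ 3 / 2) (T : ℕ → Fin g → Fin g → F)
    (hT0 : Rt (D ^ 2) (T 0) t) (hT : ∀ i, Rt p (T (i + 1)) (T i)) (N : ℕ) [NeZero N]
    (hkN : k * D ∣ N) (hN : 8 * p * Lam < (N : ℝ) ^ 2 * lam) (m : ℕ) :
    ∃ Ψ : Fin (n + 1) → MvPolynomial (Fin g → ZMod N) F,
      (∀ l, (Ψ l).IsHomogeneous (p ^ m)) ∧ (∀ l s, ‖(Ψ l).coeff s‖ ≤ A) ∧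
      ∀ (C : Type u) [NormedField C] [IsUltrametricDist C] [CompleteSpace C] (ι : F →+* C),
        Iso ι → ∀ (Q : (Fin g → ZMod N) → C) (x : Fin g → C) (w₀ : Fin g → ℤ) (c : C),
        (∀ i, x i ≠ 0) → IsMax (fun i j => ι (T m i j)) x w₀ →
        ‖c * (kap (fun i j => ι (T m i j)) w₀ * mon x w₀)‖ = 1 → (∀ α, ‖Q α‖ ≤ 1) →
        (∀ α, ‖Q α - c * thv (fun i j => ι (T m i j)) N x α‖ ≤ 3 / 4) →
        ∃ (x' : Fin g → C) (c' : C) (w₁ : Fin g → ℤ), (∀ i, x' i ≠ 0) ∧ c' ≠ 0 ∧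
          IsMax (fun i j => ι (t i j)) x' w₁ ∧
          Real.exp (-(Lam * (1 + g))) ≤ ‖c'‖ * ‖kap (fun i j => ι (t i j)) w₁ * mon x' w₁‖ ∧
          ∀ l, ‖eval₂ ι Q (Ψ l) - c' * ser (fun i j => ι (t i j)) (fun w => ι (P l w)) x'‖ ≤
            A * (3 / 4) ^ (m + 1) := by
  have hD2' : D ^ 2 ≠ 0 := pow_ne_zero _ hD
  have hDr : (0 : ℝ) < ((D ^ 2 : ℕ) : ℝ) := by exact_mod_cast Nat.pos_of_ne_zero hD2'
  have hD1 : (1 : ℝ) ≤ ((D ^ 2 : ℕ) : ℝ) := by exact_mod_cast Nat.one_le_iff_ne_zero.mpr hD2'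
  have hLam : 0 < Lam := ht.pos.trans_le ht.le
  have ht0 : TP (T 0) (lam / (D ^ 2 : ℕ)) (Lam / (D ^ 2 : ℕ)) := ht.rt hD2' hT0
  have hp0 : (p : F) ≠ 0 := by
    intro h
    rw [h, norm_zero] at hp
    norm_num at hp
  have hN0 : N ≠ 0 := NeZero.ne N
  obtain ⟨Φ, hΦ1, hΦ2, hΦ3⟩ := hIter F p g T _ _ ht0 hT hp0 N hN0 (by
    rw [mul_div_assoc', mul_div_assoc', div_lt_div_iff_of_pos_right hDr]
    exact hN) (3 / 4) (by norm_num) (by
    rw [hp]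
    linarith) m
  choose c₀ hc₀ hc₀' using fun l => hPull F g t (T 0) _ _ ht0 D hD hT0 k N hkN (P l) (hP l)
  have hc₀A : ∀ l α, ‖c₀ l α‖ ≤ A := by
    intro l α
    obtain ⟨w, hw | hw⟩ := hc₀ l α
    · rw [hw]; exact hPA l w
    · rw [hw, norm_zero]; exact hA
  refine ⟨fun l => ∑ α, C (c₀ l α) * Φ α, ?_, ?_, ?_⟩
  · intro l
    apply IsHomogeneous.sum
    intro α _
    have h1 := (isHomogeneous_C (Fin g → ZMod N) (c₀ l α)).mul (hΦ1 α)
    rwa [zero_add] at h1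
  · intro l s
    exact coeff_sum_mul_le _ _ _ hA (fun α _ => hc₀A l α) (fun α _ => hΦ2 α) s
  intro C _ _ _ ι hι Q x w₀ c hx hw₀ hc hQ hQc
  obtain ⟨hΦ4, hΦ5⟩ := hΦ3 C ι hι
  set tm : Fin g → Fin g → C := fun i j => ι (T m i j) with htm
  set t₀ : Fin g → Fin g → C := fun i j => ι (T 0 i j) with ht₀
  set tt : Fin g → Fin g → C := fun i j => ι (t i j) with htt
  -- the tower
  have hTm : ∀ m, Rt (p ^ m) (T m) (T 0) := by
    intro m
    induction m with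
    | zero => intro i j; simp
    | succ m ih =>
      intro i j
      rw [pow_succ', pow_mul, hT m i j, ih i j]
  have hpm : p ^ m ≠ 0 := pow_ne_zero _ (Fact.out : p.Prime).ne_zero
  have hTPm : TP (T m) (lam / (D ^ 2 : ℕ) / (p ^ m : ℕ)) (Lam / (D ^ 2 : ℕ) / (p ^ m : ℕ)) :=
    ht0.rt hpm (hTm m)
  have hTPmC : TP tm (lam / (D ^ 2 : ℕ) / (p ^ m : ℕ)) (Lam / (D ^ 2 : ℕ) / (p ^ m : ℕ)) :=
    hTPm.map hι
  have hRtm : Rt (p ^ m) tm t₀ := (hTm m).map ι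
  have hTP0C : TP t₀ (lam / (D ^ 2 : ℕ)) (Lam / (D ^ 2 : ℕ)) := ht0.map hι
  have hTPtC : TP tt lam Lam := ht.map hι
  have hRt0 : Rt (D ^ 2) t₀ tt := hT0.map ι
  set y : Fin g → C := fun i => x i ^ p ^ m with hy
  have hy0 : ∀ i, y i ≠ 0 := fun i => pow_ne_zero _ (hx i)
  set x' : Fin g → C := fun i => y i ^ D with hx'
  have hx'0 : ∀ i, x' i ≠ 0 := fun i => pow_ne_zero _ (hy0 i)
  have hterm : ∀ w, kap t₀ w * mon y w = (kap tm w * mon x w) ^ p ^ m := by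
    intro w
    rw [hRtm.kap, hy, mon_pow, mul_pow]
  have hmax0 : IsMax t₀ y w₀ := by
    intro w
    rw [hterm, hterm, norm_pow, norm_pow]
    exact pow_le_pow_left₀ (norm_nonneg _) (hw₀ w) _
  obtain ⟨⟨w₁, hw₁⟩, -⟩ := hDom C g tt lam Lam hTPtC x' hx'0
  have hcne : c ≠ 0 := by
    rintro rfl
    rw [zero_mul, norm_zero] at hc
    exact zero_ne_one hc
  refine ⟨x', c ^ p ^ m, w₁, hx'0, pow_ne_zero _ hcne, hw₁, ?_, ?_⟩
  · have h1 := hMaxc C g tt t₀ lam Lam hTPtC D hD hRt0 y hy0 w₀ hmax0 w₁ hw₁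
    have h2 : ‖c ^ p ^ m‖ * ‖kap t₀ w₀ * mon y w₀‖ = 1 := by
      rw [hterm, ← norm_mul, ← mul_pow, norm_pow, hc, one_pow]
    have h3 := norm_nonneg (c ^ p ^ m)
    have h4 : 1 ≤ Real.exp (Lam * (1 + g)) * (‖c ^ p ^ m‖ * ‖kap tt w₁ * mon x' w₁‖) := by
      calc 1 = ‖c ^ p ^ m‖ * ‖kap t₀ w₀ * mon y w₀‖ := h2.symm
        _ ≤ ‖c ^ p ^ m‖ * (Real.exp (Lam * (1 + g)) * ‖kap tt w₁ * mon x' w₁‖) :=
            mul_le_mul_of_nonneg_left h1 h3
        _ = _ := by ring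
    rw [Real.exp_neg, inv_le_iff_one_le_mul₀ (Real.exp_pos _), mul_comm]
    exact h4
  · intro l
    have h1 := hc₀' l C ι hι y hy0
    -- the theta point
    have hPn : ∀ α, ‖c * thv tm N x α‖ ≤ 1 := by
      intro α
      obtain ⟨-, h2⟩ := hDom C g tm _ _ hTPmC x hx
      have h3 := (h2 w₀ hw₀).1 (cls C N (rep α)) 1 (by
        intro w
        unfold cls
        split_ifs <;> simp)
      rw [one_mul] at h3
      rw [norm_mul]
      calc ‖c‖ * ‖thv tm N x α‖ ≤ ‖c‖ * ‖kap tm w₀ * mon x w₀‖ :=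
            mul_le_mul_of_nonneg_left h3 (norm_nonneg _)
        _ = 1 := by rw [← norm_mul]; exact hc
    have h2 : ∀ α, ‖eval₂ ι Q (Φ α) - c ^ p ^ m * thv t₀ N y α‖ ≤ (3 / 4) ^ m * (3 / 4) := by
      intro α
      have h3 := hΦ5 Q (fun α => c * thv tm N x α) (3 / 4) hQ hPn le_rfl hQc α
      rwa [eval₂_smul (hΦ1 α), hΦ4 x hx α] at h3
    have h3 : eval₂ ι Q (∑ α, MvPolynomial.C (c₀ l α) * Φ α) -
        c ^ p ^ m * ser tt (fun w => ι (P l w)) x' =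
        ∑ α, ι (c₀ l α) * (eval₂ ι Q (Φ α) - c ^ p ^ m * thv t₀ N y α) := by
      rw [h1, Finset.mul_sum]
      have h4 : eval₂ ι Q (∑ α, MvPolynomial.C (c₀ l α) * Φ α) =
          ∑ α, ι (c₀ l α) * eval₂ ι Q (Φ α) := by
        rw [eval₂_sum]
        apply Finset.sum_congr rfl
        intro α _
        rw [eval₂_mul, eval₂_C]
      rw [h4, ← Finset.sum_sub_distrib]
      apply Finset.sum_congr rfl
      intro α _
      ring
    rw [h3]
    apply IsUltrametricDist.norm_sum_le_of_forall_le_of_nonneg (by positivity)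
    intro α _
    rw [norm_mul, hι, pow_succ]
    exact mul_le_mul (hc₀A l α) (h2 α) (norm_nonneg _) hA

end Pool.Agent.TDA
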