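import Mathlib

/-!
# Totally degenerate abelian varieties and tilted approximation: definitions

Theta series over complete ultrametric normed fields.
-/

set_option autoImplicit false
set_option linter.unusedSectionVars false

noncomputable section

namespace Pool.Agent.TDA

open scoped Classical
open MvPolynomial

universe u

section alg

variable {F : Type u} [Field F] {g : ℕ}

/-- The quadratic function `w ↦ ∏ t_ij ^ (w_i w_j)`. -/
def kap (t : Fin g → Fin g → F) (w : Fin g → ℤ) : F := ∏ i, ∏ j, t i j ^ (w i * w j)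

/-- The bilinear function attached to `kap`. -/
def bet (t : Fin g → Fin g → F) (w v : Fin g → ℤ) : F :=
  ∏ i, ∏ j, t i j ^ (w i * v j + v i * w j)

/-- Laurent monomials. -/
def mon (x : Fin g → F) (w : Fin g → ℤ) : F := ∏ i, x i ^ w i

/-- Periodicity modulo `n`. -/
def Per {α : Type*} {g : ℕ} (n : ℕ) (h : (Fin g → ℤ) → α) : Prop :=
  ∀ w u : Fin g → ℤ, h (w + (n : ℤ) • u) = h w

/-- The indicator function of the class of `a` modulo `N`. -/
def cls (F : Type u) [Field F] {g : ℕ} (N : ℕ) (a w : Fin g → ℤ) : F :=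
  if ∀ j, (N : ℤ) ∣ w j - a j then 1 else 0

/-- Representatives of the classes modulo `N`. -/
def rep {g N : ℕ} (α : Fin g → ZMod N) : Fin g → ℤ := fun j => ((α j).val : ℤ)

/-- The class of `w` modulo `N`. -/
def cl {g : ℕ} (N : ℕ) (w : Fin g → ℤ) : Fin g → ZMod N := fun j => (w j : ZMod N)

/-- `r` is an entrywise `k`-th root of `t`. -/
def Rt (k : ℕ) (r t : Fin g → Fin g → F) : Prop := ∀ i j, r i j ^ k = t i j

/-- The families `w` of `k` vectors with `w i ≡ a i` modulo `N` and sum `s`. -/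
def Fib {g k : ℕ} (N : ℕ) (a : Fin k → Fin g → ℤ) (s : Fin g → ℤ) : Type :=
  {w : Fin k → Fin g → ℤ // (∀ i j, (N : ℤ) ∣ w i j - a i j) ∧ ∑ i, w i = s}

/-- The structure constants. -/
def EE (r t : Fin g → Fin g → F) {k : ℕ} (w : Fin k → Fin g → ℤ) : F :=
  (∏ i, kap t (w i)) / kap r (∑ i, w i)

/-- The balanced decomposition of `s` as a sum of `k` vectors. -/
def bal (k : ℕ) (s : Fin g → ℤ) : Fin k → Fin g → ℤ := fun i j => (s j + (i : ℤ)) / (k : ℤ)

end alg

section real

variable {g : ℕ}

/-- The real quadratic form with matrix `q`. -/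
def QF (q : Fin g → Fin g → ℝ) (x : Fin g → ℝ) : ℝ := ∑ i, ∑ j, q i j * (x i * x j)

/-- Integral vectors as real vectors. -/
def rv (w : Fin g → ℤ) : Fin g → ℝ := fun j => (w j : ℝ)

/-- The variance of a family of `k` vectors with respect to `q`. -/
def SS (q : Fin g → Fin g → ℝ) {k : ℕ} (w : Fin k → Fin g → ℤ) : ℝ :=
  ∑ i, QF q (rv (w i)) - QF q (rv (∑ i, w i)) / k

end real

section normed

variable {F : Type u} [NormedField F] {g : ℕ}

/-- The matrix of the quadratic form `- log ‖kap t w‖`. -/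
def qf (t : Fin g → Fin g → F) : Fin g → Fin g → ℝ := fun i j => -Real.log ‖t i j‖

/-- The positivity condition, with constants. -/
structure TP (t : Fin g → Fin g → F) (lam Lam : ℝ) : Prop where
  ne : ∀ i j, t i j ≠ 0
  pos : 0 < lam
  le : lam ≤ Lam
  lo : ∀ x : Fin g → ℝ, lam * ‖x‖ ^ 2 ≤ QF (qf t) x
  hi : ∀ x : Fin g → ℝ, QF (qf t) x ≤ Lam * ‖x‖ ^ 2

/-- The series `∑ h(w) kap t w x^w`. -/
def ser (t : Fin g → Fin g → F) (h : (Fin g → ℤ) → F) (x : Fin g → F) : F :=
  ∑' w : Fin g → ℤ, h w * (kap t w * mon x w)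

/-- The theta function of level `N` of the class of `a`. -/
def th (t : Fin g → Fin g → F) (N : ℕ) (a : Fin g → ℤ) (x : Fin g → F) : F := ser t (cls F N a) x

/-- The vector of all theta functions of level `N`. -/
def thv (t : Fin g → Fin g → F) (N : ℕ) (x : Fin g → F) : (Fin g → ZMod N) → F :=
  fun α => th t N (rep α) x

/-- The term of index `w₀` of the theta series at `x` is of maximal norm. -/
def IsMax (t : Fin g → Fin g → F) (x : Fin g → F) (w₀ : Fin g → ℤ) : Prop :=
  ∀ w, ‖kap t w * mon x w‖ ≤ ‖kap t w₀ * mon x w₀‖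

/-- The coefficients of the product of the theta functions of the classes `a i`, `i < k`, as a
series with respect to `r`. -/
def hpr (r t : Fin g → Fin g → F) (N : ℕ) {k : ℕ} (a : Fin k → Fin g → ℤ) (s : Fin g → ℤ) : F :=
  ∑' w : Fib N a s, EE r t w.1

/-- Isometric embeddings. -/
def Iso {C : Type u} [NormedField C] (ι : F →+* C) : Prop := ∀ x, ‖ι x‖ = ‖x‖

end normed

end Pool.Agent.TDA
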