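import Pool.Agent.TDA.Stmts2
import Pool.Agent.TDA.CORE
import Pool.Agent.CSM.MAIN
import Pool.Agent.DC.PUX

/-!
# Totally degenerate abelian varieties: the assembly over algebraically closed fields
-/

set_option autoImplicit false
set_option linter.unusedSectionVars false
set_option linter.style.haveILetI false

noncomputable section

namespace Pool.Agent.TDA.MAINK

open scoped Classical
open MvPolynomial Pool.Agent.LibDb3ab1 Pool.Agent.DC Pool.Agent.CSM Pool.Agent.CSM.MAIN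

universe u

/-- A chosen root of order `n`. -/
def rtf {K : Type u} [Field K] [IsAlgClosed K] (n : ℕ) (x : K) : K :=
  if h : 0 < n then (IsAlgClosed.exists_pow_nat_eq x h).choose else x

theorem rtf_pow {K : Type u} [Field K] [IsAlgClosed K] {n : ℕ} (hn : n ≠ 0) (x : K) :
    rtf n x ^ n = x := by
  have h : 0 < n := Nat.pos_of_ne_zero hn
  rw [rtf, dif_pos h]
  exact (IsAlgClosed.exists_pow_nat_eq x h).choose_spec

/-- The tower of roots. -/
def tow {K : Type u} [Field K] [IsAlgClosed K] (p D : ℕ) {g : ℕ} (t : Fin g → Fin g → K) :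
    ℕ → Fin g → Fin g → K
  | 0 => fun i j => rtf (D ^ 2) (t i j)
  | m + 1 => fun i j => rtf p (tow p D t m i j)

/-- Periodic functions are bounded. -/
theorem exists_bound {K : Type u} [NormedField K] {g n k : ℕ} (hk : k ≠ 0)
    (P : Fin (n + 1) → (Fin g → ℤ) → K) (hP : ∀ l, Per k (P l)) :
    ∃ A : ℝ, 0 < A ∧ ∀ l w, ‖P l w‖ ≤ A := by
  haveI : NeZero k := ⟨hk⟩
  refine ⟨∑ l, ∑ α : Fin g → ZMod k, ‖P l (rep α)‖ + 1, by positivity, ?_⟩
  intro l w
  have h1 : P l w = P l (rep (cl k w)) := (hP l).congr (by rw [cl_rep])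
  rw [h1]
  have h2 : ‖P l (rep (cl k w))‖ ≤ ∑ α : Fin g → ZMod k, ‖P l (rep α)‖ :=
    Finset.single_le_sum (f := fun α => ‖P l (rep α)‖) (fun α _ => norm_nonneg _)
      (Finset.mem_univ _)
  have h3 : ∑ α : Fin g → ZMod k, ‖P l (rep α)‖ ≤ ∑ l, ∑ α : Fin g → ZMod k, ‖P l (rep α)‖ :=
    Finset.single_le_sum (f := fun l => ∑ α : Fin g → ZMod k, ‖P l (rep α)‖)
      (fun l _ => Finset.sum_nonneg fun α _ => norm_nonneg _) (Finset.mem_univ _)
  linarith

end Pool.Agent.TDA.MAINK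

namespace Pool.Agent.TDA

open scoped Classical
open MvPolynomial Pool.Agent.LibDb3ab1 Pool.Agent.DC Pool.Agent.CSM Pool.Agent.CSM.MAIN MAINK

universe u

theorem maink_proof (hIter : Stmt_Iter.{u}) (hPull : Stmt_Pull.{u}) (hMaxc : Stmt_Maxc.{u})
    (hDom : Stmt_Dom.{u}) (hSumm : Stmt_Summ.{u}) (hNum : Stmt_Num) (hPos : Stmt_Pos.{u})
    (hLB : Stmt_LB.{u}) (hStart : Stmt_Start.{u}) (hImg : Stmt_Img.{u})
    (hNormC : Stmt_NormC.{u}) (hSums : Stmt_Sums.{u}) : Stmt_MainK.{u} := by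
  intro p _ K _ _ O _ _ b n g I hI hdim D U hU hIU
  rw [hdim]
  have hp0 := b.hp0
  have hpu : ¬IsUnit (p : O) := Fact.out
  have hprime : p.Prime := Fact.out
  -- norms
  have hPUx := pux_proof O p b
  have hid : ValuedExt O (RingHom.id K) O := valuedExt_id
  have hK : PU (p : O) := (hPUx.2 K (RingHom.id K) O hid).1
  letI : NormedField K := nfPU (F := K) hK
  haveI : IsUltrametricDist K := ultra_nfPU hK
  haveI : CompleteSpace K := complete_nfPU hK (hNormC p K O b K (RingHom.id K) O hid).2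
  have hnp : ‖(p : K)‖ = 1 / 2 := by
    have h1 := vn_self (F := K) hK
    rwa [map_natCast] at h1
  obtain ⟨lam, Lam, ht⟩ := hPos p K O hK g D.t D.t_ne D.m D.m_ne D.pos
  have hLam : 0 < Lam := ht.pos.trans_le ht.le
  obtain ⟨A, hA, hPA⟩ := exists_bound D.k_ne D.P D.per
  -- the root
  obtain ⟨e, he0, he⟩ : ∃ e : ℕ, e ≠ 0 ∧ Real.exp (Lam / (e ^ 2 : ℕ)) ≤ 3 / 2 := by
    have hlog : 0 < Real.log (3 / 2) := Real.log_pos (by norm_num)
    obtain ⟨e, he⟩ := exists_nat_gt (Lam / Real.log (3 / 2))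
    have he1 : (0 : ℝ) < e := (div_pos hLam hlog).trans he
    have he0 : e ≠ 0 := by
      rintro rfl
      simp at he1
    refine ⟨e, he0, ?_⟩
    have he2 : (1 : ℝ) ≤ e := by exact_mod_cast Nat.one_le_iff_ne_zero.mpr he0
    have h1 : Lam / ((e ^ 2 : ℕ) : ℝ) ≤ Real.log (3 / 2) := by
      rw [div_le_iff₀ (by push_cast; positivity)]
      rw [div_lt_iff₀ hlog] at he
      push_cast
      nlinarith
    calc Real.exp (Lam / ((e ^ 2 : ℕ) : ℝ)) ≤ Real.exp (Real.log (3 / 2)) :=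
          Real.exp_le_exp.mpr h1
      _ = 3 / 2 := Real.exp_log (by norm_num)
  let T := tow p e D.t
  have hT0 : Rt (e ^ 2) (T 0) D.t := fun i j => rtf_pow (pow_ne_zero _ he0) _
  have hT : ∀ i, Rt p (T (i + 1)) (T i) := fun m i j => rtf_pow hprime.ne_zero _
  -- the lower bound
  obtain ⟨ε₁, hε₁, hlow⟩ := hLB p K O b hK g n D.k D.k_ne D.t lam Lam ht D.P D.per D.base
  -- the equations
  obtain ⟨J, hJ, f, df, hf12, hf3⟩ := exists_forms_O O I hI
  have hf1 := fun j => (hf12 j).1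
  have hf2 := fun j => (hf12 j).2
  -- compactness
  obtain ⟨M, hM⟩ := compact_tube hp0 hpu exists_dvd_pow (fun _ : Fin (n + 1) => (0 : Fin 1)) f X U
    hU (by
      intro L _ ι V hV z v _ hz hFz
      have hz0 : (fun l => ((z l : V) : L)) ≠ 0 := by
        intro h
        have h1 := congrFun h (v 0)
        rw [hz 0] at h1
        exact one_ne_zero h1
      let a : AdicProj O n := ⟨pointRel ι V (fun l => ((z l : V) : L)),
        ⟨L, inferInstance, ι, V, fun l => ((z l : V) : L), hV, hz0, rfl⟩⟩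
      refine ⟨a, hIU ?_, ?_⟩
      · intro F hF k hk
        refine ⟨k, hk, isHomogeneous_zero _ _ _, ?_⟩
        have h3 : eval₂ ι (fun l => ((z l : V) : L)) F = 0 := by
          refine hf3 L ι _ ?_ F hF
          intro j
          rw [eval₂_map]
          have h2 := hom_eval₂ (f j) hV.incl V.subtype z
          rw [hFz j, map_zero] at h2
          exact h2.symm
        change V.valuation (eval₂ ι (fun l => ((z l : V) : L)) F) ≤ V.valuation _
        rw [h3, map_zero]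
        exact zero_le
      · change pointRel ι V _ = pointRel ι V _
        congr 1
        funext l
        rw [eval₂_X])
  obtain ⟨dmax, hdmax⟩ : ∃ dmax : ℕ, ∀ j, df j ≤ dmax := by
    haveI := Fintype.ofFinite J
    exact ⟨Finset.univ.sup df, fun j => Finset.le_sup (Finset.mem_univ j)⟩
  -- constants
  obtain ⟨a₀, ha₀⟩ := exists_pow_lt_of_lt_one (show 0 < A⁻¹ by positivity)
    (show (1 / 2 : ℝ) < 1 by norm_num)
  have ha₀' : (1 / 2 : ℝ) ^ a₀ * A < 1 := by
    rwa [lt_inv_comm₀ (by positivity) hA, ← one_div, lt_div_iff₀' (by positivity)] at ha₀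
  set ε₂ : ℝ := ε₁ * Real.exp (-(Lam * (1 + g))) with hε₂
  have hε₂0 : 0 < ε₂ := by positivity
  obtain ⟨k₀, hk₀⟩ := exists_pow_lt_of_lt_one (show 0 < (1 / 2 : ℝ) ^ a₀ * ε₂ by positivity)
    (show (1 / 2 : ℝ) < 1 by norm_num)
  set M₁ : ℕ := M + k₀ * dmax + k₀ + 2 with hM₁
  obtain ⟨m, hm⟩ : ∃ m : ℕ, A * (3 / 4 : ℝ) ^ (m + 1) < (1 / 2) ^ M₁ ∧
      A * (3 / 4 : ℝ) ^ (m + 1) < ε₂ := by
    obtain ⟨m, hm⟩ := exists_pow_lt_of_lt_one
      (show 0 < min ((1 / 2) ^ M₁) ε₂ / A by positivity) (show (3 / 4 : ℝ) < 1 by norm_num)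
    refine ⟨m, ?_⟩
    have h1 : A * (3 / 4 : ℝ) ^ (m + 1) < min ((1 / 2) ^ M₁) ε₂ := by
      rw [lt_div_iff₀ hA] at hm
      have h2 : (3 / 4 : ℝ) ^ (m + 1) ≤ (3 / 4) ^ m :=
        pow_le_pow_of_le_one (by norm_num) (by norm_num) (Nat.le_succ m)
      calc A * (3 / 4 : ℝ) ^ (m + 1) ≤ A * (3 / 4) ^ m :=
            mul_le_mul_of_nonneg_left h2 hA.le
        _ < _ := by rw [mul_comm]; exact hm
    exact ⟨lt_of_lt_of_le h1 (min_le_left _ _), lt_of_lt_of_le h1 (min_le_right _ _)⟩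
  -- the level
  have hpm : p ^ m ≠ 0 := pow_ne_zero _ hprime.ne_zero
  have he2 : e ^ 2 ≠ 0 := pow_ne_zero _ he0
  have hTm : ∀ m, Rt (p ^ m) (T m) (T 0) := by
    intro m
    induction m with
    | zero => intro i j; simp
    | succ m ih =>
      intro i j
      rw [pow_succ', pow_mul, hT m i j, ih i j]
  have ht0 : TP (T 0) (lam / (e ^ 2 : ℕ)) (Lam / (e ^ 2 : ℕ)) := ht.rt he2 hT0
  have htm : TP (T m) (lam / (e ^ 2 : ℕ) / (p ^ m : ℕ)) (Lam / (e ^ 2 : ℕ) / (p ^ m : ℕ)) :=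
    ht0.rt hpm (hTm m)
  set lm := lam / (e ^ 2 : ℕ) / (p ^ m : ℕ) with hlm
  set Lm := Lam / (e ^ 2 : ℕ) / (p ^ m : ℕ) with hLm
  have hLm0 : 0 < Lm := htm.pos.trans_le htm.le
  obtain ⟨N, r₀, hN0, hN2, hQN, hBN, hr1, hr2, hr3, hN3, hN4⟩ := hNum g lm Lm (3 / 4)
    (16 * Lm + 8 * p * Lm) htm.pos htm.le (by norm_num) (D.k * e) (mul_ne_zero D.k_ne he0)
  haveI : NeZero N := ⟨hN0⟩
  have hN5 : 8 * p * Lam < (N : ℝ) ^ 2 * lam := by
    have h1 : 8 * p * Lm < (N : ℝ) ^ 2 * lm := by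
      have : 0 < 16 * Lm := by positivity
      linarith
    have h2 : (0 : ℝ) < (e ^ 2 : ℕ) := by exact_mod_cast Nat.pos_of_ne_zero he2
    have h3 : (0 : ℝ) < (p ^ m : ℕ) := by exact_mod_cast Nat.pos_of_ne_zero hpm
    rw [hlm, hLm, mul_div_assoc', mul_div_assoc', mul_div_assoc', mul_div_assoc',
      div_lt_div_iff_of_pos_right h3, div_lt_div_iff_of_pos_right h2] at h1
    exact h1
  have hN6 : 16 * Lm < (N : ℝ) ^ 2 * lm := by
    have : 0 ≤ 8 * (p : ℝ) * Lm := by positivity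
    linarith
  -- the forms
  obtain ⟨Ψ, hΨ1, hΨ2, hΨ3⟩ := core hIter hPull hMaxc hDom K p hnp g n D.k D.t lam Lam ht D.P D.per
    A hA.le hPA e he0 he T hT0 hT N hQN hN5 m
  obtain ⟨r, eqv⟩ : ∃ r : ℕ, Nonempty ((Fin g → ZMod N) ≃ Fin (r + 1)) := by
    have h1 : Fintype.card (Fin g → ZMod N) ≠ 0 := Fintype.card_ne_zero
    obtain ⟨r, hr⟩ := Nat.exists_eq_succ_of_ne_zero h1
    exact ⟨r, ⟨(Fintype.equivFin _).trans (finCongr hr)⟩⟩
  obtain ⟨eqv⟩ := eqv
  obtain ⟨P0, hP1, hP2, hP3, hP4⟩ := hStart p K O b hK g (T m) lm Lm htm N r₀ (3 / 4) hN2 hN6 hr1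
    hr2 hr3 hN3 hN4 (by norm_num) r eqv
  -- integral forms
  have hint : ∀ l, ∃ G : MvPolynomial (Fin (r + 1)) O,
      MvPolynomial.map O.subtype G = C ((p : K) ^ a₀) * rename eqv (Ψ l) := by
    intro l
    have h1 : ∀ s, ∃ y : O, (y : K) = (C ((p : K) ^ a₀) * rename eqv (Ψ l)).coeff s := by
      intro s
      have h2 : ‖(C ((p : K) ^ a₀) * rename eqv (Ψ l)).coeff s‖ < 1 := by
        rw [coeff_C_mul, norm_mul, norm_pow, hnp]
        by_cases h0 : (rename eqv (Ψ l)).coeff s = 0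
        · rw [h0, norm_zero, mul_zero]
          exact one_pos
        · obtain ⟨s', hs', -⟩ := coeff_rename_ne_zero _ _ _ h0
          rw [← hs', coeff_rename_mapDomain (eqv : (Fin g → ZMod N) → Fin (r + 1)) eqv.injective]
          refine lt_of_le_of_lt ?_ ha₀'
          exact mul_le_mul_of_nonneg_left (hΨ2 l _) (by positivity)
      obtain ⟨w, hw⟩ := exists_of_vn_lt hK h2
      exact ⟨w, hw⟩
    choose y hy using h1
    generalize hR : (C ((p : K) ^ a₀) * rename eqv (Ψ l) : MvPolynomial (Fin (r + 1)) K) = R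
      at hy
    refine ⟨∑ s ∈ R.support, monomial s (y s), ?_⟩
    rw [map_sum]
    conv_rhs => rw [R.as_sum]
    apply Finset.sum_congr rfl
    intro s _
    rw [map_monomial]
    congr 1
    exact hy s
  choose G hG using hint
  have hGhom : ∀ l, (G l).IsHomogeneous (p ^ m) := by
    intro l
    have h1 : (MvPolynomial.map O.subtype (G l)).IsHomogeneous (p ^ m) := by
      rw [hG l]
      have h2 := (isHomogeneous_C (Fin (r + 1)) ((p : K) ^ a₀)).mul ((hΨ1 l).rename_isHomogeneous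
        (f := eqv))
      rwa [zero_add] at h2
    intro s hs
    apply h1
    rw [coeff_map]
    intro h0
    exact hs (Subtype.ext h0)
  -- points
  have hpt : ∀ (C' : Type u) [Field C'] [IsAlgClosed C'] (ι : K →+* C') (V : ValuationSubring C')
      (hV : ValuedExt O ι V) [Fact ¬IsUnit (p : V)] [IsAdicComplete (Ideal.span {(p : V)}) V]
      (z : Fin (r + 1) → PreTilt V p), (∃ v, z v = 1) → TPt P0 hV z →
      ∃ w : Fin (n + 1) → C', (∀ F ∈ I, eval₂ ι w F = 0) ∧
        (∃ l, (1 / 2 : ℝ) ^ k₀ < nC p hV (w l)) ∧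
        ∀ l, nC p hV (((eval₂ hV.incl (fun i => PreTilt.untilt (z i)) (G l) : V) : C') - w l) <
          (1 / 2) ^ M₁ := by
    intro C' _ _ ι V hV _ _ z hz hzP
    have hC : PU (p : V) := (hPUx.2 C' ι V hV).1
    letI : NormedField C' := nfPU (F := C') hC
    haveI : IsUltrametricDist C' := ultra_nfPU hC
    haveI : CompleteSpace C' := complete_nfPU hC (hNormC p K O b C' ι V hV).2
    have hι : Iso ι := fun x => (hNormC p K O b C' ι V hV).1 x
    obtain ⟨x, w₀, c, hx, hw₀, hc, hzc⟩ := hP4 C' ι V hV hC z hz hzP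
    have hle1 : ∀ y : V, ‖(y : C')‖ ≤ 1 := fun y => vn_le_one (F := C') (ϖ := (p : V)) y
    obtain ⟨x', c', w₁, hx', hc', hw₁, hlb, herr⟩ := hΨ3 C' ι hι
      (fun α => ((PreTilt.untilt (z (eqv α)) : V) : C')) x w₀ c hx hw₀ hc (fun α => hle1 _)
      (fun α => (hzc α).trans (by norm_num))
    have htC : TP (fun i j => ι (D.t i j)) lam Lam := ht.map hι
    have hsum : ∀ l, SumsTo V p (term ι D.t (D.P l) x')
        (ser (fun i j => ι (D.t i j)) (fun w => ι (D.P l w)) x') := by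
      intro l
      rw [hSums p C' V hC]
      exact ((hSumm C' g _ lam Lam htC x' hx').2 (fun w => ι (D.P l w)) A
        (fun w => by rw [hι]; exact hPA l w)).hasSum
    obtain ⟨l₁, hl₁⟩ := hlow C' ι V hV x' hx' w₁ hw₁ _ hsum
    have hser : ε₂ ≤ ‖c' * ser (fun i j => ι (D.t i j)) (fun w => ι (D.P l₁ w)) x'‖ := by
      rw [norm_mul]
      calc ε₂ ≤ ε₁ * (‖c'‖ * ‖kap (fun i j => ι (D.t i j)) w₁ * mon x' w₁‖) :=
            mul_le_mul_of_nonneg_left hlb hε₁.le
        _ = ‖c'‖ * (ε₁ * ‖kap (fun i j => ι (D.t i j)) w₁ * mon x' w₁‖) := by ring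
        _ ≤ _ := mul_le_mul_of_nonneg_left hl₁ (norm_nonneg _)
    have hnpC : ‖(p : C')‖ = 1 / 2 := by
      have h1 := vn_self (F := C') hC
      rwa [map_natCast] at h1
    have hevG : ∀ l, ((eval₂ hV.incl (fun i => PreTilt.untilt (z i)) (G l) : V) : C') =
        (p : C') ^ a₀ * eval₂ ι (fun α => ((PreTilt.untilt (z (eqv α)) : V) : C')) (Ψ l) := by
      intro l
      have h1 := hom_eval₂ (G l) hV.incl V.subtype (fun i => PreTilt.untilt (z i))
      have h2 := congrArg (eval₂ ι (fun i => ((PreTilt.untilt (z i) : V) : C'))) (hG l)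
      rw [eval₂_map, eval₂_mul, eval₂_C, eval₂_rename, map_pow, map_natCast] at h2
      rw [← show _ = (p : C') ^ a₀ * eval₂ ι (fun α => ((PreTilt.untilt (z (eqv α)) : V) : C'))
        (Ψ l) from h2]
      exact h1
    refine ⟨fun l => (p : C') ^ a₀ * (c' * ser (fun i j => ι (D.t i j)) (fun w => ι (D.P l w)) x'),
      ?_, ⟨l₁, ?_⟩, ?_⟩
    · -- equations
      have h0 := D.image C' ι V hV x' hx' _ hsum
      obtain ⟨J', hJ', P', dP', hP1', hP2'⟩ := MAINFX.exists_forms_k I hI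
      refine hP2' C' ι _ ?_
      intro j
      have h1 := eval₂_smul_hom (hP1' j).1 ι ((p : C') ^ a₀ * c')
        (fun l => ser (fun i j => ι (D.t i j)) (fun w => ι (D.P l w)) x')
      rw [h0 _ (hP1' j).2, mul_zero] at h1
      rw [← h1]
      congr 1
      funext l
      ring
    · have h1 : (1 / 2 : ℝ) ^ k₀ < ‖(p : C') ^ a₀ * (c' * ser (fun i j => ι (D.t i j))
          (fun w => ι (D.P l₁ w)) x')‖ := by
        rw [norm_mul, norm_pow, hnpC]
        exact lt_of_lt_of_le hk₀ (mul_le_mul_of_nonneg_left hser (by positivity))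
      exact h1
    · intro l
      have h1 : ‖((eval₂ hV.incl (fun i => PreTilt.untilt (z i)) (G l) : V) : C') -
          (p : C') ^ a₀ * (c' * ser (fun i j => ι (D.t i j)) (fun w => ι (D.P l w)) x')‖ <
          (1 / 2) ^ M₁ := by
        rw [hevG l, ← mul_sub, norm_mul, norm_pow, hnpC]
        have h2 : (1 / 2 : ℝ) ^ a₀ ≤ 1 := pow_le_one₀ (by norm_num) (by norm_num)
        have h3 := herr l
        have h4 := hm.1
        have h5 : (0 : ℝ) < (1 / 2) ^ a₀ := by positivity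
        refine lt_of_le_of_lt (mul_le_mul h2 h3 (norm_nonneg _) one_pos.le) ?_
        rw [one_mul]
        exact h4
      exact h1
  -- lower bound in `V`
  have hdvd : ∀ (C' : Type u) [Field C'] (ι : K →+* C') (V : ValuationSubring C')
      (hV : ValuedExt O ι V) [Fact ¬IsUnit (p : V)] [IsAdicComplete (Ideal.span {(p : V)}) V]
      (y : V) (k : ℕ), (1 / 2 : ℝ) ^ k < nC p hV (y : C') → y ∣ (p : V) ^ k := by
    intro C' _ ι V hV _ _ y k hy
    have hC : PU (p : V) := (hPUx.2 C' ι V hV).1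
    rcases dvd_total' V y ((p : V) ^ k) with h1 | h1
    · exact h1
    · exfalso
      have h2 := TN.vn_le_of_dvd (F := C') hC h1
      exact absurd hy (not_lt.mpr h2)
  have hunit : ∀ (C' : Type u) [Field C'] [IsAlgClosed C'] (ι : K →+* C')
      (V : ValuationSubring C')
      (hV : ValuedExt O ι V) [Fact ¬IsUnit (p : V)] [IsAdicComplete (Ideal.span {(p : V)}) V]
      (z : Fin (r + 1) → PreTilt V p), (∃ v, z v = 1) → TPt P0 hV z →
      ∃ l, eval₂ hV.incl (fun i => PreTilt.untilt (z i)) (G l) ∣ (p : V) ^ k₀ := by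
    intro C' _ _ ι V hV _ _ z hz hzP
    have hC : PU (p : V) := (hPUx.2 C' ι V hV).1
    obtain ⟨w, -, ⟨l, hl⟩, hw⟩ := hpt C' ι V hV z hz hzP
    refine ⟨l, hdvd C' ι V hV _ k₀ ?_⟩
    have h1 := hw l
    set y : C' := ((eval₂ hV.incl (fun i => PreTilt.untilt (z i)) (G l) : V) : C') with hy
    have h2 : w l = y + (-(y - w l)) := by ring
    have h3 : nC p hV (w l) ≤ max (nC p hV y) (nC p hV (-(y - w l))) := by
      conv_lhs => rw [h2]
      exact vn_add_le hC _ _
    have h4 : nC p hV (-(y - w l)) = nC p hV (y - w l) := (vabs (F := C') hC).map_neg _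
    rw [h4] at h3
    rcases le_max_iff.mp h3 with h5 | h5
    · exact lt_of_lt_of_le hl h5
    · exfalso
      have h6 : (1 / 2 : ℝ) ^ M₁ ≤ (1 / 2) ^ k₀ :=
        pow_le_pow_of_le_one (by norm_num) (by norm_num) (by omega)
      linarith
  obtain ⟨𝔔, h𝔔1, h𝔔2, h𝔔3, h𝔔4⟩ := hImg p K O b r n g P0 hP1 hP2 hP3 (MAINFX.le_of_dim hdim)
    (p ^ m) (pow_pos hprime.pos m) G hGhom k₀ hunit M₁ (by omega)
  refine ⟨𝔔, h𝔔1, h𝔔2, h𝔔3, ?_⟩
  intro C' _ _ ι V hV _ _ y hy hyP
  obtain ⟨z, v, x', c, hc, hzv, hPz, hx', hxy⟩ := h𝔔4 C' ι V hV y hy hyP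
  have hC : PU (p : V) := (hPUx.2 C' ι V hV).1
  obtain ⟨w, hwI, ⟨l₀, hl₀⟩, hw⟩ := hpt C' ι V hV z ⟨v, hzv⟩ hPz
  -- `x'` is close to `w`
  have hclose : ∀ l, nC p hV ((x' l : C') - w l) ≤ (1 / 2) ^ M₁ := by
    intro l
    have h1 : (x' l : C') - w l = ((x' l - eval₂ hV.incl (fun i => PreTilt.untilt (z i)) (G l) :
        V) : C') + (((eval₂ hV.incl (fun i => PreTilt.untilt (z i)) (G l) : V) : C') - w l) := by
      push_cast
      ring
    rw [h1]
    refine (vn_add_le hC _ _).trans (max_le ?_ (hw l).le)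
    exact TN.vn_le_of_dvd (F := C') hC (hx' l)
  have hwV : ∀ l, ∃ w' : V, (w' : C') = w l ∧ (p : V) ^ (M₁ - 1) ∣ x' l - w' := by
    intro l
    have h1 : nC p hV ((x' l : C') - w l) < (1 / 2) ^ (M₁ - 1) := by
      refine lt_of_le_of_lt (hclose l) ?_
      exact pow_lt_pow_right_of_lt_one₀ (by norm_num) (by norm_num) (by omega)
    have h2 : nC p hV ((x' l : C') - w l) < 1 :=
      lt_of_lt_of_le h1 (pow_le_one₀ (by norm_num) (by norm_num))
    obtain ⟨s, hs⟩ := exists_of_vn_lt (F := C') hC h2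
    have hs' : (s : C') = (x' l : C') - w l := hs
    refine ⟨x' l - s, ?_, ?_⟩
    · push_cast
      rw [hs']
      ring
    · rw [sub_sub_cancel]
      apply TN.dvd_of_vn_lt (F := C') hC
      rw [hs]
      exact h1
  choose w' hw'1 hw'2 using hwV
  -- the equations at `x'`
  have hfx : ∀ j, (p : V) ^ (M₁ - 1) ∣ eval₂ hV.incl x' (f j) := by
    intro j
    have h1 := dvd_eval_sub (f j) hV.incl ((p : V) ^ (M₁ - 1)) x' w' hw'2
    have h2 : eval₂ hV.incl w' (f j) = 0 := by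
      apply Subtype.ext
      have h3 := hom_eval₂ (f j) hV.incl V.subtype w'
      have h4 := hwI _ (hf2 j)
      rw [eval₂_map] at h4
      have h5 : (fun l => ((w' l : V) : C')) = w := funext hw'1
      rw [← h5] at h4
      exact h3.trans h4
    rwa [h2, sub_zero] at h1
  -- normalisation
  obtain ⟨l₁, hl₁⟩ : ∃ l₁, ∀ l, x' l₁ ∣ x' l := by
    have h1 : ∀ s : Finset (Fin (n + 1)), s.Nonempty → ∃ l₁ ∈ s, ∀ l ∈ s, x' l₁ ∣ x' l := by
      intro s hs
      induction hs using Finset.Nonempty.cons_induction with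
      | singleton a => exact ⟨a, Finset.mem_singleton_self _, fun l hl => by
          rw [Finset.mem_singleton.mp hl]⟩
      | cons a s ha hs ih =>
        obtain ⟨l₁, h1, h2⟩ := ih
        rcases dvd_total' V (x' a) (x' l₁) with h3 | h3
        · refine ⟨a, Finset.mem_cons_self _ _, fun l hl => ?_⟩
          rcases Finset.mem_cons.mp hl with rfl | hl
          · exact dvd_rfl
          · exact h3.trans (h2 l hl)
        · refine ⟨l₁, Finset.mem_cons_of_mem h1, fun l hl => ?_⟩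
          rcases Finset.mem_cons.mp hl with rfl | hl
          · exact h3
          · exact h2 l hl
    obtain ⟨l₁, -, h2⟩ := h1 Finset.univ Finset.univ_nonempty
    exact ⟨l₁, fun l => h2 l (Finset.mem_univ l)⟩
  have hx'dvd : x' l₁ ∣ (p : V) ^ k₀ := by
    refine (hl₁ l₀).trans (hdvd C' ι V hV _ k₀ ?_)
    have h2 : w l₀ = (x' l₀ : C') + (-((x' l₀ : C') - w l₀)) := by ring
    have h3 : nC p hV (w l₀) ≤ max (nC p hV (x' l₀ : C')) (nC p hV (-((x' l₀ : C') - w l₀))) := by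
      conv_lhs => rw [h2]
      exact vn_add_le hC _ _
    have h4 : nC p hV (-((x' l₀ : C') - w l₀)) = nC p hV ((x' l₀ : C') - w l₀) :=
      (vabs (F := C') hC).map_neg _
    rw [h4] at h3
    rcases le_max_iff.mp h3 with h5 | h5
    · exact lt_of_lt_of_le hl₀ h5
    · exfalso
      have h6 : (1 / 2 : ℝ) ^ M₁ ≤ (1 / 2) ^ k₀ :=
        pow_le_pow_of_le_one (by norm_num) (by norm_num) (by omega)
      have h7 := hclose l₀
      linarith
  have hx'0 : x' l₁ ≠ 0 := by
    intro h0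
    rw [h0, zero_dvd_iff] at hx'dvd
    exact pow_ne_zero _ hC.ne_zero hx'dvd
  choose u hu using hl₁
  have hu1 : u l₁ = 1 := by
    have h1 := hu l₁
    have h2 : x' l₁ * 1 = x' l₁ * u l₁ := by rw [mul_one]; exact h1
    exact (mul_left_cancel₀ hx'0 h2).symm
  have hfu : ∀ j, (p : V) ^ M ∣ eval₂ hV.incl u (f j) := by
    intro j
    have h1 : eval₂ hV.incl x' (f j) = x' l₁ ^ df j * eval₂ hV.incl u (f j) := by
      rw [← eval₂_smul_hom (hf1 j)]
      congr 1
      funext l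
      exact hu l
    have h2 := hfx j
    rw [h1] at h2
    have h3 : x' l₁ ^ df j ∣ (p : V) ^ (k₀ * dmax) := by
      rw [pow_mul]
      exact (pow_dvd_pow_of_dvd hx'dvd _).trans (pow_dvd_pow _ (hdmax j))
    have h4 : (p : V) ^ (k₀ * dmax) * (p : V) ^ M ∣ (p : V) ^ (k₀ * dmax) *
        eval₂ hV.incl u (f j) := by
      rw [← pow_add]
      refine (pow_dvd_pow _ ?_).trans (h2.trans (mul_dvd_mul_right h3 _))
      omega
    exact (mul_dvd_mul_iff_left (pow_ne_zero _ hC.ne_zero)).mp h4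
  obtain ⟨a, haU, ha⟩ := hM C' ι V hV u u (fun _ => l₁)
    (fun i => Subsingleton.elim _ _) (fun _ => hu1) hfu
    (fun l => by rw [eval₂_X, sub_self]; exact dvd_zero _)
    (fun h => by
      have h1 := congrFun h l₁
      rw [hu1] at h1
      exact one_ne_zero h1)
  refine ⟨a, haU, ?_⟩
  have hx'C : (x' l₁ : C') ≠ 0 := fun h => hx'0 (Subtype.ext h)
  rw [ha, ← pointRel_smul ι V (fun l => ((u l : V) : C')) ((x' l₁ : C') * c⁻¹)
    (mul_ne_zero hx'C (inv_ne_zero hc))]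
  congr 1
  funext l
  have h1 : (x' l₁ : C') * (u l : C') = c * ((PreTilt.untilt (y l) : V) : C') := by
    rw [← hxy l, hu l]
    rfl
  calc (x' l₁ : C') * c⁻¹ * (u l : C') = c⁻¹ * ((x' l₁ : C') * (u l : C')) := by ring
    _ = _ := by rw [h1, ← mul_assoc, inv_mul_cancel₀ hc, one_mul]

end Pool.Agent.TDA
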