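import Pool.Agent.TDA.Stmts

set_option autoImplicit false
set_option linter.unusedSectionVars false

noncomputable section

namespace Pool.Agent.TDA.PROD

open scoped Classical

universe u

theorem nonarch {F : Type u} [NormedField F] [IsUltrametricDist F] : NonarchimedeanRing F :=
  { is_nonarchimedean := NonarchimedeanAddGroup.is_nonarchimedean }

/-- Products of finitely many sums. -/
theorem hasSum_prod {F : Type u} [NormedField F] [IsUltrametricDist F] {M : Type*}
    (k : ℕ) (f : Fin k → M → F) (a : Fin k → F) (hf : ∀ i, HasSum (f i) (a i)) :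
    HasSum (fun W : Fin k → M => ∏ i, f i (W i)) (∏ i, a i) := by
  have := nonarch (F := F)
  induction k with
  | zero =>
    simp only [Finset.univ_eq_empty, Finset.prod_empty]
    have h := hasSum_unique (fun _ : Fin 0 → M => (1 : F))
    exact h
  | succ k ih =>
    have h1 := ih (fun i => f i.succ) (fun i => a i.succ) (fun i => hf i.succ)
    have h2 := (hf 0).mul_of_nonarchimedean h1
    rw [Fin.prod_univ_succ]
    rw [← (Fin.consEquiv (fun _ : Fin (k + 1) => M)).hasSum_iff]
    have h3 : (fun W : Fin (k + 1) → M => ∏ i, f i (W i)) ∘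
        (Fin.consEquiv (fun _ : Fin (k + 1) => M)) =
        fun i => f 0 i.1 * ∏ j : Fin k, f j.succ (i.2 j) := by
      funext p
      simp only [Function.comp_apply, Fin.consEquiv, Equiv.coe_fn_mk, Fin.prod_univ_succ,
        Fin.cons_zero, Fin.cons_succ]
    rw [h3]
    exact h2

theorem mon_prod {F : Type u} [NormedField F] {g k : ℕ} {x : Fin g → F} (hx : ∀ i, x i ≠ 0)
    (w : Fin k → Fin g → ℤ) : ∏ i, mon x (w i) = mon x (∑ i, w i) := by
  have h : ∀ s : Finset (Fin k), ∏ i ∈ s, mon x (w i) = mon x (∑ i ∈ s, w i) := by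
    intro s
    induction s using Finset.induction_on with
    | empty => simp
    | insert a s ha ih => rw [Finset.prod_insert ha, Finset.sum_insert ha, mon_add hx, ih]
  exact h _

end Pool.Agent.TDA.PROD

namespace Pool.Agent.TDA

open scoped Classical

universe u

theorem prod_proof (hSumm : Stmt_Summ.{u}) (hSumE : Stmt_SumE.{u}) : Stmt_Prod.{u} := by
  intro F _ _ _ g t r lam Lam hT k hk hr N a x hx
  have ht := hT.ne
  have hrne := hr.ne hk ht
  have hcls : ∀ i : Fin k, ∀ w, ‖cls F N (a i) w‖ ≤ 1 := by
    intro i w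
    unfold cls
    split_ifs <;> simp
  have hs : ∀ i : Fin k, Summable fun w : Fin g → ℤ => cls F N (a i) w * (kap t w * mon x w) :=
    fun i => (hSumm F g t lam Lam hT x hx).2 _ 1 (hcls i)
  have h1 := PROD.hasSum_prod k (fun i w => cls F N (a i) w * (kap t w * mon x w))
    (fun i => th t N (a i) x) (fun i => (hs i).hasSum)
  -- regroup
  let e : (Σ s : Fin g → ℤ, Fib N a s) → (Fin k → Fin g → ℤ) := fun p => p.2.1
  have he : Function.Injective e := by
    rintro ⟨s, w, hw1, hw2⟩ ⟨s', w', hw1', hw2'⟩ h
    have h' : w = w' := h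
    subst h'
    have h'' : s = s' := by rw [← hw2, ← hw2']
    subst h''
    rfl
  have h2 : HasSum ((fun W : Fin k → Fin g → ℤ => ∏ i, (cls F N (a i) (W i) *
      (kap t (W i) * mon x (W i)))) ∘ e) (∏ i, th t N (a i) x) := by
    rw [he.hasSum_iff]
    · exact h1
    · intro W hW
      by_contra h0
      apply hW
      have h3 : ∀ i j, (N : ℤ) ∣ W i j - a i j := by
        intro i
        by_contra h4
        apply h0
        apply Finset.prod_eq_zero (Finset.mem_univ i)
        rw [cls, if_neg h4, zero_mul]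
      exact ⟨⟨∑ i, W i, W, h3, rfl⟩, rfl⟩
  have h5 : ∀ s : Fin g → ℤ, HasSum (fun w : Fib N a s =>
      ((fun W : Fin k → Fin g → ℤ => ∏ i, (cls F N (a i) (W i) *
      (kap t (W i) * mon x (W i)))) ∘ e) ⟨s, w⟩) (hpr r t N a s * (kap r s * mon x s)) := by
    intro s
    have h6 := ((hSumE F g t r lam Lam hT k hk hr N a s).hasSum).mul_right (kap r s * mon x s)
    have h8 : (fun w : Fib N a s => ((fun W : Fin k → Fin g → ℤ => ∏ i, (cls F N (a i) (W i) *
      (kap t (W i) * mon x (W i)))) ∘ e) ⟨s, w⟩) =
        fun w : Fib N a s => EE r t w.1 * (kap r s * mon x s) := by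
      funext w
      obtain ⟨w, hw1, hw2⟩ := w
      simp only [Function.comp_apply, e]
      have h9 : ∀ i : Fin k, cls F N (a i) (w i) = 1 := by
        intro i
        rw [cls, if_pos (hw1 i)]
      simp only [h9, one_mul]
      rw [Finset.prod_mul_distrib, PROD.mon_prod hx, EE, hw2]
      have h10 := kap_ne hrne s
      field_simp
    rw [h8]
    exact h6
  have h7 := h2.sigma h5
  exact h7.tsum_eq.symm

end Pool.Agent.TDA
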