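import Pool.Agent.TDA.Basic

/-!
# Totally degenerate abelian varieties: statements of the modules of parts A, B, D (analysis over
complete ultrametric normed fields)
-/

set_option autoImplicit false
set_option linter.unusedSectionVars false

noncomputable section

namespace Pool.Agent.TDA

open scoped Classical
open MvPolynomial

universe u

/-! ## Part A: theta series and their products -/

/-- SUMM: convergence of the theta series. -/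
def Stmt_Summ : Prop := ∀ (F : Type u) [NormedField F] [IsUltrametricDist F] (g : ℕ)
  (t : Fin g → Fin g → F) (lam Lam : ℝ), TP t lam Lam → ∀ x : Fin g → F, (∀ i, x i ≠ 0) →
  (∀ ε : ℝ, 0 < ε → {w : Fin g → ℤ | ε ≤ ‖kap t w * mon x w‖}.Finite) ∧
  ∀ [CompleteSpace F] (h : (Fin g → ℤ) → F) (H : ℝ), (∀ w, ‖h w‖ ≤ H) →
    Summable fun w : Fin g → ℤ => h w * (kap t w * mon x w)

/-- DOM: the maximal term dominates its class modulo `N` for each `N ≥ 2`. -/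
def Stmt_Dom : Prop := ∀ (F : Type u) [NormedField F] [IsUltrametricDist F] [CompleteSpace F]
  (g : ℕ) (t : Fin g → Fin g → F) (lam Lam : ℝ), TP t lam Lam → ∀ x : Fin g → F,
  (∀ i, x i ≠ 0) → (∃ w₀, IsMax t x w₀) ∧ ∀ w₀, IsMax t x w₀ →
    (∀ (h : (Fin g → ℤ) → F) (H : ℝ), (∀ w, ‖h w‖ ≤ H) →
      ‖ser t h x‖ ≤ H * ‖kap t w₀ * mon x w₀‖) ∧
    ∀ N : ℕ, 2 ≤ N → ‖th t N w₀ x‖ = ‖kap t w₀ * mon x w₀‖

/-- VAR: inequalities for the variance `SS`. -/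
def Stmt_Var : Prop := ∀ (F : Type u) [NormedField F] (g : ℕ) (t : Fin g → Fin g → F)
  (lam Lam : ℝ), TP t lam Lam → ∀ (k : ℕ), k ≠ 0 →
  (∀ w : Fin k → Fin g → ℤ, 0 ≤ SS (qf t) w) ∧
  (∀ (N : ℕ) (a u : Fin k → Fin g → ℤ), (∃ i l, u i ≠ u l) →
    (N : ℝ) ^ 2 * lam / 4 - SS (qf t) a ≤ SS (qf t) (fun i => a i + (N : ℤ) • u i)) ∧
  (∀ w : Fin k → Fin g → ℤ, (∀ i, ‖rv (w i) - (k : ℝ)⁻¹ • rv (∑ l, w l)‖ ≤ 1) →
    SS (qf t) w ≤ k * Lam) ∧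
  ∀ (s : Fin g → ℤ) (B : ℝ), {w : Fin k → Fin g → ℤ | ∑ i, w i = s ∧ SS (qf t) w ≤ B}.Finite

/-- SS2: the variance of two vectors. -/
def Stmt_SS2 : Prop := ∀ (g : ℕ) (q : Fin g → Fin g → ℝ) (a b : Fin g → ℤ),
  SS q ![a, b] = QF q (rv (a - b)) / 2

/-- SUME: convergence of the series of structure constants. -/
def Stmt_SumE : Prop := ∀ (F : Type u) [NormedField F] [IsUltrametricDist F] [CompleteSpace F]
  (g : ℕ) (t r : Fin g → Fin g → F) (lam Lam : ℝ), TP t lam Lam → ∀ k : ℕ, k ≠ 0 → Rt k r t →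
  ∀ (N : ℕ) (a : Fin k → Fin g → ℤ) (s : Fin g → ℤ),
    Summable fun w : Fib N a s => EE r t w.1

/-- PEST: estimates for the coefficients of products. -/
def Stmt_Pest : Prop := ∀ (F : Type u) [NormedField F] [IsUltrametricDist F] [CompleteSpace F]
  (g : ℕ) (t r : Fin g → Fin g → F) (lam Lam : ℝ), TP t lam Lam → ∀ k : ℕ, k ≠ 0 → Rt k r t →
  ∀ (N : ℕ) (a : Fin k → Fin g → ℤ),
    Per (k * N) (hpr r t N a) ∧
    (∀ s, ‖hpr r t N a s‖ ≤ 1) ∧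
    (∀ s B, (∀ w : Fib N a s, B ≤ SS (qf t) w.1) → ‖hpr r t N a s‖ ≤ Real.exp (-B)) ∧
    ‖hpr r t N a (∑ i, a i) - EE r t a‖ ≤
      Real.exp (-((N : ℝ) ^ 2 * lam / 4 - SS (qf t) a)) ∧
    ∀ s : Fin g → ℤ, (¬∀ j, ((k * N : ℕ) : ℤ) ∣ s j - (∑ i, a i) j) →
      ‖hpr r t N a s‖ ≤ Real.exp (-((N : ℝ) ^ 2 * lam / 4 - SS (qf t) a))

/-- PROD: products of `k` theta functions of level `N` are series with respect to a `k`-th root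
`r` of `t`. -/
def Stmt_Prod : Prop := ∀ (F : Type u) [NormedField F] [IsUltrametricDist F] [CompleteSpace F]
  (g : ℕ) (t r : Fin g → Fin g → F) (lam Lam : ℝ), TP t lam Lam → ∀ k : ℕ, k ≠ 0 → Rt k r t →
  ∀ (N : ℕ) (a : Fin k → Fin g → ℤ) (x : Fin g → F), (∀ i, x i ≠ 0) →
    ∏ i, th t N (a i) x = ser r (hpr r t N a) x

/-- PMAP: the coefficients of products commute with isometric embeddings. -/
def Stmt_Pmap : Prop := ∀ (F C : Type u) [NormedField F] [IsUltrametricDist F] [CompleteSpace F]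
  [NormedField C] [IsUltrametricDist C] [CompleteSpace C] (ι : F →+* C), Iso ι →
  ∀ (g : ℕ) (t r : Fin g → Fin g → F) (lam Lam : ℝ), TP t lam Lam → ∀ k : ℕ, k ≠ 0 → Rt k r t →
  ∀ (N : ℕ) (a : Fin k → Fin g → ℤ) (s : Fin g → ℤ),
    hpr (fun i j => ι (r i j)) (fun i j => ι (t i j)) N a s = ι (hpr r t N a s)

/-- CYC: the `p`-th power of a theta function modulo `p`. -/
def Stmt_Cyc : Prop := ∀ (F : Type u) [NormedField F] [IsUltrametricDist F] [CompleteSpace F]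
  (g : ℕ) (t r : Fin g → Fin g → F) (lam Lam : ℝ), TP t lam Lam → ∀ p : ℕ, p.Prime → Rt p r t →
  ∀ (N : ℕ) (a s : Fin g → ℤ),
    ‖hpr r t N (fun _ : Fin p => a) s - cls F (p * N) ((p : ℤ) • a) s‖ ≤ ‖(p : F)‖

/-- FRID: theta functions at `x ^ n`. -/
def Stmt_Frid : Prop := ∀ (F : Type u) [NormedField F] [IsUltrametricDist F] [CompleteSpace F]
  (g : ℕ) (t r : Fin g → Fin g → F) (n : ℕ), n ≠ 0 → Rt n r t →
  ∀ (N : ℕ) (a : Fin g → ℤ) (x : Fin g → F), (∀ i, x i ≠ 0) →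
    th (fun i j => t i j ^ n) N a (fun i => x i ^ n) = ser r (cls F (n * N) ((n : ℤ) • a)) x

/-- BAL: balanced decompositions. -/
def Stmt_Bal : Prop := ∀ (g k : ℕ), k ≠ 0 → ∀ s : Fin g → ℤ,
  ∑ i, bal k s i = s ∧ (∀ i, ‖rv (bal k s i) - (k : ℝ)⁻¹ • rv s‖ ≤ 1) ∧
  ∀ (N : ℕ) (u : Fin g → ℤ) (i : Fin k),
    bal k (s + ((k * N : ℕ) : ℤ) • u) i = bal k s i + (N : ℤ) • u

/-- MAT: systems of linear equations with dominant diagonal. -/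
def Stmt_Mat : Prop := ∀ (F : Type u) [NormedField F] [IsUltrametricDist F] (I : Type) [Fintype I]
  (A : I → I → F) (δ : ℝ), 0 < δ → (∀ s, δ ≤ ‖A s s‖) → (∀ s s', s ≠ s' → ‖A s s'‖ < δ) →
  ∀ (h : I → F) (H : ℝ), (∀ s, ‖h s‖ ≤ H) →
    ∃ c : I → F, (∀ s, ‖c s‖ ≤ H / δ) ∧ ∀ s', ∑ s, c s * A s s' = h s'

/-- FORM: a series with respect to a `k`-th root of `t` with `k N`-periodic coefficients is a form
of degree `k` in the theta functions of level `N` (uses PROD, PEST, VAR, PMAP, BAL, MAT, SUMM). -/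
def Stmt_Form : Prop := ∀ (F : Type u) [NormedField F] [IsUltrametricDist F] [CompleteSpace F]
  (g : ℕ) (t r : Fin g → Fin g → F) (lam Lam : ℝ), TP t lam Lam → ∀ k : ℕ, k ≠ 0 → Rt k r t →
  ∀ N : ℕ, N ≠ 0 → 8 * k * Lam < (N : ℝ) ^ 2 * lam → ∀ (h : (Fin g → ℤ) → F) (H : ℝ),
  Per (k * N) h → (∀ w, ‖h w‖ ≤ H) →
    ∃ G : MvPolynomial (Fin g → ZMod N) F, G.IsHomogeneous k ∧
      (∀ m, ‖G.coeff m‖ ≤ Real.exp (k * Lam) * H) ∧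
      ∀ (C : Type u) [NormedField C] [IsUltrametricDist C] [CompleteSpace C] (ι : F →+* C),
        Iso ι → ∀ x : Fin g → C, (∀ i, x i ≠ 0) →
        eval₂ ι (thv (fun i j => ι (t i j)) N x) G =
          ser (fun i j => ι (r i j)) (fun w => ι (h w)) x

/-! ## Part B: the theta variety over a field -/

/-- REL: quadratic relations between theta functions (uses FORM, PROD, PEST, SS2, SUMM). -/
def Stmt_Rel : Prop := ∀ (F : Type u) [NormedField F] [IsUltrametricDist F] [CompleteSpace F]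
  (g : ℕ) (t r : Fin g → Fin g → F) (lam Lam : ℝ), TP t lam Lam → Rt 2 r t →
  ∀ N : ℕ, N ≠ 0 → 16 * Lam < (N : ℝ) ^ 2 * lam →
  (∀ (a b c d : Fin g → ℤ) (S₀ : ℝ), a + b = c + d → SS (qf t) ![a, b] ≤ S₀ →
    SS (qf t) ![c, d] ≤ S₀ → ∃ G : MvPolynomial (Fin g → ZMod N) F,
      (∀ m, ‖G.coeff m‖ ≤ Real.exp (2 * Lam - ((N : ℝ) ^ 2 * lam / 4 - S₀))) ∧
      ∀ x : Fin g → F, (∀ i, x i ≠ 0) → ∀ c₀ : F,
        EE r t ![c, d] * (c₀ * th t N a x) * (c₀ * th t N b x) -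
          EE r t ![a, b] * (c₀ * th t N c x) * (c₀ * th t N d x) =
        eval (fun α => c₀ * thv t N x α) G) ∧
  ∀ (a b : Fin g → ℤ) (ρ : ℝ), 0 ≤ ρ → (∀ u : Fin g → ℤ, ρ ≤ ‖rv (a - b + (N : ℤ) • u)‖) →
    ∃ G : MvPolynomial (Fin g → ZMod N) F,
      (∀ m, ‖G.coeff m‖ ≤ Real.exp (2 * Lam - lam * ρ ^ 2 / 2)) ∧
      ∀ x : Fin g → F, (∀ i, x i ≠ 0) → ∀ c₀ : F,
        (c₀ * th t N a x) * (c₀ * th t N b x) = eval (fun α => c₀ * thv t N x α) G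

/-- The normalised term of index `a₀ + v` of the theta series at `y`. -/
def KK {F : Type u} [Field F] {g : ℕ} (t : Fin g → Fin g → F) (y : Fin g → F)
    (a₀ v : Fin g → ℤ) : F := kap t (a₀ + v) * mon y (a₀ + v) / (kap t a₀ * mon y a₀)

/-- BOX: a point satisfying the quadratic relations approximately is close to a theta point. -/
def Stmt_Box : Prop := ∀ (T : Type u) [NormedField T] [IsUltrametricDist T]
  (g : ℕ) (t r : Fin g → Fin g → T) (lam Lam : ℝ), TP t lam Lam → Rt 2 r t →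
  ∀ (N r₀ : ℕ) (η η' : ℝ), 1 ≤ r₀ → 2 * g * Lam ≤ lam * r₀ →
    η * Real.exp (4 * Lam * ((r₀ : ℝ) + 1) ^ 2) < 1 →
  ∀ (z : (Fin g → ℤ) → T), Per N z → (∀ a, ‖z a‖ ≤ 1) → ∀ a₀, z a₀ = 1 →
  (∀ a b c d : Fin g → ℤ, a + b = c + d → SS (qf t) ![a, b] ≤ 2 * Lam * ((r₀ : ℝ) + 1) ^ 2 →
    SS (qf t) ![c, d] ≤ 2 * Lam * ((r₀ : ℝ) + 1) ^ 2 →
    ‖EE r t ![c, d] * z a * z b - EE r t ![a, b] * z c * z d‖ ≤ η) →
  (∀ a b : Fin g → ℤ, (∀ u : Fin g → ℤ, (r₀ : ℝ) + 1 ≤ ‖rv (a - b + (N : ℤ) • u)‖) →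
    ‖z a * z b‖ ≤ η') →
  ∃ y : Fin g → T, (∀ i, y i ≠ 0) ∧ (∀ v, ‖KK t y a₀ v‖ ≤ 1) ∧
    (∀ v, (r₀ : ℝ) ≤ ‖rv v‖ → ‖KK t y a₀ v‖ ≤ Real.exp (-(lam * (r₀ : ℝ) ^ 2 / 2))) ∧
    (∀ v, ‖rv v‖ ≤ r₀ →
      ‖z (a₀ + v) - KK t y a₀ v‖ ≤ η * Real.exp (4 * Lam * ((r₀ : ℝ) + 1) ^ 2)) ∧
    ∀ a, (∀ u : Fin g → ℤ, (r₀ : ℝ) + 1 ≤ ‖rv (a - a₀ + (N : ℤ) • u)‖) → ‖z a‖ ≤ η'

/-- The ideal of the theta variety: the polynomials vanishing at all multiples of all theta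
points. -/
def VI {F : Type u} [NormedField F] {g : ℕ} (t : Fin g → Fin g → F) (N : ℕ) :
    Ideal (MvPolynomial (Fin g → ZMod N) F) :=
  ⨅ c : F, ⨅ x : {x : Fin g → F // ∀ i, x i ≠ 0},
    RingHom.ker (eval (fun α => c * thv t N x.1 α) : MvPolynomial (Fin g → ZMod N) F →+* F)

/-- IND: the theta functions of the classes `0, e_1, ..., e_g` are algebraically independent
(over a field of characteristic `p`). -/
def Stmt_Ind : Prop := ∀ (F : Type u) [NormedField F] [IsUltrametricDist F] [CompleteSpace F]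
  [IsAlgClosed F] (p : ℕ) [Fact p.Prime] [CharP F p]
  (g : ℕ) (t : Fin g → Fin g → F) (lam Lam : ℝ), TP t lam Lam →
  ∀ N : ℕ, 2 ≤ N → 4 * Lam < (N : ℝ) ^ 2 * lam → ∀ G : MvPolynomial (Option (Fin g)) F,
  rename (fun o => o.elim (cl N 0) fun i => cl N (Pi.single i 1)) G ∈ VI t N → G = 0

/-- KDIM: lower bound for the dimension from algebraically independent elements. -/
def Stmt_Kdim : Prop := ∀ (k : Type u) [Field k] (σ τ : Type) [Finite σ] [Fintype τ]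
  (I : Ideal (MvPolynomial σ k)) (f : MvPolynomial τ k →ₐ[k] MvPolynomial σ k),
  (∀ G, f G ∈ I → G = 0) → (Fintype.card τ : WithBot ℕ∞) ≤ ringKrullDim (MvPolynomial σ k ⧸ I)

/-- VIH: the ideal of the theta variety is homogeneous. -/
def Stmt_VIH : Prop := ∀ (F : Type u) [NormedField F] [Infinite F] (g : ℕ)
  (t : Fin g → Fin g → F) (N : ℕ), ∀ P ∈ VI t N, ∀ m, homogeneousComponent m P ∈ VI t N

/-- VPT: the points of the theta variety over extensions are close to theta points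
(uses REL, BOX). -/
def Stmt_Vpt : Prop := ∀ (F : Type u) [NormedField F] [IsUltrametricDist F] [CompleteSpace F]
  [IsAlgClosed F] (g : ℕ) (t : Fin g → Fin g → F) (lam Lam : ℝ), TP t lam Lam →
  ∀ (N r₀ : ℕ) (ε : ℝ), N ≠ 0 → 16 * Lam < (N : ℝ) ^ 2 * lam → 1 ≤ r₀ → 2 * g * Lam ≤ lam * r₀ →
    Real.exp (2 * Lam - (N : ℝ) ^ 2 * lam / 4 + 6 * Lam * ((r₀ : ℝ) + 1) ^ 2) ≤ ε →
    Real.exp (2 * Lam - lam * (r₀ : ℝ) ^ 2 / 2) ≤ ε → ε < 1 →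
  ∀ (T : Type u) [NormedField T] [IsUltrametricDist T] (j : F →+* T), Iso j →
  ∀ z : (Fin g → ZMod N) → T, (∀ P ∈ VI t N, eval₂ j z P = 0) → (∀ α, ‖z α‖ ≤ 1) →
  ∀ a₀, z (cl N a₀) = 1 →
  ∃ y : Fin g → T, (∀ i, y i ≠ 0) ∧ (∀ v, ‖KK (fun i l => j (t i l)) y a₀ v‖ ≤ 1) ∧
    (∀ v, (r₀ : ℝ) ≤ ‖rv v‖ → ‖KK (fun i l => j (t i l)) y a₀ v‖ ≤ ε) ∧
    (∀ v, ‖rv v‖ ≤ r₀ → ‖z (cl N (a₀ + v)) - KK (fun i l => j (t i l)) y a₀ v‖ ≤ ε) ∧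
    ∀ a, (∀ u : Fin g → ℤ, (r₀ : ℝ) + 1 ≤ ‖rv (a - a₀ + (N : ℤ) • u)‖) → ‖z (cl N a)‖ ≤ ε

/-! ## Part C: passing from the tilt to characteristic zero -/

/-- TRANS: `sh` is multiplicative, norm preserving and nearly additive (the map `y ↦ y^♯`). -/
def Stmt_Trans : Prop := ∀ (T C : Type u) [NormedField T] [IsUltrametricDist T]
  [NormedField C] [IsUltrametricDist C] [CompleteSpace C] (sh : T →*₀ C) (ϖ : ℝ),
  (∀ y, ‖sh y‖ = ‖y‖) → (∀ y y', ‖sh (y + y') - sh y - sh y'‖ ≤ ϖ * max ‖y‖ ‖y'‖) →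
  ∀ (g : ℕ) (t : Fin g → Fin g → T) (lam Lam : ℝ), TP t lam Lam →
  ∀ (N r₀ : ℕ) (ε : ℝ), 2 * r₀ + 1 ≤ N → ε ≤ 1 → ∀ (z : (Fin g → ZMod N) → T) (a₀ : Fin g → ℤ)
    (y : Fin g → T), (∀ i, y i ≠ 0) → (∀ v, ‖KK t y a₀ v‖ ≤ 1) →
    (∀ v, (r₀ : ℝ) ≤ ‖rv v‖ → ‖KK t y a₀ v‖ ≤ ε) →
    (∀ v, ‖rv v‖ ≤ r₀ → ‖z (cl N (a₀ + v)) - KK t y a₀ v‖ ≤ ε) →
    (∀ a, (∀ u : Fin g → ℤ, (r₀ : ℝ) + 1 ≤ ‖rv (a - a₀ + (N : ℤ) • u)‖) → ‖z (cl N a)‖ ≤ ε) →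
  IsMax (fun i j => sh (t i j)) (fun i => sh (y i)) a₀ ∧
  ∀ α, ‖sh (z α) - (kap (fun i j => sh (t i j)) a₀ * mon (fun i => sh (y i)) a₀)⁻¹ *
    thv (fun i j => sh (t i j)) N (fun i => sh (y i)) α‖ ≤ max ε ϖ

/-! ## Part D: contraction -/

/-- STEP: the map `x ↦ x ^ p` in theta coordinates is given by forms of degree `p` which are
congruent to the `p`-th powers of the coordinates (uses FORM, PROD, PEST, CYC, FRID, PMAP,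
SUMM). -/
def Stmt_Step : Prop := ∀ (F : Type u) [NormedField F] [IsUltrametricDist F] [CompleteSpace F]
  (p : ℕ) [Fact p.Prime] (g : ℕ) (t r : Fin g → Fin g → F) (lam Lam : ℝ), TP t lam Lam →
  Rt p r t → (p : F) ≠ 0 → ∀ N : ℕ, N ≠ 0 → 8 * p * Lam < (N : ℝ) ^ 2 * lam →
  ∀ α : Fin g → ZMod N, ∃ G : MvPolynomial (Fin g → ZMod N) F, G.IsHomogeneous p ∧
    (∀ m, ‖G.coeff m‖ ≤ ‖(p : F)‖ * Real.exp (p * Lam)) ∧
    ∀ (C : Type u) [NormedField C] [IsUltrametricDist C] [CompleteSpace C] (ι : F →+* C),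
      Iso ι → ∀ x : Fin g → C, (∀ i, x i ≠ 0) →
      thv (fun i j => ι (t i j) ^ p) N (fun i => x i ^ p) α =
        thv (fun i j => ι (t i j)) N x α ^ p - eval₂ ι (thv (fun i j => ι (t i j)) N x) G

/-- ITER: iteration along the tower `T` (uses STEP). -/
def Stmt_Iter : Prop := ∀ (F : Type u) [NormedField F] [IsUltrametricDist F] [CompleteSpace F]
  (p : ℕ) [Fact p.Prime] (g : ℕ) (T : ℕ → Fin g → Fin g → F) (lam Lam : ℝ), TP (T 0) lam Lam →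
  (∀ i, Rt p (T (i + 1)) (T i)) → (p : F) ≠ 0 → ∀ N : ℕ, N ≠ 0 →
  8 * p * Lam < (N : ℝ) ^ 2 * lam → ∀ θ : ℝ, θ < 1 → ‖(p : F)‖ * Real.exp Lam ≤ θ → ∀ m : ℕ,
  ∃ Φ : (Fin g → ZMod N) → MvPolynomial (Fin g → ZMod N) F,
    (∀ α, (Φ α).IsHomogeneous (p ^ m)) ∧ (∀ α n, ‖(Φ α).coeff n‖ ≤ 1) ∧
    ∀ (C : Type u) [NormedField C] [IsUltrametricDist C] [CompleteSpace C] (ι : F →+* C),
      Iso ι → (∀ x : Fin g → C, (∀ i, x i ≠ 0) → ∀ α,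
        eval₂ ι (thv (fun i j => ι (T m i j)) N x) (Φ α) =
          thv (fun i j => ι (T 0 i j)) N (fun i => x i ^ p ^ m) α) ∧
      ∀ (P Q : (Fin g → ZMod N) → C) (ρ : ℝ), (∀ α, ‖P α‖ ≤ 1) → (∀ α, ‖Q α‖ ≤ 1) →
        ρ ≤ θ → (∀ α, ‖P α - Q α‖ ≤ ρ) →
        ∀ α, ‖eval₂ ι P (Φ α) - eval₂ ι Q (Φ α)‖ ≤ θ ^ m * ρ

/-! ## Part E: auxiliary statements for the assembly -/

/-- PULL: series with `k`-periodic coefficients at `x ^ D` are linear combinations of theta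
functions of level `N`, if `k D` divides `N`. -/
def Stmt_Pull : Prop := ∀ (F : Type u) [NormedField F] [IsUltrametricDist F] [CompleteSpace F]
  (g : ℕ) (t t₀ : Fin g → Fin g → F) (lam Lam : ℝ), TP t₀ lam Lam → ∀ D : ℕ, D ≠ 0 →
  Rt (D ^ 2) t₀ t → ∀ (k N : ℕ) [NeZero N], k * D ∣ N → ∀ P : (Fin g → ℤ) → F, Per k P →
  ∃ c : (Fin g → ZMod N) → F, (∀ α, ∃ w, c α = P w ∨ c α = 0) ∧
    ∀ (C : Type u) [NormedField C] [IsUltrametricDist C] [CompleteSpace C] (ι : F →+* C),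
      Iso ι → ∀ x : Fin g → C, (∀ i, x i ≠ 0) →
      ser (fun i j => ι (t i j)) (fun w => ι (P w)) (fun i => x i ^ D) =
        ∑ α, ι (c α) * thv (fun i j => ι (t₀ i j)) N x α

/-- MAXC: comparison of the maximal terms at `x` and at `x ^ D`. -/
def Stmt_Maxc : Prop := ∀ (F : Type u) [NormedField F] [IsUltrametricDist F]
  (g : ℕ) (t t₀ : Fin g → Fin g → F) (lam Lam : ℝ), TP t lam Lam → ∀ D : ℕ, D ≠ 0 →
  Rt (D ^ 2) t₀ t → ∀ (x : Fin g → F), (∀ i, x i ≠ 0) → ∀ w₀, IsMax t₀ x w₀ →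
  ∀ w₁, IsMax t (fun i => x i ^ D) w₁ →
  ‖kap t₀ w₀ * mon x w₀‖ ≤ Real.exp (Lam * (1 + g)) * ‖kap t w₁ * mon (fun i => x i ^ D) w₁‖

/-- NUM: choice of the level and of the radius. -/
def Stmt_Num : Prop := ∀ (g : ℕ) (lam Lam ε B : ℝ), 0 < lam → lam ≤ Lam → 0 < ε → ∀ Q : ℕ, Q ≠ 0 →
  ∃ N r₀ : ℕ, N ≠ 0 ∧ 2 ≤ N ∧ Q ∣ N ∧ B < (N : ℝ) ^ 2 * lam ∧ 1 ≤ r₀ ∧ 2 * g * Lam ≤ lam * r₀ ∧
    2 * r₀ + 1 ≤ N ∧
    Real.exp (2 * Lam - (N : ℝ) ^ 2 * lam / 4 + 6 * Lam * ((r₀ : ℝ) + 1) ^ 2) ≤ ε ∧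
    Real.exp (2 * Lam - lam * (r₀ : ℝ) ^ 2 / 2) ≤ ε

end Pool.Agent.TDA
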