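import Pool.Agent.TDA.Stmts
import Pool.Agent.CSM.Defs
import Pool.Agent.DC.Inst
import Pool.Agent.DC.StmtsG

/-!
# Totally degenerate abelian varieties: statements of the modules over perfectoid fields
-/

set_option autoImplicit false
set_option linter.unusedSectionVars false

noncomputable section

namespace Pool.Agent.TDA

open scoped Classical
open MvPolynomial Pool.Agent.LibDb3ab1 Pool.Agent.DC Pool.Agent.CSM

universe u

/-- The family `a` is summable for the `p`-adic topology of the valuation ring `V`, with sum `v`. -/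
def SumsTo {C : Type u} [Field C] (V : ValuationSubring C) (p : ℕ) {A : Type} (a : A → C)
    (v : C) : Prop :=
  ∀ k : ℕ, ∃ S : Finset A, ∀ T : Finset A, S ⊆ T → (v - ∑ w ∈ T, a w) / (p : C) ^ k ∈ V

/-- The terms of the series of the theta function with coefficients `P`, after base change along
`ι`, at the point `x`. -/
def term {K : Type u} [Field K] {C : Type u} [Field C] (ι : K →+* C) {g : ℕ}
    (t : Fin g → Fin g → K) (P : (Fin g → ℤ) → K) (x : Fin g → C) (w : Fin g → ℤ) : C :=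
  ι (P w) * (kap (fun i j => ι (t i j)) w * mon x w)

/-- NORMC: the rank one norm of an extension. -/
def Stmt_NormC : Prop := ∀ (p : ℕ) [Fact p.Prime] (K : Type u) [Field K] (O : ValuationSubring K)
  [Fact ¬IsUnit (p : O)] [IsAdicComplete (Ideal.span {(p : O)}) O] (_b : TB O p)
  (C : Type u) [Field C] (ι : K →+* C) (V : ValuationSubring C)
  (hV : ValuedExt O ι V) [Fact ¬IsUnit (p : V)] [IsAdicComplete (Ideal.span {(p : V)}) V],
  (∀ x : K, nC p hV (ι x) = vn K (p : O) x) ∧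
  ∀ x : ℕ → C, (∀ ε : ℝ, 0 < ε → ∃ N, ∀ i ≥ N, ∀ j ≥ N, nC p hV (x i - x j) < ε) →
    ∃ y, ∀ ε : ℝ, 0 < ε → ∃ N, ∀ i ≥ N, nC p hV (x i - y) < ε

/-- SUMS: `SumsTo` is convergence for the rank one norm. -/
def Stmt_Sums : Prop := ∀ (p : ℕ) [Fact p.Prime] (C : Type u) [Field C] (V : ValuationSubring C)
  (h : PU (p : V)) (A : Type) (a : A → C) (v : C), SumsTo V p a v ↔
    @HasSum C A _ (nfPU (F := C) h).toMetricSpace.toPseudoMetricSpace.toUniformSpace.toTopologicalSpace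
      a v (SummationFilter.unconditional A)

/-- SH: the multiplicative map `y ↦ y^♯` on the fraction field of the tilt. -/
def Stmt_Sh : Prop := ∀ (p : ℕ) [Fact p.Prime] (K : Type u) [Field K] (O : ValuationSubring K)
  [Fact ¬IsUnit (p : O)] [IsAdicComplete (Ideal.span {(p : O)}) O] (b : TB O p)
  (C : Type u) [Field C] (ι : K →+* C) (V : ValuationSubring C)
  (hV : ValuedExt O ι V) [Fact ¬IsUnit (p : V)] [IsAdicComplete (Ideal.span {(p : V)}) V],
  ∃ sh : TF V p →*₀ C,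
    (∀ a : PreTilt V p, sh (algebraMap (PreTilt V p) (TF V p) a) = ((PreTilt.untilt a : V) : C)) ∧
    (∀ y, nC p hV (sh y) = nT hV b y) ∧
    (∀ y y', nC p hV (sh (y + y') - sh y - sh y') ≤ 1 / 2 * max (nT hV b y) (nT hV b y')) ∧
    ∀ shK : TF O p →*₀ K,
      (∀ a : PreTilt O p, shK (algebraMap (PreTilt O p) (TF O p) a) =
        ((PreTilt.untilt a : O) : K)) → ∀ y, sh (tf hV y) = ι (shK y)

/-- SHS: surjectivity of `y ↦ y^♯` over algebraically closed fields. -/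
def Stmt_Shs : Prop := ∀ (p : ℕ) [Fact p.Prime] (K : Type u) [Field K] [IsAlgClosed K]
  (O : ValuationSubring K) [Fact ¬IsUnit (p : O)] [IsAdicComplete (Ideal.span {(p : O)}) O]
  (_b : TB O p) (shK : TF O p →*₀ K),
  (∀ a : PreTilt O p, shK (algebraMap (PreTilt O p) (TF O p) a) =
    ((PreTilt.untilt a : O) : K)) → Function.Surjective shK

/-- IMG: images over the tilt, for forms which are bounded below (`Stmt_Image` of
`Pool/Agent/CSM/Defs.lean` is the case `k₀ = 0`, adapt `Pool/Agent/CSM/IMAGE.lean`). -/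
def Stmt_Img : Prop := ∀ (p : ℕ) [Fact p.Prime] (K : Type u) [Field K]
  (O : ValuationSubring K) [Fact ¬IsUnit (p : O)] [IsAdicComplete (Ideal.span {(p : O)}) O]
  (_b : TB O p) (r n d : ℕ)
  (𝔓 : Ideal (MvPolynomial (Fin (r + 1)) (FractionRing (PreTilt O p)))), 𝔓.IsPrime → HI 𝔓 →
  ringKrullDim (MvPolynomial (Fin (r + 1)) (FractionRing (PreTilt O p)) ⧸ 𝔓) = (d + 1 : ℕ) →
  d ≤ n → ∀ (e : ℕ), 0 < e → ∀ (Φ : Fin (n + 1) → MvPolynomial (Fin (r + 1)) O),
  (∀ l, (Φ l).IsHomogeneous e) → ∀ k₀ : ℕ,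
  (∀ (C : Type u) [Field C] [IsAlgClosed C] (ι : K →+* C) (V : ValuationSubring C)
    (hV : ValuedExt O ι V) [Fact ¬IsUnit (p : V)] [IsAdicComplete (Ideal.span {(p : V)}) V]
    (z : Fin (r + 1) → PreTilt V p), (∃ v, z v = 1) → TPt 𝔓 hV z →
    ∃ l, eval₂ hV.incl (fun i => PreTilt.untilt (z i)) (Φ l) ∣ (p : V) ^ k₀) →
  ∀ M : ℕ, k₀ < M →
  ∃ 𝔔 : Ideal (MvPolynomial (Fin (n + 1)) (FractionRing (PreTilt O p))), 𝔔.IsPrime ∧ HI 𝔔 ∧
    ringKrullDim (MvPolynomial (Fin (n + 1)) (FractionRing (PreTilt O p)) ⧸ 𝔔) = (d + 1 : ℕ) ∧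
    ∀ (C : Type u) [Field C] [IsAlgClosed C] (ι : K →+* C) (V : ValuationSubring C)
      (hV : ValuedExt O ι V) [Fact ¬IsUnit (p : V)] [IsAdicComplete (Ideal.span {(p : V)}) V]
      (y : Fin (n + 1) → PreTilt V p), y ≠ 0 → TPt 𝔔 hV y →
      ∃ (z : Fin (r + 1) → PreTilt V p) (v : Fin (r + 1)) (x' : Fin (n + 1) → V) (c : C), c ≠ 0 ∧
        z v = 1 ∧ TPt 𝔓 hV z ∧
        (∀ l, (p : V) ^ M ∣ x' l - eval₂ hV.incl (fun i => PreTilt.untilt (z i)) (Φ l)) ∧
        ∀ l, (x' l : C) = c * ((PreTilt.untilt (y l) : V) : C)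

/-- POS: the positivity condition in terms of the norm. -/
def Stmt_Pos : Prop := ∀ (p : ℕ) [Fact p.Prime] (K : Type u) [Field K] (O : ValuationSubring K)
  (h : PU (p : O)) (g : ℕ) (t : Fin g → Fin g → K), (∀ i j, t i j ≠ 0) → ∀ m : ℕ, m ≠ 0 →
  (∀ (w : Fin g → ℤ) (i : Fin g), kap t w ^ m / (p : K) ^ (w i * w i) ∈ O) →
  ∃ lam Lam : ℝ, @TP K (nfPU (F := K) h) g t lam Lam

/-- LB: theta functions without common zeros are bounded below (fundamental domain, limit field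
`exists_limit`, `Stmt_UltA`). -/
def Stmt_LB : Prop := ∀ (p : ℕ) [Fact p.Prime] (K : Type u) [Field K] [IsAlgClosed K]
  (O : ValuationSubring K) [Fact ¬IsUnit (p : O)] [IsAdicComplete (Ideal.span {(p : O)}) O]
  (_b : TB O p) (h : PU (p : O)) (g n k : ℕ), k ≠ 0 → ∀ (t : Fin g → Fin g → K) (lam Lam : ℝ),
  @TP K (nfPU (F := K) h) g t lam Lam → ∀ P : Fin (n + 1) → (Fin g → ℤ) → K, (∀ l, Per k (P l)) →
  (∀ (C : Type u) [Field C] [IsAlgClosed C] (ι : K →+* C) (V : ValuationSubring C)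
    (_hV : ValuedExt O ι V) [Fact ¬IsUnit (p : V)] [IsAdicComplete (Ideal.span {(p : V)}) V]
    (x : Fin g → C), (∀ i, x i ≠ 0) → ∀ v : Fin (n + 1) → C,
    (∀ l, SumsTo V p (term ι t (P l) x) (v l)) → v ≠ 0) →
  ∃ ε : ℝ, 0 < ε ∧ ∀ (C : Type u) [Field C] [IsAlgClosed C] (ι : K →+* C) (V : ValuationSubring C)
    (hV : ValuedExt O ι V) [Fact ¬IsUnit (p : V)] [IsAdicComplete (Ideal.span {(p : V)}) V]
    (x : Fin g → C), (∀ i, x i ≠ 0) → ∀ w₀ : Fin g → ℤ,
    (∀ w, nC p hV (kap (fun i j => ι (t i j)) w * mon x w) ≤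
      nC p hV (kap (fun i j => ι (t i j)) w₀ * mon x w₀)) → ∀ v : Fin (n + 1) → C,
    (∀ l, SumsTo V p (term ι t (P l) x) (v l)) →
    ∃ l, ε * nC p hV (kap (fun i j => ι (t i j)) w₀ * mon x w₀) ≤ nC p hV (v l)

/-- START: a variety of dimension `g` over the tilt all of whose points are close to theta points,
after passing to characteristic zero (uses VPT, VIH, IND, KDIM, SH, TRANS, PRD of CSM, TN). -/
def Stmt_Start : Prop := ∀ (p : ℕ) [Fact p.Prime] (K : Type u) [Field K] [IsAlgClosed K]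
  (O : ValuationSubring K) [Fact ¬IsUnit (p : O)] [IsAdicComplete (Ideal.span {(p : O)}) O]
  (_b : TB O p) (h : PU (p : O)) (g : ℕ) (t : Fin g → Fin g → K) (lam Lam : ℝ),
  @TP K (nfPU (F := K) h) g t lam Lam →
  ∀ (N r₀ : ℕ) [NeZero N] (ε : ℝ), 2 ≤ N → 16 * Lam < (N : ℝ) ^ 2 * lam → 1 ≤ r₀ →
    2 * g * Lam ≤ lam * r₀ → 2 * r₀ + 1 ≤ N →
    Real.exp (2 * Lam - (N : ℝ) ^ 2 * lam / 4 + 6 * Lam * ((r₀ : ℝ) + 1) ^ 2) ≤ ε →
    Real.exp (2 * Lam - lam * (r₀ : ℝ) ^ 2 / 2) ≤ ε → ε < 1 →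
  ∀ (r : ℕ) (e : (Fin g → ZMod N) ≃ Fin (r + 1)),
  ∃ 𝔓 : Ideal (MvPolynomial (Fin (r + 1)) (FractionRing (PreTilt O p))), 𝔓.IsPrime ∧ HI 𝔓 ∧
    ringKrullDim (MvPolynomial (Fin (r + 1)) (FractionRing (PreTilt O p)) ⧸ 𝔓) = (g + 1 : ℕ) ∧
    ∀ (C : Type u) [Field C] [IsAlgClosed C] (ι : K →+* C) (V : ValuationSubring C)
      (hV : ValuedExt O ι V) [Fact ¬IsUnit (p : V)] [IsAdicComplete (Ideal.span {(p : V)}) V]
      (hC : PU (p : V)) (z : Fin (r + 1) → PreTilt V p), (∃ v, z v = 1) → TPt 𝔓 hV z →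
      ∃ (x : Fin g → C) (w₀ : Fin g → ℤ) (c : C), (∀ i, x i ≠ 0) ∧
        @IsMax C (nfPU (F := C) hC) g (fun i j => ι (t i j)) x w₀ ∧
        nC p hV (c * (kap (fun i j => ι (t i j)) w₀ * mon x w₀)) = 1 ∧
        ∀ α, nC p hV (((PreTilt.untilt (z (e α)) : V) : C) -
          c * @thv C (nfPU (F := C) hC) g (fun i j => ι (t i j)) N x α) ≤ max ε (1 / 2)

/-- A closed subscheme of `ℙ^n`, given by a homogeneous ideal `I`, contains the image of the
analytic torus of dimension `g` under theta functions without common zeros. -/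
structure ThetaData {K : Type u} [Field K] (p : ℕ) (O : ValuationSubring K) {n : ℕ}
    (I : Ideal (MvPolynomial (Fin (n + 1)) K)) (g : ℕ) where
  /-- the level -/
  k : ℕ
  k_ne : k ≠ 0
  /-- the periods: the quadratic function is `w ↦ ∏ t_ij ^ (w_i w_j)` -/
  t : Fin g → Fin g → K
  t_ne : ∀ i j, t i j ≠ 0
  /-- the theta functions are the series `∑ P l w * (∏ t_ij ^ (w_i w_j)) * x ^ w` -/
  P : Fin (n + 1) → (Fin g → ℤ) → K
  per : ∀ l, Per k (P l)
  /-- positivity of the periods -/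
  m : ℕ
  m_ne : m ≠ 0
  pos : ∀ (w : Fin g → ℤ) (i : Fin g), kap t w ^ m / (p : K) ^ (w i * w i) ∈ O
  /-- no common zeros -/
  base : ∀ (C : Type u) [Field C] [IsAlgClosed C] (ι : K →+* C) (V : ValuationSubring C)
    (_hV : ValuedExt O ι V) [Fact ¬IsUnit (p : V)] [IsAdicComplete (Ideal.span {(p : V)}) V]
    (x : Fin g → C), (∀ i, x i ≠ 0) → ∀ v : Fin (n + 1) → C,
    (∀ l, SumsTo V p (term ι t (P l) x) (v l)) → v ≠ 0
  /-- the image is contained in the zero set of `I` -/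
  image : ∀ (C : Type u) [Field C] [IsAlgClosed C] (ι : K →+* C) (V : ValuationSubring C)
    (_hV : ValuedExt O ι V) [Fact ¬IsUnit (p : V)] [IsAdicComplete (Ideal.span {(p : V)}) V]
    (x : Fin g → C), (∀ i, x i ≠ 0) → ∀ v : Fin (n + 1) → C,
    (∀ l, SumsTo V p (term ι t (P l) x) (v l)) → ∀ F ∈ I, eval₂ ι v F = 0

/-- MAINK: the theorem over algebraically closed perfectoid fields. -/
def Stmt_MainK : Prop := ∀ (p : ℕ) [Fact p.Prime] (K : Type u) [Field K] [IsAlgClosed K]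
  (O : ValuationSubring K) [Fact ¬IsUnit (p : O)] [IsAdicComplete (Ideal.span {(p : O)}) O]
  (_b : TB O p) (n g : ℕ) (I : Ideal (MvPolynomial (Fin (n + 1)) K)), HI I →
  ringKrullDim (MvPolynomial (Fin (n + 1)) K ⧸ I) = (g + 1 : ℕ) → ThetaData p O I g →
  TiltApprox p O I

end Pool.Agent.TDA
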